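import Mathlib
import Pool.Agent.TeamU.BDefs
import Pool.Agent.TeamU.B2

/-!
# The narrow class group
-/

set_option autoImplicit false

open NumberField IsDedekindDomain nonZeroDivisors

namespace Pool.Agent.Y682

/-- `x` is positive at all the real places -/
def TotPos {K : Type} [Field K] (x : K) : Prop := ∀ φ : K →+* ℝ, 0 < φ x

section

variable (K : Type) [Field K] [NumberField K]

/-- the principal fractional ideals with a generator that is positive at all the real places -/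
noncomputable def nPrin : Subgroup (FractionalIdeal (𝓞 K)⁰ K)ˣ where
  carrier := {I | ∃ x : Kˣ, TotPos (x : K) ∧ toPrincipalIdeal (𝓞 K) K x = I}
  one_mem' := ⟨1, fun φ => by rw [Units.val_one, map_one]; exact one_pos, map_one _⟩
  mul_mem' := by
    rintro _ _ ⟨x, hx, rfl⟩ ⟨y, hy, rfl⟩
    exact ⟨x * y, fun φ => by rw [Units.val_mul, map_mul]; exact mul_pos (hx φ) (hy φ),
      map_mul _ _ _⟩
  inv_mem' := by
    rintro _ ⟨x, hx, rfl⟩
    exact ⟨x⁻¹, fun φ => by
      rw [Units.val_inv_eq_inv_val, map_inv₀]; exact inv_pos.2 (hx φ), map_inv _ _⟩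

/-- the narrow class group -/
abbrev NCl : Type := (FractionalIdeal (𝓞 K)⁰ K)ˣ ⧸ nPrin K

end

section

variable {K : Type} [Field K] [NumberField K]

lemma mem_nPrin_of_sq (h : Odd (Nat.card (NCl K))) {I : (FractionalIdeal (𝓞 K)⁰ K)ˣ}
    (hI : I ^ 2 ∈ nPrin K) : I ∈ nPrin K := by
  have h1 : ((I : NCl K)) ^ 2 = 1 := by
    rw [← QuotientGroup.mk_pow, QuotientGroup.eq_one_iff]
    exact hI
  have h2 : ((I : NCl K)) ^ (Nat.card (NCl K)) = 1 := pow_card_eq_one'
  rw [← QuotientGroup.eq_one_iff]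
  have h3 : orderOf (I : NCl K) ∣ 2 := orderOf_dvd_of_pow_eq_one h1
  have h4 : orderOf (I : NCl K) ∣ Nat.card (NCl K) := orderOf_dvd_of_pow_eq_one h2
  have h5 : orderOf (I : NCl K) = 1 := by
    rcases (Nat.dvd_prime Nat.prime_two).1 h3 with h5 | h5
    · exact h5
    · rw [h5] at h4
      exact absurd h (by rw [Nat.not_odd_iff_even]; exact even_iff_two_dvd.2 h4)
  exact orderOf_eq_one_iff.1 h5

lemma toPrincipal_val_one {x : Kˣ} (hx : toPrincipalIdeal (𝓞 K) K x = 1) :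
    ∃ u : (𝓞 K)ˣ, algebraMap (𝓞 K) K u = x := by
  have h1 : FractionalIdeal.spanSingleton (𝓞 K)⁰ (x : K) = 1 := by
    have := congrArg Units.val hx
    rwa [coe_toPrincipalIdeal, Units.val_one] at this
  have h2 : FractionalIdeal.spanSingleton (𝓞 K)⁰ ((x⁻¹ : Kˣ) : K) = 1 := by
    have h3 : toPrincipalIdeal (𝓞 K) K x⁻¹ = 1 := by rw [map_inv, hx, inv_one]
    have := congrArg Units.val h3
    rwa [coe_toPrincipalIdeal, Units.val_one] at this
  have h3 : (x : K) ∈ (1 : FractionalIdeal (𝓞 K)⁰ K) := by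
    rw [← h1]; exact FractionalIdeal.mem_spanSingleton_self _ _
  have h4 : ((x⁻¹ : Kˣ) : K) ∈ (1 : FractionalIdeal (𝓞 K)⁰ K) := by
    rw [← h2]; exact FractionalIdeal.mem_spanSingleton_self _ _
  obtain ⟨a, ha⟩ := (FractionalIdeal.mem_one_iff _).1 h3
  obtain ⟨b, hb⟩ := (FractionalIdeal.mem_one_iff _).1 h4
  have hab : a * b = 1 := by
    apply FaithfulSMul.algebraMap_injective (𝓞 K) K
    rw [map_mul, ha, hb, map_one, ← Units.val_mul, mul_inv_cancel, Units.val_one]
  exact ⟨⟨a, b, hab, by rw [mul_comm]; exact hab⟩, ha⟩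

/-- the unit fractional ideal of a place -/
noncomputable def pI (v : HeightOneSpectrum (𝓞 K)) : (FractionalIdeal (𝓞 K)⁰ K)ˣ :=
  Units.mk0 (v.asIdeal : FractionalIdeal (𝓞 K)⁰ K) (FractionalIdeal.coeIdeal_ne_zero.2 v.ne_bot)

/-- an odd power of a place is generated by an element that is positive at the real places -/
lemma exists_gen (v : HeightOneSpectrum (𝓞 K)) :
    ∃ x : Kˣ, TotPos (x : K) ∧
      v.valuation K (x : K) = WithZero.exp (-(Nat.card (NCl K) : ℤ)) ∧
      ∀ w : HeightOneSpectrum (𝓞 K), w ≠ v → w.valuation K (x : K) = 1 := by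
  classical
  set n := Nat.card (NCl K) with hn
  have h1 : ((pI v : (FractionalIdeal (𝓞 K)⁰ K)ˣ) : NCl K) ^ n = 1 := pow_card_eq_one'
  rw [← QuotientGroup.mk_pow, QuotientGroup.eq_one_iff] at h1
  obtain ⟨x, hx, hI⟩ := h1
  have h2 : FractionalIdeal.spanSingleton (𝓞 K)⁰ (x : K) =
      ((v.asIdeal ^ n : Ideal (𝓞 K)) : FractionalIdeal (𝓞 K)⁰ K) := by
    have := congrArg Units.val hI
    rw [coe_toPrincipalIdeal] at this
    rw [this, FractionalIdeal.coeIdeal_pow]
    rfl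
  have h3 : (x : K) ∈ (1 : FractionalIdeal (𝓞 K)⁰ K) := by
    have h4 : (x : K) ∈ ((v.asIdeal ^ n : Ideal (𝓞 K)) : FractionalIdeal (𝓞 K)⁰ K) := by
      rw [← h2]; exact FractionalIdeal.mem_spanSingleton_self _ _
    exact FractionalIdeal.coeIdeal_le_one h4
  obtain ⟨a, ha⟩ := (FractionalIdeal.mem_one_iff _).1 h3
  have h5 : Ideal.span {a} = v.asIdeal ^ n := by
    apply FractionalIdeal.coeIdeal_injective (K := K)
    change ((Ideal.span {a} : Ideal (𝓞 K)) : FractionalIdeal (𝓞 K)⁰ K) =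
      ((v.asIdeal ^ n : Ideal (𝓞 K)) : FractionalIdeal (𝓞 K)⁰ K)
    rw [← h2, FractionalIdeal.coeIdeal_span_singleton, ha]
  have ha0 : a ≠ 0 := by
    rintro rfl
    rw [map_zero] at ha
    exact x.ne_zero ha.symm
  have key : ∀ (w : HeightOneSpectrum (𝓞 K)) (m : ℕ),
      w.valuation K (x : K) ≤ WithZero.exp (-(m : ℤ)) ↔ w.asIdeal ^ m ∣ v.asIdeal ^ n := by
    intro w m
    rw [← ha, HeightOneSpectrum.valuation_of_algebraMap,
      HeightOneSpectrum.intValuation_le_pow_iff_dvd, h5]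
  refine ⟨x, hx, ?_, ?_⟩
  · apply le_antisymm
    · exact (key v n).2 dvd_rfl
    · by_contra hlt
      rw [not_le] at hlt
      have h6 : v.valuation K (x : K) ≤ WithZero.exp (-((n + 1 : ℕ) : ℤ)) := by
        have hv0 : v.valuation K (x : K) ≠ 0 := (Valuation.ne_zero_iff _).2 x.ne_zero
        rw [← WithZero.log_le_iff_le_exp hv0]
        rw [← WithZero.log_lt_iff_lt_exp hv0] at hlt
        push_cast
        omega
      have h7 := (key v (n + 1)).1 h6
      have h8 := (pow_dvd_pow_iff (Ideal.prime_of_isPrime v.ne_bot v.isPrime).ne_zero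
        (Ideal.prime_of_isPrime v.ne_bot v.isPrime).not_isUnit).1 h7
      omega
  · intro w hwv
    apply le_antisymm
    · have := (key w 0).2 (by rw [pow_zero]; exact one_dvd _)
      simpa using this
    · by_contra hlt
      rw [not_le] at hlt
      have h6 : w.valuation K (x : K) ≤ WithZero.exp (-((1 : ℕ) : ℤ)) := by
        have hv0 : w.valuation K (x : K) ≠ 0 := (Valuation.ne_zero_iff _).2 x.ne_zero
        rw [← WithZero.log_le_iff_le_exp hv0]
        have : WithZero.log (w.valuation K (x : K)) < 0 := by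
          rw [WithZero.log_lt_iff_lt_exp hv0]
          simpa using hlt
        push_cast
        omega
      have h7 := (key w 1).1 h6
      rw [pow_one] at h7
      have h8 := (Ideal.prime_of_isPrime w.ne_bot w.isPrime).dvd_of_dvd_pow h7
      have h9 : v.asIdeal ≤ w.asIdeal := Ideal.dvd_iff_le.1 h8
      have h10 : v.asIdeal = w.asIdeal := v.isMaximal.eq_of_le w.isPrime.ne_top h9
      exact hwv (HeightOneSpectrum.ext h10.symm)

/-- weak approximation at the real places -/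
lemma exists_signs (A : Set (K →+* ℝ)) : ∃ x : Kˣ, ∀ φ : K →+* ℝ,
    (φ ∈ A → φ (x : K) < 0) ∧ (φ ∉ A → 0 < φ (x : K)) := by
  classical
  let s : InfinitePlace K → K := fun v =>
    if ∃ φ ∈ A, InfinitePlace.mk (Complex.ofRealHom.comp φ) = v then -1 else 1
  have hd := InfinitePlace.denseRange_algebraMap_pi K
  let t : (v : InfinitePlace K) → WithAbs v.1 := fun v => (WithAbs.equiv v.1).symm (s v)
  have hU : IsOpen (Set.pi Set.univ fun v : InfinitePlace K => Metric.ball (t v) 1) :=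
    isOpen_set_pi Set.finite_univ fun v _ => Metric.isOpen_ball
  obtain ⟨x, hx⟩ := hd.exists_mem_open hU ⟨t, fun v _ => Metric.mem_ball_self one_pos⟩
  have hx' : ∀ v : InfinitePlace K, v (x - s v) < 1 := by
    intro v
    have h1 := hx v (Set.mem_univ v)
    rw [Metric.mem_ball, dist_eq_norm] at h1
    exact h1
  have hφ : ∀ φ : K →+* ℝ, |φ x - φ (s (InfinitePlace.mk (Complex.ofRealHom.comp φ)))| < 1 := by
    intro φ
    have h1 := hx' (InfinitePlace.mk (Complex.ofRealHom.comp φ))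
    rw [InfinitePlace.apply, RingHom.comp_apply, map_sub] at h1
    have h2 : ‖Complex.ofRealHom (φ x - φ (s (InfinitePlace.mk (Complex.ofRealHom.comp φ))))‖ =
      |φ x - φ (s (InfinitePlace.mk (Complex.ofRealHom.comp φ)))| := by
      exact Complex.norm_real _
    rwa [h2] at h1
  have hA : ∀ φ : K →+* ℝ, φ ∈ A → s (InfinitePlace.mk (Complex.ofRealHom.comp φ)) = -1 :=
    fun φ hφA => if_pos ⟨φ, hφA, rfl⟩
  have hA' : ∀ φ : K →+* ℝ, φ ∉ A → s (InfinitePlace.mk (Complex.ofRealHom.comp φ)) = 1 := by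
    intro φ hφA
    apply if_neg
    rintro ⟨ψ, hψ, h⟩
    rw [InfinitePlace.mk_eq_iff] at h
    have h1 : ψ = φ := by
      refine RingHom.ext fun y => ?_
      apply Complex.ofReal_injective
      rcases h with h | h
      · exact DFunLike.congr_fun h y
      · have h2 := DFunLike.congr_fun h y
        have h3 : ComplexEmbedding.conjugate (Complex.ofRealHom.comp ψ) y =
            (starRingEnd ℂ) ((ψ y : ℝ) : ℂ) := rfl
        rw [h3, Complex.conj_ofReal] at h2
        exact h2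
    exact hφA (h1 ▸ hψ)
  by_cases hne : Nonempty (K →+* ℝ)
  · have hx0 : x ≠ 0 := by
      rintro rfl
      obtain ⟨φ⟩ := hne
      have h1 := hφ φ
      by_cases h : φ ∈ A
      · rw [hA φ h] at h1; simp at h1
      · rw [hA' φ h] at h1; simp at h1
    refine ⟨Units.mk0 x hx0, fun φ => ⟨fun h => ?_, fun h => ?_⟩⟩
    · have h1 := hφ φ
      rw [hA φ h, map_neg, map_one, abs_lt] at h1
      rw [Units.val_mk0]
      linarith [h1.1, h1.2]
    · have h1 := hφ φ
      rw [hA' φ h, map_one, abs_lt] at h1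
      rw [Units.val_mk0]
      linarith [h1.1, h1.2]
  · exact ⟨1, fun φ => absurd ⟨φ⟩ hne⟩

/-- units with arbitrary signs -/
lemma exists_unit_signs (h : Odd (Nat.card (NCl K))) (A : Set (K →+* ℝ)) :
    ∃ u : (𝓞 K)ˣ, ∀ φ : K →+* ℝ,
    (φ ∈ A → φ (algebraMap (𝓞 K) K u) < 0) ∧ (φ ∉ A → 0 < φ (algebraMap (𝓞 K) K u)) := by
  obtain ⟨x, hx⟩ := exists_signs (K := K) A
  have hx0 : ∀ φ : K →+* ℝ, φ (x : K) ≠ 0 := fun φ => (map_ne_zero φ).2 x.ne_zero
  have h1 : (toPrincipalIdeal (𝓞 K) K x) ^ 2 ∈ nPrin K := by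
    refine ⟨x ^ 2, fun φ => ?_, map_pow _ _ _⟩
    rw [Units.val_pow_eq_pow_val, map_pow]
    exact lt_of_le_of_ne (sq_nonneg _) (pow_ne_zero 2 (hx0 φ)).symm
  obtain ⟨y, hy, hyx⟩ := mem_nPrin_of_sq h h1
  have h2 : toPrincipalIdeal (𝓞 K) K (x * y⁻¹) = 1 := by
    rw [map_mul, map_inv, hyx, mul_inv_cancel]
  obtain ⟨u, hu⟩ := toPrincipal_val_one h2
  refine ⟨u, fun φ => ?_⟩
  have hy' : 0 < φ ((y⁻¹ : Kˣ) : K) := by
    rw [Units.val_inv_eq_inv_val, map_inv₀]; exact inv_pos.2 (hy φ)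
  rw [hu, Units.val_mul, map_mul]
  exact ⟨fun h => mul_neg_of_neg_of_pos ((hx φ).1 h) hy', fun h => mul_pos ((hx φ).2 h) hy'⟩

/-- the sign at a real place -/
noncomputable def sg (φ : K →+* ℝ) : Kˣ →* ℤˣ where
  toFun x := if 0 < φ (x : K) then 1 else -1
  map_one' := by rw [if_pos]; rw [Units.val_one, map_one]; exact one_pos
  map_mul' x y := by
    have hx0 : φ (x : K) ≠ 0 := (map_ne_zero φ).2 x.ne_zero
    have hy0 : φ (y : K) ≠ 0 := (map_ne_zero φ).2 y.ne_zero
    rw [Units.val_mul, map_mul]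
    rcases lt_or_gt_of_ne hx0 with h1 | h1 <;> rcases lt_or_gt_of_ne hy0 with h2 | h2
    · rw [if_pos (mul_pos_of_neg_of_neg h1 h2), if_neg h1.not_gt, if_neg h2.not_gt]; rfl
    · rw [if_neg (mul_neg_of_neg_of_pos h1 h2).not_gt, if_neg h1.not_gt, if_pos h2]; rfl
    · rw [if_neg (mul_neg_of_pos_of_neg h1 h2).not_gt, if_pos h1, if_neg h2.not_gt]; rfl
    · rw [if_pos (mul_pos h1 h2), if_pos h1, if_pos h2]; rfl

omit [NumberField K] in
lemma sg_eq_one {φ : K →+* ℝ} {x : Kˣ} : sg φ x = 1 ↔ 0 < φ (x : K) := by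
  change (if 0 < φ (x : K) then (1 : ℤˣ) else -1) = 1 ↔ _
  split_ifs with h
  · exact ⟨fun _ => h, fun _ => rfl⟩
  · exact ⟨fun h' => absurd h' (by decide), fun h' => absurd h' h⟩

/-- the signature of a unit -/
noncomputable def sgU (K : Type) [Field K] [NumberField K] : (𝓞 K)ˣ →* ((K →+* ℝ) → ℤˣ) :=
  MonoidHom.pi fun φ => (sg φ).comp (Units.map (algebraMap (𝓞 K) K : 𝓞 K →* K))

lemma sgU_apply (u : (𝓞 K)ˣ) (φ : K →+* ℝ) : sgU K u φ = 1 ↔ 0 < φ (algebraMap (𝓞 K) K u) :=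
  sg_eq_one

lemma sgU_surj (h : Odd (Nat.card (NCl K))) : Function.Surjective (sgU K) := by
  intro ε
  obtain ⟨u, hu⟩ := exists_unit_signs h {φ | ε φ ≠ 1}
  refine ⟨u, funext fun φ => ?_⟩
  by_cases h1 : ε φ = 1
  · rw [h1, sgU_apply]
    exact (hu φ).2 (fun h2 => h2 h1)
  · have h2 : ¬ sgU K u φ = 1 := by
      rw [sgU_apply]
      exact ((hu φ).1 h1).not_gt
    rw [(Int.units_eq_one_or _).resolve_left h1, (Int.units_eq_one_or _).resolve_left h2]

lemma card_two (K : Type) [Field K] [NumberField K] :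
    Nat.card (powMonoidHom 2 : (𝓞 K)ˣ →* (𝓞 K)ˣ).ker = 2 := by
  rw [Nat.card_eq_two_iff]
  have hm : (-1 : (𝓞 K)ˣ) ∈ (powMonoidHom 2 : (𝓞 K)ˣ →* (𝓞 K)ˣ).ker := by
    rw [MonoidHom.mem_ker, powMonoidHom_apply, neg_one_sq]
  refine ⟨1, ⟨-1, hm⟩, ?_, ?_⟩
  · intro h
    have h1 := congrArg (fun x => ((x.1 : (𝓞 K)ˣ) : 𝓞 K)) h
    have h2 : (1 : 𝓞 K) = -1 := h1
    have h3 : (2 : 𝓞 K) = 0 := by linear_combination h2
    exact two_ne_zero h3
  · ext ⟨x, hx⟩
    rw [MonoidHom.mem_ker, powMonoidHom_apply] at hx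
    have h1 : ((x : 𝓞 K)) ^ 2 = 1 ^ 2 := by
      rw [← Units.val_pow_eq_pow_val, hx, Units.val_one, one_pow]
    simp only [Set.mem_insert_iff, Set.mem_singleton_iff, Set.mem_univ, iff_true]
    rcases sq_eq_sq_iff_eq_or_eq_neg.1 h1 with h2 | h2
    · left
      exact Subtype.ext (Units.ext h2)
    · right
      exact Subtype.ext (Units.ext h2)

/-- an element with trivial valuations is a unit -/
lemma exists_unit_of_val {x : Kˣ} (hx : ∀ v : HeightOneSpectrum (𝓞 K), v.valuation K (x : K) = 1) :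
    ∃ u : (𝓞 K)ˣ, Units.map (algebraMap (𝓞 K) K : 𝓞 K →* K) u = x := by
  obtain ⟨a, ha⟩ := HeightOneSpectrum.mem_integers_of_valuation_le_one K (x : K)
    fun v => (hx v).le
  obtain ⟨c, hc⟩ := HeightOneSpectrum.mem_integers_of_valuation_le_one K ((x⁻¹ : Kˣ) : K)
    fun v => by rw [Units.val_inv_eq_inv_val, map_inv₀, hx v, inv_one]
  have hab : a * c = 1 := by
    apply FaithfulSMul.algebraMap_injective (𝓞 K) K
    rw [map_mul, ha, hc, map_one, ← Units.val_mul, mul_inv_cancel, Units.val_one]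
  exact ⟨⟨a, c, hab, by rw [mul_comm]; exact hab⟩, Units.ext ha⟩

/-- an element with even valuations is a unit times a square -/
lemma even_val (h : Odd (Nat.card (NCl K))) (b : Kˣ)
    (hv : ∀ v : HeightOneSpectrum (𝓞 K), ∃ n : ℤ, v.valuation K (b : K) = WithZero.exp (2 * n)) :
    ∃ u : (𝓞 K)ˣ, ∃ y : Kˣ, b = Units.map (algebraMap (𝓞 K) K : 𝓞 K →* K) u * y ^ 2 := by
  classical
  choose n hn using hv
  choose p hp1 hp2 hp3 using fun v : HeightOneSpectrum (𝓞 K) => exists_gen v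
  have hfin : {v : HeightOneSpectrum (𝓞 K) | n v ≠ 0}.Finite := by
    refine (Pool.Agent.TeamU.finite_valuation_ne_one (b : K) b.ne_zero).subset ?_
    intro v hv h1
    apply hv
    rw [hn v, ← WithZero.exp_zero, WithZero.exp_inj] at h1
    omega
  set m := Nat.card (NCl K) with hm
  set z : Kˣ := ∏ v ∈ hfin.toFinset, p v ^ n v with hz
  have hval : ∀ v : HeightOneSpectrum (𝓞 K), v.valuation K (z : K) =
      WithZero.exp (-(m : ℤ) * n v) := by
    intro v
    rw [hz, Units.coe_prod, map_prod]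
    by_cases hvn : n v = 0
    · rw [Finset.prod_eq_one, hvn, mul_zero, WithZero.exp_zero]
      intro w hw
      rw [Set.Finite.mem_toFinset] at hw
      have hwv : v ≠ w := by rintro rfl; exact hw hvn
      rw [Units.val_zpow_eq_zpow_val, map_zpow₀, hp3 w v hwv, one_zpow]
    · rw [Finset.prod_eq_single v]
      · rw [Units.val_zpow_eq_zpow_val, map_zpow₀, hp2 v, ← WithZero.exp_zsmul]
        congr 1
        rw [smul_eq_mul, mul_comm]
      · intro w _ hwv
        rw [Units.val_zpow_eq_zpow_val, map_zpow₀, hp3 w v hwv.symm, one_zpow]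
      · intro h1
        exact absurd ((Set.Finite.mem_toFinset _).2 hvn) h1
  have hone : ∀ v : HeightOneSpectrum (𝓞 K), v.valuation K ((b ^ m * z ^ 2 : Kˣ) : K) = 1 := by
    intro v
    rw [Units.val_mul, Units.val_pow_eq_pow_val, Units.val_pow_eq_pow_val, map_mul, map_pow,
      map_pow, hn v, hval v, ← WithZero.exp_nsmul, ← WithZero.exp_nsmul, ← WithZero.exp_add,
      ← WithZero.exp_zero]
    congr 1
    simp only [nsmul_eq_mul]
    push_cast
    ring
  obtain ⟨u, hu⟩ := exists_unit_of_val hone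
  obtain ⟨k, hk⟩ := h
  refine ⟨u, (z * b ^ k)⁻¹ , ?_⟩
  rw [hu, hk]
  rw [inv_pow, mul_pow, eq_mul_inv_iff_mul_eq, ← pow_mul, pow_add, pow_one, mul_comm 2 k,
    mul_comm (z ^ 2), ← mul_assoc, mul_comm b]

section real

variable [IsTotallyReal K]

lemma card_real_emb : Nat.card (K →+* ℝ) = Units.rank K + 1 := by
  have h1 : Fintype.card (InfinitePlace K) = Module.finrank ℚ K := by
    rw [IsTotallyReal.finrank, InfinitePlace.card_eq_nrRealPlaces_add_nrComplexPlaces,
      IsTotallyReal.nrComplexPlaces_eq_zero, add_zero]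
  have h2 : 0 < Fintype.card (InfinitePlace K) := Fintype.card_pos
  have h3 : Nat.card (K →+* ℝ) = Nat.card (K →+* ℂ) := by
    refine Nat.card_congr (Equiv.ofBijective (fun φ => Complex.ofRealHom.comp φ) ⟨?_, ?_⟩)
    · intro φ ψ h
      refine RingHom.ext fun x => ?_
      exact Complex.ofReal_injective (DFunLike.congr_fun h x)
    · intro ψ
      have h4 : ComplexEmbedding.IsReal ψ := IsTotallyReal.complexEmbedding_isReal ψ
      refine ⟨h4.embedding, RingHom.ext fun x => ?_⟩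
      exact h4.coe_embedding_apply x
  rw [h3, Nat.card_eq_fintype_card, NumberField.Embeddings.card, ← h1]
  unfold Units.rank
  omega

/-- a totally positive unit is a square -/
lemma unit_sq (h : Odd (Nat.card (NCl K))) (u : (𝓞 K)ˣ)
    (hu : TotPos (algebraMap (𝓞 K) K (u : 𝓞 K))) : ∃ w : (𝓞 K)ˣ, u = w ^ 2 := by
  have hP := Pool.Agent.TeamU.index_sq (𝓞 K)ˣ
  rw [Units.finrank_eq, card_two, ← pow_succ] at hP
  have hN : (sgU K).ker.index = 2 ^ (Units.rank K + 1) := by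
    rw [Subgroup.index_ker, (MonoidHom.range_eq_top.2 (sgU_surj h) : (sgU K).range = ⊤)]
    have : Finite (K →+* ℝ) := Nat.finite_of_card_ne_zero (by rw [card_real_emb]; omega)
    have h1 : Nat.card ((⊤ : Subgroup ((K →+* ℝ) → ℤˣ))) = Nat.card ((K →+* ℝ) → ℤˣ) :=
      Nat.card_congr Subgroup.topEquiv.toEquiv
    rw [h1, Nat.card_fun, card_real_emb]
    simp
  have hle : (powMonoidHom 2 : (𝓞 K)ˣ →* (𝓞 K)ˣ).range ≤ (sgU K).ker := by
    rintro _ ⟨w, rfl⟩
    rw [MonoidHom.mem_ker, powMonoidHom_apply, map_pow]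
    funext φ
    exact Int.units_sq _
  have h1 := Subgroup.relIndex_mul_index hle
  rw [hP, hN] at h1
  have h2 : (powMonoidHom 2 : (𝓞 K)ˣ →* (𝓞 K)ˣ).range.relIndex (sgU K).ker = 1 :=
    Nat.eq_of_mul_eq_mul_right (by positivity) (h1.trans (one_mul _).symm)
  have h3 := Subgroup.relIndex_eq_one.1 h2
  have h4 : u ∈ (sgU K).ker := by
    rw [MonoidHom.mem_ker]
    funext φ
    exact (sgU_apply u φ).2 (hu φ)
  obtain ⟨w, hw⟩ := h3 h4
  exact ⟨w, hw.symm⟩

/-- a totally positive element with even valuations is a square -/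
lemma elt_sq (h : Odd (Nat.card (NCl K))) (b : Kˣ) (hb : TotPos (b : K))
    (hv : ∀ v : HeightOneSpectrum (𝓞 K), ∃ n : ℤ, v.valuation K (b : K) = WithZero.exp (2 * n)) :
    ∃ y : Kˣ, b = y ^ 2 := by
  classical
  obtain ⟨u, y, hu⟩ := even_val h b hv
  have hu' : TotPos (algebraMap (𝓞 K) K (u : 𝓞 K)) := by
    intro φ
    have h1 := congrArg (fun z : Kˣ => φ (z : K)) hu
    simp only [Units.val_mul, Units.val_pow_eq_pow_val, map_mul, map_pow] at h1
    have h2 : 0 < φ (y : K) ^ 2 :=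
      lt_of_le_of_ne (sq_nonneg _) (pow_ne_zero 2 ((map_ne_zero φ).2 y.ne_zero)).symm
    have h3 : 0 < φ (b : K) := hb φ
    rw [h1] at h3
    exact (pos_iff_pos_of_mul_pos h3).2 h2
  obtain ⟨t, ht⟩ := unit_sq h u hu'
  refine ⟨Units.map (algebraMap (𝓞 K) K : 𝓞 K →* K) t * y, ?_⟩
  rw [hu, ht, map_pow, mul_pow]

end real

end

end Pool.Agent.Y682
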