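import Mathlib
import Pool.Agent.Y682.NCl
import Pool.Agent.TeamU.KummerInj
import Pool.Agent.TeamU.B0

/-!
# Fields with odd narrow class number have no quadratic extension unramified at the finite places
-/

set_option autoImplicit false

open NumberField IsDedekindDomain

namespace Pool.Agent.Y682

open Pool.Agent.TeamU Pool.Agent.TeamU.KI

section

variable {K : Type} [Field K] [NumberField K]

section inert

variable {E : Type} [Field E] [NumberField E] [Algebra K E]

/-- norms have even valuation at the places that are unramified and do not split -/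
lemma norm_even (h2 : Module.finrank K E = 2) {v : HeightOneSpectrum (𝓞 K)}
    (hns : ¬ Splits E v) {P : HeightOneSpectrum (𝓞 E)} (hP : Over P v) (hunr : Unr K P) (z : E) :
    v.valuation K (Algebra.norm K z) = P.valuation E z ^ 2 := by
  obtain ⟨σ, hσσ, hfix, hnorm, hall⟩ := exists_conj (M := K) (E := E) h2
  rw [← hunr v hP, hnorm, map_mul, sq]
  congr 1
  have h1 : Pool.Agent.TeamU.act σ P = P := by
    by_contra hne
    exact hns ⟨_, _, hne, over_act σ hP, hP⟩
  conv_lhs => rw [← h1]
  exact val_act σ P z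

end inert

section inf

variable (x : K) [hx : Fact (∀ r : K, r ^ 2 ≠ x + 0 * r)]

/-- a real place that ramifies -/
lemma neg_of_ram (w : InfinitePlace K) (hw : ¬ w.IsUnramifiedIn (QE x)) :
    ∃ φ : K →+* ℝ, InfinitePlace.mk (Complex.ofRealHom.comp φ) = w ∧ φ x < 0 := by
  unfold InfinitePlace.IsUnramifiedIn at hw
  push Not at hw
  obtain ⟨v, hv, hr⟩ := hw
  rw [InfinitePlace.not_isUnramified_iff] at hr
  obtain ⟨hc, hreal⟩ := hr
  set ψ := v.embedding with hψ
  have h1 : ComplexEmbedding.IsReal (ψ.comp (algebraMap K (QE x))) := by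
    have h2 : v.comap (algebraMap K (QE x)) =
        InfinitePlace.mk (ψ.comp (algebraMap K (QE x))) := by
      conv_lhs => rw [← InfinitePlace.mk_embedding v]
      rw [InfinitePlace.comap_mk]
    rw [h2] at hreal
    rcases InfinitePlace.isReal_iff.1 hreal with h3
    rcases InfinitePlace.embedding_mk_eq (ψ.comp (algebraMap K (QE x))) with h4 | h4
    · rw [h4] at h3; exact h3
    · rw [h4, ComplexEmbedding.isReal_conjugate_iff] at h3; exact h3
  have hreal' : ∀ a : K, star (ψ (algebraMap K (QE x) a)) = ψ (algebraMap K (QE x) a) := by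
    intro a
    exact congrArg (fun f : K →+* ℂ => f a) h1
  refine ⟨h1.embedding, ?_, ?_⟩
  · rw [← hv]
    have h2 : Complex.ofRealHom.comp h1.embedding = ψ.comp (algebraMap K (QE x)) :=
      RingHom.ext fun a => h1.coe_embedding_apply a
    rw [h2]
    conv_rhs => rw [← InfinitePlace.mk_embedding v]
    rw [InfinitePlace.comap_mk]
  · by_contra hneg
    rw [not_lt] at hneg
    have h2 : (ψ QuadraticAlgebra.omega) ^ 2 = ((h1.embedding x : ℝ) : ℂ) := by
      rw [← map_pow, omega_sq]
      exact (h1.coe_embedding_apply x).symm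
    have h4 : ψ QuadraticAlgebra.omega = ((Real.sqrt (h1.embedding x) : ℝ) : ℂ) ∨
        ψ QuadraticAlgebra.omega = -((Real.sqrt (h1.embedding x) : ℝ) : ℂ) := by
      apply sq_eq_sq_iff_eq_or_eq_neg.mp
      rw [h2, ← Complex.ofReal_pow, Real.sq_sqrt hneg]
    have h5 : star (ψ QuadraticAlgebra.omega) = ψ QuadraticAlgebra.omega := by
      rcases h4 with h | h
      · rw [h]
        exact Complex.conj_ofReal _
      · rw [h, star_neg]
        congr 1
        exact Complex.conj_ofReal _
    have h6 : ComplexEmbedding.IsReal ψ := by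
      ext z
      have hz : z = algebraMap K (QE x) z.re + algebraMap K (QE x) z.im *
          QuadraticAlgebra.omega := by
        ext <;> simp
      change star (ψ z) = ψ z
      rw [hz, map_add, map_mul, star_add, star_mul', hreal', hreal', h5]
    exact (InfinitePlace.isComplex_iff.1 hc) h6

/-- norms are positive at the real places that ramify -/
lemma norm_pos_of_neg {φ : K →+* ℝ} (hφ : φ x < 0) (z : QE x) (hz : z ≠ 0) :
    0 < φ (Algebra.norm K z) := by
  rw [norm_QE, map_sub, map_mul, map_pow, map_pow]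
  have h1 : 0 ≤ φ z.re ^ 2 := sq_nonneg _
  have h2 : 0 ≤ φ z.im ^ 2 * (-φ x) := mul_nonneg (sq_nonneg _) (by linarith)
  by_cases h : z.im = 0
  · have h3 : z.re ≠ 0 := by
      intro h4
      exact hz (QuadraticAlgebra.ext h4 h)
    have h4 : 0 < φ z.re ^ 2 := lt_of_le_of_ne h1 (pow_ne_zero 2 ((map_ne_zero φ).2 h3)).symm
    linarith
  · have h4 : 0 < φ z.im ^ 2 :=
      lt_of_le_of_ne (sq_nonneg _) (pow_ne_zero 2 ((map_ne_zero φ).2 h)).symm
    have h5 : 0 < φ z.im ^ 2 * (-φ x) := mul_pos h4 (by linarith)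
    linarith

/-- the number of the infinite places -/
lemma card_inf : ∃ R : Finset (InfinitePlace K),
    (∀ w ∈ R, ∃ φ : K →+* ℝ, InfinitePlace.mk (Complex.ofRealHom.comp φ) = w ∧ φ x < 0) ∧
    Fintype.card (InfinitePlace (QE x)) + R.card = 2 * Fintype.card (InfinitePlace K) := by
  classical
  have hq : Algebra.IsQuadraticExtension K (QE x) := { finrank_eq_two' := finrank_QE x }
  have hgal : IsGalois K (QE x) := inferInstance
  have h := InfinitePlace.card_eq_card_isUnramifiedIn (k := K) (K := QE x)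
  rw [finrank_QE] at h
  refine ⟨(Finset.univ.filter fun w : InfinitePlace K => w.IsUnramifiedIn (QE x))ᶜ, ?_, ?_⟩
  · intro w hw
    rw [Finset.mem_compl, Finset.mem_filter, not_and] at hw
    exact neg_of_ram x w (hw (Finset.mem_univ _))
  · have h1 := Finset.card_add_card_compl
      (Finset.univ.filter fun w : InfinitePlace K => w.IsUnramifiedIn (QE x))
    have h2 : Fintype.card (InfinitePlace (QE x)) =
      (Finset.univ.filter fun w : InfinitePlace K => w.IsUnramifiedIn (QE x)).card * 2 +
      ((Finset.univ.filter fun w : InfinitePlace K => w.IsUnramifiedIn (QE x))ᶜ).card * (2 / 2) := h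
    omega

end inf

/-- a field with odd narrow class number has no quadratic extension that is unramified at all the
finite places -/
theorem no_unr (h : Odd (Nat.card (NCl K))) (x : Kˣ)
    (hunr : ∀ [Fact (∀ r : K, r ^ 2 ≠ (x : K) + 0 * r)],
      ∀ P : HeightOneSpectrum (𝓞 (QE (x : K))), Unr K P) :
    ∃ y : Kˣ, y ^ 2 = x := by
  classical
  by_contra hns
  have hns' : ∀ r : K, r ^ 2 ≠ (x : K) + 0 * r := by
    intro r hr
    rw [zero_mul, add_zero] at hr
    have hr0 : r ≠ 0 := by
      rintro rfl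
      apply x.ne_zero
      rw [← hr]
      ring
    exact hns ⟨Units.mk0 r hr0, Units.ext (by simpa using hr)⟩
  have hF : Fact (∀ r : K, r ^ 2 ≠ (x : K) + 0 * r) := ⟨hns'⟩
  have hunr' := @hunr hF
  obtain ⟨S, -, hcl⟩ := exists_clTriv (M := K) ∅
  have hherb := herbrand (finrank_QE (x : K)) S hcl fun P _ => hunr' P
  set H := ((SE (QE (x : K)) S).unit (QE (x : K))).map
    (Units.map (Algebra.norm K : QE (x : K) →* K)) with hH
  have hne : H.relIndex (SU S) ≠ 0 := by
    intro h
    rw [h, zero_mul] at hherb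
    exact absurd hherb.symm (by positivity)
  set R := S.filter fun v => ¬ Splits (QE (x : K)) v with hR
  have hRS : R ⊆ S := Finset.filter_subset _ _
  obtain ⟨R', hR'1, hR'2⟩ := card_inf (x : K)
  have hcount := count_SE (E := QE (x : K)) S R hRS (fun v hv hvR => by
    by_contra hn
    exact hvR (Finset.mem_filter.2 ⟨hv, hn⟩))
  -- the two families of elements
  choose p hp1 hp2 hp3 using fun v : HeightOneSpectrum (𝓞 K) => exists_gen (K := K) v
  choose u hu using fun B : Finset (InfinitePlace K) => exists_unit_signs h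
    {φ : K →+* ℝ | InfinitePlace.mk (Complex.ofRealHom.comp φ) ∈ B}
  let f : R.powerset × R'.powerset → Kˣ := fun A =>
    (∏ v ∈ A.1.1, p v) * Units.map (algebraMap (𝓞 K) K : 𝓞 K →* K) (u A.2.1)
  have huval : ∀ (B : Finset (InfinitePlace K)) (v : HeightOneSpectrum (𝓞 K)),
      v.valuation K ((Units.map (algebraMap (𝓞 K) K : 𝓞 K →* K) (u B) : Kˣ) : K) = 1 := by
    intro B v
    rw [Units.coe_map]
    change v.valuation K (algebraMap (𝓞 K) K (u B : 𝓞 K)) = 1
    rw [HeightOneSpectrum.valuation_of_algebraMap]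
    exact (HeightOneSpectrum.intValuation_eq_one_iff).2 (fun hm =>
      v.isPrime.ne_top (Ideal.eq_top_of_isUnit_mem _ hm (u B).isUnit))
  have hpval : ∀ (A : Finset (HeightOneSpectrum (𝓞 K))) (v : HeightOneSpectrum (𝓞 K)),
      v.valuation K ((∏ w ∈ A, p w : Kˣ) : K) =
        if v ∈ A then WithZero.exp (-(Nat.card (NCl K) : ℤ)) else 1 := by
    intro A v
    rw [Units.coe_prod, map_prod]
    by_cases hv : v ∈ A
    · rw [if_pos hv, ← Finset.mul_prod_erase _ _ hv, hp2 v, Finset.prod_eq_one, mul_one]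
      intro w hw
      exact hp3 w v (Finset.ne_of_mem_erase hw).symm
    · rw [if_neg hv]
      exact Finset.prod_eq_one fun w hw => hp3 w v (fun h => hv (h ▸ hw))
  have hfval : ∀ (A : R.powerset × R'.powerset) (v : HeightOneSpectrum (𝓞 K)),
      v.valuation K (f A : K) =
        if v ∈ A.1.1 then WithZero.exp (-(Nat.card (NCl K) : ℤ)) else 1 := by
    intro A v
    simp only [f]
    rw [Units.val_mul, map_mul, huval, mul_one, hpval]
  have hfmem : ∀ A, f A ∈ SU S := by
    intro A v hv
    rw [hfval, if_neg]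
    intro hvA
    exact hv (hRS ((Finset.mem_powerset.1 A.1.2) hvA))
  have hsign : ∀ (A : R.powerset × R'.powerset) (φ : K →+* ℝ),
      (InfinitePlace.mk (Complex.ofRealHom.comp φ) ∈ A.2.1 → φ (f A : K) < 0) ∧
      (InfinitePlace.mk (Complex.ofRealHom.comp φ) ∉ A.2.1 → 0 < φ (f A : K)) := by
    intro A φ
    have h1 : 0 < φ ((∏ w ∈ A.1.1, p w : Kˣ) : K) := by
      rw [Units.coe_prod, map_prod]
      exact Finset.prod_pos fun w _ => hp1 w φ
    have h2 := hu A.2.1 φ
    simp only [f]
    rw [Units.val_mul, map_mul]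
    exact ⟨fun h3 => mul_neg_of_pos_of_neg h1 (h2.1 h3), fun h3 => mul_pos h1 (h2.2 h3)⟩
  have heven : ∀ v ∈ R, ∀ g ∈ H, ∃ c : WithZero (Multiplicative ℤ),
      v.valuation K ((g : Kˣ) : K) = c ^ 2 := by
    rintro v hv g ⟨α, _, rfl⟩
    obtain ⟨P, hP⟩ := exists_over' (E := QE (x : K)) v
    exact ⟨_, norm_even (finrank_QE (x : K)) (Finset.mem_filter.1 hv).2 hP (hunr' P) (α : QE (x : K))⟩
  have hpos : ∀ w ∈ R', ∃ φ : K →+* ℝ, InfinitePlace.mk (Complex.ofRealHom.comp φ) = w ∧
      ∀ g ∈ H, 0 < φ ((g : Kˣ) : K) := by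
    intro w hw
    obtain ⟨φ, hφ, hneg⟩ := hR'1 w hw
    refine ⟨φ, hφ, ?_⟩
    rintro g ⟨α, _, rfl⟩
    exact norm_pos_of_neg (x : K) hneg (α : QE (x : K)) α.ne_zero
  have hinj : ∀ A B : R.powerset × R'.powerset, A ≠ B → (f A)⁻¹ * f B ∉ H := by
    intro A B hAB hmem
    by_cases h1 : A.1.1 = B.1.1
    · have h2 : A.2.1 ≠ B.2.1 := by
        intro h2
        exact hAB (Prod.ext (Subtype.ext h1) (Subtype.ext h2))
      obtain ⟨w, hw⟩ : ∃ w, ¬ (w ∈ A.2.1 ↔ w ∈ B.2.1) := by
        by_contra hcon
        push Not at hcon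
        exact h2 (Finset.ext hcon)
      have hwR : w ∈ R' := by
        by_contra hwR
        exact hw ⟨fun h3 => absurd ((Finset.mem_powerset.1 A.2.2) h3) hwR,
          fun h3 => absurd ((Finset.mem_powerset.1 B.2.2) h3) hwR⟩
      obtain ⟨φ, hφ, hg⟩ := hpos w hwR
      have h3 := hg _ hmem
      rw [Units.val_mul, Units.val_inv_eq_inv_val, map_mul, map_inv₀] at h3
      have hsA := hsign A φ
      have hsB := hsign B φ
      rw [hφ] at hsA hsB
      by_cases hwA : w ∈ A.2.1
      · have hwB : w ∉ B.2.1 := fun h4 => hw ⟨fun _ => h4, fun _ => hwA⟩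
        have h4 := mul_neg_of_neg_of_pos (inv_neg''.2 (hsA.1 hwA)) (hsB.2 hwB)
        linarith
      · have hwB : w ∈ B.2.1 := by
          by_contra h4
          exact hw ⟨fun h5 => absurd h5 hwA, fun h5 => absurd h5 h4⟩
        have h4 := mul_neg_of_pos_of_neg (inv_pos.2 (hsA.2 hwA)) (hsB.1 hwB)
        linarith
    · obtain ⟨v, hv⟩ : ∃ v, ¬ (v ∈ A.1.1 ↔ v ∈ B.1.1) := by
        by_contra hcon
        push Not at hcon
        exact h1 (Finset.ext hcon)
      have hvR : v ∈ R := by
        by_contra hvR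
        exact hv ⟨fun h3 => absurd ((Finset.mem_powerset.1 A.1.2) h3) hvR,
          fun h3 => absurd ((Finset.mem_powerset.1 B.1.2) h3) hvR⟩
      obtain ⟨c, hc⟩ := heven v hvR _ hmem
      rw [Units.val_mul, Units.val_inv_eq_inv_val, map_mul, map_inv₀, hfval, hfval] at hc
      obtain ⟨k, hk⟩ := h
      have hlog := congrArg WithZero.log hc
      rw [WithZero.log_pow] at hlog
      by_cases hvA : v ∈ A.1.1
      · have hvB : v ∉ B.1.1 := fun h4 => hv ⟨fun _ => h4, fun _ => hvA⟩
        rw [if_pos hvA, if_neg hvB, mul_one, ← WithZero.exp_neg, WithZero.log_exp, hk] at hlog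
        simp only [nsmul_eq_mul] at hlog
        push_cast at hlog
        omega
      · have hvB : v ∈ B.1.1 := by
          by_contra h4
          exact hv ⟨fun h5 => absurd h5 hvA, fun h5 => absurd h5 h4⟩
        rw [if_neg hvA, if_pos hvB, inv_one, one_mul, WithZero.log_exp, hk] at hlog
        simp only [nsmul_eq_mul] at hlog
        push_cast at hlog
        omega
  have hge := card_le_relIndex H (SU S) hne f hfmem hinj
  rw [Fintype.card_prod, Fintype.card_coe, Finset.card_powerset, Fintype.card_coe,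
    Finset.card_powerset, ← pow_add] at hge
  have h1 : 2 ^ (R.card + R'.card + (Units.rank (QE (x : K)) + (SE (QE (x : K)) S).ncard)) ≤
      2 ^ (2 * (Units.rank K + S.card)) := by
    rw [← hherb, pow_add]
    exact Nat.mul_le_mul_right _ hge
  have h2 := (Nat.pow_le_pow_iff_right (by norm_num : 1 < 2)).mp h1
  have h3 : 0 < Fintype.card (InfinitePlace K) := Fintype.card_pos
  have h4 : 0 < Fintype.card (InfinitePlace (QE (x : K))) := Fintype.card_pos
  unfold Units.rank at h2
  omega

end

end Pool.Agent.Y682
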