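import Mathlib

/-!
# Squares in the completions of a number field
-/

set_option autoImplicit false

open NumberField IsDedekindDomain

namespace Pool.Agent.Y682

section

variable {K : Type} [Field K] [NumberField K] (v : HeightOneSpectrum (𝓞 K))

/-- the valuation of the completion -/
noncomputable abbrev vv : Valuation (v.adicCompletion K) (WithZero (Multiplicative ℤ)) := Valued.v

lemma vv_coe (x : K) : vv v (algebraMap K (v.adicCompletion K) x) = v.valuation K x := by
  rw [HeightOneSpectrum.algebraMap_adicCompletion]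
  exact HeightOneSpectrum.valuedAdicCompletion_eq_valuation' v x

lemma norm_le_iff (x y : v.adicCompletion K) : ‖x‖ ≤ ‖y‖ ↔ vv v x ≤ vv v y :=
  Valued.toNormedField.norm_le_iff

/-- approximation of an element of the completion by elements of `K` -/
lemma exists_approx (ξ : v.adicCompletion K) (γ : WithZero (Multiplicative ℤ)) (hγ : γ ≠ 0) :
    ∃ k : K, vv v (algebraMap K (v.adicCompletion K) k - ξ) < γ := by
  have hopen : IsOpen {y : v.adicCompletion K | vv v (y - ξ) < γ} := by
    have h1 : IsOpen {y : v.adicCompletion K | vv v y < γ} := by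
      obtain ⟨η, hη⟩ := HeightOneSpectrum.valuedAdicCompletion_surjective K v γ
      have h2 := Valued.isOpen_ball (v.adicCompletion K)
        ((Valued.v (R := v.adicCompletion K)).restrict η)
      have h3 : {y : v.adicCompletion K | vv v y < γ} =
          {y : v.adicCompletion K | (Valued.v (R := v.adicCompletion K)).restrict y <
            (Valued.v (R := v.adicCompletion K)).restrict η} := by
        ext y
        change _ ↔ (Valued.v (R := v.adicCompletion K)).restrict y <
            (Valued.v (R := v.adicCompletion K)).restrict η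
        rw [Valuation.restrict_lt_iff, hη]
        exact Iff.rfl
      rw [h3]
      exact h2
    exact h1.preimage (continuous_id.sub continuous_const)
  obtain ⟨k, hk⟩ := (HeightOneSpectrum.denseRange_algebraMap K v).exists_mem_open hopen
    ⟨ξ, by simp [zero_lt_iff.2 hγ]⟩
  exact ⟨k, hk⟩

/-- elements close to `1` are squares -/
lemma exists_sqrt (t : v.adicCompletion K) (ht : vv v t < vv v 4) :
    ∃ y : v.adicCompletion K, y ^ 2 = 1 + t := by
  have h4 : (4 : v.adicCompletion K) ≠ 0 := by
    intro h
    rw [h, map_zero] at ht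
    exact not_lt_zero ht
  have hv4 : vv v (4 : v.adicCompletion K) ≠ 0 := (Valuation.ne_zero_iff _).2 h4
  set c := t / 4 with hc
  have hc1 : vv v c < 1 := by
    rw [hc, map_div₀]
    exact (div_lt_one₀ (zero_lt_iff.2 hv4)).2 ht
  let s : Set (v.adicCompletion K) := {y | ‖y‖ ≤ ‖c‖}
  have hs : IsComplete s := (isClosed_le continuous_norm continuous_const).isComplete
  let T : v.adicCompletion K → v.adicCompletion K := fun y => c - y ^ 2
  have hmaps : Set.MapsTo T s s := by
    intro y hy
    have h1 : vv v y ≤ vv v c := (norm_le_iff v _ _).1 hy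
    change ‖T y‖ ≤ ‖c‖
    rw [norm_le_iff]
    refine (Valuation.map_sub _ _ _).trans (max_le le_rfl ?_)
    rw [map_pow, sq]
    exact (mul_le_of_le_one_right' (h1.trans hc1.le)).trans h1
  have hcn : ‖c‖ < 1 := by
    rw [← norm_one (α := v.adicCompletion K), ← not_le, norm_le_iff, not_le, map_one]
    exact hc1
  have hcon : ContractingWith ⟨‖c‖, norm_nonneg _⟩ (hmaps.restrict T s s) := by
    refine ⟨by exact_mod_cast hcn, ?_⟩
    apply LipschitzWith.of_dist_le_mul
    rintro ⟨y, hy⟩ ⟨z, hz⟩
    change dist (T y) (T z) ≤ ‖c‖ * dist y z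
    have h1 : vv v y ≤ vv v c := (norm_le_iff v _ _).1 hy
    have h2 : vv v z ≤ vv v c := (norm_le_iff v _ _).1 hz
    rw [dist_eq_norm, dist_eq_norm, ← norm_mul, norm_le_iff, map_mul]
    have h3 : T y - T z = (z + y) * (z - y) := by simp only [T]; ring
    rw [h3, map_mul, Valuation.map_sub_swap]
    exact mul_le_mul_left ((Valuation.map_add _ _ _).trans (max_le h2 h1)) _
  have hcs : c ∈ s := le_refl ‖c‖
  obtain ⟨y, hys, hy, -⟩ := hcon.exists_fixedPoint' hs hmaps hcs (edist_ne_top _ _)
  have h2 : c - y ^ 2 = y := hy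
  refine ⟨1 + 2 * y, ?_⟩
  have h3 : c * 4 = t := div_mul_cancel₀ t h4
  linear_combination (-4) * h2 + h3

/-- the square root of an element that is close to a square -/
lemma exists_sqrt' {x y : v.adicCompletion K} (hy : y ≠ 0)
    (h : vv v (x - y ^ 2) < vv v 4 * vv v y ^ 2) : ∃ z : v.adicCompletion K, z ^ 2 = x := by
  have hvy : vv v y ≠ 0 := (Valuation.ne_zero_iff _).2 hy
  obtain ⟨z, hz⟩ := exists_sqrt v ((x - y ^ 2) / y ^ 2) (by
    rw [map_div₀, map_pow]
    exact (div_lt_iff₀ (zero_lt_iff.2 (pow_ne_zero 2 hvy))).2 h)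
  refine ⟨z * y, ?_⟩
  rw [mul_pow, hz]
  field_simp
  ring

end

end Pool.Agent.Y682
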