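import Mathlib
import Pool.Agent.Y682.FI
import Pool.Agent.Y682.Lcl
import Pool.Agent.TeamU.Unr

/-!
# A criterion for being unramified
-/

set_option autoImplicit false

open NumberField IsDedekindDomain

namespace Pool.Agent.Y682

open Pool.Agent.TeamU Pool.Agent.TeamU.KI

/-- up to squares `x` is a unit that is a square modulo `4` -/
def UnrC {L : Type} [Field L] (w : Valuation L (WithZero (Multiplicative ℤ))) (x : L) : Prop :=
  ∃ t s u : L, t ≠ 0 ∧ x * t ^ 2 = s ^ 2 + 4 * u ∧ w (x * t ^ 2) = 1 ∧ w s ≤ 1 ∧ w u ≤ 1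

section gen

variable {L : Type} [Field L] {w : Valuation L (WithZero (Multiplicative ℤ))}

lemma UnrC.mul {x x' : L} (h : UnrC w x) (h' : UnrC w x') : UnrC w (x * x') := by
  obtain ⟨t, s, u, ht, e, e1, hs, hu⟩ := h
  obtain ⟨t', s', u', ht', e', e1', hs', hu'⟩ := h'
  have h4 : w (4 : L) ≤ 1 := by
    have h5 : (4 : L) = 1 + 1 + 1 + 1 := by norm_num
    rw [h5]
    refine (Valuation.map_add _ _ _).trans (max_le ?_ (map_one w).le)
    refine (Valuation.map_add _ _ _).trans (max_le ?_ (map_one w).le)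
    exact (Valuation.map_add _ _ _).trans (max_le (map_one w).le (map_one w).le)
  have hsq : w (s ^ 2) ≤ 1 := by rw [map_pow]; exact pow_le_one' hs 2
  have hsq' : w (s' ^ 2) ≤ 1 := by rw [map_pow]; exact pow_le_one' hs' 2
  refine ⟨t * t', s * s', s ^ 2 * u' + s' ^ 2 * u + 4 * (u * u'), mul_ne_zero ht ht', ?_, ?_, ?_, ?_⟩
  · linear_combination e * (x' * t' ^ 2) + e' * (s ^ 2 + 4 * u)
  · have h5 : x * x' * (t * t') ^ 2 = (x * t ^ 2) * (x' * t' ^ 2) := by ring
    rw [h5, map_mul, e1, e1', one_mul]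
  · rw [map_mul]; exact mul_le_one' hs hs'
  · refine (Valuation.map_add _ _ _).trans (max_le ?_ ?_)
    · refine (Valuation.map_add _ _ _).trans (max_le ?_ ?_)
      · rw [map_mul]; exact mul_le_one' hsq hu'
      · rw [map_mul]; exact mul_le_one' hsq' hu
    · rw [map_mul, map_mul]
      exact mul_le_one' h4 (mul_le_one' hu hu')

lemma UnrC.sq {y : L} (hy : y ≠ 0) : UnrC w (y ^ 2) := by
  refine ⟨y⁻¹, 1, 0, inv_ne_zero hy, ?_, ?_, (map_one w).le, ?_⟩
  · field_simp; ring
  · have h1 : y ^ 2 * y⁻¹ ^ 2 = 1 := by field_simp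
    rw [h1, map_one]
  · rw [map_zero]; exact zero_le

lemma UnrC.of_eq {x x' y : L} (h : UnrC w x') (hy : y ≠ 0) (e : x = x' * y ^ 2) : UnrC w x := by
  rw [e]
  exact h.mul (UnrC.sq hy)

/-- an element with even valuation is unramified if `4` is a unit -/
lemma UnrC.of_even {x t : L} (ht : t ≠ 0) (h : w (x * t ^ 2) = 1) (h4 : w (4 : L) = 1) :
    UnrC w x := by
  have h40 : (4 : L) ≠ 0 := by
    intro h0; rw [h0, map_zero] at h4; exact zero_ne_one h4
  refine ⟨t, 1, (x * t ^ 2 - 1) / 4, ht, ?_, h, (map_one w).le, ?_⟩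
  · field_simp; ring
  · rw [map_div₀, h4, div_one]
    exact (Valuation.map_sub _ _ _).trans (max_le h.le (map_one w).le)

end gen

section

variable {K : Type} [Field K] [NumberField K] {v : HeightOneSpectrum (𝓞 K)}

/-- the criterion descends from the completion -/
lemma UnrC.desc {x : K} (h : UnrC (vv v) (algebraMap K (v.adicCompletion K) x)) :
    UnrC (v.valuation K) x := by
  obtain ⟨T, S, U, hT, e, e1, hS, hU⟩ := h
  set X := algebraMap K (v.adicCompletion K) x with hX
  have hc0 : CharZero (v.adicCompletion K) := charZero_of_injective_algebraMap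
    (algebraMap K (v.adicCompletion K)).injective
  have h40 : (4 : v.adicCompletion K) ≠ 0 := by norm_num
  have hv4 : vv v (4 : v.adicCompletion K) ≠ 0 := (Valuation.ne_zero_iff _).2 h40
  have hx0 : X ≠ 0 := by
    intro h0
    rw [h0, zero_mul, map_zero] at e1
    exact zero_ne_one e1
  have hvX : vv v X ≠ 0 := (Valuation.ne_zero_iff _).2 hx0
  have hvT : vv v T ≠ 0 := (Valuation.ne_zero_iff _).2 hT
  have h4le : vv v (4 : v.adicCompletion K) ≤ 1 := by
    have h5 : (4 : v.adicCompletion K) = algebraMap K (v.adicCompletion K) 4 := (map_ofNat _ 4).symm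
    rw [h5, vv_coe]
    have h6 : (4 : K) = algebraMap (𝓞 K) K 4 := (map_ofNat _ 4).symm
    rw [h6]
    exact v.valuation_le_one _
  -- approximations
  obtain ⟨t, ht⟩ := exists_approx v T (min (vv v T) (vv v 4 / (vv v X * vv v T)))
    (by
      rcases min_choice (vv v T) (vv v 4 / (vv v X * vv v T)) with h | h
      · rw [h]; exact hvT
      · rw [h]; exact div_ne_zero hv4 (mul_ne_zero hvX hvT))
  obtain ⟨s, hs⟩ := exists_approx v S (vv v 4) hv4
  set t' := algebraMap K (v.adicCompletion K) t with ht'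
  set s' := algebraMap K (v.adicCompletion K) s with hs'
  have ht1 : vv v (t' - T) < vv v T := lt_of_lt_of_le ht (min_le_left _ _)
  have ht2 : vv v (t' - T) < vv v 4 / (vv v X * vv v T) := lt_of_lt_of_le ht (min_le_right _ _)
  have htT : vv v t' = vv v T := by
    have h1 : t' = T + (t' - T) := by ring
    rw [h1]
    exact Valuation.map_add_eq_of_lt_left _ ht1
  have hxt : vv v (X * t' ^ 2 - X * T ^ 2) ≤ vv v 4 := by
    have h1 : X * t' ^ 2 - X * T ^ 2 = (t' - T) * (X * (t' + T)) := by ring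
    rw [h1, map_mul, map_mul]
    have h2 : vv v (t' + T) ≤ vv v T := (Valuation.map_add _ _ _).trans (max_le htT.le le_rfl)
    calc vv v (t' - T) * (vv v X * vv v (t' + T))
        ≤ (vv v 4 / (vv v X * vv v T)) * (vv v X * vv v T) :=
          mul_le_mul' ht2.le (mul_le_mul' le_rfl h2)
      _ = vv v 4 := div_mul_cancel₀ _ (mul_ne_zero hvX hvT)
  have hss : vv v (s' ^ 2 - S ^ 2) ≤ vv v 4 := by
    have h1 : s' ^ 2 - S ^ 2 = (s' - S) * ((s' - S) + 2 * S) := by ring
    rw [h1, map_mul]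
    have h2 : vv v ((s' - S) + 2 * S) ≤ 1 := by
      refine (Valuation.map_add _ _ _).trans (max_le (hs.le.trans h4le) ?_)
      rw [two_mul]
      exact (Valuation.map_add _ _ _).trans (max_le hS hS)
    exact mul_le_of_le_of_le_one hs.le h2
  have hval : vv v (X * t' ^ 2) = 1 := by
    rw [map_mul, map_pow, htT, ← map_pow, ← map_mul, e1]
  have hs1 : vv v s' ≤ 1 := by
    have h1 : s' = (s' - S) + S := by ring
    rw [h1]
    exact (Valuation.map_add _ _ _).trans (max_le (hs.le.trans h4le) hS)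
  refine ⟨t, s, (x * t ^ 2 - s ^ 2) / 4, ?_, ?_, ?_, ?_, ?_⟩
  · rintro rfl
    rw [ht', map_zero, map_zero] at htT
    exact hvT htT.symm
  · field_simp; ring
  · rw [← vv_coe, map_mul, map_pow]
    exact hval
  · rw [← vv_coe]
    exact hs1
  · rw [← vv_coe, map_div₀, map_sub, map_mul, map_pow, map_pow, map_ofNat, map_div₀]
    rw [div_le_one₀ (zero_lt_iff.2 hv4)]
    have h1 : X * t' ^ 2 - s' ^ 2 = (X * t' ^ 2 - X * T ^ 2) + ((4 * U) - (s' ^ 2 - S ^ 2)) := by
      rw [e]; ring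
    change vv v (X * t' ^ 2 - s' ^ 2) ≤ vv v 4
    rw [h1]
    refine (Valuation.map_add _ _ _).trans (max_le hxt ?_)
    refine (Valuation.map_sub _ _ _).trans (max_le ?_ hss)
    rw [map_mul]
    exact mul_le_of_le_one_right' hU

section quad

variable {E : Type} [Field E] [NumberField E] [Algebra K E]

lemma unr_of_unrC (h2 : Module.finrank K E = 2) {x : K} (h : UnrC (v.valuation K) x)
    (z : E) (hz : z ^ 2 = algebraMap K E x) (hzK : z ∉ (algebraMap K E).range)
    (P : HeightOneSpectrum (𝓞 E)) (hP : Over P v) : Unr K P := by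
  obtain ⟨t, s, u, ht, e, e1, hs, hu⟩ := h
  obtain ⟨n1, d1, hd1, hn1⟩ : ∃ n d : 𝓞 K, d ∉ v.asIdeal ∧
      s * algebraMap (𝓞 K) K d = algebraMap (𝓞 K) K n := exists_den v s hs
  obtain ⟨n2, d2, hd2, hn2⟩ : ∃ n d : 𝓞 K, d ∉ v.asIdeal ∧
      u * algebraMap (𝓞 K) K d = algebraMap (𝓞 K) K n := exists_den v u hu
  obtain ⟨d, hd⟩ : ∃ d : 𝓞 K, d = d1 * d2 := ⟨_, rfl⟩
  have hdv : d ∉ v.asIdeal := by
    intro h
    rw [hd] at h
    rcases v.isPrime.mem_or_mem h with h | h
    · exact hd1 h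
    · exact hd2 h
  -- `ds` and `d²u` are integers
  obtain ⟨a, ha⟩ : ∃ a : 𝓞 K, a = n1 * d2 := ⟨_, rfl⟩
  obtain ⟨c, hc⟩ : ∃ c : 𝓞 K, c = n2 * d1 * d := ⟨_, rfl⟩
  have ha' : (algebraMap (𝓞 K) K a) = s * algebraMap (𝓞 K) K d := by
    rw [ha, hd, map_mul, map_mul, ← hn1]
    ring
  have hc' : (algebraMap (𝓞 K) K c) = u * algebraMap (𝓞 K) K d ^ 2 := by
    rw [hc, hd, map_mul, map_mul, map_mul, ← hn2]
    ring
  obtain ⟨D, hD⟩ : ∃ D : E, D = algebraMap K E (algebraMap (𝓞 K) K d) := ⟨_, rfl⟩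
  obtain ⟨w, hw⟩ : ∃ w : E, w = D * ((algebraMap K E s + algebraMap K E t * z) / 2) := ⟨_, rfl⟩
  have hw2 : w ^ 2 - algebraMap K E (algebraMap (𝓞 K) K a) * w -
      algebraMap K E (algebraMap (𝓞 K) K c) = 0 := by
    rw [ha', hc', map_mul, map_mul, map_pow]
    have h3 := congrArg (algebraMap K E) e
    rw [map_mul, map_pow, map_add, map_mul, map_pow, map_ofNat, ← hz] at h3
    rw [hw, ← hD]
    linear_combination (D ^ 2 / 4) * h3
  have hwint : IsIntegral (𝓞 K) w := by
    refine ⟨Polynomial.X ^ 2 - Polynomial.C a * Polynomial.X - Polynomial.C c, ?_, ?_⟩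
    · have : (Polynomial.X ^ 2 - Polynomial.C a * Polynomial.X - Polynomial.C c :
          Polynomial (𝓞 K)) = Polynomial.X ^ 2 - (Polynomial.C a * Polynomial.X +
            Polynomial.C c) := by ring
      rw [this]
      apply Polynomial.monic_X_pow_sub
      compute_degree
      norm_num
    · simp only [Polynomial.eval₂_sub, Polynomial.eval₂_mul, Polynomial.eval₂_pow,
        Polynomial.eval₂_X, Polynomial.eval₂_C]
      rw [IsScalarTower.algebraMap_apply (𝓞 K) K E, IsScalarTower.algebraMap_apply (𝓞 K) K E]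
      exact hw2
  have hwint' : IsIntegral ℤ w := isIntegral_trans (A := 𝓞 K) w hwint
  let θ : 𝓞 E := ⟨w, hwint'⟩
  have h2w : 2 * w - algebraMap K E (algebraMap (𝓞 K) K a) = D * (algebraMap K E t * z) := by
    rw [ha', map_mul, hw, ← hD]
    ring
  refine unr_of_deriv h2 P θ a (-c) ?_ ?_ ?_
  · apply RingOfIntegers.ext
    rw [map_neg]
    change w ^ 2 - algebraMap K E (algebraMap (𝓞 K) K a) * w +
      -algebraMap K E (algebraMap (𝓞 K) K c) = 0
    linear_combination hw2
  · rintro ⟨m, hm⟩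
    have hm' : algebraMap K E m = w := hm
    have hd0 : algebraMap (𝓞 K) K d ≠ 0 := by
      intro h0
      have : d = 0 := FaithfulSMul.algebraMap_injective (𝓞 K) K (by rw [h0, map_zero])
      exact hdv (this ▸ v.asIdeal.zero_mem)
    have hD0 : D ≠ 0 := by rw [hD]; simpa using hd0
    have ht0 : algebraMap K E t ≠ 0 := by simpa using ht
    apply hzK
    refine ⟨(2 * m / algebraMap (𝓞 K) K d - s) / t, ?_⟩
    rw [map_div₀, map_sub, map_div₀, map_mul, map_ofNat, hm', hw, ← hD]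
    field_simp
    ring
  · intro hmem
    have h3 : (2 * θ - algebraMap (𝓞 K) (𝓞 E) a) ^ 2 ∈ P.asIdeal := by
      rw [_root_.sq]; exact P.asIdeal.mul_mem_left _ hmem
    have hX : v.valuation K (x * t ^ 2) = 1 := e1
    obtain ⟨m1, m2, hm2, hm⟩ : ∃ n d : 𝓞 K, d ∉ v.asIdeal ∧
      (x * t ^ 2) * algebraMap (𝓞 K) K d = algebraMap (𝓞 K) K n :=
      exists_den v (x * t ^ 2) hX.le
    -- (2θ - a)² m2 = d² m1
    have h4 : (2 * θ - algebraMap (𝓞 K) (𝓞 E) a) ^ 2 * algebraMap (𝓞 K) (𝓞 E) m2 =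
        algebraMap (𝓞 K) (𝓞 E) (d ^ 2 * m1) := by
      apply RingOfIntegers.ext
      change (2 * w - algebraMap K E (algebraMap (𝓞 K) K a)) ^ 2 *
        algebraMap K E (algebraMap (𝓞 K) K m2) =
        algebraMap K E (algebraMap (𝓞 K) K (d ^ 2 * m1))
      rw [h2w, map_mul, map_mul, map_pow, map_pow, ← hm, map_mul, map_mul, map_pow, ← hz, ← hD]
      ring
    have h5 : algebraMap (𝓞 K) (𝓞 E) (d ^ 2 * m1) ∈ P.asIdeal := by
      rw [← h4]; exact P.asIdeal.mul_mem_right _ h3
    have h6 : d ^ 2 * m1 ∈ v.asIdeal := by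
      rw [← hP]; exact h5
    rcases v.isPrime.mem_or_mem h6 with h7 | h7
    · exact hdv (v.isPrime.mem_of_pow_mem 2 h7)
    · have hm1 : v.valuation K (algebraMap (𝓞 K) K m1) < 1 := by
        rw [HeightOneSpectrum.valuation_lt_one_iff_mem]
        exact h7
      have hm2' : v.valuation K (algebraMap (𝓞 K) K m2) = 1 := by
        rw [HeightOneSpectrum.valuation_eq_one_iff_notMem]
        exact hm2
      have h8 : v.valuation K (algebraMap (𝓞 K) K m1) = 1 := by
        rw [← hm, map_mul, hX, one_mul]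
        exact hm2'
      exact absurd h8 (ne_of_lt hm1)

end quad

/-- if the narrow class number is odd, elements that are unramified at all the finite places are
squares -/
theorem sq_of_unrC (h : Odd (Nat.card (NCl K))) (x : Kˣ)
    (hx : ∀ v : HeightOneSpectrum (𝓞 K), UnrC (v.valuation K) (x : K)) : ∃ y : Kˣ, y ^ 2 = x := by
  refine no_unr h x ?_
  intro hF P
  obtain ⟨v, hv⟩ := b2_exists_under (M := K) P
  exact unr_of_unrC (finrank_QE (x : K)) (hx v) QuadraticAlgebra.omega (omega_sq _)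
    (omega_notin _) P hv

end

end Pool.Agent.Y682
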