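import Mathlib
import Pool.Agent.Y682.UnrC

/-!
# The local images and valuations
-/

set_option autoImplicit false

open NumberField IsDedekindDomain

namespace Pool.Agent.Y682

section

variable {L : Type} [Field L] [CharZero L] (w : Valuation L (WithZero (Multiplicative ℤ)))

omit [CharZero L] in
lemma w_two_le : w (2 : L) ≤ 1 := by
  have h5 : (2 : L) = 1 + 1 := by norm_num
  rw [h5]
  exact (Valuation.map_add _ _ _).trans (max_le (map_one w).le (map_one w).le)

omit [CharZero L] in
lemma w_four : w (4 : L) = w 2 * w 2 := by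
  have h5 : (4 : L) = 2 * 2 := by norm_num
  rw [h5, map_mul]

omit [CharZero L] in
lemma w_four_le : w (4 : L) ≤ 1 := by
  rw [w_four]
  exact mul_le_one' (w_two_le w) (w_two_le w)

/-- the first local image -/
lemma even_S1 {A B C s u : L} (hA : A = s ^ 2 + 4 * u) (hs : w s ≤ 1) (hu : w u ≤ 1)
    (hB : B = 16 * C) (hC : w C = 1) {x y : L} (hx : x ≠ 0)
    (h : y ^ 2 = x * (x ^ 2 + A * x + B)) : ∃ g, w x = g ^ 2 := by
  have h20 : (2 : L) ≠ 0 := two_ne_zero
  have h40 : (4 : L) ≠ 0 := by norm_num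
  have hw4 : w (4 : L) ≠ 0 := (Valuation.ne_zero_iff _).2 h40
  have hw4' : 0 < w (4 : L) := zero_lt_iff.2 hw4
  have hwx : w x ≠ 0 := (Valuation.ne_zero_iff _).2 hx
  have hwx' : 0 < w x := zero_lt_iff.2 hwx
  have hBx : w (B / x) = w 4 * w 4 / w x := by
    have h16 : (16 : L) = 4 * 4 := by norm_num
    rw [hB, map_div₀, map_mul, hC, mul_one, h16, map_mul]
  obtain ⟨q, hq⟩ : ∃ q : L, q = y / x := ⟨_, rfl⟩
  have hq2 : q ^ 2 - s ^ 2 = (x + B / x) + 4 * u := by
    rw [hq, div_pow, h, hA]
    field_simp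
    ring
  -- the key step
  have key : ∀ M, M = w (x + B / x) → w 4 < M → M = w (q - s) ^ 2 := by
    intro M hM hlt
    have h4u : w (4 * u) < M := by
      rw [map_mul]
      exact lt_of_le_of_lt (mul_le_of_le_one_right' hu) hlt
    have h1 : w (q ^ 2 - s ^ 2) = M := by
      rw [hq2, hM]
      apply Valuation.map_add_eq_of_lt_left
      rw [← hM]
      exact h4u
    have h2 : q ^ 2 - s ^ 2 = (q - s) * ((q - s) + 2 * s) := by ring
    have h2s : w (2 * s) ≤ w 2 := by
      rw [map_mul]
      exact mul_le_of_le_one_right' hs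
    rcases lt_or_ge (w 2) (w (q - s)) with h3 | h3
    · have h4 : w ((q - s) + 2 * s) = w (q - s) :=
        Valuation.map_add_eq_of_lt_left _ (lt_of_le_of_lt h2s h3)
      rw [← h1, h2, map_mul, h4, sq]
    · exfalso
      have h4 : w ((q - s) + 2 * s) ≤ w 2 := (Valuation.map_add _ _ _).trans (max_le h3 h2s)
      have h5 : w (q ^ 2 - s ^ 2) ≤ w 4 := by
        rw [h2, map_mul, w_four]
        exact mul_le_mul' h3 h4
      rw [h1] at h5
      exact absurd hlt (not_lt.2 h5)
  rcases lt_trichotomy (w x) (w 4) with h1 | h1 | h1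
  · -- `w (B / x)` is large
    have h2 : w 4 < w (B / x) := by
      rw [hBx, lt_div_iff₀ hwx']
      exact mul_lt_mul_of_pos_left h1 hw4'
    have h3 : w (x + B / x) = w (B / x) :=
      Valuation.map_add_eq_of_lt_right _ (h1.trans h2)
    have h4 := key _ h3.symm h2
    refine ⟨w 4 / w (q - s), ?_⟩
    rw [div_pow, ← h4, hBx, sq]
    have hne : w 4 * w 4 ≠ 0 := mul_ne_zero hw4 hw4
    field_simp
  · exact ⟨w 2, by rw [h1, w_four, sq]⟩
  · have h2 : w (B / x) < w 4 := by
      rw [hBx, div_lt_iff₀ hwx']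
      exact mul_lt_mul_of_pos_left h1 hw4'
    have h3 : w (x + B / x) = w x := Valuation.map_add_eq_of_lt_left _ (h2.trans h1)
    exact ⟨_, key _ h3.symm h1⟩

/-- the second local image -/
lemma unr_S2 (hens : ∀ t : L, w t < w 4 → ∃ y : L, y ^ 2 = 1 + t)
    {A B C s u : L} (hA : A = s ^ 2 + 4 * u) (hs : w s ≤ 1) (hu : w u ≤ 1)
    (hB : B = 16 * C) (hC : w C ≤ 1) (hD : w (A ^ 2 - 4 * B) = 1) {x y : L} (hx : x ≠ 0)
    (h : y ^ 2 = x * ((x - A) ^ 2 - 4 * B)) : UnrC w x := by
  have h40 : (4 : L) ≠ 0 := by norm_num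
  have hw4 : w (4 : L) ≠ 0 := (Valuation.ne_zero_iff _).2 h40
  have hw4' : 0 < w (4 : L) := zero_lt_iff.2 hw4
  have hA1 : w A ≤ 1 := by
    rw [hA]
    refine (Valuation.map_add _ _ _).trans (max_le ?_ ?_)
    · rw [map_pow]; exact pow_le_one' hs 2
    · rw [map_mul]; exact mul_le_one' (w_four_le w) hu
  have h64 : w (4 * B) ≤ w 4 * w 4 * w 4 := by
    have h16 : 4 * B = 4 * 4 * 4 * C := by rw [hB]; ring
    rw [h16, map_mul, map_mul, map_mul]
    exact mul_le_of_le_one_right' hC
  obtain ⟨z, hz⟩ : ∃ z : L, z = x - A := ⟨_, rfl⟩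
  rcases lt_or_ge (w 4) (w z) with h1 | h1
  · have hz0 : z ≠ 0 := by
      rintro rfl
      rw [map_zero] at h1
      exact not_lt_zero h1
    have hwz : 0 < w z := hw4'.trans h1
    have ht : w (-(4 * B) / z ^ 2) < w 4 := by
      rw [map_div₀, Valuation.map_neg, map_pow, div_lt_iff₀ (pow_pos hwz 2)]
      refine lt_of_le_of_lt h64 ?_
      rw [mul_assoc]
      refine mul_lt_mul_of_pos_left ?_ hw4'
      rw [sq]
      exact mul_lt_mul'' h1 h1 hw4'.le hw4'.le
    obtain ⟨r, hr⟩ := hens _ ht
    have hr0 : r ≠ 0 := by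
      rintro rfl
      rw [zero_pow two_ne_zero] at hr
      have h3 : -(4 * B) / z ^ 2 = -1 := by linear_combination -hr
      rw [h3, Valuation.map_neg, map_one] at ht
      exact absurd ht (not_lt.2 (w_four_le w))
    have h3 : (z * r) ^ 2 = z ^ 2 - 4 * B := by
      rw [mul_pow, hr]
      field_simp
      ring
    rw [← hz, ← h3] at h
    have hzr : z * r ≠ 0 := mul_ne_zero hz0 hr0
    have hy0 : y ≠ 0 := by
      rintro rfl
      rw [zero_pow two_ne_zero, eq_comm, mul_eq_zero] at h
      rcases h with h | h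
      · exact hx h
      · exact hzr (pow_eq_zero_iff two_ne_zero |>.1 h)
    have h4 : x = (y / (z * r)) ^ 2 := by
      rw [div_pow, h]
      field_simp
    rw [h4]
    exact UnrC.sq (div_ne_zero hy0 hzr)
  · by_cases hx1 : w x = 1
    · refine ⟨1, s, u + z / 4, one_ne_zero, ?_, by rw [one_pow, mul_one, hx1], hs, ?_⟩
      · rw [hz, hA]
        field_simp
        ring
      · refine (Valuation.map_add _ _ _).trans (max_le hu ?_)
        rw [map_div₀]
        exact (div_le_one₀ hw4').2 h1
    · have h41 : w (4 : L) = 1 := by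
        by_contra h41
        have h42 : w (4 : L) < 1 := lt_of_le_of_ne (w_four_le w) h41
        have h43 : w (4 * B) < 1 := by
          refine lt_of_le_of_lt h64 ?_
          calc w (4 : L) * w 4 * w 4 ≤ 1 * w 4 :=
                mul_le_mul_left (mul_le_one' (w_four_le w) (w_four_le w)) _
            _ < 1 := by rw [one_mul]; exact h42
        have h44 : w (A ^ 2) = 1 := by
          have h45 : A ^ 2 = (A ^ 2 - 4 * B) + 4 * B := by ring
          rw [h45, Valuation.map_add_eq_of_lt_left _ (by rw [hD]; exact h43), hD]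
        have h46 : w A = 1 := by
          rw [map_pow] at h44
          rcases lt_or_eq_of_le hA1 with h47 | h47
          · exact absurd h44 (ne_of_lt (pow_lt_one₀ zero_le h47 two_ne_zero))
          · exact h47
        apply hx1
        have h48 : x = A + z := by rw [hz]; ring
        rw [h48, Valuation.map_add_eq_of_lt_left _ (by rw [h46]; exact lt_of_le_of_lt h1 h42), h46]
      have hxle : w x ≤ 1 := by
        have h48 : x = A + z := by rw [hz]; ring
        rw [h48]
        exact (Valuation.map_add _ _ _).trans (max_le hA1 (h1.trans h41.le))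
      have hxlt : w x < 1 := lt_of_le_of_ne hxle hx1
      have h5 : (x - A) ^ 2 - 4 * B = (A ^ 2 - 4 * B) + x * (x - 2 * A) := by ring
      have h6 : w (x - 2 * A) ≤ 1 := by
        refine (Valuation.map_sub _ _ _).trans (max_le hxle ?_)
        rw [map_mul]
        exact mul_le_one' (w_two_le w) hA1
      have h7 : w ((x - A) ^ 2 - 4 * B) = 1 := by
        rw [h5, Valuation.map_add_eq_of_lt_left _ ?_, hD]
        rw [hD, map_mul]
        exact lt_of_le_of_lt (mul_le_of_le_one_right' h6) hxlt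
      have h8 : w x = w y ^ 2 := by
        rw [← map_pow, h, map_mul, h7, mul_one]
      have hwx : w x ≠ 0 := (Valuation.ne_zero_iff _).2 hx
      have hy0 : y ≠ 0 := by
        rintro rfl
        rw [map_zero, zero_pow two_ne_zero] at h8
        exact hwx h8
      refine UnrC.of_even (inv_ne_zero hy0) ?_ h41
      rw [map_mul, h8, map_pow, map_inv₀, ← mul_pow, mul_inv_cancel₀, one_pow]
      exact (Valuation.ne_zero_iff _).2 hy0

end

/-- the first local image over the real numbers -/
lemma pos_S1 {A B x y : ℝ} (hB : 0 < B) (hA : A < 0 ∨ A ^ 2 < 4 * B) (hx : x ≠ 0)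
    (h : y ^ 2 = x * (x ^ 2 + A * x + B)) : 0 < x := by
  by_contra hneg
  have hx' : x < 0 := lt_of_le_of_ne (not_lt.1 hneg) hx
  have h1 : 0 < x ^ 2 + A * x + B := by
    rcases hA with hA | hA
    · have := mul_pos_of_neg_of_neg hA hx'
      positivity
    · nlinarith [sq_nonneg (2 * x + A)]
  have h2 : x * (x ^ 2 + A * x + B) < 0 := mul_neg_of_neg_of_pos hx' h1
  rw [← h] at h2
  exact absurd h2 (not_lt.2 (sq_nonneg y))

end Pool.Agent.Y682
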