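import Mathlib
import Pool.Agent.Y682.UnrC
import Pool.Agent.Y682.LocV

/-!
# Counting classes modulo squares
-/

set_option autoImplicit false
set_option linter.unusedSectionVars false

open NumberField IsDedekindDomain

namespace Pool.Agent.Y682

/-- an injection into a product -/
lemma inj_prod {Z A B : Type*} (z1 : Z) (f : Z → A) (g : Z → Z → B)
    (hg : ∀ z0 z z', f z = f z0 → f z' = f z0 → g z0 z = g z0 z' → z = z') :
    ∃ F : Z → A × B, Function.Injective F := by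
  classical
  obtain ⟨ρ, hρ⟩ : ∃ ρ : A → Z, ∀ z, f (ρ (f z)) = f z := by
    refine ⟨fun a => if h : ∃ z, f z = a then h.choose else z1, fun z => ?_⟩
    have h : ∃ z', f z' = f z := ⟨z, rfl⟩
    simp only [dif_pos h]
    exact h.choose_spec
  refine ⟨fun z => (f z, g (ρ (f z)) z), ?_⟩
  intro z z' h
  have h1 : f z = f z' := congrArg Prod.fst h
  have h2 : g (ρ (f z)) z = g (ρ (f z')) z' := congrArg Prod.snd h
  rw [← h1] at h2
  exact hg (ρ (f z)) z z' (hρ z).symm (h1.symm.trans (hρ z).symm) h2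

lemma card_le_prod {Z A B : Type*} [Finite A] [Finite B] (z1 : Z) (f : Z → A) (g : Z → Z → B)
    (hg : ∀ z0 z z', f z = f z0 → f z' = f z0 → g z0 z = g z0 z' → z = z') :
    Finite Z ∧ Nat.card Z ≤ Nat.card A * Nat.card B := by
  obtain ⟨F, hF⟩ := inj_prod z1 f g hg
  refine ⟨Finite.of_injective F hF, ?_⟩
  rw [← Nat.card_prod]
  exact Nat.card_le_card_of_injective F hF

section

variable (K : Type) [Field K] [NumberField K]

/-- the squares -/
def Sq : Subgroup Kˣ := (powMonoidHom 2 : Kˣ →* Kˣ).range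

variable {K}

lemma mem_Sq {x : Kˣ} : x ∈ Sq K ↔ ∃ y : Kˣ, y ^ 2 = x := Iff.rfl

lemma quot_eq {x y : Kˣ} : (x : Kˣ ⧸ Sq K) = (y : Kˣ ⧸ Sq K) ↔ ∃ z : Kˣ, y = x * z ^ 2 := by
  rw [QuotientGroup.eq, mem_Sq]
  constructor
  · rintro ⟨z, hz⟩
    exact ⟨z, by rw [hz, mul_inv_cancel_left]⟩
  · rintro ⟨z, hz⟩
    exact ⟨z, by rw [hz, inv_mul_cancel_left]⟩

/-- the parity of the valuation -/
noncomputable def par (v : HeightOneSpectrum (𝓞 K)) (x : Kˣ) : ZMod 2 :=
  ((WithZero.log (v.valuation K (x : K)) : ℤ) : ZMod 2)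

lemma par_mul (v : HeightOneSpectrum (𝓞 K)) (x y : Kˣ) : par v (x * y) = par v x + par v y := by
  unfold par
  rw [Units.val_mul, map_mul, WithZero.log_mul ((Valuation.ne_zero_iff _).2 x.ne_zero)
    ((Valuation.ne_zero_iff _).2 y.ne_zero)]
  push_cast
  rfl

lemma par_inv (v : HeightOneSpectrum (𝓞 K)) (x : Kˣ) : par v x⁻¹ = par v x := by
  have h := par_mul v x⁻¹ x
  rw [inv_mul_cancel] at h
  have h1 : par v (1 : Kˣ) = 0 := by
    unfold par
    rw [Units.val_one, map_one, WithZero.log_one]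
    rfl
  rw [h1] at h
  have h2 : ∀ a b : ZMod 2, 0 = a + b → a = b := by decide
  exact h2 _ _ h

lemma par_div (v : HeightOneSpectrum (𝓞 K)) (x y : Kˣ) :
    par v (x * y⁻¹) = par v x - par v y := by
  rw [par_mul, par_inv]
  have h2 : ∀ a b : ZMod 2, a + b = a - b := by decide
  exact h2 _ _

/-- the valuation is even -/
def Ev (v : HeightOneSpectrum (𝓞 K)) (x : K) : Prop :=
  ∃ n : ℤ, v.valuation K x = WithZero.exp (2 * n)

lemma ev_iff {v : HeightOneSpectrum (𝓞 K)} {x : Kˣ} : Ev v (x : K) ↔ par v x = 0 := by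
  have h0 : v.valuation K (x : K) ≠ 0 := (Valuation.ne_zero_iff _).2 x.ne_zero
  unfold par
  rw [ZMod.intCast_zmod_eq_zero_iff_dvd]
  constructor
  · rintro ⟨n, hn⟩
    rw [hn, WithZero.log_exp]
    exact ⟨n, rfl⟩
  · rintro ⟨n, hn⟩
    refine ⟨n, ?_⟩
    rw [← WithZero.exp_log h0, hn]
    rfl

lemma par_zero_of_unrC {v : HeightOneSpectrum (𝓞 K)} {x : Kˣ}
    (h : UnrC (v.valuation K) (x : K)) : par v x = 0 := by
  obtain ⟨t, s, u, ht, -, h1, -, -⟩ := h
  have h2 : par v (x * Units.mk0 t ht ^ 2) = 0 := by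
    unfold par
    rw [Units.val_mul, Units.val_pow_eq_pow_val, Units.val_mk0, h1, WithZero.log_one]
    rfl
  rw [pow_two, par_mul, par_mul] at h2
  have h3 : ∀ a b : ZMod 2, a + (b + b) = 0 → a = 0 := by decide
  exact h3 _ _ h2

/-- an element of even valuation is unramified outside two -/
lemma unrC_of_par {v : HeightOneSpectrum (𝓞 K)} {x : Kˣ} (h2 : v.valuation K 2 = 1)
    (h : par v x = 0) : UnrC (v.valuation K) (x : K) := by
  obtain ⟨i, hi⟩ := ev_iff.2 h
  obtain ⟨π, hπ⟩ := v.valuation_exists_uniformizer K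
  have hπ0 : π ≠ 0 := by
    rintro rfl
    rw [map_zero] at hπ
    exact WithZero.exp_ne_zero hπ.symm
  refine UnrC.of_even (zpow_ne_zero i hπ0) ?_ (by rw [w_four, h2, one_mul])
  rw [map_mul, map_pow, map_zpow₀, hi, hπ, ← WithZero.exp_zsmul, ← WithZero.exp_nsmul,
    ← WithZero.exp_add, ← WithZero.exp_zero]
  congr 1
  simp only [nsmul_eq_mul, smul_eq_mul]
  push_cast
  ring

variable (K)

/-- totally positive elements with even valuations -/
def H0 : Subgroup Kˣ where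
  carrier := {b | TotPos (b : K) ∧ ∀ v : HeightOneSpectrum (𝓞 K), par v b = 0}
  one_mem' := by
    refine ⟨fun φ => by rw [Units.val_one, map_one]; exact one_pos, fun v => ?_⟩
    unfold par
    rw [Units.val_one, map_one, WithZero.log_one]
    rfl
  mul_mem' := by
    rintro x y ⟨hx, hx'⟩ ⟨hy, hy'⟩
    refine ⟨fun φ => by rw [Units.val_mul, map_mul]; exact mul_pos (hx φ) (hy φ), fun v => ?_⟩
    rw [par_mul, hx' v, hy' v, add_zero]
  inv_mem' := by
    rintro x ⟨hx, hx'⟩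
    refine ⟨fun φ => by rw [Units.val_inv_eq_inv_val, map_inv₀]; exact inv_pos.2 (hx φ),
      fun v => ?_⟩
    rw [par_inv, hx' v]

/-- the elements that are unramified at all the finite places -/
def V0 : Subgroup Kˣ where
  carrier := {b | ∀ v : HeightOneSpectrum (𝓞 K), UnrC (v.valuation K) (b : K)}
  one_mem' := fun v => by
    rw [Units.val_one, ← one_pow 2]
    exact UnrC.sq one_ne_zero
  mul_mem' := fun {x y} hx hy v => by
    rw [Units.val_mul]
    exact (hx v).mul (hy v)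
  inv_mem' := fun {x} hx v => by
    refine (hx v).of_eq (y := (x : K)⁻¹) (inv_ne_zero x.ne_zero) ?_
    rw [Units.val_inv_eq_inv_val]
    field_simp

/-- the first group modulo squares -/
abbrev H0q : Subgroup (Kˣ ⧸ Sq K) := (H0 K).map (QuotientGroup.mk' (Sq K))

/-- the second group modulo squares -/
abbrev V0q : Subgroup (Kˣ ⧸ Sq K) := (V0 K).map (QuotientGroup.mk' (Sq K))

variable {K}

/-- the first group, with ramification in a finite set -/
def U1 (S : Finset (HeightOneSpectrum (𝓞 K))) : Set (Kˣ ⧸ Sq K) :=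
  {q | ∃ b : Kˣ, (b : Kˣ ⧸ Sq K) = q ∧ TotPos (b : K) ∧ ∀ v ∉ S, par v b = 0}

/-- the second group, with ramification in a finite set -/
def U2 (S : Finset (HeightOneSpectrum (𝓞 K))) : Set (Kˣ ⧸ Sq K) :=
  {q | ∃ b : Kˣ, (b : Kˣ ⧸ Sq K) = q ∧ ∀ v ∉ S, UnrC (v.valuation K) (b : K)}

lemma card_U1 (S : Finset (HeightOneSpectrum (𝓞 K))) [Finite (H0q K)] :
    Finite (U1 S) ∧ Nat.card (U1 S) ≤ 2 ^ S.card * Nat.card (H0q K) := by
  classical
  choose b hb using fun q : U1 S => q.2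
  have h1 : (1 : Kˣ ⧸ Sq K) ∈ U1 S :=
    ⟨1, rfl, fun φ => by rw [Units.val_one, map_one]; exact one_pos, fun v _ => by
      unfold par
      rw [Units.val_one, map_one, WithZero.log_one]
      rfl⟩
  have hmem : ∀ z z0 : U1 S, (fun v : S => par v.1 (b z)) = (fun v : S => par v.1 (b z0)) →
      b z * (b z0)⁻¹ ∈ H0 K := by
    intro z z0 h
    refine ⟨fun φ => ?_, fun v => ?_⟩
    · rw [Units.val_mul, map_mul, Units.val_inv_eq_inv_val, map_inv₀]
      exact mul_pos ((hb z).2.1 φ) (inv_pos.2 ((hb z0).2.1 φ))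
    · by_cases hv : v ∈ S
      · rw [par_div]
        have := congrFun h ⟨v, hv⟩
        exact sub_eq_zero.2 this
      · rw [par_div, (hb z).2.2 v hv, (hb z0).2.2 v hv, sub_zero]
  have h := card_le_prod (Z := U1 S) (A := S → ZMod 2) (B := H0q K) ⟨1, h1⟩
    (fun q v => par v.1 (b q))
    (fun z0 z => if hm : b z * (b z0)⁻¹ ∈ H0 K then
      ⟨QuotientGroup.mk' (Sq K) (b z * (b z0)⁻¹), Subgroup.mem_map_of_mem _ hm⟩ else 1) ?_
  · refine ⟨h.1, h.2.trans (le_of_eq ?_)⟩
    rw [Nat.card_fun, Nat.card_zmod, Nat.card_eq_fintype_card, Fintype.card_coe]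
  · intro z0 z z' hz hz' h
    rw [dif_pos (hmem z z0 hz), dif_pos (hmem z' z0 hz')] at h
    have h2 : QuotientGroup.mk' (Sq K) (b z * (b z0)⁻¹) =
        QuotientGroup.mk' (Sq K) (b z' * (b z0)⁻¹) := congrArg Subtype.val h
    rw [QuotientGroup.mk'_apply, QuotientGroup.mk'_apply, QuotientGroup.eq] at h2
    have e : (b z * (b z0)⁻¹)⁻¹ * (b z' * (b z0)⁻¹) = (b z)⁻¹ * b z' := by
      rw [mul_inv, inv_inv, mul_mul_mul_comm, mul_inv_cancel, mul_one]
    rw [e] at h2
    apply Subtype.ext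
    rw [← (hb z).1, ← (hb z').1, QuotientGroup.eq]
    exact h2

lemma card_U2 (S : Finset (HeightOneSpectrum (𝓞 K))) (hS : ∀ v ∈ S, v.valuation K 2 = 1)
    [Finite (V0q K)] :
    Finite (U2 S) ∧ Nat.card (U2 S) ≤ 2 ^ S.card * Nat.card (V0q K) := by
  classical
  choose b hb using fun q : U2 S => q.2
  have h1 : (1 : Kˣ ⧸ Sq K) ∈ U2 S := ⟨1, rfl, fun v _ => by
    rw [Units.val_one, ← one_pow 2]
    exact UnrC.sq one_ne_zero⟩
  have hmem : ∀ z z0 : U2 S, (fun v : S => par v.1 (b z)) = (fun v : S => par v.1 (b z0)) →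
      b z * (b z0)⁻¹ ∈ V0 K := by
    intro z z0 h v
    by_cases hv : v ∈ S
    · apply unrC_of_par (hS v hv)
      rw [par_div]
      have := congrFun h ⟨v, hv⟩
      exact sub_eq_zero.2 this
    · have h3 := ((hb z).2 v hv).mul ((hb z0).2 v hv)
      refine h3.of_eq (y := ((b z0 : Kˣ) : K)⁻¹) (inv_ne_zero (b z0).ne_zero) ?_
      rw [Units.val_mul, Units.val_inv_eq_inv_val]
      field_simp
  have h := card_le_prod (Z := U2 S) (A := S → ZMod 2) (B := V0q K) ⟨1, h1⟩
    (fun q v => par v.1 (b q))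
    (fun z0 z => if hm : b z * (b z0)⁻¹ ∈ V0 K then
      ⟨QuotientGroup.mk' (Sq K) (b z * (b z0)⁻¹), Subgroup.mem_map_of_mem _ hm⟩ else 1) ?_
  · refine ⟨h.1, h.2.trans (le_of_eq ?_)⟩
    rw [Nat.card_fun, Nat.card_zmod, Nat.card_eq_fintype_card, Fintype.card_coe]
  · intro z0 z z' hz hz' h
    rw [dif_pos (hmem z z0 hz), dif_pos (hmem z' z0 hz')] at h
    have h2 : QuotientGroup.mk' (Sq K) (b z * (b z0)⁻¹) =
        QuotientGroup.mk' (Sq K) (b z' * (b z0)⁻¹) := congrArg Subtype.val h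
    rw [QuotientGroup.mk'_apply, QuotientGroup.mk'_apply, QuotientGroup.eq] at h2
    have e : (b z * (b z0)⁻¹)⁻¹ * (b z' * (b z0)⁻¹) = (b z)⁻¹ * b z' := by
      rw [mul_inv, inv_inv, mul_mul_mul_comm, mul_inv_cancel, mul_one]
    rw [e] at h2
    apply Subtype.ext
    rw [← (hb z).1, ← (hb z').1, QuotientGroup.eq]
    exact h2

end

end Pool.Agent.Y682
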