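import Mathlib
import Pool.Agent.TH841.SH.ShaDef

/-!
# Quadratic characters of the absolute Galois group of a field of characteristic zero
-/

set_option autoImplicit false

namespace Pool.Agent.Y682

open Pool.Agent.TH841.SH.D (Gal)

instance isGalAC (K : Type) [Field K] [CharZero K] : IsGalois K (AlgebraicClosure K) where

/-- an element fixed by all the automorphisms lies in the base field -/
lemma fix_mem {K L : Type} [Field K] [Field L] [Algebra K L] [IsGalois K L] (x : L)
    (h : ∀ σ : L ≃ₐ[K] L, σ x = x) : ∃ y : K, algebraMap K L y = x := by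
  have := InfiniteGalois.mem_bot_iff_fixed (k := K) (K := L) x
  rw [IntermediateField.mem_bot] at this
  exact this.2 h

section

variable {K : Type} [Field K] [CharZero K]

/-- quadratic characters of the absolute Galois group -/
theorem kum (χ : Gal K → Bool) (hc : IsLocallyConstant χ)
    (hm : ∀ σ τ, χ (σ * τ) = xor (χ σ) (χ τ)) :
    ∃ b : K, b ≠ 0 ∧ ∀ s : AlgebraicClosure K, s ^ 2 = algebraMap K _ b →
      ∀ σ : Gal K, (χ σ = false → σ s = s) ∧ (χ σ = true → σ s = -s) := by
  have h1 : χ 1 = false := by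
    have := hm 1 1
    rw [mul_one] at this
    cases h : χ 1 <;> simp_all
  have hinv : ∀ σ, χ σ⁻¹ = χ σ := by
    intro σ
    have := hm σ σ⁻¹
    rw [mul_inv_cancel, h1] at this
    generalize χ σ = u at this ⊢
    generalize χ σ⁻¹ = v at this ⊢
    revert u v
    decide
  by_cases htriv : ∀ σ, χ σ = false
  · refine ⟨1, one_ne_zero, fun s hs σ => ⟨fun _ => ?_, fun h => ?_⟩⟩
    · have hs' : s ^ 2 = 1 ^ 2 := by rw [hs, map_one, one_pow]
      rcases sq_eq_sq_iff_eq_or_eq_neg.1 hs' with h | h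
      · rw [h, map_one]
      · rw [h, map_neg, map_one]
    · rw [htriv σ] at h
      exact absurd h (by decide)
  push Not at htriv
  obtain ⟨τ, hτ⟩ := htriv
  have hτ' : χ τ = true := by simpa using hτ
  let N : Subgroup (Gal K) :=
    { carrier := {σ | χ σ = false}
      one_mem' := h1
      mul_mem' := by
        intro a b ha hb
        simp only [Set.mem_ofPred_eq] at ha hb ⊢
        rw [hm, ha, hb]
        rfl
      inv_mem' := by
        intro a ha
        simp only [Set.mem_ofPred_eq] at ha ⊢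
        rw [hinv, ha] }
  have hN : ∀ σ, σ ∈ N ↔ χ σ = false := fun σ => Iff.rfl
  have hcl : IsClosed (N : Set (Gal K)) := by
    have : (N : Set (Gal K)) = χ ⁻¹' {false} := by
      ext σ
      simp [hN]
    rw [this]
    exact hc.isClosed_fiber false
  let N' : ClosedSubgroup (Gal K) := { N with isClosed' := hcl }
  have hfix := InfiniteGalois.fixingSubgroup_fixedField (k := K) (K := AlgebraicClosure K) N'
  obtain ⟨x, hx, hxτ⟩ : ∃ x : AlgebraicClosure K, (∀ σ : Gal K, χ σ = false → σ x = x) ∧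
      τ x ≠ x := by
    by_contra hcon
    push Not at hcon
    have h2 : τ ∈ (IntermediateField.fixedField N'.toSubgroup).fixingSubgroup := by
      rw [IntermediateField.mem_fixingSubgroup_iff]
      intro x hx
      rw [IntermediateField.mem_fixedField_iff] at hx
      exact hcon x (fun σ hσ => hx σ hσ)
    rw [hfix] at h2
    exact hτ h2
  obtain ⟨s, hs⟩ : ∃ s : AlgebraicClosure K, s = x - τ x := ⟨_, rfl⟩
  have hs0 : s ≠ 0 := fun h => hxτ (sub_eq_zero.1 (hs ▸ h)).symm
  have hfixτ : ∀ σ : Gal K, χ σ = false → σ (τ x) = τ x := by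
    intro σ hσ
    have h2 : χ (τ⁻¹ * σ * τ) = false := by
      rw [hm, hm, hinv, hσ, hτ']
      rfl
    have h3 := hx _ h2
    rw [AlgEquiv.mul_apply, AlgEquiv.mul_apply] at h3
    have h4 := congrArg τ h3
    rw [← AlgEquiv.mul_apply τ τ⁻¹, mul_inv_cancel, AlgEquiv.one_apply] at h4
    exact h4
  have hττ : τ (τ x) = x := by
    have h2 : χ (τ * τ) = false := by
      rw [hm, hτ']
      rfl
    have h3 := hx _ h2
    rwa [AlgEquiv.mul_apply] at h3
  have hσ0 : ∀ σ : Gal K, χ σ = false → σ s = s := by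
    intro σ hσ
    rw [hs, map_sub, hx σ hσ, hfixτ σ hσ]
  have hτs : τ s = -s := by
    rw [hs, map_sub, hττ]
    ring
  have hσ1 : ∀ σ : Gal K, χ σ = true → σ s = -s := by
    intro σ hσ
    have h2 : χ (τ⁻¹ * σ) = false := by
      rw [hm, hinv, hσ, hτ']
      rfl
    have h3 := hσ0 _ h2
    rw [AlgEquiv.mul_apply] at h3
    have h4 := congrArg τ h3
    rw [← AlgEquiv.mul_apply τ τ⁻¹, mul_inv_cancel, AlgEquiv.one_apply, hτs] at h4
    exact h4
  obtain ⟨q, hq⟩ : ∃ q : K, algebraMap K (AlgebraicClosure K) q = s ^ 2 := by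
    apply fix_mem
    intro σ
    rw [map_pow]
    cases h : χ σ
    · rw [hσ0 σ h]
    · rw [hσ1 σ h]
      ring
  have hq0 : q ≠ 0 := by
    rintro rfl
    rw [map_zero] at hq
    exact hs0 (pow_eq_zero_iff two_ne_zero |>.1 hq.symm)
  refine ⟨q, hq0, fun t ht σ => ?_⟩
  have h5 : t ^ 2 = s ^ 2 := by rw [ht, hq]
  rcases sq_eq_sq_iff_eq_or_eq_neg.1 h5 with h8 | h8
  · rw [h8]
    exact ⟨hσ0 σ, hσ1 σ⟩
  · rw [h8, map_neg]
    exact ⟨fun h => by rw [hσ0 σ h], fun h => by rw [hσ1 σ h]⟩

end

end Pool.Agent.Y682
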