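import Mathlib
import Pool.Agent.TH841.SH.Alg2
import Pool.Agent.Y682.KumK

/-!
# Descent by a rational point of order two: the local computations
-/

set_option autoImplicit false

namespace Pool.Agent.Y682

open WeierstrassCurve

open Pool.Agent.TH841.SH (IsR IsX gf isX_zero isX_some not_isX)

open Pool.Agent.TH841.SH.D (Pt act Gal Coch IsCoc IsCob LocTriv)

/-- the curve `y² = x³ + A x² + B x` -/
structure IsT {k : Type} [Field k] (W : WeierstrassCurve k) (A B : k) : Prop where
  h1 : W.a₁ = 0
  h2 : W.a₂ = A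
  h3 : W.a₃ = 0
  h4 : W.a₄ = B
  h6 : W.a₆ = 0
  hB : B ≠ 0
  hD : A ^ 2 - 4 * B ≠ 0

section base

variable {k : Type} [Field k] [CharZero k] {W : WeierstrassCurve k} {A B : k}

lemma IsT.base (h : IsT W A B) {L : Type} [Field L] [Algebra k L] :
    IsT (W.baseChange L) (algebraMap k L A) (algebraMap k L B) where
  h1 := by show algebraMap k L W.a₁ = 0; rw [h.h1, map_zero]
  h2 := by show algebraMap k L W.a₂ = _; rw [h.h2]
  h3 := by show algebraMap k L W.a₃ = 0; rw [h.h3, map_zero]
  h4 := by show algebraMap k L W.a₄ = _; rw [h.h4]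
  h6 := by show algebraMap k L W.a₆ = 0; rw [h.h6, map_zero]
  hB := (map_ne_zero _).2 h.hB
  hD := by
    have := (map_ne_zero (algebraMap k L)).2 h.hD
    rwa [map_sub, map_pow, map_mul, map_ofNat] at this

/-- over an algebraically closed field there are three roots -/
lemma IsT.roots {L : Type} [Field L] [CharZero L] [IsAlgClosed L] {V : WeierstrassCurve L}
    {A B : L} (h : IsT V A B) : ∃ r s : L, IsR V 0 r s ∧ r + s = -A ∧ r * s = B ∧ r ≠ 0 ∧ s ≠ 0 ∧
      r ≠ s := by
  obtain ⟨δ, hδ⟩ := IsAlgClosed.exists_pow_nat_eq (A ^ 2 - 4 * B) (n := 2) (by norm_num)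
  have h1 : (-A + δ) / 2 + (-A - δ) / 2 = -A := by ring
  have h2 : (-A + δ) / 2 * ((-A - δ) / 2) = B := by
    field_simp
    linear_combination (-1 : L) * hδ
  refine ⟨(-A + δ) / 2, (-A - δ) / 2, ⟨h.h1, ?_, h.h3, ?_, ?_⟩, h1, h2, ?_, ?_, ?_⟩
  · rw [h.h2]; linear_combination -h1
  · rw [h.h4]; linear_combination -h2
  · rw [h.h6]; ring
  · intro h0
    rw [h0, zero_mul] at h2
    exact h.hB h2.symm
  · intro h0
    rw [h0, mul_zero] at h2
    exact h.hB h2.symm
  · intro h0
    have h3 : δ = 0 := by linear_combination h0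
    rw [h3, zero_pow two_ne_zero] at hδ
    exact h.hD hδ.symm

omit [CharZero k] in
lemma IsT.eqn (h : IsT W A B) (x y : k) :
    W.toAffine.Equation x y ↔ y ^ 2 = x * (x ^ 2 + A * x + B) := by
  rw [Affine.equation_iff]
  show y ^ 2 + W.a₁ * x * y + W.a₃ * y = x ^ 3 + W.a₂ * x ^ 2 + W.a₄ * x + W.a₆ ↔ _
  rw [h.h1, h.h2, h.h3, h.h4, h.h6]
  constructor
  · intro h; linear_combination h
  · intro h; linear_combination h

end base

section act

variable {k : Type} [Field k] (W : WeierstrassCurve k)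

lemma act_some {F L : Type} [Field F] [Field L] [Algebra k F] [Algebra k L] (φ : F →ₐ[k] L)
    {x y : F} (h : (W.baseChange F).toAffine.Nonsingular x y) :
    act W φ (.some x y h) =
      .some (φ x) (φ y) ((Affine.baseChange_nonsingular W φ.injective ..).mpr h) := rfl

lemma act_isX {F L : Type} [Field F] [Field L] [Algebra k F] [Algebra k L] (φ : F →ₐ[k] L)
    (T : Pt W F) : IsX (W.baseChange L) 0 (act W φ T) ↔ IsX (W.baseChange F) 0 T := by
  rcases T with _ | ⟨x, y, h⟩
  · exact ⟨fun _ => Or.inl rfl, fun _ => Or.inl rfl⟩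
  · by_cases hx : x = 0
    · subst hx
      refine ⟨fun _ => isX_some h, fun _ => ?_⟩
      rw [act_some]
      right
      refine ⟨φ y, ?_, ?_⟩
      · have := (Affine.baseChange_nonsingular W φ.injective ..).mpr h
        rwa [map_zero] at this
      · congr 1
        exact map_zero φ
    · refine ⟨fun h' => absurd h' ?_, fun h' => absurd h' (not_isX h hx)⟩
      rw [act_some]
      apply not_isX
      intro h2
      apply hx
      apply φ.injective
      show φ x = φ 0
      rw [h2, map_zero]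

end act

section alg

variable {L : Type} [Field L] [DecidableEq L] {V : WeierstrassCurve L} {a b c : L}

/-- the abscissa of the translates of a point `P` such that `2 P` has order two -/
lemma sign_u (h : IsR V a b c) (h2 : (2 : L) ≠ 0) (hab : a ≠ b) (hac : a ≠ c) (hbc : b ≠ c)
    {u v : L} (hn : V.toAffine.Nonsingular u v) (hv : v ≠ 0)
    (hu : (u - a) ^ 2 = (a - b) * (a - c)) {T : V.toAffine.Point}
    (hT : T + T = 0) {u' v' : L} {hn' : V.toAffine.Nonsingular u' v'}
    (he : (Affine.Point.some u v hn : V.toAffine.Point) + T = .some u' v' hn') :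
    (IsX V a T → u' - a = u - a) ∧ (¬ IsX V a T → u' - a = - (u - a)) := by
  rcases h.tors h2 hT with rfl | ⟨ha, rfl⟩ | ⟨hb, rfl⟩ | ⟨hc, rfl⟩
  · rw [add_zero, Affine.Point.some.injEq] at he
    exact ⟨fun _ => by rw [he.1], fun h' => absurd (isX_zero a) h'⟩
  · obtain ⟨X, Y, hn'', e1, q1, q2, q3, hX, hY⟩ := h.trans hn hv ha
    rw [e1, Affine.Point.some.injEq] at he
    refine ⟨fun _ => ?_, fun h' => absurd (isX_some ha) h'⟩
    rw [← he.1, hX]
    field_simp
    linear_combination -hu
  · obtain ⟨X, Y, hn'', e1, q1, q2, q3, hX, hY⟩ := h.swap.trans hn hv hb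
    rw [e1, Affine.Point.some.injEq] at he
    refine ⟨fun h' => absurd h' (not_isX hb hab.symm), fun _ => ?_⟩
    rw [← he.1, hX]
    field_simp
    linear_combination hu
  · obtain ⟨X, Y, hn'', e1, q1, q2, q3, hX, hY⟩ := h.rot.rot.trans hn hv hc
    rw [e1, Affine.Point.some.injEq] at he
    refine ⟨fun h' => absurd h' (not_isX hc hac.symm), fun _ => ?_⟩
    rw [← he.1, hX]
    field_simp
    linear_combination hu

end alg

end Pool.Agent.Y682
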