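import Mathlib
import Pool.Agent.Y682.Isg

/-!
# Descent by a rational point of order two: local images
-/

set_option autoImplicit false

namespace Pool.Agent.Y682

open WeierstrassCurve

open Pool.Agent.TH841.SH (IsR IsX gf isX_zero isX_some not_isX)

open Pool.Agent.TH841.SH.D (Pt act Gal Coch IsCoc IsCob LocTriv)

section

variable {k : Type} [Field k] [CharZero k] {W : WeierstrassCurve k} {A B : k}
  {F : Type} [Field F] [CharZero F] [Algebra k F]

/-- the action of the absolute Galois group of `F` -/
noncomputable abbrev aT (W : WeierstrassCurve k) (τ : Gal F) :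
    Pt W (AlgebraicClosure F) →+ Pt W (AlgebraicClosure F) :=
  act W (τ.toAlgHom.restrictScalars k)

/-- an affine point -/
def sm {L : Type} [Field L] [Algebra k L] (u v : L)
    (h : (W.baseChange L).toAffine.Nonsingular u v) : Pt W L := .some u v h

omit [CharZero k] in
lemma sm_inj {L : Type} [Field L] [Algebra k L] {u v u' v' : L}
    {h : (W.baseChange L).toAffine.Nonsingular u v}
    {h' : (W.baseChange L).toAffine.Nonsingular u' v'} (e : sm u v h = sm u' v' h') :
    u = u' ∧ v = v' :=
  (Affine.Point.some.injEq _ _ _ _ _ _).mp e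

omit [CharZero k] in
lemma act_sm {L L' : Type} [Field L] [Algebra k L] [Field L'] [Algebra k L'] (φ : L →ₐ[k] L')
    {u v : L} (h : (W.baseChange L).toAffine.Nonsingular u v) :
    act W φ (sm u v h) =
      sm (φ u) (φ v) ((Affine.baseChange_nonsingular W φ.injective ..).mpr h) := rfl

omit [CharZero k] in
lemma sm_ne_zero {L : Type} [Field L] [Algebra k L] {u v : L}
    (h : (W.baseChange L).toAffine.Nonsingular u v) : sm u v h ≠ 0 :=
  Affine.Point.some_ne_zero _

omit [CharZero k] [CharZero F] in
/-- a point in the base change -/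
lemma pt_zero_or (P : Pt W (AlgebraicClosure F)) : P = 0 ∨ ∃ (u v : AlgebraicClosure F)
    (h : (W.baseChange (AlgebraicClosure F)).toAffine.Nonsingular u v), P = sm u v h := by
  rcases P with _ | ⟨u, v, h⟩
  · left; rfl
  · right; exact ⟨u, v, h, rfl⟩

omit [CharZero k] in
/-- coordinates of a fixed point -/
lemma fix_coord {u v : AlgebraicClosure F}
    (h : (W.baseChange (AlgebraicClosure F)).toAffine.Nonsingular u v)
    (hfix : ∀ τ : Gal F, aT W τ (sm u v h) = sm u v h) :
    ∃ x y : F, algebraMap F _ x = u ∧ algebraMap F _ y = v := by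
  have h1 : ∀ τ : Gal F, τ u = u ∧ τ v = v := by
    intro τ
    have h2 := hfix τ
    rw [act_sm] at h2
    exact sm_inj h2
  obtain ⟨x, hx⟩ := fix_mem u fun τ => (h1 τ).1
  obtain ⟨y, hy⟩ := fix_mem v fun τ => (h1 τ).2
  exact ⟨x, y, hx, hy⟩

/-- the local image of the first descent map -/
lemma local1 (hT : IsT W A B) (P : Pt W (AlgebraicClosure F))
    (hP : ∀ τ : Gal F, aT W τ (P + P) = P + P) :
    ∃ (g : AlgebraicClosure F) (m : F), g ≠ 0 ∧ g ^ 2 = algebraMap F _ m ∧
      (m = 1 ∨ m = algebraMap k F B ∨ (m ≠ 0 ∧ ∃ y : F,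
        y ^ 2 = m * (m ^ 2 + algebraMap k F A * m + algebraMap k F B))) ∧
      ∀ τ : Gal F, (IsX (W.baseChange (AlgebraicClosure F)) 0 (aT W τ P - P) → τ g = g) ∧
        (¬ IsX (W.baseChange (AlgebraicClosure F)) 0 (aT W τ P - P) → τ g = -g) := by
  classical
  have h2 : (2 : AlgebraicClosure F) ≠ 0 := two_ne_zero
  have hT' := hT.base (L := AlgebraicClosure F)
  obtain ⟨r, s, hR, hrs1, hrs2, hr0, hs0, hrs⟩ := hT'.roots
  have hTt : ∀ τ : Gal F, (aT W τ P - P) + (aT W τ P - P) = 0 := by
    intro τ
    have h3 : (aT W τ P - P) + (aT W τ P - P) = aT W τ (P + P) - (P + P) := by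
      rw [map_add]; abel
    rw [h3, hP, sub_self]
  have h2tors : P + P = 0 → ∀ τ : Gal F,
      IsX (W.baseChange (AlgebraicClosure F)) 0 (aT W τ P - P) := by
    intro hPP τ
    have h4 : aT W τ P - P = aT W τ P + P := by
      rw [sub_eq_add_neg]
      congr 1
      exact neg_eq_of_add_eq_zero_left hPP
    rw [h4]
    have h5 : aT W τ P + aT W τ P = 0 := by rw [← map_add, hPP, map_zero]
    have h6 := @IsR.isX_add _ _ _ _ _ _ (Classical.decEq _) hR h2 hr0.symm hs0.symm hrs
      (aT W τ P) P h5 hPP
    exact h6.2 (act_isX W _ P)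
  rcases pt_zero_or P with rfl | ⟨u, v, hn, rfl⟩
  · refine ⟨1, 1, one_ne_zero, by rw [map_one, one_pow], Or.inl rfl, fun τ => ⟨fun _ => map_one τ,
      fun h => absurd (h2tors (add_zero 0) τ) h⟩⟩
  · have he := (hT'.eqn u v).1 hn.1
    by_cases hv : v = 0
    · refine ⟨1, 1, one_ne_zero, by rw [map_one, one_pow], Or.inl rfl,
        fun τ => ⟨fun _ => map_one τ, fun h => absurd (h2tors ?_ τ) h⟩⟩
      exact (@IsR.add_self _ _ _ _ _ _ (Classical.decEq _) hR h2 _ _ hn).2 hv
    · have hact : ∀ τ : Gal F, aT W τ (sm u v hn) =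
          (sm u v hn) +
            (aT W τ (sm u v hn) - sm u v hn) := by
        intro τ; abel
      have hgf : gf (W.baseChange (AlgebraicClosure F)) 0 r s (sm u v hn) =
          (u ^ 2 - algebraMap k _ B) / (2 * v) := by
        show ((u - 0) ^ 2 - (0 - r) * (0 - s)) / (2 * v) = _
        rw [← hrs2]; ring
      have hgfτ : ∀ τ : Gal F, ∀ u' v' : AlgebraicClosure F, u' = τ u → v' = τ v →
          ∀ hn' : (W.baseChange (AlgebraicClosure F)).toAffine.Nonsingular u' v',
          gf (W.baseChange (AlgebraicClosure F)) 0 r s (.some u' v' hn') =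
          τ (gf (W.baseChange (AlgebraicClosure F)) 0 r s (sm u v hn)) := by
        rintro τ _ _ rfl rfl hn'
        have hB : τ (algebraMap k (AlgebraicClosure F) B) = algebraMap k (AlgebraicClosure F) B :=
          (τ.toAlgHom.restrictScalars k).commutes B
        rw [hgf, map_div₀, map_sub, map_pow, map_mul, map_ofNat, hB]
        show ((τ u - 0) ^ 2 - (0 - r) * (0 - s)) / (2 * τ v) = _
        rw [← hrs2]; ring
      have hsign : ∀ τ : Gal F,
          (IsX (W.baseChange (AlgebraicClosure F)) 0
            (aT W τ (sm u v hn) - sm u v hn) →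
            τ (gf (W.baseChange (AlgebraicClosure F)) 0 r s (sm u v hn)) =
              gf (W.baseChange (AlgebraicClosure F)) 0 r s (sm u v hn)) ∧
          (¬ IsX (W.baseChange (AlgebraicClosure F)) 0
            (aT W τ (sm u v hn) - sm u v hn) →
            τ (gf (W.baseChange (AlgebraicClosure F)) 0 r s (sm u v hn)) =
              - gf (W.baseChange (AlgebraicClosure F)) 0 r s (sm u v hn)) := by
        intro τ
        obtain ⟨u', v', hn', e1, e2, e3, e4⟩ := @IsR.sign _ _ _ _ _ _ (Classical.decEq _) hR h2
          hr0.symm hs0.symm hrs _ _ hn hv _ (hTt τ)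
        have e5 := (hact τ).trans e1
        rw [act_sm] at e5
        obtain ⟨e6, e7⟩ := sm_inj (W := W) e5
        have e8 := hgfτ τ u' v' e6.symm e7.symm hn'
        rw [e8] at e3 e4
        exact ⟨e3, e4⟩
      by_cases hg : gf (W.baseChange (AlgebraicClosure F)) 0 r s (sm u v hn) = 0
      · -- `2 P` is the rational point of order two
        have hu2 : u ^ 2 = algebraMap k (AlgebraicClosure F) B := by
          rw [hgf, div_eq_zero_iff] at hg
          rcases hg with h | h
          · exact sub_eq_zero.1 h
          · exact absurd h (mul_ne_zero h2 hv)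
        have hu0 : u ≠ 0 := by
          rintro rfl
          rw [zero_pow two_ne_zero] at hu2
          exact hT'.hB hu2.symm
        refine ⟨u, algebraMap k F B, hu0, ?_, Or.inr (Or.inl rfl), fun τ => ?_⟩
        · rw [hu2]
          exact IsScalarTower.algebraMap_apply k F (AlgebraicClosure F) B
        · obtain ⟨u', v', hn', e1, e2, e3, e4⟩ := @IsR.sign _ _ _ _ _ _ (Classical.decEq _) hR h2
            hr0.symm hs0.symm hrs _ _ hn hv _ (hTt τ)
          have e5 := (hact τ).trans e1
          rw [act_sm] at e5
          obtain ⟨e6, e7⟩ := sm_inj (W := W) e5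
          have e8 := @sign_u _ _ (Classical.decEq _) _ _ _ _ hR h2 hr0.symm hs0.symm hrs _ _ hn hv
            (by rw [sub_zero, hu2, ← hrs2]; ring) _ (hTt τ) _ _ _ e1
          rw [sub_zero, sub_zero] at e8
          have e9 : τ u = u' := e6
          rw [e9]
          exact e8
      · obtain ⟨X, Y, hn', e1, e2⟩ := @IsR.dup _ _ _ _ _ _ (Classical.decEq _) hR h2 _ _ hn hv
        have hfix : ∀ τ : Gal F, aT W τ (sm X Y hn') = sm X Y hn' := by
          intro τ
          have := hP τ
          have e1' : (sm u v hn : Pt W (AlgebraicClosure F)) + sm u v hn = sm X Y hn' := e1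
          rwa [e1'] at this
        obtain ⟨x, y, hx, hy⟩ := fix_coord hn' hfix
        have e2' : X = gf (W.baseChange (AlgebraicClosure F)) 0 r s (sm u v hn) ^ 2 := by
          rw [sub_zero] at e2
          exact e2
        refine ⟨_, x, hg, ?_, Or.inr (Or.inr ⟨?_, y, ?_⟩), hsign⟩
        · rw [← e2', hx]
        · rintro rfl
          rw [map_zero] at hx
          rw [← hx] at e2'
          exact hg (pow_eq_zero_iff two_ne_zero |>.1 e2'.symm)
        · apply (algebraMap F (AlgebraicClosure F)).injective
          have := (hT'.eqn X Y).1 hn'.1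
          rw [map_pow, hy, this, map_mul, map_add, map_add, map_mul, map_pow, hx,
            ← IsScalarTower.algebraMap_apply, ← IsScalarTower.algebraMap_apply]

/-- the local image of the second descent map -/
lemma local2 (hT : IsT W A B) (P : Pt W (AlgebraicClosure F))
    (hP : ∀ τ : Gal F, aT W τ (P + P) = P + P)
    (hX : ∀ τ : Gal F, IsX (W.baseChange (AlgebraicClosure F)) 0 (aT W τ P - P)) :
    ∃ (g : AlgebraicClosure F) (m : F), g ≠ 0 ∧ g ^ 2 = algebraMap F _ m ∧
      (m = 1 ∨ m = algebraMap k F (A ^ 2 - 4 * B) ∨ (m ≠ 0 ∧ ∃ y : F,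
        y ^ 2 = m * ((m - algebraMap k F A) ^ 2 - 4 * algebraMap k F B))) ∧
      ∀ τ : Gal F, (aT W τ P - P = 0 → τ g = g) ∧ (aT W τ P - P ≠ 0 → τ g = -g) := by
  classical
  have h2 : (2 : AlgebraicClosure F) ≠ 0 := two_ne_zero
  have hT' := hT.base (L := AlgebraicClosure F)
  obtain ⟨r, s, hR, hrs1, hrs2, hr0, hs0, hrs⟩ := hT'.roots
  have hTt : ∀ τ : Gal F, (aT W τ P - P) + (aT W τ P - P) = 0 := by
    intro τ
    have h3 : (aT W τ P - P) + (aT W τ P - P) = aT W τ (P + P) - (P + P) := by
      rw [map_add]; abel
    rw [h3, hP, sub_self]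
  have hAτ : ∀ τ : Gal F, τ (algebraMap k (AlgebraicClosure F) A) =
      algebraMap k (AlgebraicClosure F) A := fun τ => (τ.toAlgHom.restrictScalars k).commutes A
  have hBτ : ∀ τ : Gal F, τ (algebraMap k (AlgebraicClosure F) B) =
      algebraMap k (AlgebraicClosure F) B := fun τ => (τ.toAlgHom.restrictScalars k).commutes B
  rcases pt_zero_or P with rfl | ⟨u, v, hn, rfl⟩
  · refine ⟨1, 1, one_ne_zero, by rw [map_one, one_pow], Or.inl rfl, fun τ => ⟨fun _ => map_one τ,
      fun h => absurd (by rw [map_zero, sub_zero]) h⟩⟩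
  · have he := (hT'.eqn u v).1 hn.1
    have hact : ∀ τ : Gal F, aT W τ (sm u v hn) =
        (sm u v hn) + (aT W τ (sm u v hn) - sm u v hn) := by
      intro τ; abel
    by_cases hv : v = 0
    · by_cases hu : u = 0
      · subst hv hu
        refine ⟨1, 1, one_ne_zero, by rw [map_one, one_pow], Or.inl rfl,
          fun τ => ⟨fun _ => map_one τ, fun h => absurd ?_ h⟩⟩
        rw [sub_eq_zero, act_sm]
        have h3 : (τ.toAlgHom.restrictScalars k) (0 : AlgebraicClosure F) = 0 := map_zero _
        congr 1
      · -- `P` has order two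
        have hu2 : u ^ 2 + algebraMap k _ A * u + algebraMap k _ B = 0 := by
          rw [hv, zero_pow two_ne_zero, eq_comm, mul_eq_zero] at he
          exact he.resolve_left hu
        have hg2 : (2 * u + algebraMap k _ A) ^ 2 =
            algebraMap F (AlgebraicClosure F) (algebraMap k F (A ^ 2 - 4 * B)) := by
          rw [← IsScalarTower.algebraMap_apply, map_sub, map_pow, map_mul, map_ofNat]
          linear_combination 4 * hu2
        have hg0 : 2 * u + algebraMap k (AlgebraicClosure F) A ≠ 0 := by
          intro h0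
          rw [h0, zero_pow two_ne_zero, eq_comm, map_eq_zero, map_eq_zero] at hg2
          exact hT.hD hg2
        refine ⟨_, _, hg0, hg2, Or.inr (Or.inl rfl), fun τ => ⟨fun h => ?_, fun h => ?_⟩⟩
        · rw [sub_eq_zero, act_sm] at h
          have h3 : τ u = u := (sm_inj (W := W) h).1
          rw [map_add, map_mul, map_ofNat, h3, hAτ]
        · have h3 : τ u ≠ u := by
            intro h3
            apply h
            rw [sub_eq_zero, act_sm]
            have h4 : (τ.toAlgHom.restrictScalars k) v = v := by rw [hv, map_zero]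
            have h5 : (τ.toAlgHom.restrictScalars k) u = u := h3
            congr 1
          have h4 := congrArg τ hu2
          rw [map_add, map_add, map_mul, map_pow, hAτ, hBτ, map_zero] at h4
          have h5 : (τ u - u) * (τ u + u + algebraMap k _ A) = 0 := by
            linear_combination h4 - hu2
          have h6 := (mul_eq_zero.1 h5).resolve_left (sub_ne_zero.2 h3)
          rw [map_add, map_mul, map_ofNat, hAτ]
          linear_combination 2 * h6
    · have hu : u ≠ 0 := by
        rintro rfl
        rw [zero_mul] at he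
        exact hv (pow_eq_zero_iff two_ne_zero |>.1 he)
      -- the action of the Galois group
      have hτ : ∀ τ : Gal F, (aT W τ (sm u v hn) - sm u v hn = 0 → τ u = u ∧ τ v = v) ∧
          (aT W τ (sm u v hn) - sm u v hn ≠ 0 → τ u = algebraMap k _ B / u ∧
            τ v = - v * algebraMap k _ B / u ^ 2) := by
        intro τ
        constructor
        · intro h
          rw [sub_eq_zero, act_sm] at h
          exact sm_inj (W := W) h
        · intro h
          rcases @IsR.tors _ _ _ _ _ _ (Classical.decEq _) hR h2 _ (hTt τ) with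
            h3 | ⟨ha, h3⟩ | ⟨hb, h3⟩ | ⟨hc, h3⟩
          · exact absurd h3 h
          · obtain ⟨X, Y, hn', e1, q1, q2, q3, hX', hY⟩ :=
              @IsR.trans _ _ _ _ _ _ (Classical.decEq _) hR _ _ hn hv ha
            have e2 : aT W τ (sm u v hn) = sm X Y hn' := by
              refine (hact τ).trans ?_
              have h4 : aT W τ (sm u v hn) - sm u v hn = sm 0 0 ha := h3
              rw [h4]
              exact e1
            rw [act_sm] at e2
            obtain ⟨e3, e4⟩ := sm_inj (W := W) e2
            have e3' : τ u = X := e3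
            have e4' : τ v = Y := e4
            rw [e3', e4', hX', hY, sub_zero, ← hrs2]
            constructor <;> ring
          · have h4 := hX τ
            have h5 : aT W τ (sm u v hn) - sm u v hn = sm r 0 hb := h3
            rw [h5] at h4
            exact absurd h4 (not_isX hb hr0)
          · have h4 := hX τ
            have h5 : aT W τ (sm u v hn) - sm u v hn = sm s 0 hc := h3
            rw [h5] at h4
            exact absurd h4 (not_isX hc hs0)
      have hB0 : algebraMap k (AlgebraicClosure F) B ≠ 0 := hT'.hB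
      have hg : ∀ τ : Gal F, (aT W τ (sm u v hn) - sm u v hn = 0 → τ (v / u) = v / u) ∧
          (aT W τ (sm u v hn) - sm u v hn ≠ 0 → τ (v / u) = -(v / u)) := by
        intro τ
        constructor
        · intro h
          obtain ⟨e1, e2⟩ := (hτ τ).1 h
          rw [map_div₀, e1, e2]
        · intro h
          obtain ⟨e1, e2⟩ := (hτ τ).2 h
          rw [map_div₀, e1, e2]
          field_simp
      have hY : ∀ τ : Gal F, τ (v * (1 - algebraMap k _ B / u ^ 2)) =
          v * (1 - algebraMap k _ B / u ^ 2) := by
        intro τ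
        by_cases h : aT W τ (sm u v hn) - sm u v hn = 0
        · obtain ⟨e1, e2⟩ := (hτ τ).1 h
          rw [map_mul, map_sub, map_div₀, map_pow, map_one, e1, e2, hBτ]
        · obtain ⟨e1, e2⟩ := (hτ τ).2 h
          rw [map_mul, map_sub, map_div₀, map_pow, map_one, e1, e2, hBτ]
          field_simp
          ring
      obtain ⟨m, hm⟩ : ∃ m : F, algebraMap F _ m = (v / u) ^ 2 := by
        apply fix_mem
        intro τ
        rw [map_pow]
        by_cases h : aT W τ (sm u v hn) - sm u v hn = 0
        · rw [(hg τ).1 h]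
        · rw [(hg τ).2 h, neg_sq]
      obtain ⟨y, hy⟩ := fix_mem _ hY
      have hg0 : v / u ≠ 0 := div_ne_zero hv hu
      refine ⟨v / u, m, hg0, hm.symm, Or.inr (Or.inr ⟨?_, y, ?_⟩), hg⟩
      · rintro rfl
        rw [map_zero] at hm
        exact hg0 (pow_eq_zero_iff two_ne_zero |>.1 hm.symm)
      · apply (algebraMap F (AlgebraicClosure F)).injective
        rw [map_pow, hy, map_mul, map_sub, map_pow, map_sub, hm, map_mul, map_ofNat,
          ← IsScalarTower.algebraMap_apply, ← IsScalarTower.algebraMap_apply]
        have e3 : (v / u) ^ 2 - algebraMap k _ A = u + algebraMap k _ B / u := by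
          rw [div_pow, he]
          field_simp
          ring
        rw [e3]
        field_simp
        ring

end

end Pool.Agent.Y682
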