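import Mathlib
import Pool.Agent.Y682.LocA
import Pool.Agent.Y682.LocV
import Pool.Agent.TH841.NF.ShaN

/-!
# Descent by a rational point of order two: the global classes
-/

set_option autoImplicit false
set_option linter.unusedSectionVars false

namespace Pool.Agent.Y682

open WeierstrassCurve

open Pool.Agent.TH841.SH (IsR IsX gf isX_zero isX_some not_isX)

open Pool.Agent.TH841.SH.D (Pt act Gal Coch IsCoc IsCob LocTriv)

section

variable {K : Type} [Field K] [CharZero K]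

/-- restriction of automorphisms -/
lemma exists_restr {F : Type} [Field F] [Algebra K F]
    (ι : AlgebraicClosure K →ₐ[K] AlgebraicClosure F) (τ : Gal F) :
    ∃ σ : Gal K, ∀ x, τ (ι x) = ι (σ x) := by
  let _ : Algebra (AlgebraicClosure K) (AlgebraicClosure F) := ι.toRingHom.toAlgebra
  have : IsScalarTower K (AlgebraicClosure K) (AlgebraicClosure F) :=
    IsScalarTower.of_algebraMap_eq (fun x => (ι.commutes x).symm)
  let τ' : AlgebraicClosure F ≃ₐ[K] AlgebraicClosure F := τ.restrictScalars K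
  refine ⟨τ'.restrictNormal (AlgebraicClosure K), fun x => ?_⟩
  exact (AlgEquiv.restrictNormal_commutes τ' (AlgebraicClosure K) x).symm

/-- the Kummer class of a character over a local field -/
lemma loc_comb {F : Type} [Field F] [CharZero F] [Algebra K F] {b : K} (hb : b ≠ 0)
    {χ : Gal K → Bool} (hχ : ∀ s : AlgebraicClosure K, s ^ 2 = algebraMap K _ b →
      ∀ σ : Gal K, (χ σ = false → σ s = s) ∧ (χ σ = true → σ s = -s))
    (ι : AlgebraicClosure K →ₐ[K] AlgebraicClosure F) {g : AlgebraicClosure F} {m : F}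
    (hg : g ≠ 0) (hgm : g ^ 2 = algebraMap F _ m)
    (h : ∀ (τ : Gal F) (σ : Gal K), (∀ x, τ (ι x) = ι (σ x)) →
      (χ σ = false → τ g = g) ∧ (χ σ = true → τ g = -g)) :
    ∃ z : F, z ≠ 0 ∧ algebraMap K F b * z ^ 2 = m := by
  obtain ⟨s, hs⟩ := IsAlgClosed.exists_pow_nat_eq (algebraMap K (AlgebraicClosure K) b) (n := 2)
    (by norm_num)
  have hs0 : s ≠ 0 := by
    rintro rfl
    rw [zero_pow two_ne_zero, eq_comm, map_eq_zero] at hs
    exact hb hs
  have h1 := hχ s hs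
  obtain ⟨t, ht⟩ := fix_mem (ι s * g) (fun τ => by
    obtain ⟨σ, hσ⟩ := exists_restr ι τ
    obtain ⟨h2, h3⟩ := h τ σ hσ
    obtain ⟨h4, h5⟩ := h1 σ
    rw [map_mul, hσ]
    cases hc : χ σ
    · rw [h2 hc, h4 hc]
    · rw [h3 hc, h5 hc, map_neg, neg_mul_neg])
  have hb' : algebraMap K F b ≠ 0 := (map_ne_zero _).2 hb
  have hιs : ι s ≠ 0 := (map_ne_zero ι).2 hs0
  have ht0 : t ≠ 0 := by
    rintro rfl
    rw [map_zero] at ht
    exact mul_ne_zero hιs hg ht.symm
  have h2 : t ^ 2 = algebraMap K F b * m := by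
    apply (algebraMap F (AlgebraicClosure F)).injective
    rw [map_pow, ht, mul_pow, map_mul, ← hgm, ← map_pow, hs, AlgHom.commutes,
      IsScalarTower.algebraMap_apply K F (AlgebraicClosure F)]
  refine ⟨t / algebraMap K F b, div_ne_zero ht0 hb', ?_⟩
  rw [div_pow, h2]
  field_simp

end

section coc

variable {K : Type} [Field K] [CharZero K] {W : WeierstrassCurve K} {A B : K}

/-- the first local image -/
def S1 {F : Type} [Field F] (A B m : F) : Prop :=
  m = 1 ∨ m = B ∨ (m ≠ 0 ∧ ∃ y : F, y ^ 2 = m * (m ^ 2 + A * m + B))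

/-- the second local image -/
def S2 {F : Type} [Field F] (A B m : F) : Prop :=
  m = 1 ∨ m = A ^ 2 - 4 * B ∨ (m ≠ 0 ∧ ∃ y : F, y ^ 2 = m * ((m - A) ^ 2 - 4 * B))

open Classical in
/-- the first character -/
noncomputable def c1 (f : Coch W) (σ : Gal K) : Bool :=
  decide (¬ IsX (W.baseChange (AlgebraicClosure K)) 0 (f σ))

lemma c1_false (f : Coch W) (σ : Gal K) :
    c1 f σ = false ↔ IsX (W.baseChange (AlgebraicClosure K)) 0 (f σ) := by
  unfold c1
  rw [decide_eq_false_iff_not, not_not]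

lemma c1_true (f : Coch W) (σ : Gal K) :
    c1 f σ = true ↔ ¬ IsX (W.baseChange (AlgebraicClosure K)) 0 (f σ) := by
  classical
  unfold c1
  exact @decide_eq_true_iff _ _

lemma isX_add (hT : IsT W A B) {P Q : Pt W (AlgebraicClosure K)} (hP : P + P = 0)
    (hQ : Q + Q = 0) : IsX (W.baseChange (AlgebraicClosure K)) 0 (P + Q) ↔
      (IsX (W.baseChange (AlgebraicClosure K)) 0 P ↔
        IsX (W.baseChange (AlgebraicClosure K)) 0 Q) := by
  obtain ⟨r, s, hR, hrs1, hrs2, hr0, hs0, hrs⟩ := (hT.base (L := AlgebraicClosure K)).roots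
  exact @IsR.isX_add _ _ _ _ _ _ (Classical.decEq _) hR two_ne_zero hr0.symm hs0.symm hrs P Q hP hQ

lemma c1_mul (hT : IsT W A B) {f : Coch W} (hf : IsCoc W f) (h2 : ∀ σ, f σ + f σ = 0)
    (σ τ : Gal K) : c1 f (σ * τ) = xor (c1 f σ) (c1 f τ) := by
  have h3 : act W σ.toAlgHom (f τ) + act W σ.toAlgHom (f τ) = 0 := by
    rw [← map_add, h2, map_zero]
  have h4 := isX_add hT (h2 σ) h3
  rw [← hf.2, act_isX] at h4
  cases h5 : c1 f σ <;> cases h6 : c1 f τ <;>
    simp only [c1_false, c1_true] at h5 h6 <;> simp [c1_false, c1_true, h4, h5, h6]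

lemma c1_lc {f : Coch W} (hf : IsCoc W f) : IsLocallyConstant (c1 f) :=
  hf.1.comp (fun P => (open Classical in
    decide (¬ IsX (W.baseChange (AlgebraicClosure K)) 0 P)))

open Classical in
/-- the second character -/
noncomputable def c2 (f : Coch W) (σ : Gal K) : Bool := decide (f σ ≠ 0)

lemma c2_false (f : Coch W) (σ : Gal K) : c2 f σ = false ↔ f σ = 0 := by
  unfold c2
  rw [decide_eq_false_iff_not, not_not]

lemma c2_true (f : Coch W) (σ : Gal K) : c2 f σ = true ↔ f σ ≠ 0 := by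
  classical
  unfold c2
  exact @decide_eq_true_iff _ _

/-- two points of order two with abscissa zero are equal -/
lemma isX_ext (hT : IsT W A B) {P Q : Pt W (AlgebraicClosure K)} (hP : P + P = 0)
    (hQ : Q + Q = 0) (hP1 : IsX (W.baseChange (AlgebraicClosure K)) 0 P)
    (hQ1 : IsX (W.baseChange (AlgebraicClosure K)) 0 Q) (hP0 : P ≠ 0) (hQ0 : Q ≠ 0) : P = Q := by
  obtain ⟨r, s, hR, hrs1, hrs2, hr0, hs0, hrs⟩ := (hT.base (L := AlgebraicClosure K)).roots
  have key : ∀ R : Pt W (AlgebraicClosure K), R + R = 0 →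
      IsX (W.baseChange (AlgebraicClosure K)) 0 R → R ≠ 0 →
      ∃ h, R = sm (W := W) 0 0 h := by
    intro R hR1 hR2 hR3
    rcases @IsR.tors _ _ _ _ _ _ (Classical.decEq _) hR two_ne_zero _ hR1 with
      h3 | ⟨ha, h3⟩ | ⟨hb, h3⟩ | ⟨hc, h3⟩
    · exact absurd h3 hR3
    · exact ⟨ha, h3⟩
    · rw [h3] at hR2; exact absurd hR2 (not_isX hb hr0)
    · rw [h3] at hR2; exact absurd hR2 (not_isX hc hs0)
  obtain ⟨h1, e1⟩ := key P hP hP1 hP0
  obtain ⟨h2, e2⟩ := key Q hQ hQ1 hQ0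
  rw [e1, e2]

lemma c2_mul (hT : IsT W A B) {f : Coch W} (hf : IsCoc W f) (h2 : ∀ σ, f σ + f σ = 0)
    (hX : ∀ σ, IsX (W.baseChange (AlgebraicClosure K)) 0 (f σ)) (σ τ : Gal K) :
    c2 f (σ * τ) = xor (c2 f σ) (c2 f τ) := by
  have h3 : act W σ.toAlgHom (f τ) + act W σ.toAlgHom (f τ) = 0 := by
    rw [← map_add, h2, map_zero]
  have h4 : IsX (W.baseChange (AlgebraicClosure K)) 0 (act W σ.toAlgHom (f τ)) :=
    (act_isX W _ _).2 (hX τ)
  have h5 : act W σ.toAlgHom (f τ) = 0 ↔ f τ = 0 := by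
    constructor
    · intro h
      rcases pt_zero_or (f τ) with h6 | ⟨u, v, hn, h6⟩
      · exact h6
      · rw [h6, act_sm] at h
        exact absurd h (sm_ne_zero _)
    · intro h
      rw [h, map_zero]
  cases h6 : c2 f σ <;> cases h7 : c2 f τ
  · rw [c2_false] at h6 h7
    simp [c2_false, hf.2, h6, h7]
  · rw [c2_false] at h6
    rw [c2_true] at h7
    simp only [Bool.xor_true, Bool.not_false, c2_true, hf.2, h6, zero_add]
    exact fun h => h7 (h5.1 h)
  · rw [c2_true] at h6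
    rw [c2_false] at h7
    simp only [Bool.xor_false, c2_true, hf.2, h5.2 h7, add_zero]
    exact h6
  · rw [c2_true] at h6 h7
    simp only [Bool.xor_self, c2_false, hf.2]
    have h8 := isX_ext hT (h2 σ) h3 (hX σ) h4 h6 (fun h => h7 (h5.1 h))
    rw [← h8]
    exact h2 σ

lemma c2_lc {f : Coch W} (hf : IsCoc W f) : IsLocallyConstant (c2 f) :=
  hf.1.comp (fun P => (open Classical in decide (P ≠ 0)))

/-- local triviality gives a point whose double is fixed -/
lemma loc_pt {F : Type} [Field F] [Algebra K F] {f : Coch W} (h2 : ∀ σ, f σ + f σ = 0)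
    (hl : LocTriv W F f) (ι : AlgebraicClosure K →ₐ[K] AlgebraicClosure F) :
    ∃ P : Pt W (AlgebraicClosure F), (∀ τ : Gal F, aT W τ (P + P) = P + P) ∧
      ∀ (τ : Gal F) (σ : Gal K), (∀ x, τ (ι x) = ι (σ x)) → act W ι (f σ) = aT W τ P - P := by
  obtain ⟨P, hP⟩ := hl ι
  refine ⟨P, fun τ => ?_, hP⟩
  obtain ⟨σ, hσ⟩ := exists_restr ι τ
  have h3 := hP τ σ hσ
  have h4 : (aT W τ P - P) + (aT W τ P - P) = 0 := by
    have h5 : act W ι (f σ) + act W ι (f σ) = 0 := by rw [← map_add, h2, map_zero]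
    rw [h3] at h5
    exact h5
  have h6 : aT W τ (P + P) - (P + P) = (aT W τ P - P) + (aT W τ P - P) := by
    rw [map_add]; abel
  rw [← sub_eq_zero, h6, h4]

/-- the first class of a cocycle -/
lemma exists_b1 (hT : IsT W A B) {f : Coch W} (hf : IsCoc W f) (h2 : ∀ σ, f σ + f σ = 0) :
    ∃ b : K, b ≠ 0 ∧ (∀ s : AlgebraicClosure K, s ^ 2 = algebraMap K _ b →
      ∀ σ : Gal K, (IsX (W.baseChange (AlgebraicClosure K)) 0 (f σ) → σ s = s) ∧
        (¬ IsX (W.baseChange (AlgebraicClosure K)) 0 (f σ) → σ s = -s)) ∧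
      ∀ (F : Type) [Field F] [CharZero F] [Algebra K F], LocTriv W F f →
        ∃ z m : F, z ≠ 0 ∧ algebraMap K F b * z ^ 2 = m ∧
          S1 (algebraMap K F A) (algebraMap K F B) m := by
  obtain ⟨b, hb, hχ⟩ := kum (c1 f) (c1_lc hf) (c1_mul hT hf h2)
  refine ⟨b, hb, fun s hs σ => ?_, ?_⟩
  · have := hχ s hs σ
    rwa [c1_false, c1_true] at this
  · intro F _ _ _ hl
    let ι : AlgebraicClosure K →ₐ[K] AlgebraicClosure F := IsAlgClosed.lift
    obtain ⟨P, hP, hPf⟩ := loc_pt h2 hl ι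
    obtain ⟨g, m, hg, hgm, hm, hsgn⟩ := local1 hT P hP
    obtain ⟨z, hz, hzm⟩ := loc_comb hb hχ ι hg hgm (fun τ σ hσ => by
      have h3 := hsgn τ
      rw [← hPf τ σ hσ, act_isX] at h3
      rw [c1_false, c1_true]
      exact h3)
    exact ⟨z, m, hz, hzm, hm⟩

/-- the second class of a cocycle -/
lemma exists_b2 (hT : IsT W A B) {f : Coch W} (hf : IsCoc W f) (h2 : ∀ σ, f σ + f σ = 0)
    (hX : ∀ σ, IsX (W.baseChange (AlgebraicClosure K)) 0 (f σ)) :
    ∃ b : K, b ≠ 0 ∧ (∀ s : AlgebraicClosure K, s ^ 2 = algebraMap K _ b →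
      ∀ σ : Gal K, (f σ = 0 → σ s = s) ∧ (f σ ≠ 0 → σ s = -s)) ∧
      ∀ (F : Type) [Field F] [CharZero F] [Algebra K F], LocTriv W F f →
        ∃ z m : F, z ≠ 0 ∧ algebraMap K F b * z ^ 2 = m ∧
          S2 (algebraMap K F A) (algebraMap K F B) m := by
  obtain ⟨b, hb, hχ⟩ := kum (c2 f) (c2_lc hf) (c2_mul hT hf h2 hX)
  refine ⟨b, hb, fun s hs σ => ?_, ?_⟩
  · have := hχ s hs σ
    rwa [c2_false, c2_true] at this
  · intro F _ _ _ hl
    let ι : AlgebraicClosure K →ₐ[K] AlgebraicClosure F := IsAlgClosed.lift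
    obtain ⟨P, hP, hPf⟩ := loc_pt h2 hl ι
    have hinj : ∀ σ : Gal K, act W ι (f σ) = 0 ↔ f σ = 0 := by
      intro σ
      constructor
      · intro h
        rcases pt_zero_or (f σ) with h6 | ⟨u, v, hn, h6⟩
        · exact h6
        · rw [h6, act_sm] at h
          exact absurd h (sm_ne_zero _)
      · intro h
        rw [h, map_zero]
    obtain ⟨g, m, hg, hgm, hm, hsgn⟩ := local2 hT P hP (fun τ => by
      obtain ⟨σ, hσ⟩ := exists_restr ι τ
      rw [← hPf τ σ hσ, act_isX]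
      exact hX σ)
    obtain ⟨z, hz, hzm⟩ := loc_comb hb hχ ι hg hgm (fun τ σ hσ => by
      have h3 := hsgn τ
      rw [← hPf τ σ hσ, hinj, Ne, hinj] at h3
      rw [c2_false, c2_true]
      exact h3)
    refine ⟨z, m, hz, hzm, ?_⟩
    rcases hm with h | h | h
    · exact Or.inl h
    · refine Or.inr (Or.inl ?_)
      rw [h, map_sub, map_pow, map_mul, map_ofNat]
    · exact Or.inr (Or.inr h)

end coc

end Pool.Agent.Y682
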