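import Mathlib
import Pool.Agent.Y682.Glob
import Pool.Agent.TH841.NF.Chi

/-!
# The points of order two
-/

set_option autoImplicit false
set_option linter.unusedSectionVars false

namespace Pool.Agent.Y682

open WeierstrassCurve

open Pool.Agent.TH841.SH (IsR IsX gf isX_zero isX_some not_isX)

open Pool.Agent.TH841.SH.D (Pt act Gal Coch IsCoc IsCob LocTriv)

section

variable {k : Type} [Field k] [CharZero k] {W : WeierstrassCurve k} {A B : k}

lemma act_zero_iff {L L' : Type} [Field L] [Algebra k L] [Field L'] [Algebra k L']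
    (φ : L →ₐ[k] L') (P : Pt W L) : act W φ P = 0 ↔ P = 0 := by
  constructor
  · intro h
    rcases P with _ | ⟨u, v, hn⟩
    · rfl
    · exact absurd h (sm_ne_zero (W := W) _)
  · intro h
    rw [h, map_zero]

/-- the point of order two with abscissa zero is fixed -/
lemma tors_fix (hT : IsT W A B) {P : Pt W (AlgebraicClosure k)} (hP : P + P = 0)
    (hX : IsX (W.baseChange (AlgebraicClosure k)) 0 P) (σ : Gal k) :
    act W σ.toAlgHom P = P := by
  by_cases h0 : P = 0
  · rw [h0, map_zero]
  · refine isX_ext hT ?_ hP ((act_isX W _ P).2 hX) hX ?_ h0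
    · rw [← map_add, hP, map_zero]
    · rw [Ne, act_zero_iff]
      exact h0

/-- the other points of order two -/
lemma tors_g (hT : IsT W A B) {P : Pt W (AlgebraicClosure k)} (hP : P + P = 0)
    (hX : ¬ IsX (W.baseChange (AlgebraicClosure k)) 0 P) :
    ∃ g : AlgebraicClosure k, g ^ 2 = algebraMap k _ (A ^ 2 - 4 * B) ∧
      ∀ σ : Gal k, (act W σ.toAlgHom P = P → σ g = g) ∧ (act W σ.toAlgHom P ≠ P → σ g = -g) := by
  have hT' := hT.base (L := AlgebraicClosure k)
  obtain ⟨r, s, hR, hrs1, hrs2, hr0, hs0, hrs⟩ := hT'.roots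
  rcases pt_zero_or P with rfl | ⟨u, v, hn, rfl⟩
  · exact absurd (isX_zero 0) hX
  · have he := (hT'.eqn u v).1 hn.1
    have hv : v = 0 := (@IsR.add_self _ _ _ _ _ _ (Classical.decEq _) hR two_ne_zero _ _ hn).1 hP
    have hu : u ≠ 0 := by
      rintro rfl
      exact hX (isX_some hn)
    have hu2 : u ^ 2 + algebraMap k _ A * u + algebraMap k _ B = 0 := by
      rw [hv, zero_pow two_ne_zero, eq_comm, mul_eq_zero] at he
      exact he.resolve_left hu
    refine ⟨2 * u + algebraMap k _ A, ?_, fun τ => ⟨fun h => ?_, fun h => ?_⟩⟩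
    · rw [map_sub, map_pow, map_mul, map_ofNat]
      linear_combination 4 * hu2
    · rw [act_sm] at h
      have h3 : τ u = u := (sm_inj (W := W) h).1
      rw [map_add, map_mul, map_ofNat, h3, AlgEquiv.commutes]
    · have h3 : τ u ≠ u := by
        intro h3
        apply h
        rw [act_sm]
        have h4 : τ.toAlgHom v = v := by rw [hv, map_zero]
        have h5 : τ.toAlgHom u = u := h3
        congr 1
      have h4 := congrArg τ hu2
      rw [map_add, map_add, map_mul, map_pow, AlgEquiv.commutes, AlgEquiv.commutes, map_zero] at h4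
      have h5 : (τ u - u) * (τ u + u + algebraMap k _ A) = 0 := by
        linear_combination h4 - hu2
      have h6 := (mul_eq_zero.1 h5).resolve_left (sub_ne_zero.2 h3)
      rw [map_add, map_mul, map_ofNat, AlgEquiv.commutes]
      linear_combination 2 * h6

/-- there is a point of order two whose abscissa is not zero -/
lemma exists_tors (hT : IsT W A B) : ∃ P : Pt W (AlgebraicClosure k), P + P = 0 ∧
    ¬ IsX (W.baseChange (AlgebraicClosure k)) 0 P := by
  obtain ⟨r, s, hR, hrs1, hrs2, hr0, hs0, hrs⟩ := (hT.base (L := AlgebraicClosure k)).roots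
  have hn := hR.nons two_ne_zero hr0.symm hs0.symm hrs (x := r) (y := 0) (by ring)
  exact ⟨sm r 0 hn, (@IsR.add_self _ _ _ _ _ _ (Classical.decEq _) hR two_ne_zero _ _ hn).2 rfl,
    not_isX hn hr0⟩

/-- halving -/
lemma exists_half (hT : IsT W A B) (P : Pt W (AlgebraicClosure k)) : ∃ Q, P = Q + Q := by
  obtain ⟨r, s, hR, hrs1, hrs2, hr0, hs0, hrs⟩ := (hT.base (L := AlgebraicClosure k)).roots
  exact @IsR.div _ _ _ _ _ _ (Classical.decEq _) _ hR two_ne_zero hr0.symm hs0.symm hrs P

/-- a difference of conjugates of a point of order two -/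
lemma isX_sub (hT : IsT W A B) {P : Pt W (AlgebraicClosure k)} (hP : P + P = 0) (σ : Gal k) :
    IsX (W.baseChange (AlgebraicClosure k)) 0 (act W σ.toAlgHom P - P) := by
  have h4 : act W σ.toAlgHom P - P = act W σ.toAlgHom P + P := by
    rw [sub_eq_add_neg]
    congr 1
    exact neg_eq_of_add_eq_zero_left hP
  rw [h4]
  have h5 : act W σ.toAlgHom P + act W σ.toAlgHom P = 0 := by rw [← map_add, hP, map_zero]
  exact (isX_add hT h5 hP).2 (act_isX W _ P)

/-- coboundaries are locally trivial cocycles -/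
lemma cob_coc (P : Pt W (AlgebraicClosure k)) :
    IsCoc W (fun σ => act W σ.toAlgHom P - P : Coch W) := by
  classical
  have hmul : ∀ σ τ : Gal k, act W (σ * τ).toAlgHom P = act W σ.toAlgHom (act W τ.toAlgHom P) :=
    fun σ τ => (Pool.Agent.TH841.NF.act_act W σ.toAlgHom τ.toAlgHom P).symm
  rcases pt_zero_or P with rfl | ⟨u, v, hn, rfl⟩
  · refine Pool.Agent.TH841.NF.coc_of_fin (fun σ τ => ?_) ∅ (fun τ _ => ?_)
    · rw [map_zero, map_zero, map_zero, sub_zero, map_zero, add_zero]
    · rw [map_zero, sub_zero]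
  · refine Pool.Agent.TH841.NF.coc_of_fin (fun σ τ => ?_) {u, v} (fun τ hτ => ?_)
    · change act W (σ * τ).toAlgHom (sm u v hn) - _ = _ - _ + act W σ.toAlgHom (_ - _)
      rw [hmul, map_sub]
      abel
    · have h1 : τ.toAlgHom u = u := hτ u (by simp)
      have h2 : τ.toAlgHom v = v := hτ v (by simp)
      rw [sub_eq_zero, act_sm]
      congr 1

lemma cob_loc (P : Pt W (AlgebraicClosure k)) (F : Type) [Field F] [Algebra k F] :
    LocTriv W F (fun σ => act W σ.toAlgHom P - P : Coch W) := by
  intro ι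
  refine ⟨act W ι P, fun τ σ hσ => ?_⟩
  rw [map_sub, Pool.Agent.TH841.NF.act_act, Pool.Agent.TH841.NF.act_act]
  congr 3
  exact AlgHom.ext fun x => (hσ x).symm

end

end Pool.Agent.Y682
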