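import Mathlib
import Pool.Agent.Y682.Tors

/-!
# The curves `y² = x³ + a x² + 16 c x`: local conditions over a number field
-/

set_option autoImplicit false
set_option linter.unusedSectionVars false

namespace Pool.Agent.Y682

open WeierstrassCurve NumberField IsDedekindDomain

open Pool.Agent.TH841.SH (IsR IsX gf isX_zero isX_some not_isX)

open Pool.Agent.TH841.SH.D (Pt act Gal Coch IsCoc IsCob LocTriv)

section

variable {F : Type} [Field F] [NumberField F]

/-- the real embedding extends to the completion -/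
lemma exists_real (φ : F →+* ℝ) : ∃ (v : InfinitePlace F) (Θ : v.Completion →+* ℝ),
    ∀ x : F, Θ (algebraMap F _ x) = φ x := by
  let ψ : F →+* ℂ := Complex.ofRealHom.comp φ
  have hψ : ComplexEmbedding.IsReal ψ := by
    refine RingHom.ext fun x => ?_
    exact Complex.conj_ofReal _
  let v : InfinitePlace F := InfinitePlace.mk ψ
  have hv : v.IsReal := ⟨ψ, hψ, rfl⟩
  refine ⟨v, InfinitePlace.Completion.extensionEmbeddingOfIsReal hv, fun x => ?_⟩
  rw [InfinitePlace.Completion.algebraMap_apply]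
  refine (InfinitePlace.Completion.extensionEmbeddingOfIsReal_coe hv
    ((WithAbs.equiv v.1).symm x)).trans ?_
  apply Complex.ofReal_injective
  refine (InfinitePlace.embedding_of_isReal_apply hv _).trans ?_
  have h1 : v.embedding = ψ := InfinitePlace.embedding_mk_eq_of_isReal hψ
  rw [h1]
  rfl

lemma charZero_adic (v : HeightOneSpectrum (𝓞 F)) : CharZero (v.adicCompletion F) :=
  charZero_of_injective_algebraMap (algebraMap F (v.adicCompletion F)).injective

lemma charZero_inf (v : InfinitePlace F) : CharZero v.Completion :=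
  charZero_of_injective_algebraMap (algebraMap F v.Completion).injective

variable {A B : F}

/-- the first class is positive -/
lemma pos_b1 {b : F}
    (hloc : ∀ v : InfinitePlace F, ∃ z m : v.Completion, z ≠ 0 ∧
      algebraMap F v.Completion b * z ^ 2 = m ∧
        S1 (algebraMap F v.Completion A) (algebraMap F v.Completion B) m)
    (φ : F →+* ℝ) (hB : 0 < φ B) (hA : φ A < 0 ∨ φ A ^ 2 < 4 * φ B) : 0 < φ b := by
  obtain ⟨v, Θ, hΘ⟩ := exists_real φ
  obtain ⟨z, m, hz, hzm, hm⟩ := hloc v
  have h1 : φ b * Θ z ^ 2 = Θ m := by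
    rw [← hΘ, ← map_pow, ← map_mul, hzm]
  have hz2 : 0 < Θ z ^ 2 := lt_of_le_of_ne (sq_nonneg _)
    (pow_ne_zero 2 ((map_ne_zero Θ).2 hz)).symm
  have hm0 : 0 < Θ m := by
    rcases hm with h | h | ⟨h, y, hy⟩
    · rw [h, map_one]; exact one_pos
    · rw [h, hΘ]; exact hB
    · refine pos_S1 hB hA ((map_ne_zero Θ).2 h) (y := Θ y) ?_
      rw [← map_pow, hy, map_mul, map_add, map_add, map_mul, map_pow, hΘ, hΘ]
  rw [← h1] at hm0
  exact (pos_iff_pos_of_mul_pos hm0).2 hz2

lemma exists_exp {v : HeightOneSpectrum (𝓞 F)} {b : F} (hb : b ≠ 0)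
    (h : ∃ g, v.valuation F b = g ^ 2) : ∃ n : ℤ, v.valuation F b = WithZero.exp (2 * n) := by
  obtain ⟨g, hg⟩ := h
  have hg0 : g ≠ 0 := by
    rintro rfl
    rw [zero_pow two_ne_zero] at hg
    exact (Valuation.ne_zero_iff _).2 hb hg
  refine ⟨WithZero.log g, ?_⟩
  rw [hg, two_mul, WithZero.exp_add, WithZero.exp_log hg0, sq]

variable {C s u : F}

/-- the valuation of the first class is even -/
lemma even_b1 {b : F} (hb : b ≠ 0) (v : HeightOneSpectrum (𝓞 F))
    (hloc : ∃ z m : v.adicCompletion F, z ≠ 0 ∧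
      algebraMap F (v.adicCompletion F) b * z ^ 2 = m ∧
        S1 (algebraMap F (v.adicCompletion F) A) (algebraMap F (v.adicCompletion F) B) m)
    (hA : A = s ^ 2 + 4 * u) (hs : v.valuation F s ≤ 1) (hu : v.valuation F u ≤ 1)
    (hB : B = 16 * C) (hC : v.valuation F C = 1) :
    ∃ n : ℤ, v.valuation F b = WithZero.exp (2 * n) := by
  have := charZero_adic v
  obtain ⟨z, m, hz, hzm, hm⟩ := hloc
  apply exists_exp hb
  have hvz : vv v z ≠ 0 := (Valuation.ne_zero_iff _).2 hz
  have h1 : ∃ g, vv v m = g ^ 2 := by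
    rcases hm with h | h | ⟨h, y, hy⟩
    · exact ⟨1, by rw [h, map_one, one_pow]⟩
    · refine ⟨vv v 4, ?_⟩
      have h16 : (16 : F) = 4 ^ 2 := by norm_num
      rw [h, hB, map_mul, map_mul, vv_coe v C, hC, mul_one, h16, map_pow, map_pow, map_ofNat]
    · refine even_S1 (vv v) (A := algebraMap F _ A) (B := algebraMap F _ B)
        (C := algebraMap F _ C) (s := algebraMap F _ s) (u := algebraMap F _ u)
        ?_ ?_ ?_ ?_ ?_ h hy
      · rw [hA, map_add, map_mul, map_pow, map_ofNat]
      · rw [vv_coe]; exact hs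
      · rw [vv_coe]; exact hu
      · rw [hB, map_mul, map_ofNat]
      · rw [vv_coe]; exact hC
  obtain ⟨g, hg⟩ := h1
  refine ⟨g / vv v z, ?_⟩
  rw [← hzm, map_mul, map_pow, vv_coe] at hg
  rw [div_pow, ← hg]
  field_simp

/-- the second class is unramified -/
lemma unr_b2 {b : F} (v : HeightOneSpectrum (𝓞 F))
    (hloc : ∃ z m : v.adicCompletion F, z ≠ 0 ∧
      algebraMap F (v.adicCompletion F) b * z ^ 2 = m ∧
        S2 (algebraMap F (v.adicCompletion F) A) (algebraMap F (v.adicCompletion F) B) m)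
    (hA : A = s ^ 2 + 4 * u) (hs : v.valuation F s ≤ 1) (hu : v.valuation F u ≤ 1)
    (hB : B = 16 * C) (hC : v.valuation F C ≤ 1) (hD : v.valuation F (A ^ 2 - 4 * B) = 1) :
    UnrC (v.valuation F) b := by
  have := charZero_adic v
  obtain ⟨z, m, hz, hzm, hm⟩ := hloc
  apply UnrC.desc
  have hDv : vv v (algebraMap F (v.adicCompletion F) A ^ 2 -
      4 * algebraMap F (v.adicCompletion F) B) = 1 := by
    have h1 := vv_coe v (A ^ 2 - 4 * B)
    rw [map_sub, map_pow, map_mul, map_ofNat] at h1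
    rw [h1, hD]
  have hAv : vv v (algebraMap F (v.adicCompletion F) A) ≤ 1 := by
    rw [vv_coe, hA]
    refine (Valuation.map_add _ _ _).trans (max_le ?_ ?_)
    · rw [map_pow]; exact pow_le_one' hs 2
    · rw [map_mul]; exact mul_le_one' (w_four_le _) hu
  have hBv : vv v (algebraMap F (v.adicCompletion F) B) ≤ 1 := by
    have h16 : (16 : F) = 4 * 4 := by norm_num
    rw [vv_coe, hB, map_mul, h16, map_mul]
    exact mul_le_one' (mul_le_one' (w_four_le _) (w_four_le _)) hC
  have h1 : UnrC (vv v) m := by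
    rcases hm with h | h | ⟨h, y, hy⟩
    · rw [h, ← one_pow 2]
      exact UnrC.sq one_ne_zero
    · refine ⟨1, algebraMap F _ A, -algebraMap F _ B, one_ne_zero, ?_, ?_, hAv, ?_⟩
      · rw [h]; ring
      · rw [h, one_pow, mul_one, hDv]
      · rw [Valuation.map_neg]; exact hBv
    · refine unr_S2 (vv v) (fun t ht => exists_sqrt v t ht) (A := algebraMap F _ A)
        (B := algebraMap F _ B) (C := algebraMap F _ C) (s := algebraMap F _ s)
        (u := algebraMap F _ u) ?_ ?_ ?_ ?_ ?_ hDv h hy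
      · rw [hA, map_add, map_mul, map_pow, map_ofNat]
      · rw [vv_coe]; exact hs
      · rw [vv_coe]; exact hu
      · rw [hB, map_mul, map_ofNat]
      · rw [vv_coe]; exact hC
  refine h1.of_eq (inv_ne_zero hz) ?_
  rw [← hzm]
  field_simp

end

/-- the curve `y² = x³ + a x² + 16 c x` -/
def crv (a c : ℤ) (k : Type) [Field k] : WeierstrassCurve k := ⟨0, a, 0, 16 * c, 0⟩

lemma crv_isT {a c : ℤ} (hc : c ≠ 0) (hD : a ^ 2 ≠ 64 * c) (k : Type) [Field k] [CharZero k] :
    IsT (crv a c k) (a : k) (16 * (c : k)) where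
  h1 := rfl
  h2 := rfl
  h3 := rfl
  h4 := rfl
  h6 := rfl
  hB := mul_ne_zero (by norm_num) (by exact_mod_cast hc)
  hD := by
    intro h
    apply hD
    have h1 : ((a ^ 2 - 64 * c : ℤ) : k) = ((0 : ℤ) : k) := by
      push_cast
      linear_combination h
    have h2 := Int.cast_injective h1
    linarith

end Pool.Agent.Y682
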