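import Mathlib
import Pool.Agent.TH841.NF.Plc

/-!
# Norms and valuations at a prime that does not decompose
-/

set_option autoImplicit false

attribute [-instance] DivisionRing.toRatAlgebra

open NumberField IsDedekindDomain

namespace Pool.Agent.Y682

open Pool.Agent.TH841.NF (pls pid mem_pid norm_le_one_of_val)

section

variable {F : Type} [Field F] [NumberField F] {p : ℕ} [hp : Fact p.Prime]

lemma pls_eq {v : HeightOneSpectrum (𝓞 F)}
    (huniq : ∀ w : HeightOneSpectrum (𝓞 F), (p : 𝓞 F) ∈ w.asIdeal → w = v)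
    (j : F →+* PadicAlgCl p) : pls j = v := by
  apply huniq
  change (p : 𝓞 F) ∈ pid j
  rw [mem_pid, map_natCast, map_natCast]
  have h2 : ((p : ℕ) : PadicAlgCl p) = algebraMap ℚ_[p] (PadicAlgCl p) (p : ℚ_[p]) := by
    rw [map_natCast]
  have h3 := PadicAlgCl.norm_extends p (p : ℚ_[p])
  rw [h2]
  refine h3.trans_lt ?_
  exact Padic.norm_p_lt_one

lemma norm_one_of_val {v : HeightOneSpectrum (𝓞 F)}
    (huniq : ∀ w : HeightOneSpectrum (𝓞 F), (p : 𝓞 F) ∈ w.asIdeal → w = v)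
    (j : F →+* PadicAlgCl p) {x : F} (hx : v.valuation F x = 1) : ‖j x‖ = 1 := by
  have hx0 : x ≠ 0 := by
    rintro rfl
    rw [map_zero] at hx
    exact zero_ne_one hx
  have hj := pls_eq huniq j
  have h1 : ‖j x‖ ≤ 1 := norm_le_one_of_val j (by rw [hj, hx])
  have h2 : ‖j x⁻¹‖ ≤ 1 := norm_le_one_of_val j (by rw [hj, map_inv₀, hx, inv_one])
  rw [map_inv₀, norm_inv] at h2
  have h3 : 0 < ‖j x‖ := norm_pos_iff.2 ((map_ne_zero j).2 hx0)
  exact le_antisymm h1 ((inv_le_one₀ h3).1 h2)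

variable [Algebra ℚ F] [FiniteDimensional ℚ F]

lemma norm_norm_eq_one {v : HeightOneSpectrum (𝓞 F)}
    (huniq : ∀ w : HeightOneSpectrum (𝓞 F), (p : 𝓞 F) ∈ w.asIdeal → w = v)
    {x : F} (hx : v.valuation F x = 1) : ‖((Algebra.norm ℚ x : ℚ) : ℚ_[p])‖ = 1 := by
  let i1 : Algebra ℚ (PadicAlgCl p) := DivisionRing.toRatAlgebra
  have h1 := Algebra.norm_eq_prod_embeddings ℚ (PadicAlgCl p) x
  have h2 : algebraMap ℚ (PadicAlgCl p) (Algebra.norm ℚ x) =
      algebraMap ℚ_[p] (PadicAlgCl p) ((Algebra.norm ℚ x : ℚ) : ℚ_[p]) := by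
    rw [map_ratCast]
    exact map_ratCast (algebraMap ℚ (PadicAlgCl p)) _
  have h3 : ‖algebraMap ℚ (PadicAlgCl p) (Algebra.norm ℚ x)‖ = 1 := by
    rw [h1, norm_prod]
    exact Finset.prod_eq_one fun σ _ => norm_one_of_val huniq (σ : F →+* PadicAlgCl p) hx
  rw [h2] at h3
  rw [← h3]
  exact (PadicAlgCl.norm_extends p _).symm

/-- the valuation of an element whose norm is a square -/
lemma even_of_norm {v : HeightOneSpectrum (𝓞 F)}
    (huniq : ∀ w : HeightOneSpectrum (𝓞 F), (p : 𝓞 F) ∈ w.asIdeal → w = v)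
    (hodd : Odd (Module.finrank ℚ F)) (b : Fˣ) (r : ℚ) (hN : Algebra.norm ℚ (b : F) = r ^ 2) :
    ∃ n : ℤ, v.valuation F (b : F) = WithZero.exp (2 * n) := by
  have hb0 : v.valuation F (b : F) ≠ 0 := (Valuation.ne_zero_iff _).2 b.ne_zero
  have hp0 : ((p : ℕ) : F) ≠ 0 := by exact_mod_cast hp.out.ne_zero
  have hvp0 : v.valuation F (p : F) ≠ 0 := (Valuation.ne_zero_iff _).2 hp0
  obtain ⟨a, ha⟩ : ∃ a : ℤ, v.valuation F (b : F) = WithZero.exp a :=
    ⟨WithZero.log (v.valuation F (b : F)), (WithZero.exp_log hb0).symm⟩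
  obtain ⟨c, hc⟩ : ∃ c : ℤ, v.valuation F (p : F) = WithZero.exp c :=
    ⟨WithZero.log (v.valuation F (p : F)), (WithZero.exp_log hvp0).symm⟩
  have hx : v.valuation F ((b : F) ^ c * (p : F) ^ (-a)) = 1 := by
    rw [map_mul, map_zpow₀, map_zpow₀, ha, hc, ← WithZero.exp_zsmul, ← WithZero.exp_zsmul,
      ← WithZero.exp_add, ← WithZero.exp_zero]
    congr 1
    simp only [smul_eq_mul]
    ring
  have h1 := norm_norm_eq_one huniq hx
  have hr0 : r ≠ 0 := by
    rintro rfl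
    rw [zero_pow two_ne_zero, Algebra.norm_eq_zero_iff] at hN
    exact b.ne_zero hN
  have hNp : Algebra.norm ℚ (p : F) = (p : ℚ) ^ Module.finrank ℚ F := by
    have := Algebra.norm_algebraMap (S := F) ((p : ℕ) : ℚ)
    rwa [map_natCast] at this
  have hzp : ∀ (x : Fˣ) (n : ℤ), Algebra.norm ℚ ((x : F) ^ n) = (Algebra.norm ℚ (x : F)) ^ n := by
    intro x n
    have h := congrArg Units.val (map_zpow (Units.map (Algebra.norm ℚ : F →* ℚ)) x n)
    rw [Units.coe_map, Units.val_zpow_eq_zpow_val, Units.val_zpow_eq_zpow_val, Units.coe_map] at h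
    exact h
  have hzp2 := hzp (Units.mk0 (p : F) hp0) (-a)
  rw [Units.val_mk0] at hzp2
  rw [map_mul, hzp, hzp2, hN, hNp] at h1
  push_cast at h1
  rw [norm_mul, norm_zpow, norm_zpow, norm_pow, norm_pow, Padic.norm_p,
    Padic.norm_eq_zpow_neg_valuation (by exact_mod_cast hr0)] at h1
  set t := (r : ℚ_[p]).valuation with ht
  have hp1 : (1 : ℝ) < (p : ℝ) := by exact_mod_cast hp.out.one_lt
  have hp0' : (p : ℝ) ≠ 0 := by positivity
  have h2 : (p : ℝ) ^ (-(2 * t * c) + (Module.finrank ℚ F : ℤ) * a) = (p : ℝ) ^ (0 : ℤ) := by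
    rw [zpow_zero, ← h1, zpow_add₀ hp0']
    congr 1
    · rw [← zpow_natCast, ← zpow_mul, ← zpow_mul]
      congr 1
      push_cast
      ring
    · rw [← zpow_natCast, ← zpow_neg_one, ← zpow_mul, ← zpow_mul]
      congr 1
      ring
  have h3 := zpow_right_injective₀ (by positivity) hp1.ne' h2
  have h4 : Even ((Module.finrank ℚ F : ℤ) * a) := ⟨t * c, by linarith⟩
  rw [Int.even_mul] at h4
  have h5 : Even a := by
    rcases h4 with h4 | h4
    · exfalso
      rw [Int.even_coe_nat] at h4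
      exact (Nat.not_even_iff_odd.2 hodd) h4
    · exact h4
  obtain ⟨n, hn⟩ := h5
  exact ⟨n, by rw [ha, hn]; congr 1; ring⟩

end

end Pool.Agent.Y682
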