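import Mathlib
import Pool.Agent.TH841.NF.Hom

/-!
# Corestriction from a number field to `ℚ`
-/

set_option autoImplicit false
set_option linter.unusedSectionVars false

attribute [-instance] DivisionRing.toRatAlgebra

namespace Pool.Agent.Y682

open WeierstrassCurve

open Pool.Agent.TH841.NF

open Pool.Agent.TH841.SH.D (Pt act Gal Coch IsCoc IsCob LocTriv cob)

section

variable {F : Type} [Field F] [NumberField F] (e : AlgebraicClosure F ≃+* Qb)

/-- the embedding of `F` -/
noncomputable def em : F →+* Qb := (e : AlgebraicClosure F →+* Qb).comp (algebraMap F _)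

/-- the subgroup of the automorphisms that fix `F` -/
def HF : Subgroup (Gal ℚ) where
  carrier := {g | Fx e g}
  one_mem' := fun _ => rfl
  mul_mem' := by
    intro g g' h h' x
    change g (g' _) = _
    rw [h' x, h x]
  inv_mem' := by
    intro g h x
    change g.symm _ = _
    rw [AlgEquiv.symm_apply_eq]
    exact (h x).symm

lemma mem_HF {g : Gal ℚ} : g ∈ HF e ↔ Fx e g := Iff.rfl

/-- extension of embeddings -/
lemma exists_ext (φ : F →+* Qb) : ∃ g : Gal ℚ, ∀ x, g (em e x) = φ x := by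
  let i1 : Algebra F Qb := φ.toAlgebra
  let φ' : AlgebraicClosure F →ₐ[F] Qb := IsAlgClosed.lift
  let ψ : Qb →+* Qb := (φ' : AlgebraicClosure F →+* Qb).comp (e.symm : Qb →+* AlgebraicClosure F)
  let ψ' : Qb →ₐ[ℚ] Qb :=
    { ψ with commutes' := fun x => rat_hom (ψ.comp (algebraMap ℚ Qb)) x }
  have hb : Function.Bijective ψ' := Algebra.IsAlgebraic.algHom_bijective ψ'
  refine ⟨AlgEquiv.ofBijective ψ' hb, fun x => ?_⟩
  change φ' (e.symm (e (algebraMap F _ x))) = φ x
  rw [RingEquiv.symm_apply_apply]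
  exact φ'.commutes x

/-- the cosets and the embeddings -/
noncomputable def cosetEquiv : (Gal ℚ ⧸ HF e) ≃ (F →+* Qb) :=
  Equiv.ofBijective
    (fun q => (((sec (HF e) q : Gal ℚ) : Qb ≃+* Qb) : Qb →+* Qb).comp (em e)) (by
    constructor
    · intro q q' h
      have h1 : ∀ x, (sec (HF e) q) (em e x) = (sec (HF e) q') (em e x) := fun x =>
        DFunLike.congr_fun h x
      rw [← sec_spec (HF e) q, ← sec_spec (HF e) q', QuotientGroup.eq, mem_HF]
      intro x
      change (sec (HF e) q).symm (sec (HF e) q' (em e x)) = em e x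
      rw [← h1]
      exact AlgEquiv.symm_apply_apply _ _
    · intro φ
      obtain ⟨g, hg⟩ := exists_ext e φ
      refine ⟨(g : Gal ℚ ⧸ HF e), RingHom.ext fun x => ?_⟩
      change sec (HF e) (g : Gal ℚ ⧸ HF e) (em e x) = φ x
      rw [← hg]
      have h1 := sec_spec (HF e) (g : Gal ℚ ⧸ HF e)
      rw [eq_comm, QuotientGroup.eq, mem_HF] at h1
      have h2 := h1 x
      change g.symm (sec (HF e) (g : Gal ℚ ⧸ HF e) (em e x)) = em e x at h2
      rwa [AlgEquiv.symm_apply_eq] at h2)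

lemma cosetEquiv_apply (q : Gal ℚ ⧸ HF e) (x : F) :
    cosetEquiv e q x = sec (HF e) q (em e x) := rfl

noncomputable instance : Fintype (Gal ℚ ⧸ HF e) := Fintype.ofEquiv _ (cosetEquiv e).symm

lemma card_coset [Algebra ℚ F] : Fintype.card (Gal ℚ ⧸ HF e) = Module.finrank ℚ F := by
  rw [Fintype.card_congr (cosetEquiv e), NumberField.Embeddings.card]
  congr 1
  exact Subsingleton.elim _ _

/-- a homomorphism of fields of characteristic zero is linear -/
noncomputable def ratAlg [Algebra ℚ F] (φ : F →+* Qb) : F →ₐ[ℚ] Qb :=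
  { φ with commutes' := fun x => rat_hom (φ.comp (algebraMap ℚ F)) x }

/-- homomorphisms of fields of characteristic zero are linear -/
noncomputable def ratEquiv [Algebra ℚ F] : (F →+* Qb) ≃ (F →ₐ[ℚ] Qb) where
  toFun φ := ratAlg φ
  invFun φ := (φ : F →+* Qb)
  left_inv _ := rfl
  right_inv _ := rfl

/-- the product of the conjugates is the norm -/
lemma prod_norm [Algebra ℚ F] [FiniteDimensional ℚ F] (x : F) :
    ∏ q : Gal ℚ ⧸ HF e, sec (HF e) q (em e x) = algebraMap ℚ Qb (Algebra.norm ℚ x) := by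
  rw [Algebra.norm_eq_prod_embeddings ℚ Qb x]
  refine Fintype.prod_equiv ((cosetEquiv e).trans ratEquiv) _ _ ?_
  intro q
  rfl

end

section cor

variable {F : Type} [Field F] [NumberField F] [Algebra ℚ F] {E : WeierstrassCurve ℚ}
  {W : WeierstrassCurve F} (hW : Sc (algebraMap ℚ F) 1 E W) (e : AlgebraicClosure F ≃+* Qb)

/-- the corestriction of a cochain -/
noncomputable def co (f : Coch W) : Coch E := fun σ =>
  cor (sec (HF e)) (aG E) (1 : Gal ℚ →* ℤ) (tr hW e f) σ

lemma tr_coc'' {f : Coch W} (hf : IsCoc W f) : ∀ x ∈ HF e, ∀ y ∈ HF e,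
    tr hW e f (x * y) = tr hW e f x + aG E x (tr hW e f y) := fun _ hx _ hy =>
  tr_coc hW e hf hx hy

lemma one_H (H : Subgroup (Gal ℚ)) : ∀ h ∈ H, (1 : Gal ℚ →* ℤ) h = 1 := fun _ _ => rfl

lemma co_coc {f : Coch W} (hf : IsCoc W f) : IsCoc E (co hW e f) := by
  classical
  have hmul : ∀ σ τ : Gal ℚ, co hW e f (σ * τ) = co hW e f σ +
      act E σ.toAlgHom (co hW e f τ) := by
    intro σ τ
    unfold co
    rw [cor_coc (sec_spec _) (aG E) (one_H (HF e)) (tr_coc'' hW e hf)]
    congr 1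
  obtain ⟨S, hS⟩ := coc_fin hf
  let b := Module.finBasis ℚ F
  refine coc_of_fin hmul
    (Finset.univ.biUnion fun q : Gal ℚ ⧸ HF e =>
      (S.image fun x => sec _ q (e x)) ∪ Finset.univ.image fun i => sec _ q (em e (b i))) ?_
  intro σ hσ
  have h1 : ∀ q : Gal ℚ ⧸ HF e, ∀ x ∈ S, σ (sec _ q (e x)) = sec _ q (e x) := by
    intro q x hx
    apply hσ
    rw [Finset.mem_biUnion]
    exact ⟨q, Finset.mem_univ _, Finset.mem_union_left _ (Finset.mem_image_of_mem _ hx)⟩
  have h2 : ∀ q : Gal ℚ ⧸ HF e, ∀ i, σ (sec _ q (em e (b i))) = sec _ q (em e (b i)) := by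
    intro q i
    apply hσ
    rw [Finset.mem_biUnion]
    exact ⟨q, Finset.mem_univ _, Finset.mem_union_right _
      (Finset.mem_image_of_mem _ (Finset.mem_univ i))⟩
  have h3 : ∀ q : Gal ℚ ⧸ HF e, (sec _ q)⁻¹ * σ * sec _ q ∈ HF e := by
    intro q x
    change ((sec _ q)⁻¹ * σ * sec _ q) (em e x) = em e x
    rw [← b.sum_repr x, map_sum, map_sum]
    refine Finset.sum_congr rfl fun i _ => ?_
    have h4 : em e (b.repr x i • b i) = algebraMap ℚ Qb (b.repr x i) * em e (b i) := by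
      rw [Algebra.smul_def, map_mul]
      congr 1
      exact rat_hom ((em e).comp (algebraMap ℚ F)) _
    rw [h4, map_mul, AlgEquiv.commutes]
    congr 1
    change (sec _ q).symm (σ (sec _ q (em e (b i)))) = em e (b i)
    rw [h2 q i]
    exact AlgEquiv.symm_apply_apply (sec _ q) _
  have h4 : ∀ q : Gal ℚ ⧸ HF e, σ • q = q := by
    intro q
    have h5 := h3 q
    rw [mul_assoc, ← QuotientGroup.eq] at h5
    conv_lhs => rw [← sec_spec _ q]
    exact h5.symm.trans (sec_spec _ q)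
  unfold co
  apply cor_zero_of
  intro q
  rw [h4]
  unfold tr
  rw [hS, map_zero]
  intro x hx
  apply e.injective
  rw [e_cF e (h3 q)]
  change (sec _ q).symm (σ (sec _ q (e x))) = e x
  rw [h1 q x hx]
  exact AlgEquiv.symm_apply_apply (sec _ q) _

lemma co_add (f f' : Coch W) : co hW e (f + f') = co hW e f + co hW e f' := by
  funext σ
  change cor _ _ _ (tr hW e (f + f')) σ = _
  rw [tr_add, cor_add]
  rfl

/-- the trace of a point -/
noncomputable def trc (P : Pt E Qb) : Pt E Qb := ∑ q : Gal ℚ ⧸ HF e, aG E (sec (HF e) q) P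

/-- the corestriction of a coboundary -/
lemma co_cob {f : Coch W} {P : Pt W (AlgebraicClosure F)}
    (hf : ∀ σ : Gal F, f σ = act W σ.toAlgHom P - P) (g : Gal ℚ) :
    co hW e f g = act E g.toAlgHom (trc e (tm (sc_any hW (e : AlgebraicClosure F →+* Qb)) P)) -
      trc e (tm (sc_any hW (e : AlgebraicClosure F →+* Qb)) P) := by
  have h1 := cor_cob (s := sec (HF e)) (sec_spec _) (aG E) (one_H (HF e)) (f := tr hW e f)
    (tm (sc_any hW (e : AlgebraicClosure F →+* Qb)) P) (fun x hx => tr_cob hW e hf hx) g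
  unfold co
  rw [h1]
  have h2 : ∀ q : Gal ℚ ⧸ HF e, ∀ Q : Pt E Qb,
      (1 : Gal ℚ →* ℤ) (sec (HF e) q) • Q = Q := fun q Q => one_smul ℤ Q
  simp only [h2]
  congr 1

lemma co_loc {K : Type} [Field K] {iK : Algebra ℚ K} {f : Coch W}
    (hf : IsCoc W f) (hl : Emb hW e K f) : LocTriv E K (co hW e f) := by
  intro ι
  obtain ⟨R, hR⟩ := cor_loc (locD E K) (sec_spec (HF e)) (one_H (HF e)) (tr_coc'' hW e hf) (by
      intro j
      obtain ⟨P, hP⟩ := hl j
      exact ⟨P, fun τ h hh => hP τ h hh⟩) ι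
  refine ⟨R, fun τ σ hτ => ?_⟩
  have h1 := hR τ σ (AlgHom.ext hτ)
  refine h1.trans ?_
  congr 1

lemma co_sha {f : Coch W} (hf : Pool.Agent.TH841.NF.D.IsShaCoc W f) :
    Pool.Agent.TH841.SH.D.IsShaCoc E (co hW e f) :=
  ⟨co_coc hW e hf.1, fun p _ => co_loc hW e hf.1 (emb_p hW e hf p),
    co_loc hW e hf.1 (emb_r hW e hf)⟩

/-- the homomorphism on the cocycles -/
noncomputable def coC : Pool.Agent.TH841.NF.D.shaCoc W →+ Pool.Agent.TH841.SH.D.shaCoc E where
  toFun f := ⟨co hW e f.1, co_sha hW e f.2⟩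
  map_zero' := by
    apply Subtype.ext
    have h := co_add hW e 0 0
    rw [add_zero] at h
    exact left_eq_add.1 h
  map_add' f g := Subtype.ext (co_add hW e f.1 g.1)

lemma co_cob' {f : Coch W} (hf : IsCob W f) : IsCob E (co hW e f) := by
  obtain ⟨P, hP⟩ := hf
  exact ⟨_, co_cob hW e hP⟩

/-- the corestriction on the Tate-Shafarevich groups -/
noncomputable def coS : Pool.Agent.TH841.NF.D.Sha W →+ Pool.Agent.TH841.SH.D.Sha E :=
  QuotientAddGroup.map ((cob W).addSubgroupOf (Pool.Agent.TH841.NF.D.shaCoc W))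
    ((cob E).addSubgroupOf (Pool.Agent.TH841.SH.D.shaCoc E))
    (coC hW e) (fun _ hf => co_cob' hW e hf)

end cor

end Pool.Agent.Y682
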