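import Mathlib
import Pool.Agent.Y682.Tors
import Pool.Agent.Y682.CorK

/-!
# The norms of the classes of a cocycle with trivial corestriction
-/

set_option autoImplicit false
set_option linter.unusedSectionVars false

attribute [-instance] DivisionRing.toRatAlgebra

namespace Pool.Agent.Y682

open WeierstrassCurve

open Pool.Agent.TH841.NF

open Pool.Agent.TH841.SH (IsR IsX gf isX_zero isX_some not_isX)

open Pool.Agent.TH841.SH.D (Pt act Gal Coch IsCoc IsCob LocTriv cob)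

section nu

variable {F : Type} [Field F] [NumberField F] [Algebra ℚ F] {E : WeierstrassCurve ℚ}
  {W : WeierstrassCurve F} (hW : Sc (algebraMap ℚ F) 1 E W) (e : AlgebraicClosure F ≃+* Qb)

lemma nu_act {f : Coch W} (Gd : AddSubgroup (Pt E Qb)) (ε : Pt E Qb → ℤ) (h0 : ε 0 = 1)
    (hadd : ∀ P ∈ Gd, ∀ Q ∈ Gd, ε (P + Q) = ε P * ε Q)
    (hinv : ∀ (g : Gal ℚ) (P : Pt E Qb), P ∈ Gd → aG E g P ∈ Gd ∧ ε (aG E g P) = ε P)
    (β : Qb) (htr : ∀ h ∈ HF e, tr hW e f h ∈ Gd ∧ h β = ((ε (tr hW e f h) : ℤ) : Qb) * β)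
    (σ : Gal ℚ) :
    σ (∏ q, sec (HF e) q β) = ((ε (co hW e f σ) : ℤ) : Qb) * ∏ q, sec (HF e) q β := by
  classical
  have hs := sec_spec (HF e)
  have hh : ∀ q : Gal ℚ ⧸ HF e, (sec (HF e) (σ • q))⁻¹ * σ * sec (HF e) q ∈ HF e :=
    fun q => mem_H hs σ q
  have hsum : ∀ S : Finset (Gal ℚ ⧸ HF e),
      (∑ q ∈ S, aG E (sec (HF e) (σ • q))
        (tr hW e f ((sec (HF e) (σ • q))⁻¹ * σ * sec (HF e) q))) ∈ Gd ∧
      ε (∑ q ∈ S, aG E (sec (HF e) (σ • q))
        (tr hW e f ((sec (HF e) (σ • q))⁻¹ * σ * sec (HF e) q))) =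
      ∏ q ∈ S, ε (tr hW e f ((sec (HF e) (σ • q))⁻¹ * σ * sec (HF e) q)) := by
    intro S
    induction S using Finset.induction_on with
    | empty => exact ⟨by simp [Gd.zero_mem], by simp [h0]⟩
    | insert q S hq ih =>
      obtain ⟨i1, i2⟩ := hinv (sec (HF e) (σ • q)) _ (htr _ (hh q)).1
      rw [Finset.sum_insert hq, Finset.prod_insert hq]
      exact ⟨Gd.add_mem i1 ih.1, by rw [hadd _ i1 _ ih.1, i2, ih.2]⟩
  have hco : co hW e f σ = ∑ q, aG E (sec (HF e) (σ • q))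
        (tr hW e f ((sec (HF e) (σ • q))⁻¹ * σ * sec (HF e) q)) := by
    unfold co cor
    refine Finset.sum_congr rfl fun q _ => ?_
    exact one_smul ℤ _
  rw [hco, (hsum Finset.univ).2, Int.cast_prod, map_prod]
  have e1 : ∏ q, sec (HF e) q β = ∏ q : Gal ℚ ⧸ HF e, (sec (HF e) (σ • q) : Gal ℚ) β :=
    (Equiv.prod_comp (MulAction.toPerm σ : Equiv.Perm (Gal ℚ ⧸ HF e))
      (fun q : Gal ℚ ⧸ HF e => (sec (HF e) q) β)).symm
  rw [e1, ← Finset.prod_mul_distrib]
  refine Finset.prod_congr rfl fun q _ => ?_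
  have e2 := (htr _ (hh q)).2
  have e3 := congrArg (fun x : Qb => (sec (HF e) (σ • q) : Gal ℚ) x) e2
  rw [map_mul, map_intCast] at e3
  rw [← e3]
  change σ (sec (HF e) q β) = (sec (HF e) (σ • q) *
    ((sec (HF e) (σ • q))⁻¹ * σ * sec (HF e) q)) β
  rw [← mul_assoc, ← mul_assoc, mul_inv_cancel, one_mul]
  rfl

/-- the points killed by two -/
def tors2 (E : WeierstrassCurve ℚ) : AddSubgroup (Pt E Qb) where
  carrier := {P | P + P = 0}
  zero_mem' := add_zero 0
  add_mem' := by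
    intro P Q hP hQ
    change P + Q + (P + Q) = 0
    have h1 : P + Q + (P + Q) = (P + P) + (Q + Q) := by abel
    rw [h1, hP, hQ, add_zero]
  neg_mem' := by
    intro P hP
    change -P + -P = 0
    rw [← neg_add, hP, neg_zero]

lemma mem_tors2 {P : Pt E Qb} : P ∈ tors2 E ↔ P + P = 0 := Iff.rfl

open Classical in
/-- the sign of a point -/
noncomputable def e1 (E : WeierstrassCurve ℚ) (P : Pt E Qb) : ℤ :=
  if IsX (E.baseChange Qb) 0 P then 1 else -1

open Classical in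
/-- the other sign of a point -/
noncomputable def e2 (E : WeierstrassCurve ℚ) (P : Pt E Qb) : ℤ := if P = 0 then 1 else -1

lemma e1_pos {P : Pt E Qb} (h : IsX (E.baseChange Qb) 0 P) : e1 E P = 1 := if_pos h

lemma e1_neg {P : Pt E Qb} (h : ¬ IsX (E.baseChange Qb) 0 P) : e1 E P = -1 := if_neg h

lemma e2_pos {P : Pt E Qb} (h : P = 0) : e2 E P = 1 := if_pos h

lemma e2_neg {P : Pt E Qb} (h : P ≠ 0) : e2 E P = -1 := if_neg h

variable {A B : ℚ}

lemma e1_add (hT : IsT E A B) {P Q : Pt E Qb} (hP : P + P = 0) (hQ : Q + Q = 0) :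
    e1 E (P + Q) = e1 E P * e1 E Q := by
  have h := isX_add hT hP hQ
  unfold e1
  by_cases h1 : IsX (E.baseChange Qb) 0 P <;> by_cases h2 : IsX (E.baseChange Qb) 0 Q <;>
    simp [h, h1, h2]

/-- the points killed by two with abscissa zero -/
def torsT (hT : IsT E A B) : AddSubgroup (Pt E Qb) where
  carrier := {P | P + P = 0 ∧ IsX (E.baseChange Qb) 0 P}
  zero_mem' := ⟨add_zero 0, isX_zero 0⟩
  add_mem' := by
    rintro P Q ⟨hP, hP'⟩ ⟨hQ, hQ'⟩
    exact ⟨(tors2 E).add_mem hP hQ, (isX_add hT hP hQ).2 ⟨fun _ => hQ', fun _ => hP'⟩⟩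
  neg_mem' := by
    rintro P ⟨hP, hP'⟩
    have h1 : -P = P := neg_eq_of_add_eq_zero_left hP
    change -P + -P = 0 ∧ IsX (E.baseChange Qb) 0 (-P)
    rw [h1]
    exact ⟨hP, hP'⟩

lemma e2_add (hT : IsT E A B) {P Q : Pt E Qb} (hP : P ∈ torsT hT) (hQ : Q ∈ torsT hT) :
    e2 E (P + Q) = e2 E P * e2 E Q := by
  unfold e2
  by_cases h1 : P = 0
  · rw [h1, zero_add, if_pos rfl, one_mul]
  · by_cases h2 : Q = 0
    · rw [h2, add_zero, if_pos (show (0 : Pt E Qb) = 0 from rfl), mul_one]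
    · have h3 := isX_ext hT hP.1 hQ.1 hP.2 hQ.2 h1 h2
      have h4 : P + Q = 0 := by rw [← h3]; exact hP.1
      rw [h4, if_pos rfl, if_neg h1, if_neg h2]
      rfl

lemma tm_isX {k' : Type} [Field k'] {V : WeierstrassCurve k'} {L L' : Type} [Field L]
    [Algebra k' L] [Field L'] [Algebra ℚ L'] {φ : L →+* L'}
    (S : Sc φ 1 (V.baseChange L) (E.baseChange L')) (P : Pt V L) :
    IsX (E.baseChange L') 0 (tm S P) ↔ IsX (V.baseChange L) 0 P := by
  rcases P with _ | ⟨x, y, h⟩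
  · exact ⟨fun _ => Or.inl rfl, fun _ => Or.inl rfl⟩
  · rw [tm_some]
    by_cases hx : x = 0
    · subst hx
      refine ⟨fun _ => isX_some h, fun _ => ?_⟩
      right
      refine ⟨φ y * 1 ^ 3, ?_, ?_⟩
      · have := (ns_iff S 0 y).2 h
        rwa [map_zero, zero_mul] at this
      · congr 1
        rw [map_zero, zero_mul]
    · refine ⟨fun h' => absurd h' ?_, fun h' => absurd h' (not_isX h hx)⟩
      apply not_isX
      rw [one_pow, mul_one]
      exact (map_ne_zero φ).2 hx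

lemma tm_zero_iff {k' : Type} [Field k'] {V : WeierstrassCurve k'} {L L' : Type} [Field L]
    [Algebra k' L] [Field L'] [Algebra ℚ L'] {φ : L →+* L'} {u : L'}
    (S : Sc φ u (V.baseChange L) (E.baseChange L')) (P : Pt V L) : tm S P = 0 ↔ P = 0 := by
  constructor
  · intro h
    apply tm_inj S
    rw [h, map_zero]
  · intro h
    rw [h, map_zero]

variable [FiniteDimensional ℚ F]

/-- the norm of the first class -/
lemma norm_b1 (hT : IsT E A B) {f : Coch W} (h2 : ∀ σ, f σ + f σ = 0) {b : F}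
    (hb : ∀ s : AlgebraicClosure F, s ^ 2 = algebraMap F _ b →
      ∀ σ : Gal F, (IsX (W.baseChange (AlgebraicClosure F)) 0 (f σ) → σ s = s) ∧
        (¬ IsX (W.baseChange (AlgebraicClosure F)) 0 (f σ) → σ s = -s))
    {S : Pt E Qb} (hS : S + S = 0) (hco : ∀ g : Gal ℚ, co hW e f g = act E g.toAlgHom S - S) :
    ∃ r : ℚ, Algebra.norm ℚ b = r ^ 2 := by
  obtain ⟨s, hs⟩ := IsAlgClosed.exists_pow_nat_eq (algebraMap F (AlgebraicClosure F) b) (n := 2)
    (by norm_num)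
  have h3 := hb s hs
  have h4 := nu_act hW e (f := f) (tors2 E) (e1 E) (if_pos (isX_zero 0))
    (fun P hP Q hQ => e1_add hT hP hQ)
    (fun g P hP => ⟨by
      change aG E g P + aG E g P = 0
      rw [← map_add, hP, map_zero], by
      have h5 := act_isX E g.toAlgHom P
      by_cases h6 : IsX (E.baseChange Qb) 0 P
      · exact (e1_pos (h5.2 h6)).trans (e1_pos h6).symm
      · exact (e1_neg (fun h => h6 (h5.1 h))).trans (e1_neg h6).symm⟩)
    (e s)
    (fun h hh => ⟨by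
      change tm _ _ + tm _ _ = 0
      rw [← map_add, h2, map_zero], by
      rw [← e_cF e hh]
      have h5 := tm_isX (sc_any hW (e : AlgebraicClosure F →+* Qb)) (f (cF e h))
      by_cases h6 : IsX (W.baseChange (AlgebraicClosure F)) 0 (f (cF e h))
      · have h7 : e1 E (tr hW e f h) = 1 := e1_pos (h5.2 h6)
        rw [h7, (h3 _).1 h6]
        simp
      · have h7 : e1 E (tr hW e f h) = -1 := e1_neg (fun h => h6 (h5.1 h))
        rw [h7, (h3 _).2 h6, map_neg]
        simp⟩)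
  have h5 : ∀ σ : Gal ℚ, σ (∏ q, sec (HF e) q (e s)) = ∏ q, sec (HF e) q (e s) := by
    intro σ
    rw [h4 σ, hco, e1_pos (isX_sub hT hS σ), Int.cast_one, one_mul]
  obtain ⟨r, hr⟩ := fix_mem _ h5
  refine ⟨r, ?_⟩
  apply (algebraMap ℚ Qb).injective
  rw [← prod_norm e, map_pow, hr, ← Finset.prod_pow]
  refine Finset.prod_congr rfl fun q _ => ?_
  rw [← map_pow, ← map_pow, hs]
  rfl

/-- the norm of the second class -/
lemma norm_b2 (hT : IsT E A B) {f : Coch W} (h2 : ∀ σ, f σ + f σ = 0)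
    (hX : ∀ σ, IsX (W.baseChange (AlgebraicClosure F)) 0 (f σ)) {b : F}
    (hb : ∀ s : AlgebraicClosure F, s ^ 2 = algebraMap F _ b →
      ∀ σ : Gal F, (f σ = 0 → σ s = s) ∧ (f σ ≠ 0 → σ s = -s))
    {S : Pt E Qb} (hS : S + S = 0) (hco : ∀ g : Gal ℚ, co hW e f g = act E g.toAlgHom S - S) :
    ∃ r : ℚ, Algebra.norm ℚ b = r ^ 2 ∨ Algebra.norm ℚ b * (A ^ 2 - 4 * B) = r ^ 2 := by
  obtain ⟨s, hs⟩ := IsAlgClosed.exists_pow_nat_eq (algebraMap F (AlgebraicClosure F) b) (n := 2)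
    (by norm_num)
  have h3 := hb s hs
  have h4 := nu_act hW e (f := f) (torsT hT) (e2 E) (if_pos rfl)
    (fun P hP Q hQ => e2_add hT hP hQ)
    (fun g P hP => by
      refine ⟨⟨?_, (act_isX E g.toAlgHom P).2 hP.2⟩, ?_⟩
      · rw [← map_add, hP.1, map_zero]
      · have h5 := act_zero_iff (W := E) g.toAlgHom P
        by_cases h6 : P = 0
        · exact (e2_pos (h5.2 h6)).trans (e2_pos h6).symm
        · exact (e2_neg (fun h => h6 (h5.1 h))).trans (e2_neg h6).symm)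
    (e s)
    (fun h hh => by
      have hX' := (tm_isX (sc_any hW (e : AlgebraicClosure F →+* Qb)) (f (cF e h))).2 (hX _)
      refine ⟨⟨?_, hX'⟩, ?_⟩
      · change tm _ _ + tm _ _ = 0
        rw [← map_add, h2, map_zero]
      · rw [← e_cF e hh]
        have h5 := tm_zero_iff (sc_any hW (e : AlgebraicClosure F →+* Qb)) (f (cF e h))
        by_cases h6 : f (cF e h) = 0
        · have h7 : e2 E (tr hW e f h) = 1 := e2_pos (h5.2 h6)
          rw [h7, (h3 _).1 h6]
          simp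
        · have h7 : e2 E (tr hW e f h) = -1 := e2_neg (fun h => h6 (h5.1 h))
          rw [h7, (h3 _).2 h6, map_neg]
          simp)
  have hnorm : (∏ q, sec (HF e) q (e s)) ^ 2 = algebraMap ℚ Qb (Algebra.norm ℚ b) := by
    rw [← prod_norm e, ← Finset.prod_pow]
    refine Finset.prod_congr rfl fun q _ => ?_
    rw [← map_pow, ← map_pow, hs]
    rfl
  by_cases hSX : IsX (E.baseChange Qb) 0 S
  · have h5 : ∀ σ : Gal ℚ, σ (∏ q, sec (HF e) q (e s)) = ∏ q, sec (HF e) q (e s) := by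
      intro σ
      rw [h4 σ, hco, tors_fix hT hS hSX σ, sub_self, e2_pos rfl, Int.cast_one, one_mul]
    obtain ⟨r, hr⟩ := fix_mem _ h5
    refine ⟨r, Or.inl ?_⟩
    apply (algebraMap ℚ Qb).injective
    rw [← hnorm, map_pow, hr]
  · obtain ⟨g, hg, hgσ⟩ := tors_g hT hS hSX
    have h5 : ∀ σ : Gal ℚ, σ ((∏ q, sec (HF e) q (e s)) * g) =
        (∏ q, sec (HF e) q (e s)) * g := by
      intro σ
      rw [map_mul, h4 σ, hco]
      by_cases h6 : act E σ.toAlgHom S = S
      · rw [e2_pos (sub_eq_zero.2 h6), (hgσ σ).1 h6, Int.cast_one, one_mul]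
      · rw [e2_neg (fun h => h6 (sub_eq_zero.1 h)), (hgσ σ).2 h6]
        push_cast
        ring
    obtain ⟨r, hr⟩ := fix_mem _ h5
    refine ⟨r, Or.inr ?_⟩
    apply (algebraMap ℚ Qb).injective
    rw [map_mul, ← hnorm, ← hg, map_pow, hr, mul_pow]

end nu

end Pool.Agent.Y682
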