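import Mathlib
import Pool.Agent.Y682.Crv
import Pool.Agent.Y682.Nu
import Pool.Agent.Y682.NrmP

/-!
# Cocycles with trivial corestriction
-/

set_option autoImplicit false
set_option linter.unusedSectionVars false

attribute [-instance] DivisionRing.toRatAlgebra

namespace Pool.Agent.Y682

open WeierstrassCurve NumberField IsDedekindDomain

open Pool.Agent.TH841.NF

open Pool.Agent.TH841.SH (IsR IsX gf isX_zero isX_some not_isX)

open Pool.Agent.TH841.SH.D (Pt act Gal Coch IsCoc IsCob LocTriv cob)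

section

variable {F : Type} [Field F] [NumberField F]

lemma exists_prime_nat (v : HeightOneSpectrum (𝓞 F)) (n : ℕ) (hn : n ≠ 0)
    (h : (n : 𝓞 F) ∈ v.asIdeal) : ∃ p : ℕ, p.Prime ∧ p ∣ n ∧ (p : 𝓞 F) ∈ v.asIdeal := by
  induction n using Nat.strong_induction_on with
  | _ n ih =>
    by_cases h1 : n = 1
    · exfalso
      rw [h1, Nat.cast_one] at h
      exact v.isPrime.ne_top ((Ideal.eq_top_iff_one _).2 h)
    · have hp := Nat.minFac_prime h1
      obtain ⟨m, hm⟩ := Nat.minFac_dvd n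
      have hm0 : m ≠ 0 := by
        rintro rfl
        rw [mul_zero] at hm
        exact hn hm
      have hmn : m < n := by
        conv_rhs => rw [hm]
        have := hp.two_le
        nlinarith [Nat.pos_of_ne_zero hm0]
      rw [hm, Nat.cast_mul] at h
      rcases v.isPrime.mem_or_mem h with h3 | h3
      · exact ⟨n.minFac, hp, Nat.minFac_dvd n, h3⟩
      · obtain ⟨p, hp1, hp2, hp3⟩ := ih m hmn hm0 h3
        exact ⟨p, hp1, hp2.trans ⟨n.minFac, by rw [mul_comm]; exact hm⟩, hp3⟩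

lemma exists_prime (v : HeightOneSpectrum (𝓞 F)) (m : ℤ) (hm : m ≠ 0)
    (h : v.valuation F (m : F) ≠ 1) :
    ∃ p : ℕ, p.Prime ∧ (p : ℤ) ∣ m ∧ (p : 𝓞 F) ∈ v.asIdeal := by
  have h1 : (m : F) = algebraMap (𝓞 F) F (m : 𝓞 F) := (map_intCast _ m).symm
  have h2 : ((m : ℤ) : 𝓞 F) ∈ v.asIdeal := by
    by_contra h3
    apply h
    rw [h1]
    exact (HeightOneSpectrum.valuation_eq_one_iff_notMem v).2 h3
  have h3 : ((m.natAbs : ℕ) : 𝓞 F) ∈ v.asIdeal := by
    rcases Int.natAbs_eq m with h4 | h4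
    · have h5 : ((m.natAbs : ℕ) : 𝓞 F) = ((m : ℤ) : 𝓞 F) := by
        conv_rhs => rw [h4]
        rw [Int.cast_natCast]
      rw [h5]; exact h2
    · have h5 : ((m.natAbs : ℕ) : 𝓞 F) = -((m : ℤ) : 𝓞 F) := by
        conv_rhs => rw [h4]
        rw [Int.cast_neg, Int.cast_natCast, neg_neg]
      rw [h5]; exact neg_mem h2
  obtain ⟨p, hp1, hp2, hp3⟩ := exists_prime_nat v _ (Int.natAbs_ne_zero.2 hm) h3
  exact ⟨p, hp1, Int.natCast_dvd.2 hp2, hp3⟩

lemma exists_val (v : HeightOneSpectrum (𝓞 F)) (n : ℤ) :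
    ∃ t : F, t ≠ 0 ∧ v.valuation F t = WithZero.exp n := by
  obtain ⟨π, hπ⟩ := v.valuation_exists_uniformizer F
  have hπ0 : π ≠ 0 := by
    rintro rfl
    rw [map_zero] at hπ
    exact WithZero.exp_ne_zero hπ.symm
  refine ⟨π ^ (-n), zpow_ne_zero _ hπ0, ?_⟩
  rw [map_zpow₀, hπ, ← WithZero.exp_zsmul]
  congr 1
  simp

lemma val_int_le (v : HeightOneSpectrum (𝓞 F)) (m : ℤ) : v.valuation F (m : F) ≤ 1 := by
  have h1 : (m : F) = algebraMap (𝓞 F) F (m : 𝓞 F) := (map_intCast _ m).symm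
  rw [h1]
  exact v.valuation_le_one _

end

section

variable {F : Type} [Field F] [NumberField F] [IsTotallyReal F] [Algebra ℚ F]
  [FiniteDimensional ℚ F] {a c : ℤ}

/-- from `ℚ` to `F` -/
lemma crv_sc (a c : ℤ) : Sc (algebraMap ℚ F) 1 (crv a c ℚ) (crv a c F) := by
  refine ⟨one_ne_zero, ?_, ?_, ?_, ?_, ?_⟩
  · change (0 : F) = algebraMap ℚ F 0 * 1; simp
  · change (a : F) = algebraMap ℚ F (a : ℚ) * 1 ^ 2; simp
  · change (0 : F) = algebraMap ℚ F 0 * 1 ^ 3; simp
  · change (16 * (c : F)) = algebraMap ℚ F (16 * (c : ℚ)) * 1 ^ 4; simp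
  · change (0 : F) = algebraMap ℚ F 0 * 1 ^ 6; simp

/-- the key lemma -/
theorem key (ha : a % 4 = 1) (hc : 0 < c) (hac : a < 0 ∨ a ^ 2 < 64 * c) (hD : a ^ 2 ≠ 64 * c)
    (hcl : Odd (Nat.card (NCl F))) (hodd : Odd (Module.finrank ℚ F))
    (hbad : ∀ p : ℕ, p.Prime → (p : ℤ) ∣ c * (a ^ 2 - 64 * c) →
      ∀ v w : HeightOneSpectrum (𝓞 F), (p : 𝓞 F) ∈ v.asIdeal → (p : 𝓞 F) ∈ w.asIdeal → v = w)
    (e : AlgebraicClosure F ≃+* Qb) {f : Coch (crv a c F)}
    (hf : Pool.Agent.TH841.NF.D.IsShaCoc (crv a c F) f) (h2 : ∀ σ, f σ + f σ = 0)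
    {S : Pt (crv a c ℚ) Qb} (hS : S + S = 0)
    (hco : ∀ g : Gal ℚ, co (crv_sc a c) e f g = act (crv a c ℚ) g.toAlgHom S - S) :
    ∃ R : Pt (crv a c F) (AlgebraicClosure F), R + R = 0 ∧
      ∀ σ : Gal F, f σ = act (crv a c F) σ.toAlgHom R - R := by
  have hTQ := crv_isT hc.ne' hD ℚ
  have hT := crv_isT hc.ne' hD F
  obtain ⟨k, hk⟩ : ∃ k : ℤ, a = 1 + 4 * k := ⟨a / 4, by omega⟩
  have hA : (a : F) = 1 ^ 2 + 4 * (k : F) := by rw [hk]; push_cast; ring
  have hD0 : a ^ 2 - 64 * c ≠ 0 := sub_ne_zero.2 hD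
  -- the first class
  obtain ⟨b, hb, hbs, hbl⟩ := exists_b1 hT hf.1 h2
  obtain ⟨r, hr⟩ := norm_b1 (crv_sc a c) e hTQ h2 hbs hS hco
  have hpos : TotPos b := by
    intro φ
    have hB' : 0 < φ (16 * (c : F)) := by
      rw [map_mul, map_intCast, map_ofNat]
      have : (0 : ℝ) < (c : ℝ) := by exact_mod_cast hc
      positivity
    refine pos_b1 (A := (a : F)) (fun v => ?_) φ hB' ?_
    · have := charZero_inf v
      exact hbl v.Completion (hf.2.2 v)
    · rw [map_intCast, map_mul, map_intCast, map_ofNat]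
      rcases hac with h | h
      · left; exact_mod_cast h
      · right
        have : ((a ^ 2 : ℤ) : ℝ) < ((64 * c : ℤ) : ℝ) := by exact_mod_cast h
        push_cast at this
        linarith
  have heven : ∀ v : HeightOneSpectrum (𝓞 F), ∃ n : ℤ,
      v.valuation F b = WithZero.exp (2 * n) := by
    intro v
    by_cases hv : v.valuation F (c : F) = 1
    · have := charZero_adic v
      exact even_b1 hb v (hbl _ (hf.2.1 v)) hA (map_one _).le (val_int_le v k) rfl hv
    · obtain ⟨p, hp, hpc, hpv⟩ := exists_prime v c hc.ne' hv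
      have : Fact p.Prime := ⟨hp⟩
      exact even_of_norm (fun w hw => (hbad p hp (Dvd.dvd.mul_right hpc _) v w hpv hw).symm)
        hodd (Units.mk0 b hb) r hr
  obtain ⟨y, hy⟩ := elt_sq hcl (Units.mk0 b hb) hpos heven
  have hy' : b = (y : F) ^ 2 := by
    have := congrArg Units.val hy
    rwa [Units.val_mk0, Units.val_pow_eq_pow_val] at this
  have hX : ∀ σ, IsX ((crv a c F).baseChange (AlgebraicClosure F)) 0 (f σ) := by
    intro σ
    by_contra hX
    have h3 := (hbs (algebraMap F _ (y : F)) (by rw [hy', map_pow]) σ).2 hX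
    rw [AlgEquiv.commutes] at h3
    have h4 : (2 : AlgebraicClosure F) * algebraMap F _ (y : F) = 0 := by linear_combination h3
    rcases mul_eq_zero.1 h4 with h5 | h5
    · exact two_ne_zero h5
    · rw [map_eq_zero] at h5
      exact y.ne_zero h5
  -- the second class
  obtain ⟨b', hb', hbs', hbl'⟩ := exists_b2 hT hf.1 h2 hX
  obtain ⟨r', hr'⟩ := norm_b2 (crv_sc a c) e hTQ h2 hX hbs' hS hco
  have hDF : ((a : F) ^ 2 - 4 * (16 * (c : F))) = ((a ^ 2 - 64 * c : ℤ) : F) := by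
    push_cast; ring
  have hDQ : ((a : ℚ) ^ 2 - 4 * (16 * (c : ℚ))) = ((a ^ 2 - 64 * c : ℤ) : ℚ) := by
    push_cast; ring
  have hDF0 : (((a ^ 2 - 64 * c : ℤ)) : F) ≠ 0 := by exact_mod_cast hD0
  have hDQ0 : (((a ^ 2 - 64 * c : ℤ)) : ℚ) ≠ 0 := by exact_mod_cast hD0
  have hunr : ∀ v : HeightOneSpectrum (𝓞 F), v.valuation F ((a ^ 2 - 64 * c : ℤ) : F) = 1 →
      UnrC (v.valuation F) b' ∧ UnrC (v.valuation F) ((a ^ 2 - 64 * c : ℤ) : F) := by
    intro v hv
    have := charZero_adic v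
    refine ⟨unr_b2 v (hbl' _ (hf.2.1 v)) hA (map_one _).le (val_int_le v k) rfl
      (val_int_le v c) (by rw [hDF, hv]), 1, (a : F), -(16 * (c : F)), one_ne_zero, ?_, ?_,
      val_int_le v a, ?_⟩
    · rw [← hDF]; ring
    · rw [one_pow, mul_one, hv]
    · have h3 : -(16 * (c : F)) = ((-(16 * c) : ℤ) : F) := by push_cast; ring
      rw [h3]
      exact val_int_le v _
  -- elements whose norm is a square
  have hfin : ∀ x : Fˣ, (∃ q : ℚ, Algebra.norm ℚ (x : F) = q ^ 2) →
      (∀ v : HeightOneSpectrum (𝓞 F), v.valuation F ((a ^ 2 - 64 * c : ℤ) : F) = 1 →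
        UnrC (v.valuation F) (x : F)) → ∃ y : Fˣ, y ^ 2 = x := by
    rintro x ⟨q, hq⟩ hx
    apply sq_of_unrC hcl x
    intro v
    by_cases hv : v.valuation F ((a ^ 2 - 64 * c : ℤ) : F) = 1
    · exact hx v hv
    · obtain ⟨p, hp, hpc, hpv⟩ := exists_prime v _ hD0 hv
      have : Fact p.Prime := ⟨hp⟩
      obtain ⟨n, hn⟩ := even_of_norm (fun w hw =>
        (hbad p hp (Dvd.dvd.mul_left hpc _) v w hpv hw).symm) hodd x q hq
      obtain ⟨t, ht0, ht⟩ := exists_val v (-n)
      refine UnrC.of_even ht0 ?_ ?_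
      · rw [map_mul, map_pow, hn, ht, ← WithZero.exp_nsmul, ← WithZero.exp_add,
          ← WithZero.exp_zero]
        congr 1
        simp only [nsmul_eq_mul]
        push_cast
        ring
      · -- `v` does not lie over two
        have h4 : (4 : F) = algebraMap (𝓞 F) F 4 := (map_ofNat _ 4).symm
        rw [h4, HeightOneSpectrum.valuation_eq_one_iff_notMem]
        intro h5
        have h6 : ((4 : ℤ) : 𝓞 F) ∈ v.asIdeal := by exact_mod_cast h5
        have h7 : ((a ^ 2 - 64 * c : ℤ) : 𝓞 F) ∈ v.asIdeal := by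
          obtain ⟨m, hm⟩ := hpc
          rw [hm, Int.cast_mul, Int.cast_natCast]
          exact v.asIdeal.mul_mem_right _ hpv
        have h8 : (a ^ 2 - 64 * c) - 4 * (-16 * c + 2 * k + 4 * k ^ 2) = 1 := by
          rw [hk]; ring
        have h9 : (1 : 𝓞 F) ∈ v.asIdeal := by
          have h10 : (1 : 𝓞 F) = ((a ^ 2 - 64 * c : ℤ) : 𝓞 F) -
              ((4 : ℤ) : 𝓞 F) * ((-16 * c + 2 * k + 4 * k ^ 2 : ℤ) : 𝓞 F) := by
            have := congrArg (Int.cast : ℤ → 𝓞 F) h8
            rw [Int.cast_sub, Int.cast_mul, Int.cast_one] at this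
            exact this.symm
          rw [h10]
          exact sub_mem h7 (v.asIdeal.mul_mem_right _ h6)
        exact v.isPrime.ne_top ((Ideal.eq_top_iff_one _).2 h9)
  rcases hr' with hr' | hr'
  · obtain ⟨z, hz⟩ := hfin (Units.mk0 b' hb') ⟨r', hr'⟩ (fun v hv => (hunr v hv).1)
    have hz' : b' = (z : F) ^ 2 := by
      have := congrArg Units.val hz
      rw [Units.val_mk0, Units.val_pow_eq_pow_val] at this
      exact this.symm
    refine ⟨0, add_zero 0, fun σ => ?_⟩
    rw [map_zero, sub_zero]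
    by_contra hne
    have h3 := (hbs' (algebraMap F _ (z : F)) (by rw [hz', map_pow]) σ).2 hne
    rw [AlgEquiv.commutes] at h3
    have h4 : (2 : AlgebraicClosure F) * algebraMap F _ (z : F) = 0 := by linear_combination h3
    rcases mul_eq_zero.1 h4 with h5 | h5
    · exact two_ne_zero h5
    · rw [map_eq_zero] at h5
      exact z.ne_zero h5
  · obtain ⟨n, hn⟩ := hodd
    have hnorm : Algebra.norm ℚ ((Units.mk0 (b' * ((a ^ 2 - 64 * c : ℤ) : F))
        (mul_ne_zero hb' hDF0) : Fˣ) : F) = (r' * ((a ^ 2 - 64 * c : ℤ) : ℚ) ^ n) ^ 2 := by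
      have h3 : Algebra.norm ℚ (((a ^ 2 - 64 * c : ℤ)) : F) =
          ((a ^ 2 - 64 * c : ℤ) : ℚ) ^ Module.finrank ℚ F := by
        have := Algebra.norm_algebraMap (S := F) (((a ^ 2 - 64 * c : ℤ)) : ℚ)
        rwa [map_intCast] at this
      rw [Units.val_mk0, map_mul, h3, hn, mul_pow, ← hr', hDQ]
      ring
    obtain ⟨z, hz⟩ := hfin (Units.mk0 (b' * ((a ^ 2 - 64 * c : ℤ) : F))
      (mul_ne_zero hb' hDF0)) ⟨_, hnorm⟩ (fun v hv => by
        rw [Units.val_mk0]
        exact (hunr v hv).1.mul (hunr v hv).2)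
    have hz' : b' * ((a ^ 2 - 64 * c : ℤ) : F) = (z : F) ^ 2 := by
      have := congrArg Units.val hz
      rw [Units.val_mk0, Units.val_pow_eq_pow_val] at this
      exact this.symm
    obtain ⟨R, hR, hRX⟩ := exists_tors hT
    obtain ⟨g, hg, hgσ⟩ := tors_g hT hR hRX
    rw [hDF] at hg
    have hg0 : g ≠ 0 := by
      rintro rfl
      rw [zero_pow two_ne_zero, eq_comm, map_eq_zero] at hg
      exact hDF0 hg
    have hsq : (algebraMap F _ (z : F) / g) ^ 2 = algebraMap F (AlgebraicClosure F) b' := by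
      rw [div_pow, ← map_pow, ← hz', hg, map_mul]
      exact mul_div_cancel_right₀ _ ((map_ne_zero _).2 hDF0)
    have hz0 : algebraMap F (AlgebraicClosure F) (z : F) ≠ 0 := (map_ne_zero _).2 z.ne_zero
    refine ⟨R, hR, fun σ => ?_⟩
    have h3 := hbs' _ hsq σ
    rw [map_div₀, AlgEquiv.commutes] at h3
    have hRσ : (act (crv a c F) σ.toAlgHom R - R) + (act (crv a c F) σ.toAlgHom R - R) = 0 := by
      have h4 : (act (crv a c F) σ.toAlgHom R - R) + (act (crv a c F) σ.toAlgHom R - R) =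
          act (crv a c F) σ.toAlgHom (R + R) - (R + R) := by rw [map_add]; abel
      rw [h4, hR, map_zero, sub_zero]
    by_cases h5 : f σ = 0
    · have h6 := h3.1 h5
      have h7 : act (crv a c F) σ.toAlgHom R = R := by
        by_contra h7
        rw [(hgσ σ).2 h7] at h6
        have h8 : (2 : AlgebraicClosure F) * (algebraMap F _ (z : F) / g) = 0 := by
          rw [div_neg] at h6
          linear_combination -h6
        rcases mul_eq_zero.1 h8 with h9 | h9
        · exact two_ne_zero h9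
        · exact (div_ne_zero hz0 hg0) h9
      rw [h5, h7, sub_self]
    · have h6 := h3.2 h5
      have h7 : act (crv a c F) σ.toAlgHom R ≠ R := by
        intro h7
        rw [(hgσ σ).1 h7] at h6
        have h8 : (2 : AlgebraicClosure F) * (algebraMap F _ (z : F) / g) = 0 := by
          linear_combination h6
        rcases mul_eq_zero.1 h8 with h9 | h9
        · exact two_ne_zero h9
        · exact (div_ne_zero hz0 hg0) h9
      exact isX_ext hT (h2 σ) hRσ (hX σ) (isX_sub hT hR σ) h5 (fun h => h7 (sub_eq_zero.1 h))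

end

end Pool.Agent.Y682
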