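import Mathlib
import Pool.Agent.Y682.KL

/-!
# Injectivity of the corestriction on the 2-primary part of the Tate-Shafarevich group
-/

set_option autoImplicit false
set_option linter.unusedSectionVars false

attribute [-instance] DivisionRing.toRatAlgebra

namespace Pool.Agent.Y682

open WeierstrassCurve NumberField IsDedekindDomain

open Pool.Agent.TH841.NF

open Pool.Agent.TH841.SH.D (Pt act Gal Coch IsCoc IsCob LocTriv cob)

section

variable {F : Type} [Field F] [NumberField F]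

/-- the coboundary of a point -/
noncomputable def dl {k : Type} [Field k] {W : WeierstrassCurve k} (P : Pt W (AlgebraicClosure k)) :
    Coch W := fun σ => act W σ.toAlgHom P - P

lemma dl_apply {k : Type} [Field k] {W : WeierstrassCurve k} (P : Pt W (AlgebraicClosure k))
    (σ : Gal k) : dl P σ = act W σ.toAlgHom P - P := rfl

lemma dl_add {k : Type} [Field k] {W : WeierstrassCurve k} (P Q : Pt W (AlgebraicClosure k)) :
    dl (P + Q) = dl P + dl Q := by
  funext σ
  change act W σ.toAlgHom (P + Q) - (P + Q) = (act W σ.toAlgHom P - P) + (act W σ.toAlgHom Q - Q)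
  rw [map_add]
  abel

lemma dl_sub {k : Type} [Field k] {W : WeierstrassCurve k} (P Q : Pt W (AlgebraicClosure k)) :
    dl (P - Q) = dl P - dl Q := by
  rw [eq_sub_iff_add_eq, ← dl_add, sub_add_cancel]

lemma dl_zero {k : Type} [Field k] {W : WeierstrassCurve k} :
    dl (0 : Pt W (AlgebraicClosure k)) = 0 := by
  funext σ
  change act W σ.toAlgHom 0 - 0 = 0
  rw [map_zero, sub_zero]

lemma dl_nsmul {k : Type} [Field k] {W : WeierstrassCurve k} (n : ℕ)
    (P : Pt W (AlgebraicClosure k)) : dl (n • P) = n • dl P := by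
  induction n with
  | zero => rw [zero_smul, zero_smul, dl_zero]
  | succ n ih => rw [succ_nsmul, succ_nsmul, dl_add, ih]

lemma isCob_iff {k : Type} [Field k] {W : WeierstrassCurve k} {f : Coch W} :
    IsCob W f ↔ ∃ P, f = dl P :=
  ⟨fun ⟨P, hP⟩ => ⟨P, funext hP⟩, fun ⟨P, hP⟩ => ⟨P, fun σ => congrFun hP σ⟩⟩

lemma dl_sha {W : WeierstrassCurve F} (P : Pt W (AlgebraicClosure F)) :
    Pool.Agent.TH841.NF.D.IsShaCoc W (dl P) :=
  ⟨cob_coc P, fun _ => cob_loc P _, fun _ => cob_loc P _⟩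

lemma sha_sub {W : WeierstrassCurve F} {f g : Coch W} (hf : Pool.Agent.TH841.NF.D.IsShaCoc W f)
    (hg : Pool.Agent.TH841.NF.D.IsShaCoc W g) : Pool.Agent.TH841.NF.D.IsShaCoc W (f - g) :=
  (Pool.Agent.TH841.NF.D.shaCoc W).sub_mem hf hg

end

section

variable {F : Type} [Field F] [NumberField F] [Algebra ℚ F] {E : WeierstrassCurve ℚ}
  {W : WeierstrassCurve F} (hW : Sc (algebraMap ℚ F) 1 E W) (e : AlgebraicClosure F ≃+* Qb)

/-- the transport of points -/
noncomputable abbrev tp : Pt W (AlgebraicClosure F) →+ Pt E Qb :=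
  tm (sc_any hW (e : AlgebraicClosure F →+* Qb))

lemma co_dl (P : Pt W (AlgebraicClosure F)) : co hW e (dl P) = dl (trc e (tp hW e P)) :=
  funext fun g => co_cob hW e (fun _ => rfl) g

lemma co_zero : co hW e 0 = 0 := by
  have h := co_add hW e 0 0
  rw [add_zero] at h
  exact left_eq_add.1 h

lemma co_sub (f g : Coch W) : co hW e (f - g) = co hW e f - co hW e g := by
  rw [eq_sub_iff_add_eq, ← co_add, sub_add_cancel]

/-- the Galois action and the transport -/
lemma tp_act (σ : Gal F) (P : Pt W (AlgebraicClosure F)) :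
    tp hW e (act W σ.toAlgHom P) = act E (cQ e σ).toAlgHom (tp hW e P) := by
  have := tr_act hW e (cQ_fx e σ) P
  rwa [cF_cQ] at this

/-- a fixed point has fixed transport, and conversely -/
lemma dl_eq_zero_of_tp {P : Pt W (AlgebraicClosure F)}
    (h : dl (tp hW e P) = 0) : dl P = 0 := by
  funext σ
  rw [dl_apply]
  change _ = (0 : Pt W (AlgebraicClosure F))
  rw [sub_eq_zero]
  apply tm_inj (sc_any hW (e : AlgebraicClosure F →+* Qb))
  refine (tp_act hW e σ P).trans ?_
  have := congrFun h (cQ e σ)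
  rw [dl_apply] at this
  exact sub_eq_zero.1 this

lemma trc_add (P Q : Pt E Qb) : trc e (P + Q) = trc e P + trc e Q := by
  unfold trc
  rw [← Finset.sum_add_distrib]
  exact Finset.sum_congr rfl fun q _ => map_add _ _ _

lemma trc_fix {P : Pt E Qb} (h : dl P = 0) : trc e P = Fintype.card (Gal ℚ ⧸ HF e) • P := by
  unfold trc
  have h1 : ∀ q : Gal ℚ ⧸ HF e, aG E (sec (HF e) q) P = P := by
    intro q
    have := congrFun h (sec (HF e) q)
    rw [dl_apply] at this
    exact sub_eq_zero.1 this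
  rw [Finset.sum_congr rfl fun q _ => h1 q, Finset.sum_const, Finset.card_univ]

end

section main

variable {F : Type} [Field F] [NumberField F] [IsTotallyReal F] [Algebra ℚ F]
  [FiniteDimensional ℚ F] {a c : ℤ}

/-- the corestriction is injective on the elements killed by two -/
theorem inj2 (ha : a % 4 = 1) (hc : 0 < c) (hac : a < 0 ∨ a ^ 2 < 64 * c) (hD : a ^ 2 ≠ 64 * c)
    (hcl : Odd (Nat.card (NCl F))) (hodd : Odd (Module.finrank ℚ F))
    (hbad : ∀ p : ℕ, p.Prime → (p : ℤ) ∣ c * (a ^ 2 - 64 * c) →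
      ∀ v w : HeightOneSpectrum (𝓞 F), (p : 𝓞 F) ∈ v.asIdeal → (p : 𝓞 F) ∈ w.asIdeal → v = w)
    (e : AlgebraicClosure F ≃+* Qb) (x : Pool.Agent.TH841.NF.D.Sha (crv a c F))
    (hx2 : 2 • x = 0) (hx : coS (crv_sc a c) e x = 0) : x = 0 := by
  have hT := crv_isT hc.ne' hD F
  induction x using QuotientAddGroup.induction_on with
  | H f0 =>
    have h1 : IsCob (crv a c F) ((2 • f0 : Pool.Agent.TH841.NF.D.shaCoc (crv a c F)) :
        Coch (crv a c F)) :=
      (QuotientAddGroup.eq_zero_iff (2 • f0)).1 hx2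
    have h2 : IsCob (crv a c ℚ) (co (crv_sc a c) e f0.1) :=
      (QuotientAddGroup.eq_zero_iff (coC (crv_sc a c) e f0)).1 hx
    obtain ⟨P0, hP0⟩ := isCob_iff.1 h1
    obtain ⟨S0, hS0⟩ := isCob_iff.1 h2
    obtain ⟨Q0, hQ0⟩ := exists_half hT P0
    have hP0' : f0.1 + f0.1 = dl Q0 + dl Q0 := by
      rw [← dl_add, ← hQ0, ← hP0, two_smul]
      rfl
    -- first modification
    obtain ⟨f1, hf1⟩ : ∃ f1 : Coch (crv a c F), f1 = f0.1 - dl Q0 := ⟨_, rfl⟩
    have hf1s : Pool.Agent.TH841.NF.D.IsShaCoc (crv a c F) f1 := by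
      rw [hf1]; exact sha_sub f0.2 (dl_sha Q0)
    have hf12 : f1 + f1 = 0 := by
      rw [hf1]
      have : f0.1 - dl Q0 + (f0.1 - dl Q0) = (f0.1 + f0.1) - (dl Q0 + dl Q0) := by abel
      rw [this, hP0', sub_self]
    obtain ⟨S1, hS1⟩ : ∃ S1, co (crv_sc a c) e f1 = dl S1 :=
      ⟨S0 - trc e (tp (crv_sc a c) e Q0), by rw [hf1, co_sub, co_dl, hS0, dl_sub]⟩
    have hS12 : dl (S1 + S1) = 0 := by
      rw [dl_add, ← hS1, ← co_add, hf12, co_zero]
    obtain ⟨S1', hS1'⟩ := any_surj (crv_sc a c) e S1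
    have hS1'2 : dl (S1' + S1') = 0 := by
      apply dl_eq_zero_of_tp (crv_sc a c) e
      rw [map_add]
      have : tp (crv_sc a c) e S1' = S1 := hS1'
      rw [this]
      exact hS12
    -- second modification
    obtain ⟨f2, hf2⟩ : ∃ f2 : Coch (crv a c F), f2 = f1 - dl S1' := ⟨_, rfl⟩
    have hf2s : Pool.Agent.TH841.NF.D.IsShaCoc (crv a c F) f2 := by
      rw [hf2]; exact sha_sub hf1s (dl_sha S1')
    have hf22 : f2 + f2 = 0 := by
      rw [hf2]
      have : f1 - dl S1' + (f1 - dl S1') = (f1 + f1) - (dl S1' + dl S1') := by abel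
      rw [this, hf12, ← dl_add, hS1'2, sub_self]
    have hco2 : co (crv_sc a c) e f2 = dl (S1 - trc e S1) := by
      rw [hf2, co_sub, co_dl, hS1, dl_sub]
      have : tp (crv_sc a c) e S1' = S1 := hS1'
      rw [this]
    obtain ⟨m, hm⟩ : ∃ m, Fintype.card (Gal ℚ ⧸ HF e) = 2 * m + 1 := by
      obtain ⟨m, hm⟩ := hodd
      exact ⟨m, by rw [card_coset, hm]⟩
    obtain ⟨S2, hS2⟩ : ∃ S2, S2 = S1 - trc e S1 + m • (S1 + S1) := ⟨_, rfl⟩
    have hS22 : S2 + S2 = 0 := by
      have h3 : trc e (S1 + S1) = (2 * m + 1) • (S1 + S1) := by rw [trc_fix e hS12, hm]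
      have h4 : S2 + S2 = (S1 + S1) - trc e (S1 + S1) + (2 * m) • (S1 + S1) := by
        rw [hS2, trc_add, mul_nsmul', two_nsmul]
        abel
      rw [h4, h3, succ_nsmul]
      abel
    have hco3 : co (crv_sc a c) e f2 = dl S2 := by
      rw [hco2, hS2, dl_add, dl_nsmul, hS12, smul_zero, add_zero]
    obtain ⟨R, hR, hRf⟩ := key ha hc hac hD hcl hodd hbad e hf2s
      (fun σ => congrFun hf22 σ) hS22 (fun g => congrFun hco3 g)
    have hfR : f2 = dl R := funext hRf
    have hfin : f0.1 = dl (R + S1' + Q0) := by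
      rw [dl_add, dl_add, ← hfR, hf2, hf1]
      abel
    exact (QuotientAddGroup.eq_zero_iff f0).2 (isCob_iff.2 ⟨_, hfin⟩)

/-- the corestriction is injective on the 2-primary part -/
theorem injP (ha : a % 4 = 1) (hc : 0 < c) (hac : a < 0 ∨ a ^ 2 < 64 * c) (hD : a ^ 2 ≠ 64 * c)
    (hcl : Odd (Nat.card (NCl F))) (hodd : Odd (Module.finrank ℚ F))
    (hbad : ∀ p : ℕ, p.Prime → (p : ℤ) ∣ c * (a ^ 2 - 64 * c) →
      ∀ v w : HeightOneSpectrum (𝓞 F), (p : 𝓞 F) ∈ v.asIdeal → (p : 𝓞 F) ∈ w.asIdeal → v = w)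
    (e : AlgebraicClosure F ≃+* Qb) (x : Pool.Agent.TH841.NF.D.Sha (crv a c F)) (m : ℕ)
    (hxm : 2 ^ m • x = 0) (hx : coS (crv_sc a c) e x = 0) : x = 0 := by
  induction m with
  | zero => rwa [pow_zero, one_smul] at hxm
  | succ m ih =>
    apply ih
    apply inj2 ha hc hac hD hcl hodd hbad e
    · rw [smul_smul, mul_comm, ← pow_succ]
      exact hxm
    · rw [map_nsmul, hx, smul_zero]

end main

end Pool.Agent.Y682
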