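import Mathlib
import Pool.Agent.Y682.Inj
import Pool.Agent.H437R2.Man.MWWeak

/-!
# The rank
-/

set_option autoImplicit false
set_option linter.unusedSectionVars false

attribute [-instance] DivisionRing.toRatAlgebra

namespace Pool.Agent.Y682

open WeierstrassCurve NumberField IsDedekindDomain

open Pool.Agent.TH841.NF

open Pool.Agent.TH841.SH.D (Pt act Gal Coch IsCoc IsCob LocTriv cob)

section

variable {k : Type} [Field k]

/-- the rational points -/
def MP (W : WeierstrassCurve k) : Type := W.toAffine.Point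

/-- the group law -/
noncomputable instance MP.group (W : WeierstrassCurve k) : AddCommGroup (MP W) :=
  @Affine.Point.instAddCommGroup k _ W.toAffine (Classical.decEq k)

/-- the map on rational points given by a homomorphism of fields -/
noncomputable def mt {k' : Type} [Field k'] {ι : k →+* k'} {W : WeierstrassCurve k}
    {W' : WeierstrassCurve k'} (S : Sc ι 1 W W') : MP W →+ MP W' where
  toFun := tF S
  map_zero' := rfl
  map_add' := @tF_add _ _ _ _ _ _ _ _ S (Classical.decEq k) (Classical.decEq k')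

lemma mt_inj {k' : Type} [Field k'] {ι : k →+* k'} {W : WeierstrassCurve k}
    {W' : WeierstrassCurve k'} (S : Sc ι 1 W W') : Function.Injective (mt S) := by
  intro P Q h
  rcases P with _ | ⟨x, y, hx⟩ <;> rcases Q with _ | ⟨x', y', hx'⟩
  · rfl
  · exact absurd h.symm (Affine.Point.some_ne_zero _)
  · exact absurd h (Affine.Point.some_ne_zero _)
  · have h' : (Affine.Point.some (ι x * 1 ^ 2) (ι y * 1 ^ 3) ((ns_iff S x y).2 hx) :
        W'.toAffine.Point) = .some (ι x' * 1 ^ 2) (ι y' * 1 ^ 3) ((ns_iff S x' y').2 hx') := h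
    rw [Affine.Point.some.injEq, one_pow, one_pow, mul_one, mul_one, mul_one, mul_one] at h'
    have h1 := ι.injective h'.1
    have h2 := ι.injective h'.2
    subst h1 h2
    rfl

lemma sc_base (W : WeierstrassCurve k) (L : Type) [Field L] [Algebra k L] :
    Sc (algebraMap k L) 1 W (W.baseChange L) := by
  refine ⟨one_ne_zero, ?_, ?_, ?_, ?_, ?_⟩
  · change algebraMap k L W.a₁ = _; rw [mul_one]
  · change algebraMap k L W.a₂ = _; rw [one_pow, mul_one]
  · change algebraMap k L W.a₃ = _; rw [one_pow, mul_one]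
  · change algebraMap k L W.a₄ = _; rw [one_pow, mul_one]
  · change algebraMap k L W.a₆ = _; rw [one_pow, mul_one]

/-- the inclusion of the rational points -/
noncomputable def inc (W : WeierstrassCurve k) : MP W →+ Pt W (AlgebraicClosure k) where
  toFun := tF (sc_base W (AlgebraicClosure k))
  map_zero' := rfl
  map_add' := @tF_add _ _ _ _ _ _ _ _ (sc_base W (AlgebraicClosure k)) (Classical.decEq k)
    (Classical.decEq _)

lemma inc_inj (W : WeierstrassCurve k) : Function.Injective (inc W) := by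
  intro P Q h
  rcases P with _ | ⟨x, y, hx⟩ <;> rcases Q with _ | ⟨x', y', hx'⟩
  · rfl
  · exact absurd h.symm (Affine.Point.some_ne_zero _)
  · exact absurd h (Affine.Point.some_ne_zero _)
  · have h' := pt_inj (W := W) ((ns_iff (sc_base W (AlgebraicClosure k)) x y).2 hx)
      ((ns_iff (sc_base W (AlgebraicClosure k)) x' y').2 hx') h
    rw [one_pow, one_pow, mul_one, mul_one, mul_one, mul_one] at h'
    have h1 := (algebraMap k (AlgebraicClosure k)).injective h'.1
    have h2 := (algebraMap k (AlgebraicClosure k)).injective h'.2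
    subst h1 h2
    rfl

lemma dl_inc {W : WeierstrassCurve k} (P : MP W) : dl (inc W P) = 0 := by
  funext σ
  rw [dl_apply]
  change _ = (0 : Pt W (AlgebraicClosure k))
  rw [sub_eq_zero]
  rcases P with _ | ⟨x, y, hx⟩
  · rfl
  · refine pt_ext (W := W) _ _ ?_ ?_
    · change σ (algebraMap k _ x * 1 ^ 2) = _
      rw [one_pow, mul_one, AlgEquiv.commutes]
    · change σ (algebraMap k _ y * 1 ^ 3) = _
      rw [one_pow, mul_one, AlgEquiv.commutes]

lemma exists_inc [CharZero k] {W : WeierstrassCurve k} {P : Pt W (AlgebraicClosure k)}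
    (h : dl P = 0) : ∃ Q : MP W, inc W Q = P := by
  have hfix : ∀ σ : Gal k, act W σ.toAlgHom P = P := fun σ => by
    have := congrFun h σ
    rw [dl_apply] at this
    exact sub_eq_zero.1 this
  rcases P with _ | ⟨u, v, hn⟩
  · exact ⟨0, rfl⟩
  · have h1 : ∀ σ : Gal k, σ u = u ∧ σ v = v := fun σ => pt_inj _ _ (hfix σ)
    obtain ⟨x, hx⟩ := fix_mem u fun σ => (h1 σ).1
    obtain ⟨y, hy⟩ := fix_mem v fun σ => (h1 σ).2
    have hn' : W.toAffine.Nonsingular x y := by
      rw [← ns_iff (sc_base W (AlgebraicClosure k)), one_pow, one_pow, mul_one, mul_one, hx, hy]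
      exact hn
    refine ⟨Affine.Point.some x y hn', ?_⟩
    refine pt_ext (W := W) _ _ ?_ ?_
    · rw [one_pow, mul_one, hx]
    · rw [one_pow, mul_one, hy]

end

section mw

variable {k : Type} [Field k] [NumberField k] {W : WeierstrassCurve k} {A B : k}

/-- Mordell-Weil -/
lemma fg_MP (hT : IsT W A B) : Module.Finite ℤ (MP W) := by
  classical
  let p : Polynomial k := Polynomial.X ^ 2 + Polynomial.C A * Polynomial.X + Polynomial.C B
  let L : Type := p.SplittingField
  have : NumberField L := by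
    have : CharZero L := charZero_of_injective_algebraMap (algebraMap k L).injective
    exact NumberField.of_module_finite k L
  have hp : p.natDegree = 2 := by
    simp only [p]
    compute_degree!
  have hsp : (p.map (algebraMap k L)).Splits := Polynomial.SplittingField.splits p
  have hdeg : (p.map (algebraMap k L)).degree ≠ 0 := by
    rw [Polynomial.degree_map]
    intro h
    have h3 : p.natDegree = 0 := Polynomial.natDegree_eq_of_degree_eq_some h
    rw [hp] at h3
    exact two_ne_zero h3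
  obtain ⟨r, hr⟩ := hsp.exists_eval_eq_zero hdeg
  have hr' : r ^ 2 + algebraMap k L A * r + algebraMap k L B = 0 := by
    simpa [p] using hr
  have hB : algebraMap k L B ≠ 0 := (map_ne_zero _).2 hT.hB
  have hD : algebraMap k L A ^ 2 - 4 * algebraMap k L B ≠ 0 := by
    have := (map_ne_zero (algebraMap k L)).2 hT.hD
    rwa [map_sub, map_pow, map_mul, map_ofNat] at this
  obtain ⟨s, hs⟩ : ∃ s : L, s = -algebraMap k L A - r := ⟨_, rfl⟩
  have hrs : r * s = algebraMap k L B := by rw [hs]; linear_combination -hr'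
  have hr0 : r ≠ 0 := by
    rintro rfl
    rw [zero_mul] at hrs
    exact hB hrs.symm
  have hs0 : s ≠ 0 := by
    rintro rfl
    rw [mul_zero] at hrs
    exact hB hrs.symm
  have hne : r ≠ s := by
    intro h
    apply hD
    have h1 : algebraMap k L A = -2 * r := by linear_combination hs + h
    rw [h1, ← hrs, ← h]
    ring
  have hfg : AddGroup.FG (Pool.Agent.H437R2.Man.MW.Pt (K := L) 0 (-r) (-s)) :=
    Pool.Agent.H437R2.Man.MW.pt_fg (fun h => hr0 (by linear_combination h))
      (fun h => hs0 (by linear_combination h)) (fun h => hne (neg_injective h))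
  have S : Sc (algebraMap k L) 1 W (Pool.Agent.H437R2.Man.MW.crv (K := L) 0 (-r) (-s)) := by
    refine ⟨one_ne_zero, ?_, ?_, ?_, ?_, ?_⟩
    · change (0 : L) = _; rw [hT.h1]; simp
    · change 0 + -r + -s = _; rw [hT.h2, one_pow, mul_one, hs]; ring
    · change (0 : L) = _; rw [hT.h3]; simp
    · change 0 * -r + 0 * -s + -r * -s = _; rw [hT.h4, one_pow, mul_one, ← hrs]; ring
    · change 0 * -r * -s = _; rw [hT.h6]; simp
  have hfg' : Module.Finite ℤ (MP (Pool.Agent.H437R2.Man.MW.crv (K := L) 0 (-r) (-s))) := by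
    rw [Module.Finite.iff_addGroup_fg]
    exact hfg
  exact Module.Finite.of_injective (mt S).toIntLinearMap (mt_inj S)

end mw

section main

variable {F : Type} [Field F] [NumberField F] [IsTotallyReal F] [Algebra ℚ F]
  [FiniteDimensional ℚ F] {a c : ℤ}

/-- a finitely generated group that is divisible by two has rank zero -/
lemma finrank_zero {M : Type} [AddCommGroup M] [Module.Finite ℤ M] (h : ∀ x : M, ∃ y, x = 2 • y) :
    Module.finrank ℤ M = 0 := by
  have h1 : (⊤ : Submodule ℤ M) ≤ Ideal.span {(2 : ℤ)} • (⊤ : Submodule ℤ M) := by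
    intro x _
    obtain ⟨y, rfl⟩ := h x
    have h2 : (2 : ℕ) • y = (2 : ℤ) • y := by rw [← natCast_zsmul]; rfl
    rw [h2]
    exact Submodule.smul_mem_smul (Ideal.mem_span_singleton_self 2) trivial
  obtain ⟨r, hr, hr'⟩ := Submodule.exists_sub_one_mem_and_smul_eq_zero_of_fg_of_le_smul _ _
    Module.Finite.fg_top h1
  have hr0 : r ≠ 0 := by
    rintro rfl
    rw [Ideal.mem_span_singleton] at hr
    omega
  rw [Module.finrank_eq_zero_iff_isTorsion]
  intro x
  exact ⟨⟨r, mem_nonZeroDivisors_of_ne_zero hr0⟩, hr' x trivial⟩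

/-- divisibility of the kernel of the trace -/
theorem ker_div (ha : a % 4 = 1) (hc : 0 < c) (hac : a < 0 ∨ a ^ 2 < 64 * c)
    (hD : a ^ 2 ≠ 64 * c) (hcl : Odd (Nat.card (NCl F))) (hodd : Odd (Module.finrank ℚ F))
    (hbad : ∀ p : ℕ, p.Prime → (p : ℤ) ∣ c * (a ^ 2 - 64 * c) →
      ∀ v w : HeightOneSpectrum (𝓞 F), (p : 𝓞 F) ∈ v.asIdeal → (p : 𝓞 F) ∈ w.asIdeal → v = w)
    (e : AlgebraicClosure F ≃+* Qb) (P : Pt (crv a c F) (AlgebraicClosure F)) (hP : dl P = 0)
    (hP2 : trc e (tp (crv_sc a c) e P) = 0) :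
    ∃ Q : Pt (crv a c F) (AlgebraicClosure F), dl Q = 0 ∧
      trc e (tp (crv_sc a c) e Q) = 0 ∧ P = Q + Q := by
  have hT := crv_isT hc.ne' hD F
  obtain ⟨Q0, hQ0⟩ := exists_half hT P
  have h2 : dl Q0 + dl Q0 = 0 := by rw [← dl_add, ← hQ0, hP]
  have hS : trc e (tp (crv_sc a c) e Q0) + trc e (tp (crv_sc a c) e Q0) = 0 := by
    rw [← trc_add, ← map_add, ← hQ0, hP2]
  obtain ⟨R, hR, hRf⟩ := key ha hc hac hD hcl hodd hbad e (dl_sha Q0)
    (fun σ => congrFun h2 σ) hS (fun g => congrFun (co_dl (crv_sc a c) e Q0) g)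
  have hfR : dl Q0 = dl R := funext hRf
  have hQR : dl (Q0 - R) = 0 := by rw [dl_sub, hfR, sub_self]
  -- the trace of `Q0 - R`
  obtain ⟨T0, hT0⟩ : ∃ T0, T0 = trc e (tp (crv_sc a c) e (Q0 - R)) := ⟨_, rfl⟩
  have hT0f : dl T0 = 0 := by
    rw [hT0, ← co_dl, hQR, co_zero]
  have hPQR : P = (Q0 - R) + (Q0 - R) := by
    have : (Q0 - R) + (Q0 - R) = (Q0 + Q0) - (R + R) := by abel
    rw [this, hR, sub_zero, hQ0]
  have hT02 : T0 + T0 = 0 := by
    rw [hT0, ← trc_add, ← map_add, ← hPQR, hP2]
  obtain ⟨T0', hT0'⟩ : ∃ T0', tp (crv_sc a c) e T0' = T0 := any_surj (crv_sc a c) e T0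
  have hT0'f : dl T0' = 0 := by
    apply dl_eq_zero_of_tp (crv_sc a c) e
    rw [hT0', hT0f]
  have hT0'2 : T0' + T0' = 0 := by
    apply tm_inj (sc_any (crv_sc a c) (e : AlgebraicClosure F →+* Qb))
    have : tp (crv_sc a c) e (T0' + T0') = 0 := by rw [map_add, hT0', hT02]
    rw [map_zero]
    exact this
  obtain ⟨m, hm⟩ : ∃ m, Fintype.card (Gal ℚ ⧸ HF e) = 2 * m + 1 := by
    obtain ⟨m, hm⟩ := hodd
    exact ⟨m, by rw [card_coset, hm]⟩
  have htr : trc e T0 = T0 := by
    rw [trc_fix e hT0f, hm, succ_nsmul, mul_nsmul, two_nsmul, hT02, smul_zero, zero_add]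
  have htr0 : trc e (0 : Pt (crv a c ℚ) Qb) = 0 := by
    have h3 := trc_add e (0 : Pt (crv a c ℚ) Qb) 0
    rw [add_zero] at h3
    exact left_eq_add.1 h3
  refine ⟨Q0 - R - T0', by rw [dl_sub, hQR, hT0'f, sub_self], ?_, ?_⟩
  · have h3 : trc e (tp (crv_sc a c) e (Q0 - R - T0')) +
        trc e (tp (crv_sc a c) e T0') = T0 := by
      rw [← trc_add, ← map_add, sub_add_cancel, hT0]
    rw [hT0', htr] at h3
    exact add_eq_right.1 h3
  · have : (Q0 - R - T0') + (Q0 - R - T0') = ((Q0 - R) + (Q0 - R)) - (T0' + T0') := by abel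
    rw [this, hT0'2, sub_zero]
    exact hPQR

/-- equality of the ranks -/
theorem rank_eq (ha : a % 4 = 1) (hc : 0 < c) (hac : a < 0 ∨ a ^ 2 < 64 * c)
    (hD : a ^ 2 ≠ 64 * c) (hcl : Odd (Nat.card (NCl F))) (hodd : Odd (Module.finrank ℚ F))
    (hbad : ∀ p : ℕ, p.Prime → (p : ℤ) ∣ c * (a ^ 2 - 64 * c) →
      ∀ v w : HeightOneSpectrum (𝓞 F), (p : 𝓞 F) ∈ v.asIdeal → (p : 𝓞 F) ∈ w.asIdeal → v = w)
    (e : AlgebraicClosure F ≃+* Qb) :
    Module.finrank ℤ (MP (crv a c F)) = Module.finrank ℤ (MP (crv a c ℚ)) := by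
  have h1 : Module.Finite ℤ (MP (crv a c F)) := fg_MP (crv_isT hc.ne' hD F)
  have h2 : Module.Finite ℤ (MP (crv a c ℚ)) :=
    Module.Finite.of_injective (mt (crv_sc (F := F) a c)).toIntLinearMap (mt_inj (crv_sc a c))
  apply le_antisymm
  · -- the trace
    have hfix : ∀ P : MP (crv a c F), dl (trc e (tp (crv_sc a c) e (inc _ P))) = 0 := by
      intro P
      rw [← co_dl, dl_inc, co_zero]
    choose t ht using fun P => exists_inc (hfix P)
    let T : MP (crv a c F) →+ MP (crv a c ℚ) :=
      { toFun := t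
        map_zero' := by
          apply inc_inj
          rw [ht, map_zero, map_zero]
          have h3 := trc_add e (0 : Pt (crv a c ℚ) Qb) 0
          rw [add_zero] at h3
          rw [map_zero]
          exact left_eq_add.1 h3
        map_add' := by
          intro P Q
          apply inc_inj
          rw [ht, map_add, map_add, trc_add, map_add, ht, ht] }
    have hT : ∀ P, inc _ (T P) = trc e (tp (crv_sc a c) e (inc _ P)) := ht
    have hker : Module.finrank ℤ (LinearMap.ker T.toIntLinearMap) = 0 := by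
      apply finrank_zero
      rintro ⟨P, hP⟩
      have hP' : T P = 0 := hP
      have h3 := hT P
      rw [hP', map_zero] at h3
      obtain ⟨Q, hQ1, hQ2, hQ3⟩ := ker_div ha hc hac hD hcl hodd hbad e (inc _ P) (dl_inc P)
        h3.symm
      obtain ⟨Q', hQ'⟩ := exists_inc hQ1
      have hTQ : T Q' = 0 := by
        apply inc_inj
        rw [hT, hQ', hQ2, map_zero]
      refine ⟨⟨Q', hTQ⟩, Subtype.ext ?_⟩
      change P = 2 • Q'
      apply inc_inj
      rw [hQ3, ← hQ', two_nsmul, map_add]
    have h4 := Submodule.finrank_quotient_add_finrank (LinearMap.ker T.toIntLinearMap)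
    rw [LinearEquiv.finrank_eq (LinearMap.quotKerEquivRange T.toIntLinearMap)] at h4
    have h5 : Module.finrank ℤ (LinearMap.range T.toIntLinearMap) ≤
        Module.finrank ℤ (MP (crv a c ℚ)) := Submodule.finrank_le _
    omega
  · exact LinearMap.finrank_le_finrank_of_injective
      (f := (mt (crv_sc (F := F) a c)).toIntLinearMap) (mt_inj (crv_sc a c))

end main

end Pool.Agent.Y682
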