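import Mathlib
import Pool.Agent.Y682.Cnt
import Pool.Agent.Y682.Rk

/-!
# Counting the locally trivial cocycles with values in the points killed by two
-/

set_option autoImplicit false
set_option linter.unusedSectionVars false

attribute [-instance] DivisionRing.toRatAlgebra

open NumberField IsDedekindDomain

namespace Pool.Agent.Y682

open WeierstrassCurve

open Pool.Agent.TH841.NF

open Pool.Agent.TH841.SH (IsR IsX gf isX_zero isX_some not_isX)

open Pool.Agent.TH841.SH.D (Pt act Gal Coch IsCoc IsCob LocTriv cob)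

section

variable {K : Type} [Field K] [NumberField K] {W : WeierstrassCurve K} {A B : K}

/-- the locally trivial cocycles with values in the points killed by two -/
def Zc (W : WeierstrassCurve K) : AddSubgroup (Coch W) where
  carrier := {f | Pool.Agent.TH841.NF.D.IsShaCoc W f ∧ ∀ σ, f σ + f σ = 0}
  zero_mem' := ⟨(Pool.Agent.TH841.NF.D.shaCoc W).zero_mem, fun σ => by
    change (0 : Pt W (AlgebraicClosure K)) + 0 = 0
    rw [add_zero]⟩
  add_mem' := by
    rintro f g ⟨hf, hf'⟩ ⟨hg, hg'⟩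
    refine ⟨(Pool.Agent.TH841.NF.D.shaCoc W).add_mem hf hg, fun σ => ?_⟩
    change (f σ + g σ) + (f σ + g σ) = 0
    have : (f σ + g σ) + (f σ + g σ) = (f σ + f σ) + (g σ + g σ) := by abel
    rw [this, hf', hg', add_zero]
  neg_mem' := by
    rintro f ⟨hf, hf'⟩
    refine ⟨(Pool.Agent.TH841.NF.D.shaCoc W).neg_mem hf, fun σ => ?_⟩
    change -f σ + -f σ = 0
    rw [← neg_add, hf', neg_zero]

/-- the first local conditions -/
def LL1 (A B b : K) : Prop :=
  (∀ v : HeightOneSpectrum (𝓞 K), ∃ z m : v.adicCompletion K, z ≠ 0 ∧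
    algebraMap K (v.adicCompletion K) b * z ^ 2 = m ∧
      S1 (algebraMap K (v.adicCompletion K) A) (algebraMap K (v.adicCompletion K) B) m) ∧
  ∀ v : InfinitePlace K, ∃ z m : v.Completion, z ≠ 0 ∧
    algebraMap K v.Completion b * z ^ 2 = m ∧
      S1 (algebraMap K v.Completion A) (algebraMap K v.Completion B) m

/-- the second local conditions -/
def LL2 (A B b : K) : Prop :=
  (∀ v : HeightOneSpectrum (𝓞 K), ∃ z m : v.adicCompletion K, z ≠ 0 ∧
    algebraMap K (v.adicCompletion K) b * z ^ 2 = m ∧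
      S2 (algebraMap K (v.adicCompletion K) A) (algebraMap K (v.adicCompletion K) B) m) ∧
  ∀ v : InfinitePlace K, ∃ z m : v.Completion, z ≠ 0 ∧
    algebraMap K v.Completion b * z ^ 2 = m ∧
      S2 (algebraMap K v.Completion A) (algebraMap K v.Completion B) m

lemma isX_of_sub (hT : IsT W A B) {P Q : Pt W (AlgebraicClosure K)} (hP : P + P = 0)
    (hQ : Q + Q = 0) (h : IsX (W.baseChange (AlgebraicClosure K)) 0 P ↔
      IsX (W.baseChange (AlgebraicClosure K)) 0 Q) :
    IsX (W.baseChange (AlgebraicClosure K)) 0 (P - Q) := by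
  have h1 : -Q = Q := neg_eq_of_add_eq_zero_left hQ
  rw [sub_eq_add_neg, h1]
  exact (isX_add hT hP hQ).2 h

/-- the upper bound -/
theorem Zc_card (hT : IsT W A B) {U V : Set (Kˣ ⧸ Sq K)} [Finite U] [Finite V]
    (h1 : (1 : Kˣ ⧸ Sq K) ∈ V)
    (H1 : ∀ b : Kˣ, LL1 A B (b : K) → (b : Kˣ ⧸ Sq K) ∈ U)
    (H2 : ∀ b : Kˣ, LL2 A B (b : K) → (b : Kˣ ⧸ Sq K) ∈ V) :
    Finite (Zc W) ∧ Nat.card (Zc W) ≤ Nat.card U * Nat.card V := by
  classical
  -- the first class
  have hb : ∀ f : Zc W, ∃ b : Kˣ, (∀ s : AlgebraicClosure K, s ^ 2 = algebraMap K _ (b : K) →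
      ∀ σ : Gal K, (IsX (W.baseChange (AlgebraicClosure K)) 0 (f.1 σ) → σ s = s) ∧
        (¬ IsX (W.baseChange (AlgebraicClosure K)) 0 (f.1 σ) → σ s = -s)) ∧
        LL1 A B (b : K) := by
    intro f
    obtain ⟨b, hb, hbs, hbl⟩ := exists_b1 hT f.2.1.1 f.2.2
    refine ⟨Units.mk0 b hb, hbs, fun v => ?_, fun v => ?_⟩
    · have := charZero_adic v
      exact hbl _ (f.2.1.2.1 v)
    · have := charZero_inf v
      exact hbl v.Completion (f.2.1.2.2 v)
  choose b hbs hbl using hb
  let f1 : Zc W → U := fun f => ⟨((b f : Kˣ) : Kˣ ⧸ Sq K), H1 _ (hbl f)⟩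
  have hX : ∀ f f0 : Zc W, f1 f = f1 f0 → ∀ σ : Gal K,
      IsX (W.baseChange (AlgebraicClosure K)) 0 ((f - f0 : Zc W).1 σ) := by
    intro f f0 h σ
    have h1 : ((b f : Kˣ) : Kˣ ⧸ Sq K) = ((b f0 : Kˣ) : Kˣ ⧸ Sq K) := congrArg Subtype.val h
    obtain ⟨z, hz⟩ := quot_eq.1 h1
    obtain ⟨s, hs⟩ := IsAlgClosed.exists_pow_nat_eq (algebraMap K (AlgebraicClosure K) (b f : K))
      (n := 2) (by norm_num)
    have hs0 : s ≠ 0 := by
      rintro rfl
      rw [zero_pow two_ne_zero, eq_comm, map_eq_zero] at hs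
      exact (b f).ne_zero hs
    have hz0 : algebraMap K (AlgebraicClosure K) (z : K) ≠ 0 := (map_ne_zero _).2 z.ne_zero
    have hs' : (s * algebraMap K _ (z : K)) ^ 2 = algebraMap K _ ((b f0 : Kˣ) : K) := by
      rw [hz, Units.val_mul, Units.val_pow_eq_pow_val, map_mul, mul_pow, hs, map_pow]
    have h2 := hbs f s hs σ
    have h3 := hbs f0 _ hs' σ
    rw [map_mul, AlgEquiv.commutes] at h3
    refine isX_of_sub hT (f.2.2 σ) (f0.2.2 σ) ⟨fun h4 => ?_, fun h4 => ?_⟩
    · by_contra h5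
      have h6 := h3.2 h5
      rw [h2.1 h4] at h6
      have h7 : (2 : AlgebraicClosure K) * (s * algebraMap K _ (z : K)) = 0 := by
        linear_combination h6
      exact (mul_ne_zero two_ne_zero (mul_ne_zero hs0 hz0)) h7
    · by_contra h5
      have h6 := h3.1 h4
      rw [h2.2 h5] at h6
      have h7 : (2 : AlgebraicClosure K) * (s * algebraMap K _ (z : K)) = 0 := by
        linear_combination -h6
      exact (mul_ne_zero two_ne_zero (mul_ne_zero hs0 hz0)) h7
  -- the second class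
  have hc : ∀ f : Zc W, ∃ c : Kˣ, (∀ σ : Gal K,
      IsX (W.baseChange (AlgebraicClosure K)) 0 (f.1 σ)) →
      (∀ s : AlgebraicClosure K, s ^ 2 = algebraMap K _ (c : K) →
        ∀ σ : Gal K, (f.1 σ = 0 → σ s = s) ∧ (f.1 σ ≠ 0 → σ s = -s)) ∧ LL2 A B (c : K) := by
    intro f
    by_cases hfX : ∀ σ : Gal K, IsX (W.baseChange (AlgebraicClosure K)) 0 (f.1 σ)
    · obtain ⟨b, hb, hbs, hbl⟩ := exists_b2 hT f.2.1.1 f.2.2 hfX
      refine ⟨Units.mk0 b hb, fun _ => ⟨hbs, fun v => ?_, fun v => ?_⟩⟩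
      · have := charZero_adic v
        exact hbl _ (f.2.1.2.1 v)
      · have := charZero_inf v
        exact hbl v.Completion (f.2.1.2.2 v)
    · exact ⟨1, fun h => absurd h hfX⟩
  choose c hc using hc
  let g : Zc W → Zc W → V := fun z0 z =>
    if h : ∀ σ : Gal K, IsX (W.baseChange (AlgebraicClosure K)) 0 ((z - z0 : Zc W).1 σ) then
      ⟨((c (z - z0) : Kˣ) : Kˣ ⧸ Sq K), H2 _ (hc (z - z0) h).2⟩ else ⟨1, h1⟩
  refine card_le_prod (Z := Zc W) 0 f1 g ?_
  · intro z0 z z' hz hz' h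
    have hXz := hX z z0 hz
    have hXz' := hX z' z0 hz'
    simp only [g, dif_pos hXz, dif_pos hXz'] at h
    have h1 : ((c (z - z0) : Kˣ) : Kˣ ⧸ Sq K) = ((c (z' - z0) : Kˣ) : Kˣ ⧸ Sq K) :=
      congrArg Subtype.val h
    obtain ⟨y, hy⟩ := quot_eq.1 h1
    obtain ⟨s, hs⟩ := IsAlgClosed.exists_pow_nat_eq
      (algebraMap K (AlgebraicClosure K) ((c (z - z0) : Kˣ) : K)) (n := 2) (by norm_num)
    have hs0 : s ≠ 0 := by
      rintro rfl
      rw [zero_pow two_ne_zero, eq_comm, map_eq_zero] at hs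
      exact (c (z - z0)).ne_zero hs
    have hy0 : algebraMap K (AlgebraicClosure K) (y : K) ≠ 0 := (map_ne_zero _).2 y.ne_zero
    have hs' : (s * algebraMap K _ (y : K)) ^ 2 = algebraMap K _ ((c (z' - z0) : Kˣ) : K) := by
      rw [hy, Units.val_mul, Units.val_pow_eq_pow_val, map_mul, mul_pow, hs, map_pow]
    have key : ∀ σ : Gal K, (z - z0 : Zc W).1 σ = (z' - z0 : Zc W).1 σ := by
      intro σ
      have h2 := (hc (z - z0) hXz).1 s hs σ
      have h3 := (hc (z' - z0) hXz').1 _ hs' σ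
      rw [map_mul, AlgEquiv.commutes] at h3
      by_cases h4 : (z - z0 : Zc W).1 σ = 0
      · by_contra h5
        rw [h4] at h5
        have h6 := h3.2 (fun h => h5 h.symm)
        rw [h2.1 h4] at h6
        have h7 : (2 : AlgebraicClosure K) * (s * algebraMap K _ (y : K)) = 0 := by
          linear_combination h6
        exact (mul_ne_zero two_ne_zero (mul_ne_zero hs0 hy0)) h7
      · by_cases h5 : (z' - z0 : Zc W).1 σ = 0
        · exfalso
          have h6 := h3.1 h5
          rw [h2.2 h4] at h6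
          have h7 : (2 : AlgebraicClosure K) * (s * algebraMap K _ (y : K)) = 0 := by
            linear_combination -h6
          exact (mul_ne_zero two_ne_zero (mul_ne_zero hs0 hy0)) h7
        · exact isX_ext hT ((z - z0 : Zc W).2.2 σ) ((z' - z0 : Zc W).2.2 σ) (hXz σ) (hXz' σ)
            h4 h5
    have h8 : (z - z0 : Zc W) = z' - z0 := Subtype.ext (funext key)
    exact sub_left_inj.1 h8

/-- the points killed by two -/
def tp2 (W : WeierstrassCurve K) : AddSubgroup (Pt W (AlgebraicClosure K)) where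
  carrier := {P | P + P = 0}
  zero_mem' := add_zero 0
  add_mem' := by
    intro P Q hP hQ
    change P + Q + (P + Q) = 0
    have h1 : P + Q + (P + Q) = (P + P) + (Q + Q) := by abel
    rw [h1, hP, hQ, add_zero]
  neg_mem' := by
    intro P hP
    change -P + -P = 0
    rw [← neg_add, hP, neg_zero]

/-- the coboundary map -/
noncomputable def dlh (W : WeierstrassCurve K) : Pt W (AlgebraicClosure K) →+ Coch W where
  toFun := dl
  map_zero' := dl_zero
  map_add' := dl_add

/-- there are four points killed by two -/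
lemma card_tp2 (hT : IsT W A B) : Nat.card (tp2 W) = 4 := by
  obtain ⟨r, s, hR, hrs1, hrs2, hr0, hs0, hrs⟩ := (hT.base (L := AlgebraicClosure K)).roots
  have h0 := hR.nons two_ne_zero hr0.symm hs0.symm hrs (x := 0) (y := 0) (by ring)
  have h1 := hR.nons two_ne_zero hr0.symm hs0.symm hrs (x := r) (y := 0) (by ring)
  have h2 := hR.nons two_ne_zero hr0.symm hs0.symm hrs (x := s) (y := 0) (by ring)
  have e0 : sm (W := W) 0 0 h0 + sm 0 0 h0 = 0 :=
    (@IsR.add_self _ _ _ _ _ _ (Classical.decEq _) hR two_ne_zero _ _ h0).2 rfl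
  have e1 : sm (W := W) r 0 h1 + sm r 0 h1 = 0 :=
    (@IsR.add_self _ _ _ _ _ _ (Classical.decEq _) hR two_ne_zero _ _ h1).2 rfl
  have e2 : sm (W := W) s 0 h2 + sm s 0 h2 = 0 :=
    (@IsR.add_self _ _ _ _ _ _ (Classical.decEq _) hR two_ne_zero _ _ h2).2 rfl
  let F : Option (Fin 3) → tp2 W := fun i => match i with
    | none => 0
    | some 0 => ⟨sm 0 0 h0, e0⟩
    | some 1 => ⟨sm r 0 h1, e1⟩
    | some 2 => ⟨sm s 0 h2, e2⟩
  have hF : Function.Bijective F := by
    constructor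
    · intro i j hij
      have h := congrArg Subtype.val hij
      rcases i with _ | i <;> rcases j with _ | j
      · rfl
      · exfalso
        fin_cases j
        · exact sm_ne_zero h0 h.symm
        · exact sm_ne_zero h1 h.symm
        · exact sm_ne_zero h2 h.symm
      · exfalso
        fin_cases i
        · exact sm_ne_zero h0 h
        · exact sm_ne_zero h1 h
        · exact sm_ne_zero h2 h
      · fin_cases i <;> fin_cases j
        · rfl
        · exact absurd (sm_inj (W := W) h).1.symm hr0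
        · exact absurd (sm_inj (W := W) h).1.symm hs0
        · exact absurd (sm_inj (W := W) h).1 hr0
        · rfl
        · exact absurd (sm_inj (W := W) h).1 hrs
        · exact absurd (sm_inj (W := W) h).1 hs0
        · exact absurd (sm_inj (W := W) h).1.symm hrs
        · rfl
    · rintro ⟨P, hP⟩
      rcases @IsR.tors _ _ _ _ _ _ (Classical.decEq _) hR two_ne_zero _ hP with
        h | ⟨ha, h⟩ | ⟨hb, h⟩ | ⟨hc, h⟩
      · exact ⟨none, Subtype.ext h.symm⟩
      · exact ⟨some 0, Subtype.ext h.symm⟩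
      · exact ⟨some 1, Subtype.ext h.symm⟩
      · exact ⟨some 2, Subtype.ext h.symm⟩
  rw [← Nat.card_eq_of_bijective F hF]
  simp

/-- the rational points killed by two -/
lemma card_ker (W : WeierstrassCurve K) :
    Nat.card ((dlh W).comp (tp2 W).subtype).ker =
      Nat.card (zsmulAddGroupHom (α := MP W) 2).ker := by
  refine (Nat.card_congr (Equiv.ofBijective (fun P : (zsmulAddGroupHom (α := MP W) 2).ker =>
    (⟨⟨inc W P.1, ?_⟩, ?_⟩ : ((dlh W).comp (tp2 W).subtype).ker)) ⟨?_, ?_⟩)).symm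
  · change inc W P.1 + inc W P.1 = 0
    have h : (2 : ℤ) • P.1 = 0 := P.2
    rw [← map_add, ← two_zsmul, h, map_zero]
  · exact dl_inc P.1
  · intro P Q h
    have h1 : inc W P.1 = inc W Q.1 := congrArg (fun x => x.1.1) h
    exact Subtype.ext (inc_inj W h1)
  · rintro ⟨⟨P, hP⟩, hP'⟩
    obtain ⟨Q, hQ⟩ := exists_inc (W := W) (P := P) hP'
    refine ⟨⟨Q, ?_⟩, Subtype.ext (Subtype.ext hQ)⟩
    change (2 : ℤ) • Q = 0
    apply inc_inj W
    rw [two_zsmul, map_add, hQ, map_zero]
    exact hP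

/-- the lower bound -/
theorem Zc_lower (hT : IsT W A B) [Finite (Zc W)] :
    Finite {x : Pool.Agent.TH841.NF.D.Sha W // 2 • x = 0} ∧
    4 * 2 ^ (Module.finrank ℤ (MP W)) *
      Nat.card {x : Pool.Agent.TH841.NF.D.Sha W // 2 • x = 0} ≤ Nat.card (Zc W) := by
  classical
  have hfg : Module.Finite ℤ (MP W) := fg_MP hT
  -- the classes of Sha
  have hsha : ∀ x : {x : Pool.Agent.TH841.NF.D.Sha W // 2 • x = 0}, ∃ f : Zc W,
      (QuotientAddGroup.mk (⟨f.1, f.2.1⟩ : Pool.Agent.TH841.NF.D.shaCoc W) :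
        Pool.Agent.TH841.NF.D.Sha W) = x.1 := by
    rintro ⟨x, hx⟩
    induction x using QuotientAddGroup.induction_on with
    | H f0 =>
      have h1 : IsCob W ((2 • f0 : Pool.Agent.TH841.NF.D.shaCoc W) : Coch W) :=
        (QuotientAddGroup.eq_zero_iff (2 • f0)).1 hx
      obtain ⟨P0, hP0⟩ := isCob_iff.1 h1
      obtain ⟨Q0, hQ0⟩ := exists_half hT P0
      have hP0' : f0.1 + f0.1 = dl Q0 + dl Q0 := by
        rw [← dl_add, ← hQ0, ← hP0, two_smul]
        rfl
      refine ⟨⟨f0.1 - dl Q0, sha_sub f0.2 (dl_sha Q0), fun σ => ?_⟩, ?_⟩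
      · have h3 : f0.1 - dl Q0 + (f0.1 - dl Q0) = (f0.1 + f0.1) - (dl Q0 + dl Q0) := by abel
        have h4 : f0.1 - dl Q0 + (f0.1 - dl Q0) = 0 := by rw [h3, hP0', sub_self]
        exact congrFun h4 σ
      · refine (QuotientAddGroup.eq (s := (cob W).addSubgroupOf
          (Pool.Agent.TH841.NF.D.shaCoc W))).2 ?_
        change IsCob W (-(f0.1 - dl Q0) + f0.1)
        refine isCob_iff.2 ⟨Q0, ?_⟩
        abel
  choose fs hfs using hsha
  -- the classes of points
  have hpt : ∀ q : MP W ⧸ (zsmulAddGroupHom (α := MP W) 2).range, ∃ (P : MP W)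
      (Q : Pt W (AlgebraicClosure K)), (QuotientAddGroup.mk P : MP W ⧸ _) = q ∧
      inc W P = Q + Q := by
    intro q
    obtain ⟨P, hP⟩ := QuotientAddGroup.mk_surjective q
    obtain ⟨Q, hQ⟩ := exists_half hT (inc W P)
    exact ⟨P, Q, hP, hQ⟩
  choose Pq Qv hPq hQv using hpt
  have hQZ : ∀ q, dl (Qv q) ∈ Zc W := by
    intro q
    refine ⟨dl_sha _, fun σ => ?_⟩
    have h1 : dl (Qv q) + dl (Qv q) = 0 := by rw [← dl_add, ← hQv, dl_inc]
    exact congrFun h1 σ
  have hRZ : ∀ t ∈ ((dlh W).comp (tp2 W).subtype).range, t ∈ Zc W := by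
    rintro _ ⟨R, rfl⟩
    refine ⟨dl_sha _, fun σ => ?_⟩
    have h1 : dl R.1 + dl R.1 = 0 := by
      rw [← dl_add]
      have : R.1 + R.1 = 0 := R.2
      rw [this, dl_zero]
    exact congrFun h1 σ
  let G : {x : Pool.Agent.TH841.NF.D.Sha W // 2 • x = 0} ×
      (MP W ⧸ (zsmulAddGroupHom (α := MP W) 2).range) × ((dlh W).comp (tp2 W).subtype).range →
      Zc W := fun y => fs y.1 + ⟨dl (Qv y.2.1), hQZ _⟩ + ⟨y.2.2.1, hRZ _ y.2.2.2⟩
  have hG : Function.Injective G := by
    rintro ⟨x, q, t⟩ ⟨x', q', t'⟩ h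
    have h0 : (fs x).1 + dl (Qv q) + t.1 = (fs x').1 + dl (Qv q') + t'.1 :=
      congrArg Subtype.val h
    obtain ⟨R, hR⟩ := t.2
    obtain ⟨R', hR'⟩ := t'.2
    have hR1 : dl R.1 = t.1 := hR
    have hR1' : dl R'.1 = t'.1 := hR'
    have hx : x = x' := by
      apply Subtype.ext
      rw [← hfs x, ← hfs x']
      refine (QuotientAddGroup.eq (s := (cob W).addSubgroupOf
          (Pool.Agent.TH841.NF.D.shaCoc W))).2 ?_
      change IsCob W (-(fs x).1 + (fs x').1)
      refine isCob_iff.2 ⟨Qv q - Qv q' + (R.1 - R'.1), ?_⟩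
      rw [dl_add, dl_sub, dl_sub, hR1, hR1']
      have h3 : (fs x').1 = (fs x).1 + dl (Qv q) + t.1 - dl (Qv q') - t'.1 := by
        rw [h0]; abel
      rw [h3]
      abel
    subst hx
    have h1 : dl (Qv q - Qv q' + (R.1 - R'.1)) = 0 := by
      rw [dl_add, dl_sub, dl_sub, hR1, hR1']
      have h3 : dl (Qv q) + t.1 = dl (Qv q') + t'.1 := by
        have h4 : (fs x).1 + (dl (Qv q) + t.1) = (fs x).1 + (dl (Qv q') + t'.1) := by
          rw [← add_assoc, ← add_assoc]; exact h0
        exact add_left_cancel h4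
      have h4 : dl (Qv q) - dl (Qv q') + (t.1 - t'.1) =
          (dl (Qv q) + t.1) - (dl (Qv q') + t'.1) := by abel
      rw [h4, h3, sub_self]
    obtain ⟨M, hM⟩ := exists_inc h1
    have hq : q = q' := by
      rw [← hPq q, ← hPq q', QuotientAddGroup.eq]
      refine ⟨-M, ?_⟩
      change (2 : ℤ) • (-M) = -Pq q + Pq q'
      apply inc_inj W
      rw [map_add, map_neg, hQv, hQv, two_zsmul, map_add, map_neg, hM]
      have h5 : R.1 + R.1 = 0 := R.2
      have h6 : R'.1 + R'.1 = 0 := R'.2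
      have h7 : -(Qv q - Qv q' + (R.1 - R'.1)) + -(Qv q - Qv q' + (R.1 - R'.1)) =
          -(Qv q + Qv q) + (Qv q' + Qv q') - (R.1 + R.1) + (R'.1 + R'.1) := by abel
      rw [h7, h5, h6, sub_zero, add_zero]
    subst hq
    have ht : t = t' := by
      apply Subtype.ext
      exact add_left_cancel h0
    rw [ht]
  have hfin := Finite.of_injective G hG
  have hne1 : Nonempty {x : Pool.Agent.TH841.NF.D.Sha W // 2 • x = 0} := ⟨⟨0, smul_zero _⟩⟩
  have hfin1 : Finite {x : Pool.Agent.TH841.NF.D.Sha W // 2 • x = 0} :=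
    Finite.of_injective (fun x => G (x, (0, 0))) (fun x y h => by
      have := hG h
      exact congrArg Prod.fst this)
  refine ⟨hfin1, ?_⟩
  have hcard := Nat.card_le_card_of_injective G hG
  rw [Nat.card_prod, Nat.card_prod] at hcard
  have hq := Pool.Agent.TeamU.card_quot_two (MP W)
  have h4 := card_tp2 hT
  have hfin4 : Finite (tp2 W) := Nat.finite_of_card_ne_zero (by rw [h4]; norm_num)
  have h5 : Nat.card ((dlh W).comp (tp2 W).subtype).range *
      Nat.card ((dlh W).comp (tp2 W).subtype).ker = 4 := by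
    rw [← h4, AddSubgroup.card_eq_card_quotient_mul_card_addSubgroup
      ((dlh W).comp (tp2 W).subtype).ker]
    congr 1
    exact (Nat.card_congr (QuotientAddGroup.quotientKerEquivRange _).toEquiv).symm
  rw [hq, ← card_ker W] at hcard
  calc 4 * 2 ^ (Module.finrank ℤ (MP W)) *
      Nat.card {x : Pool.Agent.TH841.NF.D.Sha W // 2 • x = 0}
      = Nat.card {x : Pool.Agent.TH841.NF.D.Sha W // 2 • x = 0} *
        (2 ^ (Module.finrank ℤ (MP W)) * (Nat.card ((dlh W).comp (tp2 W).subtype).range *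
          Nat.card ((dlh W).comp (tp2 W).subtype).ker)) := by rw [h5]; ring
    _ = Nat.card {x : Pool.Agent.TH841.NF.D.Sha W // 2 • x = 0} *
        (2 ^ (Module.finrank ℤ (MP W)) * Nat.card ((dlh W).comp (tp2 W).subtype).ker *
          Nat.card ((dlh W).comp (tp2 W).subtype).range) := by ring
    _ ≤ Nat.card (Zc W) := hcard

end

end Pool.Agent.Y682
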