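import Mathlib
import Pool.Agent.Y682.KL

/-!
# The `p`-adic numbers in the completions of a number field
-/

set_option autoImplicit false
set_option linter.unusedSectionVars false

attribute [-instance] DivisionRing.toRatAlgebra

namespace Pool.Agent.Y682

open NumberField IsDedekindDomain

section

variable {F : Type} [Field F] [NumberField F]

lemma exists_prime_mem (v : HeightOneSpectrum (𝓞 F)) :
    ∃ p : ℕ, p.Prime ∧ (p : 𝓞 F) ∈ v.asIdeal := by
  have h1 : ((Ideal.absNorm v.asIdeal : ℕ) : 𝓞 F) ∈ v.asIdeal := Ideal.absNorm_mem v.asIdeal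
  have h2 : Ideal.absNorm v.asIdeal ≠ 0 := fun h => v.ne_bot (Ideal.absNorm_eq_zero_iff.1 h)
  obtain ⟨p, hp, _, hpv⟩ := exists_prime_nat v _ h2 h1
  exact ⟨p, hp, hpv⟩

variable [Algebra ℚ F] {v : HeightOneSpectrum (𝓞 F)} {p : ℕ} [hp : Fact p.Prime]
  (hpv : (p : 𝓞 F) ∈ v.asIdeal)

include hpv in
lemma val_le_of_padic {x : ℚ} (hx : Rat.padicValuation p x ≤ 1) :
    v.valuation F (algebraMap ℚ F x) ≤ 1 := by
  have h1 : ¬ p ∣ x.den := Rat.padicValuation_le_one_iff.1 hx
  have h2 : v.valuation F ((x.den : ℤ) : F) = 1 := by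
    have h3 : ((x.den : ℤ) : F) = algebraMap (𝓞 F) F ((x.den : ℤ) : 𝓞 F) := (map_intCast _ _).symm
    rw [h3, HeightOneSpectrum.valuation_eq_one_iff_notMem]
    intro h4
    obtain ⟨a, b, hab⟩ : IsCoprime (p : ℤ) (x.den : ℤ) :=
      Nat.isCoprime_iff_coprime.2 ((Nat.Prime.coprime_iff_not_dvd hp.out).2 h1)
    have h5 : (1 : 𝓞 F) ∈ v.asIdeal := by
      have h6 : (1 : 𝓞 F) = (a : 𝓞 F) * (p : 𝓞 F) + (b : 𝓞 F) * ((x.den : ℤ) : 𝓞 F) := by
        have := congrArg (Int.cast : ℤ → 𝓞 F) hab
        push_cast at this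
        push_cast
        exact this.symm
      rw [h6]
      exact add_mem (v.asIdeal.mul_mem_left _ hpv) (v.asIdeal.mul_mem_left _ h4)
    exact v.isPrime.ne_top ((Ideal.eq_top_iff_one _).2 h5)
  have h3 : algebraMap ℚ F x = ((x.num : ℤ) : F) / ((x.den : ℤ) : F) := by
    conv_lhs => rw [← Rat.num_div_den x]
    rw [map_div₀, map_intCast, map_natCast]
    push_cast
    rfl
  rw [h3, map_div₀, h2, div_one]
  exact val_int_le v _

/-- the map on rational numbers -/
noncomputable def gth (v : HeightOneSpectrum (𝓞 F)) (p : ℕ) [Fact p.Prime] :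
    WithVal (Rat.padicValuation p) →+* v.adicCompletion F :=
  ((algebraMap F (v.adicCompletion F)).comp (algebraMap ℚ F)).comp
    (WithVal.equiv (Rat.padicValuation p)).toRingHom

include hpv in
lemma gth_cont : Continuous (gth v p) := by
  apply continuous_of_continuousAt_zero
  unfold ContinuousAt
  rw [map_zero]
  intro U hU
  rw [Valued.mem_nhds_zero] at hU
  obtain ⟨γ, hγ⟩ := hU
  rw [Filter.mem_map, Valued.mem_nhds_zero]
  have hp0 : (p : ℚ) ≠ 0 := by exact_mod_cast hp.out.ne_zero
  have hvp : v.valuation F (p : F) ≤ WithZero.exp (-1 : ℤ) := by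
    have h1 : (p : F) = algebraMap (𝓞 F) F (p : 𝓞 F) := (map_natCast _ _).symm
    have h2 : v.valuation F (p : F) < 1 := by
      rw [h1, HeightOneSpectrum.valuation_lt_one_iff_mem]
      exact hpv
    rw [← WithZero.exp_zero] at h2
    by_cases h3 : v.valuation F (p : F) = 0
    · rw [h3]; exact zero_le
    · rw [← WithZero.exp_log h3, WithZero.exp_lt_exp] at h2
      rw [← WithZero.exp_log h3, WithZero.exp_le_exp]
      omega
  have hγ0 : MonoidWithZeroHom.ValueGroup₀.embedding γ.1 ≠ 0 :=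
    MonoidWithZeroHom.ValueGroup₀.embedding_unit_ne_zero _
  obtain ⟨n, hn⟩ : ∃ n : ℕ, WithZero.exp (-(n : ℤ)) <
      MonoidWithZeroHom.ValueGroup₀.embedding γ.1 := by
    refine ⟨(WithZero.log (MonoidWithZeroHom.ValueGroup₀.embedding γ.1)).natAbs + 1, ?_⟩
    rw [← WithZero.lt_log_iff_exp_lt hγ0]
    have h9 := neg_abs_le (WithZero.log (MonoidWithZeroHom.ValueGroup₀.embedding γ.1))
    push_cast
    linarith
  have hpn : (Valued.v : Valuation (WithVal (Rat.padicValuation p)) _).restrict
      ((p : WithVal (Rat.padicValuation p)) ^ n) ≠ 0 := by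
    rw [Ne, Valuation.restrict_eq_zero_iff]
    refine (Valuation.ne_zero_iff _).2 (pow_ne_zero _ ?_)
    intro h
    apply hp0
    have := congrArg (WithVal.equiv (Rat.padicValuation p)) h
    rwa [map_natCast, map_zero] at this
  refine ⟨Units.mk0 _ hpn, fun x hx => hγ ?_⟩
  have hx' : (Valued.v : Valuation (WithVal (Rat.padicValuation p)) _).restrict x <
    (Valued.v : Valuation (WithVal (Rat.padicValuation p)) _).restrict
      ((p : WithVal (Rat.padicValuation p)) ^ n) := hx
  rw [Valuation.restrict_lt_iff] at hx'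
  change (Valued.v : Valuation (v.adicCompletion F) _).restrict (gth v p x) < γ.1
  rw [Valuation.restrict_lt_iff_lt_embedding]
  refine lt_of_le_of_lt ?_ hn
  have h1 : Rat.padicValuation p (WithVal.equiv (Rat.padicValuation p) x / (p : ℚ) ^ n) ≤ 1 := by
    rw [map_div₀]
    refine (div_le_one₀ (zero_lt_iff.2 ((Valuation.ne_zero_iff _).2 (pow_ne_zero _ hp0)))).2 ?_
    have h2 := hx'.le
    have h3 : (WithVal.equiv (Rat.padicValuation p)) ((p : WithVal (Rat.padicValuation p)) ^ n) =
      (p : ℚ) ^ n := by rw [map_pow, map_natCast]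
    rw [← h3]
    exact h2
  have h2 := val_le_of_padic hpv h1
  rw [map_div₀, map_pow, map_natCast, map_div₀, map_pow] at h2
  have h3 : (Valued.v : Valuation (v.adicCompletion F) _) (gth v p x) =
      v.valuation F (algebraMap ℚ F (WithVal.equiv (Rat.padicValuation p) x)) :=
    HeightOneSpectrum.valuedAdicCompletion_eq_valuation' v _
  rw [h3]
  have hpF : v.valuation F (p : F) ≠ 0 := by
    refine (Valuation.ne_zero_iff _).2 ?_
    exact_mod_cast hp.out.ne_zero
  rw [div_le_one₀ (zero_lt_iff.2 (pow_ne_zero _ hpF))] at h2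
  refine h2.trans ((pow_le_pow_left' hvp n).trans (le_of_eq ?_))
  rw [← WithZero.exp_nsmul, nsmul_eq_mul, mul_neg, mul_one]

/-- the embedding of the `p`-adic numbers -/
noncomputable def pth : ℚ_[p] →+* v.adicCompletion F :=
  (UniformSpace.Completion.extensionHom (gth v p) (gth_cont hpv)).comp
    (Padic.withValRingEquiv (p := p)).symm.toRingHom

end

end Pool.Agent.Y682
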