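import Mathlib
import Pool.Agent.Y682.Theta
import Pool.Agent.Y682.CorK

/-!
# Restriction from `ℚ` to a number field, and corestriction
-/

set_option autoImplicit false
set_option linter.unusedSectionVars false

attribute [-instance] DivisionRing.toRatAlgebra

namespace Pool.Agent.Y682

open WeierstrassCurve NumberField IsDedekindDomain

open Pool.Agent.TH841.NF

open Pool.Agent.TH841.SH.D (Pt act Gal Coch IsCoc IsCob LocTriv cob)

section res

variable {F : Type} [Field F] [NumberField F] [Algebra ℚ F] {E : WeierstrassCurve ℚ}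
  {W : WeierstrassCurve F} (hW : Sc (algebraMap ℚ F) 1 E W) (e : AlgebraicClosure F ≃+* Qb)

/-- the restriction of a cochain -/
noncomputable def rs (f : Coch E) : Coch W := fun σ =>
  tm (sc_any' hW (e.symm : Qb →+* AlgebraicClosure F)) (f (cQ e σ))

lemma rs_add (f f' : Coch E) : rs hW e (f + f') = rs hW e f + rs hW e f' := by
  funext σ
  exact map_add _ _ _

lemma rs_act (σ : Gal F) (P : Pt E Qb) :
    tm (sc_any' hW (e.symm : Qb →+* AlgebraicClosure F)) (act E (cQ e σ).toAlgHom P) =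
      act W σ.toAlgHom (tm (sc_any' hW (e.symm : Qb →+* AlgebraicClosure F)) P) := by
  have S : Sc ((e.symm : Qb →+* AlgebraicClosure F).comp
      ((cQ e σ : Qb ≃+* Qb) : Qb →+* Qb)) 1 (E.baseChange Qb)
      (W.baseChange (AlgebraicClosure F)) := sc_any' hW _
  rw [act_tm (cQ e σ).toAlgHom (sc_any' hW (e.symm : Qb →+* AlgebraicClosure F)) S
    (fun x => rfl), tm_act _ σ.toAlgHom S (fun x => ?_) (map_one _).symm]
  change σ (e.symm x) = e.symm (e (σ (e.symm x)))
  rw [RingEquiv.symm_apply_apply]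

lemma rs_cob {f : Coch E} (hf : IsCob E f) : IsCob W (rs hW e f) := by
  obtain ⟨P, hP⟩ := hf
  refine ⟨tm (sc_any' hW (e.symm : Qb →+* AlgebraicClosure F)) P, fun σ => ?_⟩
  unfold rs
  rw [hP, map_sub, rs_act hW]

lemma rs_coc {f : Coch E} (hf : IsCoc E f) : IsCoc W (rs hW e f) := by
  classical
  obtain ⟨S, hS⟩ := coc_fin hf
  refine coc_of_fin ?_ (S.image e.symm) ?_
  · intro σ τ
    have h1 : cQ e (σ * τ) = cQ e σ * cQ e τ := by
      refine AlgEquiv.ext fun x => ?_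
      change e ((σ * τ) (e.symm x)) = e (σ (e.symm (e (τ (e.symm x)))))
      rw [RingEquiv.symm_apply_apply]
      rfl
    unfold rs
    rw [h1, hf.2, map_add, rs_act hW]
  · intro σ hσ
    unfold rs
    rw [hS, map_zero]
    intro x hx
    change e (σ (e.symm x)) = x
    rw [hσ _ (Finset.mem_image_of_mem _ hx), RingEquiv.apply_symm_apply]

lemma rs_loc {K : Type} [Field K] {iK : Algebra ℚ K} {Fv : Type} [Field Fv] [Algebra F Fv]
    (θ : K →+* Fv) {f : Coch E} (hf : LocTriv E K f) : LocTriv W Fv (rs hW e f) := by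
  intro ι
  let i1 : Algebra K (AlgebraicClosure Fv) := ((algebraMap Fv (AlgebraicClosure Fv)).comp θ).toAlgebra
  let θ' : AlgebraicClosure K →ₐ[K] AlgebraicClosure Fv := IsAlgClosed.lift
  have hθ' : ∀ y : K, θ' (algebraMap K _ y) = algebraMap Fv _ (θ y) := fun y => θ'.commutes y
  let ι₀ : Qb →ₐ[ℚ] AlgebraicClosure K := IsAlgClosed.lift
  obtain ⟨h₀, hh₀⟩ := aut_of_two
    ((θ' : AlgebraicClosure K →+* AlgebraicClosure Fv).comp (ι₀ : Qb →+* AlgebraicClosure K))
    ((ι : AlgebraicClosure F →+* AlgebraicClosure Fv).comp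
      (e.symm : Qb →+* AlgebraicClosure F)) (fun x => DFunLike.congr_fun (Subsingleton.elim
        (((θ' : AlgebraicClosure K →+* AlgebraicClosure Fv).comp
          (ι₀ : Qb →+* AlgebraicClosure K)).comp (algebraMap ℚ Qb))
        (((ι : AlgebraicClosure F →+* AlgebraicClosure Fv).comp
      (e.symm : Qb →+* AlgebraicClosure F)).comp (algebraMap ℚ Qb))) x)
  let ι₁ : Qb →ₐ[ℚ] AlgebraicClosure K := ι₀.comp h₀.toAlgHom
  have hι : ∀ x, ι (e.symm x) = θ' (ι₁ x) := hh₀
  obtain ⟨P₀, hP₀⟩ := hf ι₁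
  have S1 : Sc (θ' : AlgebraicClosure K →+* AlgebraicClosure Fv) 1
    (E.baseChange (AlgebraicClosure K)) (W.baseChange (AlgebraicClosure Fv)) := sc_any' hW _
  refine ⟨tm S1 P₀, fun τ σ hτ => ?_⟩
  obtain ⟨τ₀, hτ₀⟩ := aut_of_two (θ' : AlgebraicClosure K →+* AlgebraicClosure Fv)
    (((τ : AlgebraicClosure Fv ≃+* AlgebraicClosure Fv) : AlgebraicClosure Fv →+*
      AlgebraicClosure Fv).comp (θ' : AlgebraicClosure K →+* AlgebraicClosure Fv)) (by
      intro y
      change θ' (algebraMap K _ y) = τ (θ' (algebraMap K _ y))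
      rw [hθ', AlgEquiv.commutes])
  have hτ2 : ∀ x, τ (θ' x) = θ' (τ₀ x) := hτ₀
  have hcomp : ∀ x, τ₀ (ι₁ x) = ι₁ (cQ e σ x) := by
    intro x
    apply (θ' : AlgebraicClosure K →+* AlgebraicClosure Fv).injective
    change θ' (τ₀ (ι₁ x)) = θ' (ι₁ (cQ e σ x))
    rw [← hτ2, ← hι, hτ, ← hι]
    change _ = ι (e.symm (e (σ (e.symm x))))
    rw [RingEquiv.symm_apply_apply]
  have h1 := hP₀ τ₀ (cQ e σ) hcomp
  have S2 : Sc ((ι : AlgebraicClosure F →+* AlgebraicClosure Fv).comp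
      (e.symm : Qb →+* AlgebraicClosure F)) 1
    (E.baseChange Qb) (W.baseChange (AlgebraicClosure Fv)) := sc_any' hW _
  have h2 : act W ι (rs hW e f σ) = tm S2 (f (cQ e σ)) :=
    tm_act _ ι S2 (fun x => rfl) (map_one ι).symm _
  have h3 : tm S2 (f (cQ e σ)) = tm S1 (act E ι₁ (f (cQ e σ))) :=
    (act_tm ι₁ S1 S2 (fun x => (hι x).symm) _).symm
  rw [h2, h3, h1, map_sub]
  congr 1
  have S3 : Sc (((τ : AlgebraicClosure Fv ≃+* AlgebraicClosure Fv) : AlgebraicClosure Fv →+*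
      AlgebraicClosure Fv).comp (θ' : AlgebraicClosure K →+* AlgebraicClosure Fv)) 1
      (E.baseChange (AlgebraicClosure K)) (W.baseChange (AlgebraicClosure Fv)) := sc_any' hW _
  have h4 : tm S1 (act E (τ₀.toAlgHom.restrictScalars ℚ) P₀) = tm S3 P₀ :=
    act_tm _ S1 S3 (fun x => (hτ2 x).symm) _
  have h5 : act W (τ.toAlgHom.restrictScalars F) (tm S1 P₀) = tm S3 P₀ :=
    tm_act _ (τ.toAlgHom.restrictScalars F) S3 (fun x => rfl) (map_one _).symm _
  rw [h4, h5]

lemma exists_real_hom (v : InfinitePlace F) : Nonempty (ℝ →+* v.Completion) := by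
  rcases v.isReal_or_isComplex with hv | hv
  · exact ⟨(InfinitePlace.Completion.ringEquivRealOfIsReal hv).symm.toRingHom⟩
  · exact ⟨(InfinitePlace.Completion.ringEquivComplexOfIsComplex hv).symm.toRingHom.comp
      Complex.ofRealHom⟩

lemma rs_sha {f : Coch E} (hf : Pool.Agent.TH841.SH.D.IsShaCoc E f) :
    Pool.Agent.TH841.NF.D.IsShaCoc W (rs hW e f) := by
  refine ⟨rs_coc hW e hf.1, fun v => ?_, fun v => ?_⟩
  · obtain ⟨p, hp, hpv⟩ := exists_prime_mem v
    have : Fact p.Prime := ⟨hp⟩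
    exact rs_loc hW e (pth hpv) (hf.2.1 p)
  · obtain ⟨θ⟩ := exists_real_hom v
    exact rs_loc hW e θ hf.2.2

/-- the homomorphism on the cocycles -/
noncomputable def rsC : Pool.Agent.TH841.SH.D.shaCoc E →+ Pool.Agent.TH841.NF.D.shaCoc W where
  toFun f := ⟨rs hW e f.1, rs_sha hW e f.2⟩
  map_zero' := by
    apply Subtype.ext
    have h := rs_add hW e 0 0
    rw [add_zero] at h
    exact left_eq_add.1 h
  map_add' f g := Subtype.ext (rs_add hW e f.1 g.1)

/-- the restriction on the Tate-Shafarevich groups -/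
noncomputable def rsS : Pool.Agent.TH841.SH.D.Sha E →+ Pool.Agent.TH841.NF.D.Sha W :=
  QuotientAddGroup.map ((cob E).addSubgroupOf (Pool.Agent.TH841.SH.D.shaCoc E))
    ((cob W).addSubgroupOf (Pool.Agent.TH841.NF.D.shaCoc W))
    (rsC hW e) (fun _ hf => rs_cob hW e hf)

lemma cQ_cF {g : Gal ℚ} (h : Fx e g) : cQ e (cF e g) = g := by
  refine AlgEquiv.ext fun x => ?_
  change e (cF e g (e.symm x)) = g x
  rw [e_cF e h, RingEquiv.apply_symm_apply]

lemma tr_rs (f : Coch E) {g : Gal ℚ} (h : Fx e g) : tr hW e (rs hW e f) g = f g := by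
  unfold tr rs
  have S'' : Sc (RingHom.id Qb) 1 (E.baseChange Qb) (E.baseChange Qb) := by
    refine ⟨one_ne_zero, ?_, ?_, ?_, ?_, ?_⟩ <;> simp
  rw [tm_tm _ _ S'' (fun x => e.apply_symm_apply x), tm_id S'' (fun x => rfl) rfl, cQ_cF e h]
  rw [map_one, mul_one]

/-- corestriction of a restriction -/
lemma co_rs {f : Coch E} (hf : IsCoc E f) (g : Gal ℚ) :
    co hW e (rs hW e f) g = (Module.finrank ℚ F) • f g +
      (act E g.toAlgHom (∑ q : Gal ℚ ⧸ HF e, f (sec (HF e) q)) -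
        ∑ q : Gal ℚ ⧸ HF e, f (sec (HF e) q)) := by
  unfold co cor
  have h1 : ∀ q : Gal ℚ ⧸ HF e, (1 : Gal ℚ →* ℤ) (sec (HF e) (g • q)) •
      aG E (sec (HF e) (g • q)) (tr hW e (rs hW e f)
        ((sec (HF e) (g • q))⁻¹ * g * sec (HF e) q)) =
      f g + (act E g.toAlgHom (f (sec (HF e) q)) - f (sec (HF e) (g • q))) := by
    intro q
    have h2 := mem_H (s := sec (HF e)) (sec_spec (HF e)) g q
    rw [tr_rs hW e f h2]
    have h3 : f (sec (HF e) (g • q) * ((sec (HF e) (g • q))⁻¹ * g * sec (HF e) q)) =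
      f (sec (HF e) (g • q)) + aG E (sec (HF e) (g • q))
        (f ((sec (HF e) (g • q))⁻¹ * g * sec (HF e) q)) := hf.2 _ _
    have h4 : sec (HF e) (g • q) * ((sec (HF e) (g • q))⁻¹ * g * sec (HF e) q) =
      g * sec (HF e) q := by group
    rw [h4, hf.2] at h3
    have h5 : ∀ x : Pt E Qb, (1 : Gal ℚ →* ℤ) (sec (HF e) (g • q)) • x = x := fun x =>
      one_smul ℤ x
    rw [h5]
    rw [eq_sub_of_add_eq' h3.symm]
    abel
  rw [Finset.sum_congr rfl fun q _ => h1 q, Finset.sum_add_distrib, Finset.sum_sub_distrib,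
    Finset.sum_const, Finset.card_univ, card_coset e, map_sum]
  congr 2
  exact Equiv.sum_comp (MulAction.toPerm g : Equiv.Perm (Gal ℚ ⧸ HF e)) (fun q : Gal ℚ ⧸ HF e =>
      f (sec (HF e) q))

lemma coS_rsS (y : Pool.Agent.TH841.SH.D.Sha E) :
    coS hW e (rsS hW e y) = (Module.finrank ℚ F) • y := by
  induction y using QuotientAddGroup.induction_on with
  | H f =>
    have h1 : coC hW e (rsC hW e f) - (Module.finrank ℚ F) • f ∈
        (cob E).addSubgroupOf (Pool.Agent.TH841.SH.D.shaCoc E) := by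
      refine ⟨∑ q : Gal ℚ ⧸ HF e, f.1 (sec (HF e) q), fun g => ?_⟩
      change co hW e (rs hW e f.1) g - ((Module.finrank ℚ F) • f.1 : Coch E) g = _
      rw [co_rs hW e f.2.1 g]
      have : ((Module.finrank ℚ F) • f.1 : Coch E) g = (Module.finrank ℚ F) • (f.1 g) := rfl
      rw [this]
      abel
    have h2 := (QuotientAddGroup.eq_zero_iff (N := (cob E).addSubgroupOf
      (Pool.Agent.TH841.SH.D.shaCoc E)) _).2 h1
    have h3 : ((coC hW e (rsC hW e f) : Pool.Agent.TH841.SH.D.shaCoc E) :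
        Pool.Agent.TH841.SH.D.shaCoc E ⧸ (cob E).addSubgroupOf (Pool.Agent.TH841.SH.D.shaCoc E)) -
        (Module.finrank ℚ F) • (f : Pool.Agent.TH841.SH.D.shaCoc E ⧸
          (cob E).addSubgroupOf (Pool.Agent.TH841.SH.D.shaCoc E)) = 0 := h2
    exact sub_eq_zero.1 h3

/-- surjectivity of the corestriction on the primary part -/
lemma coS_surj (hodd : Odd (Module.finrank ℚ F)) {m : ℕ} (y : Pool.Agent.TH841.SH.D.Sha E)
    (hy : 2 ^ m • y = 0) : ∃ x : Pool.Agent.TH841.NF.D.Sha W, 2 ^ m • x = 0 ∧ coS hW e x = y := by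
  have h1 : Nat.Coprime (Module.finrank ℚ F) (2 ^ m) :=
    Nat.Coprime.pow_right m (Nat.coprime_two_right.2 hodd)
  obtain ⟨a, b, hab⟩ := Nat.isCoprime_iff_coprime.2 h1
  refine ⟨rsS hW e (a • y), ?_, ?_⟩
  · have h2 : (2 ^ m : ℕ) • (a • y) = 0 := by
      rw [smul_comm, hy, smul_zero]
    rw [← map_nsmul, h2, map_zero]
  · rw [coS_rsS]
    have h3 : (Module.finrank ℚ F) • (a • y) = (a * (Module.finrank ℚ F : ℤ)) • y := by
      rw [mul_comm, mul_smul, natCast_zsmul]
    have h4 : (b * ((2 ^ m : ℕ) : ℤ)) • y = 0 := by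
      rw [mul_smul, natCast_zsmul, hy, smul_zero]
    have h5 := congrArg (fun z : ℤ => z • y) hab
    simp only [add_smul, one_smul] at h5
    rw [h4, add_zero] at h5
    rw [h3, h5]

end res

end Pool.Agent.Y682
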