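import Mathlib
import Pool.Agent.Y682.Rk
import Pool.Agent.Y682.Rst

/-!
# Stability in fields of odd degree
-/

set_option autoImplicit false
set_option linter.unusedSectionVars false

attribute [-instance] DivisionRing.toRatAlgebra

namespace Pool.Agent.Y682

open WeierstrassCurve NumberField IsDedekindDomain

open Pool.Agent.TH841.NF

/-- isomorphism of the 2-primary parts -/
lemma prim_equiv {A B : Type} [AddCommGroup A] [AddCommGroup B] (φ : A →+ B)
    (hi : ∀ (x : A) (m : ℕ), 2 ^ m • x = 0 → φ x = 0 → x = 0)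
    (hs : ∀ (y : B) (m : ℕ), 2 ^ m • y = 0 → ∃ x : A, 2 ^ m • x = 0 ∧ φ x = y) :
    Nonempty (AddCommGroup.primaryComponent A 2 ≃+ AddCommGroup.primaryComponent B 2) := by
  have h1 : ∀ x : AddCommGroup.primaryComponent A 2,
      φ x.1 ∈ AddCommGroup.primaryComponent B 2 := by
    intro x
    obtain ⟨m, hm⟩ := x.2
    exact ⟨m, by rw [← map_nsmul, hm, map_zero]⟩
  let ψ : AddCommGroup.primaryComponent A 2 →+ AddCommGroup.primaryComponent B 2 :=
    (φ.comp (AddCommGroup.primaryComponent A 2).subtype).codRestrict _ h1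
  refine ⟨AddEquiv.ofBijective ψ ⟨?_, ?_⟩⟩
  · rw [injective_iff_map_eq_zero]
    intro x hx
    obtain ⟨m, hm⟩ := x.2
    exact Subtype.ext (hi x.1 m hm (congrArg Subtype.val hx))
  · intro y
    obtain ⟨m, hm⟩ := y.2
    obtain ⟨x, hx, hxy⟩ := hs y.1 m hm
    exact ⟨⟨x, m, hx⟩, Subtype.ext hxy⟩

section

variable {F : Type} [Field F] [NumberField F] [IsTotallyReal F] [Algebra ℚ F]
  {a c : ℤ}

lemma exists_e (F : Type) [Field F] [NumberField F] [Algebra ℚ F] :
    Nonempty (AlgebraicClosure F ≃+* Qb) := by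
  have h0 : Algebra.IsAlgebraic ℚ F := by
    have h1 := NumberField.isAlgebraic F
    convert h1
    exact Subsingleton.elim _ _
  have i3 : Algebra.IsAlgebraic ℚ (AlgebraicClosure F) := Algebra.IsAlgebraic.trans ℚ F _
  have i4 : IsAlgClosure ℚ (AlgebraicClosure F) := ⟨inferInstance, i3⟩
  exact ⟨(IsAlgClosure.equiv ℚ (AlgebraicClosure F) Qb).toRingEquiv⟩

/-- stability in fields of odd degree -/
theorem stab0 [FiniteDimensional ℚ F] (ha : a % 4 = 1) (hc : 0 < c)
    (hac : a < 0 ∨ a ^ 2 < 64 * c) (hD : a ^ 2 ≠ 64 * c)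
    (hcl : Odd (Nat.card (NCl F))) (hodd : Odd (Module.finrank ℚ F))
    (hbad : ∀ p : ℕ, p.Prime → (p : ℤ) ∣ c * (a ^ 2 - 64 * c) →
      ∀ v w : HeightOneSpectrum (𝓞 F), (p : 𝓞 F) ∈ v.asIdeal → (p : 𝓞 F) ∈ w.asIdeal → v = w) :
    Pool.Agent.TH841.NF.D.rk (crv a c F) = Pool.Agent.TH841.SH.D.rk (crv a c ℚ) ∧
    Nonempty (AddCommGroup.primaryComponent (Pool.Agent.TH841.NF.D.Sha (crv a c F)) 2 ≃+
      AddCommGroup.primaryComponent (Pool.Agent.TH841.SH.D.Sha (crv a c ℚ)) 2) := by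
  obtain ⟨e⟩ := exists_e F
  refine ⟨?_, prim_equiv (coS (crv_sc a c) e) ?_ ?_⟩
  · have h1 := rank_eq ha hc hac hD hcl hodd hbad e
    have h2 : Pool.Agent.TH841.SH.D.rk (crv a c ℚ) = Module.finrank ℤ (MP (crv a c ℚ)) := by
      unfold Pool.Agent.TH841.SH.D.rk MP MP.group
      congr! 2
      · exact congrArg (fun i => @Affine.Point.instAddCommGroup ℚ _ (crv a c ℚ).toAffine i)
          (Subsingleton.elim _ _)
      · exact congrArg (fun i => @Affine.Point.instAddCommGroup ℚ _ (crv a c ℚ).toAffine i)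
          (Subsingleton.elim _ _)
    exact h1.trans h2.symm
  · intro x m hm hx
    exact injP ha hc hac hD hcl hodd hbad e x m hm hx
  · intro y m hm
    exact coS_surj (crv_sc a c) e hodd y hm

end

end Pool.Agent.Y682
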