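import Mathlib
import Pool.Agent.Y682.Stab

/-!
# The general form of the stability theorem
-/

set_option autoImplicit false
set_option linter.unusedSectionVars false

attribute [-instance] DivisionRing.toRatAlgebra

namespace Pool.Agent.Y682

open WeierstrassCurve NumberField IsDedekindDomain

open Pool.Agent.TH841.NF

open Pool.Agent.TH841.SH.D (Pt act Gal Coch IsCoc IsCob LocTriv cob)

section main

variable {F : Type} [Field F] [NumberField F] [Algebra ℚ F]
  {E : WeierstrassCurve ℚ} {W : WeierstrassCurve F} {A B : F}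

/-- every locally trivial cocycle with values in the points killed by two whose corestriction is a
coboundary of a point killed by two is a coboundary of a point killed by two -/
def KeyP (hW : Sc (algebraMap ℚ F) 1 E W) (e : AlgebraicClosure F ≃+* Qb) : Prop :=
  ∀ f : Coch W, Pool.Agent.TH841.NF.D.IsShaCoc W f → (∀ σ, f σ + f σ = 0) →
    ∀ S : Pt E Qb, S + S = 0 → (∀ g : Gal ℚ, co hW e f g = act E g.toAlgHom S - S) →
    ∃ R : Pt W (AlgebraicClosure F), R + R = 0 ∧ ∀ σ : Gal F, f σ = act W σ.toAlgHom R - R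

variable {hW : Sc (algebraMap ℚ F) 1 E W} {e : AlgebraicClosure F ≃+* Qb}

/-- the corestriction is injective on the elements killed by two -/
theorem inj2' (hT : IsT W A B) (hodd : Odd (Module.finrank ℚ F)) (hkey : KeyP hW e)
    (x : Pool.Agent.TH841.NF.D.Sha W)
    (hx2 : 2 • x = 0) (hx : coS hW e x = 0) : x = 0 := by
  induction x using QuotientAddGroup.induction_on with
  | H f0 =>
    have h1 : IsCob W ((2 • f0 : Pool.Agent.TH841.NF.D.shaCoc W) : Coch W) :=
      (QuotientAddGroup.eq_zero_iff (2 • f0)).1 hx2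
    have h2 : IsCob E (co hW e f0.1) :=
      (QuotientAddGroup.eq_zero_iff (coC hW e f0)).1 hx
    obtain ⟨P0, hP0⟩ := isCob_iff.1 h1
    obtain ⟨S0, hS0⟩ := isCob_iff.1 h2
    obtain ⟨Q0, hQ0⟩ := exists_half hT P0
    have hP0' : f0.1 + f0.1 = dl Q0 + dl Q0 := by
      rw [← dl_add, ← hQ0, ← hP0, two_smul]
      rfl
    -- first modification
    obtain ⟨f1, hf1⟩ : ∃ f1 : Coch W, f1 = f0.1 - dl Q0 := ⟨_, rfl⟩
    have hf1s : Pool.Agent.TH841.NF.D.IsShaCoc W f1 := by
      rw [hf1]; exact sha_sub f0.2 (dl_sha Q0)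
    have hf12 : f1 + f1 = 0 := by
      rw [hf1]
      have : f0.1 - dl Q0 + (f0.1 - dl Q0) = (f0.1 + f0.1) - (dl Q0 + dl Q0) := by abel
      rw [this, hP0', sub_self]
    obtain ⟨S1, hS1⟩ : ∃ S1, co hW e f1 = dl S1 :=
      ⟨S0 - trc e (tp hW e Q0), by rw [hf1, co_sub, co_dl, hS0, dl_sub]⟩
    have hS12 : dl (S1 + S1) = 0 := by
      rw [dl_add, ← hS1, ← co_add, hf12, co_zero]
    obtain ⟨S1', hS1'⟩ := any_surj hW e S1
    have hS1'2 : dl (S1' + S1') = 0 := by
      apply dl_eq_zero_of_tp hW e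
      rw [map_add]
      have : tp hW e S1' = S1 := hS1'
      rw [this]
      exact hS12
    -- second modification
    obtain ⟨f2, hf2⟩ : ∃ f2 : Coch W, f2 = f1 - dl S1' := ⟨_, rfl⟩
    have hf2s : Pool.Agent.TH841.NF.D.IsShaCoc W f2 := by
      rw [hf2]; exact sha_sub hf1s (dl_sha S1')
    have hf22 : f2 + f2 = 0 := by
      rw [hf2]
      have : f1 - dl S1' + (f1 - dl S1') = (f1 + f1) - (dl S1' + dl S1') := by abel
      rw [this, hf12, ← dl_add, hS1'2, sub_self]
    have hco2 : co hW e f2 = dl (S1 - trc e S1) := by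
      rw [hf2, co_sub, co_dl, hS1, dl_sub]
      have : tp hW e S1' = S1 := hS1'
      rw [this]
    obtain ⟨m, hm⟩ : ∃ m, Fintype.card (Gal ℚ ⧸ HF e) = 2 * m + 1 := by
      obtain ⟨m, hm⟩ := hodd
      exact ⟨m, by rw [card_coset, hm]⟩
    obtain ⟨S2, hS2⟩ : ∃ S2, S2 = S1 - trc e S1 + m • (S1 + S1) := ⟨_, rfl⟩
    have hS22 : S2 + S2 = 0 := by
      have h3 : trc e (S1 + S1) = (2 * m + 1) • (S1 + S1) := by rw [trc_fix e hS12, hm]
      have h4 : S2 + S2 = (S1 + S1) - trc e (S1 + S1) + (2 * m) • (S1 + S1) := by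
        rw [hS2, trc_add, mul_nsmul', two_nsmul]
        abel
      rw [h4, h3, succ_nsmul]
      abel
    have hco3 : co hW e f2 = dl S2 := by
      rw [hco2, hS2, dl_add, dl_nsmul, hS12, smul_zero, add_zero]
    obtain ⟨R, hR, hRf⟩ := hkey f2 hf2s
      (fun σ => congrFun hf22 σ) S2 hS22 (fun g => congrFun hco3 g)
    have hfR : f2 = dl R := funext hRf
    have hfin : f0.1 = dl (R + S1' + Q0) := by
      rw [dl_add, dl_add, ← hfR, hf2, hf1]
      abel
    exact (QuotientAddGroup.eq_zero_iff f0).2 (isCob_iff.2 ⟨_, hfin⟩)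

/-- the corestriction is injective on the 2-primary part -/
theorem injP' (hT : IsT W A B) (hodd : Odd (Module.finrank ℚ F)) (hkey : KeyP hW e)
    (x : Pool.Agent.TH841.NF.D.Sha W) (m : ℕ)
    (hxm : 2 ^ m • x = 0) (hx : coS hW e x = 0) : x = 0 := by
  induction m with
  | zero => rwa [pow_zero, one_smul] at hxm
  | succ m ih =>
    apply ih
    apply inj2' hT hodd hkey
    · rw [smul_smul, mul_comm, ← pow_succ]
      exact hxm
    · rw [map_nsmul, hx, smul_zero]

/-- divisibility of the kernel of the trace -/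
theorem ker_div' (hT : IsT W A B) (hodd : Odd (Module.finrank ℚ F)) (hkey : KeyP hW e)
    (P : Pt W (AlgebraicClosure F)) (hP : dl P = 0) (hP2 : trc e (tp hW e P) = 0) :
    ∃ Q : Pt W (AlgebraicClosure F), dl Q = 0 ∧ trc e (tp hW e Q) = 0 ∧ P = Q + Q := by
  obtain ⟨Q0, hQ0⟩ := exists_half hT P
  have h2 : dl Q0 + dl Q0 = 0 := by rw [← dl_add, ← hQ0, hP]
  have hS : trc e (tp hW e Q0) + trc e (tp hW e Q0) = 0 := by
    rw [← trc_add, ← map_add, ← hQ0, hP2]
  obtain ⟨R, hR, hRf⟩ := hkey _ (dl_sha Q0)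
    (fun σ => congrFun h2 σ) _ hS (fun g => congrFun (co_dl hW e Q0) g)
  have hfR : dl Q0 = dl R := funext hRf
  have hQR : dl (Q0 - R) = 0 := by rw [dl_sub, hfR, sub_self]
  -- the trace of `Q0 - R`
  obtain ⟨T0, hT0⟩ : ∃ T0, T0 = trc e (tp hW e (Q0 - R)) := ⟨_, rfl⟩
  have hT0f : dl T0 = 0 := by
    rw [hT0, ← co_dl, hQR, co_zero]
  have hPQR : P = (Q0 - R) + (Q0 - R) := by
    have : (Q0 - R) + (Q0 - R) = (Q0 + Q0) - (R + R) := by abel
    rw [this, hR, sub_zero, hQ0]
  have hT02 : T0 + T0 = 0 := by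
    rw [hT0, ← trc_add, ← map_add, ← hPQR, hP2]
  obtain ⟨T0', hT0'⟩ : ∃ T0', tp hW e T0' = T0 := any_surj hW e T0
  have hT0'f : dl T0' = 0 := by
    apply dl_eq_zero_of_tp hW e
    rw [hT0', hT0f]
  have hT0'2 : T0' + T0' = 0 := by
    apply tm_inj (sc_any hW (e : AlgebraicClosure F →+* Qb))
    have : tp hW e (T0' + T0') = 0 := by rw [map_add, hT0', hT02]
    rw [map_zero]
    exact this
  obtain ⟨m, hm⟩ : ∃ m, Fintype.card (Gal ℚ ⧸ HF e) = 2 * m + 1 := by
    obtain ⟨m, hm⟩ := hodd
    exact ⟨m, by rw [card_coset, hm]⟩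
  have htr : trc e T0 = T0 := by
    rw [trc_fix e hT0f, hm, succ_nsmul, mul_nsmul, two_nsmul, hT02, smul_zero, zero_add]
  have htr0 : trc e (0 : Pt E Qb) = 0 := by
    have h3 := trc_add e (0 : Pt E Qb) 0
    rw [add_zero] at h3
    exact left_eq_add.1 h3
  refine ⟨Q0 - R - T0', by rw [dl_sub, hQR, hT0'f, sub_self], ?_, ?_⟩
  · have h3 : trc e (tp hW e (Q0 - R - T0')) + trc e (tp hW e T0') = T0 := by
      rw [← trc_add, ← map_add, sub_add_cancel, hT0]
    rw [hT0', htr] at h3
    exact add_eq_right.1 h3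
  · have : (Q0 - R - T0') + (Q0 - R - T0') = ((Q0 - R) + (Q0 - R)) - (T0' + T0') := by abel
    rw [this, hT0'2, sub_zero]
    exact hPQR

/-- equality of the ranks -/
theorem rank_eq' (hT : IsT W A B) (hodd : Odd (Module.finrank ℚ F)) (hkey : KeyP hW e) :
    Module.finrank ℤ (MP W) = Module.finrank ℤ (MP E) := by
  have h1 : Module.Finite ℤ (MP W) := fg_MP hT
  have h2 : Module.Finite ℤ (MP E) :=
    Module.Finite.of_injective (mt hW).toIntLinearMap (mt_inj hW)
  apply le_antisymm
  · -- the trace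
    have hfix : ∀ P : MP W, dl (trc e (tp hW e (inc _ P))) = 0 := by
      intro P
      rw [← co_dl, dl_inc, co_zero]
    choose t ht using fun P => exists_inc (hfix P)
    let T : MP W →+ MP E :=
      { toFun := t
        map_zero' := by
          apply inc_inj
          rw [ht, map_zero, map_zero]
          have h3 := trc_add e (0 : Pt E Qb) 0
          rw [add_zero] at h3
          rw [map_zero]
          exact left_eq_add.1 h3
        map_add' := by
          intro P Q
          apply inc_inj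
          rw [ht, map_add, map_add, trc_add, map_add, ht, ht] }
    have hT' : ∀ P, inc _ (T P) = trc e (tp hW e (inc _ P)) := ht
    have hker : Module.finrank ℤ (LinearMap.ker T.toIntLinearMap) = 0 := by
      apply finrank_zero
      rintro ⟨P, hP⟩
      have hP' : T P = 0 := hP
      have h3 := hT' P
      rw [hP', map_zero] at h3
      obtain ⟨Q, hQ1, hQ2, hQ3⟩ := ker_div' hT hodd hkey (inc _ P) (dl_inc P) h3.symm
      obtain ⟨Q', hQ'⟩ := exists_inc hQ1
      have hTQ : T Q' = 0 := by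
        apply inc_inj
        rw [hT', hQ', hQ2, map_zero]
      refine ⟨⟨Q', hTQ⟩, Subtype.ext ?_⟩
      change P = 2 • Q'
      apply inc_inj
      rw [hQ3, ← hQ', two_nsmul, map_add]
    have h4 := Submodule.finrank_quotient_add_finrank (LinearMap.ker T.toIntLinearMap)
    rw [LinearEquiv.finrank_eq (LinearMap.quotKerEquivRange T.toIntLinearMap)] at h4
    have h5 : Module.finrank ℤ (LinearMap.range T.toIntLinearMap) ≤
        Module.finrank ℤ (MP E) := Submodule.finrank_le _
    omega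
  · exact LinearMap.finrank_le_finrank_of_injective
      (f := (mt hW).toIntLinearMap) (mt_inj hW)

/-- the general stability theorem -/
theorem stab' (hT : IsT W A B) (hodd : Odd (Module.finrank ℚ F)) (hkey : KeyP hW e) :
    Pool.Agent.TH841.NF.D.rk W = Pool.Agent.TH841.SH.D.rk E ∧
    Nonempty (AddCommGroup.primaryComponent (Pool.Agent.TH841.NF.D.Sha W) 2 ≃+
      AddCommGroup.primaryComponent (Pool.Agent.TH841.SH.D.Sha E) 2) := by
  refine ⟨?_, prim_equiv (coS hW e) ?_ ?_⟩
  · have h1 := rank_eq' hT hodd hkey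
    have h2 : Pool.Agent.TH841.SH.D.rk E = Module.finrank ℤ (MP E) := by
      unfold Pool.Agent.TH841.SH.D.rk MP MP.group
      congr! 2
      · exact congrArg (fun i => @Affine.Point.instAddCommGroup ℚ _ E.toAffine i)
          (Subsingleton.elim _ _)
      · exact congrArg (fun i => @Affine.Point.instAddCommGroup ℚ _ E.toAffine i)
          (Subsingleton.elim _ _)
    exact h1.trans h2.symm
  · intro x m hm hx
    exact injP' hT hodd hkey x m hm hx
  · intro y m hm
    exact coS_surj hW e hodd y hm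

end main

end Pool.Agent.Y682
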