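import Mathlib
import Pool.Agent.Y682.LocV

/-!
# The curves `y² = x (x² + 6 n x + n²)` over unramified extensions of `ℚ₂`
-/

set_option autoImplicit false
set_option linter.unusedSectionVars false

open NumberField IsDedekindDomain

namespace Pool.Agent.Y682

section

variable {L : Type} [Field L] [CharZero L] {w : Valuation L (WithZero (Multiplicative ℤ))}

lemma w_lt_one_iff (h2 : w 2 = WithZero.exp (-1 : ℤ)) {z : L} : w z < 1 ↔ w z ≤ w 2 := by
  rw [h2]
  constructor
  · intro h
    by_cases h0 : w z = 0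
    · rw [h0]; exact zero_le
    · rw [← WithZero.exp_log h0, ← WithZero.exp_zero, WithZero.exp_lt_exp] at h
      rw [← WithZero.exp_log h0, WithZero.exp_le_exp]
      omega
  · intro h
    refine lt_of_le_of_lt h ?_
    rw [← WithZero.exp_zero, WithZero.exp_lt_exp]
    omega

lemma w2_lt_one (h2 : w 2 = WithZero.exp (-1 : ℤ)) : w (2 : L) < 1 :=
  (w_lt_one_iff h2).2 le_rfl

/-- an element of absolute value less than one is a multiple of two -/
lemma exists_double (h2 : w 2 = WithZero.exp (-1 : ℤ)) {z : L} (hz : w z < 1) :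
    ∃ r : L, z = 2 * r ∧ w r ≤ 1 := by
  have h20 : (2 : L) ≠ 0 := two_ne_zero
  have h3 := (w_lt_one_iff h2).1 hz
  refine ⟨z / 2, by field_simp, ?_⟩
  rw [map_div₀]
  exact (div_le_one₀ (zero_lt_iff.2 ((Valuation.ne_zero_iff _).2 h20))).2 h3

lemma w_sub_lt_one {a b : L} (ha : w a < 1) (hb : w b < 1) : w (a - b) < 1 :=
  lt_of_le_of_lt (Valuation.map_sub _ _ _) (max_lt ha hb)

lemma w_add_lt_one {a b : L} (ha : w a < 1) (hb : w b < 1) : w (a + b) < 1 :=
  lt_of_le_of_lt (Valuation.map_add _ _ _) (max_lt ha hb)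

lemma w_mul_lt_one {a b : L} (ha : w a < 1) (hb : w b ≤ 1) : w (a * b) < 1 := by
  rw [map_mul]
  exact lt_of_le_of_lt (mul_le_of_le_one_right' hb) ha

lemma w_add_le_one {a b : L} (ha : w a ≤ 1) (hb : w b ≤ 1) : w (a + b) ≤ 1 :=
  (Valuation.map_add _ _ _).trans (max_le ha hb)

lemma w_sub_le_one {a b : L} (ha : w a ≤ 1) (hb : w b ≤ 1) : w (a - b) ≤ 1 :=
  (Valuation.map_sub _ _ _).trans (max_le ha hb)

lemma w_mul_le_one {a b : L} (ha : w a ≤ 1) (hb : w b ≤ 1) : w (a * b) ≤ 1 := by
  rw [map_mul]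
  exact mul_le_one' ha hb

lemma w_pow_le_one {a : L} (ha : w a ≤ 1) (n : ℕ) : w (a ^ n) ≤ 1 := by
  rw [map_pow]
  exact pow_le_one' ha n

lemma w_int_le_one (m : ℤ) : w (m : L) ≤ 1 := by
  induction m using Int.induction_on with
  | zero => simp
  | succ i hi =>
    push_cast at hi ⊢
    exact w_add_le_one hi (map_one w).le
  | pred i hi =>
    push_cast at hi ⊢
    exact w_sub_le_one hi (map_one w).le

lemma w_one_add {t : L} (ht : w t < 1) : w (1 + t) = 1 := by
  rw [Valuation.map_add_eq_of_lt_left _ (by rw [map_one]; exact ht), map_one]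

/-- large abscissas are squares -/
lemma two_large (hens : ∀ t : L, w t < w 4 → ∃ y : L, y ^ 2 = 1 + t)
    (h2 : w 2 = WithZero.exp (-1 : ℤ)) {n x y : L} (hn : w n ≤ 1) (hx : 1 < w x)
    (h : y ^ 2 = x * (x ^ 2 + 6 * n * x + n ^ 2)) : ∃ z : L, z ≠ 0 ∧ x = z ^ 2 := by
  have hx0 : x ≠ 0 := by
    rintro rfl
    rw [map_zero] at hx
    exact not_lt_zero hx
  have hwx : w x ≠ 0 := (Valuation.ne_zero_iff _).2 hx0
  have h20 : (2 : L) ≠ 0 := two_ne_zero
  have h21 := w2_lt_one h2
  have hxi : w x⁻¹ < 1 := by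
    rw [map_inv₀]
    exact inv_lt_one_of_one_lt₀ hx
  have h6 : (6 : L) = 2 * 3 := by norm_num
  have h3 : w (3 : L) ≤ 1 := by
    have := w_int_le_one (w := w) 3
    push_cast at this
    exact this
  obtain ⟨t, ht⟩ : ∃ t : L, t = 6 * n * x⁻¹ + n ^ 2 * x⁻¹ ^ 2 := ⟨_, rfl⟩
  have ht1 : w t < 1 := by
    rw [ht]
    refine w_add_lt_one ?_ ?_
    · rw [mul_comm]
      refine w_mul_lt_one hxi (w_mul_le_one ?_ hn)
      rw [h6]
      exact w_mul_le_one h21.le h3
    · rw [mul_comm, sq, mul_assoc]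
      exact w_mul_lt_one hxi (w_mul_le_one hxi.le (w_pow_le_one hn 2))
  have h' : y ^ 2 = x ^ 3 * (1 + t) := by
    rw [h, ht]
    field_simp
    ring
  have hwy : w y ^ 2 = w x ^ 3 := by
    rw [← map_pow, h', map_mul, w_one_add ht1, mul_one, map_pow]
  have hwy0 : w y ≠ 0 := by
    intro h0
    rw [h0, zero_pow two_ne_zero] at hwy
    exact pow_ne_zero 3 hwx hwy.symm
  -- the valuation is even
  have hx2 : WithZero.exp (2 : ℤ) ≤ w x := by
    have h4 : (2 : ℤ) * WithZero.log (w y) = 3 * WithZero.log (w x) := by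
      have := congrArg WithZero.log hwy
      rwa [WithZero.log_pow, WithZero.log_pow, nsmul_eq_mul, nsmul_eq_mul] at this
    rw [← WithZero.exp_log hwx, ← WithZero.exp_zero, WithZero.exp_lt_exp] at hx
    rw [← WithZero.exp_log hwx, WithZero.exp_le_exp]
    omega
  have hxi2 : w x⁻¹ ≤ w 2 * w 2 := by
    rw [map_inv₀, h2, ← WithZero.exp_add]
    have h5 : WithZero.exp (-1 + -1 : ℤ) = (WithZero.exp (2 : ℤ))⁻¹ := by
      rw [← WithZero.exp_neg]
      rfl
    rw [h5]
    exact inv_anti₀ (zero_lt_iff.2 WithZero.exp_ne_zero) hx2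
  have hw2 : 0 < w (2 : L) := zero_lt_iff.2 ((Valuation.ne_zero_iff _).2 h20)
  have ht4 : w t < w 4 := by
    rw [ht, w_four]
    refine lt_of_le_of_lt (Valuation.map_add _ _ _) (max_lt ?_ ?_)
    · have h7 : w (6 * n * x⁻¹) ≤ w 2 * (w 2 * w 2) := by
        rw [h6, map_mul, map_mul, map_mul]
        calc w 2 * w 3 * w n * w x⁻¹ ≤ w 2 * 1 * 1 * (w 2 * w 2) := by
              gcongr
          _ = w 2 * (w 2 * w 2) := by rw [mul_one, mul_one]
      refine lt_of_le_of_lt h7 ?_
      calc w (2 : L) * (w 2 * w 2) < 1 * (w 2 * w 2) :=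
            mul_lt_mul_of_pos_right h21 (mul_pos hw2 hw2)
        _ = w 2 * w 2 := one_mul _
    · have h7 : w (n ^ 2 * x⁻¹ ^ 2) ≤ (w 2 * w 2) * (w 2 * w 2) := by
        rw [map_mul, map_pow, map_pow, sq (w x⁻¹)]
        calc w n ^ 2 * (w x⁻¹ * w x⁻¹) ≤ 1 * ((w 2 * w 2) * (w 2 * w 2)) := by
              gcongr
              exact pow_le_one' hn 2
          _ = _ := one_mul _
      refine lt_of_le_of_lt h7 ?_
      calc (w (2 : L) * w 2) * (w 2 * w 2) < 1 * (w 2 * w 2) :=
            mul_lt_mul_of_pos_right (mul_lt_one_of_nonneg_of_lt_one_left zero_le h21 h21.le)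
              (mul_pos hw2 hw2)
        _ = w 2 * w 2 := one_mul _
  obtain ⟨r, hr⟩ := hens t ht4
  have hr0 : r ≠ 0 := by
    rintro rfl
    rw [zero_pow two_ne_zero] at hr
    have h5 := w_one_add ht1
    rw [← hr, map_zero] at h5
    exact zero_ne_one h5
  have hy0 : y ≠ 0 := by
    rintro rfl
    rw [map_zero] at hwy0
    exact hwy0 rfl
  refine ⟨y / (x * r), div_ne_zero hy0 (mul_ne_zero hx0 hr0), ?_⟩
  rw [div_pow, h', mul_pow, hr]
  have h5 : (1 : L) + t ≠ 0 := by rw [← hr]; exact pow_ne_zero 2 hr0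
  field_simp

lemma two_small (hens : ∀ t : L, w t < w 4 → ∃ y : L, y ^ 2 = 1 + t)
    (h2 : w 2 = WithZero.exp (-1 : ℤ)) {n x y : L} (hn : w n ≤ 1) (hn0 : n ≠ 0) (hx0 : x ≠ 0)
    (hx : w x < w n ^ 2)
    (h : y ^ 2 = x * (x ^ 2 + 6 * n * x + n ^ 2)) : ∃ z : L, z ≠ 0 ∧ x = z ^ 2 := by
  have hwx : 0 < w x := zero_lt_iff.2 ((Valuation.ne_zero_iff _).2 hx0)
  obtain ⟨z, hz0, hz⟩ := two_large hens h2 (n := n) (x := n ^ 2 / x) (y := n ^ 2 * y / x ^ 2) hn
    (by
      rw [map_div₀, map_pow]
      exact (one_lt_div₀ hwx).2 hx)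
    (by
      rw [div_pow, mul_pow, h]
      field_simp
      ring)
  refine ⟨n / z, div_ne_zero hn0 hz0, ?_⟩
  rw [div_pow, ← hz]
  field_simp

/-- a unit that is congruent to one modulo four is unramified -/
lemma unr_of_one {x T u : L} (hT : T ≠ 0) (h : x * T ^ 2 = 1 + 4 * u) (h2 : w (2 : L) < 1)
    (hu : w u ≤ 1) : UnrC w x := by
  refine ⟨T, 1, u, hT, by rw [h, one_pow], ?_, (map_one w).le, hu⟩
  rw [h]
  apply w_one_add
  refine w_mul_lt_one ?_ hu
  rw [w_four]
  exact mul_lt_one_of_nonneg_of_lt_one_left zero_le h2 h2.le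

/-- the second local image at two, the unit case -/
lemma two_unit (h2 : w 2 = WithZero.exp (-1 : ℤ)) {n ε m x y : L} (hn : w n = 1)
    (hε : ε = 1 ∨ ε = -1) (hnε : n = ε + 4 * m) (hm : w m ≤ 1)
    (hres : ∀ q : L, w q = 1 → (ε = 1 → w (q ^ 3 - 1) < 1) → (ε = -1 → w (q ^ 3 + q ^ 2 + 1) < 1) →
      w (q - 1) < 1)
    (hx : w x = 1) (h : y ^ 2 = x * (x ^ 2 + 6 * n * x + n ^ 2)) : UnrC w x ∨ UnrC w (-x) := by
  have h20 : (2 : L) ≠ 0 := two_ne_zero
  have h21 := w2_lt_one h2
  have hn0 : n ≠ 0 := by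
    rintro rfl
    rw [map_zero] at hn
    exact zero_ne_one hn
  have hx0 : x ≠ 0 := by
    rintro rfl
    rw [map_zero] at hx
    exact zero_ne_one hx
  obtain ⟨t, ht⟩ : ∃ t : L, t = x / n := ⟨_, rfl⟩
  have hxt : x = n * t := by rw [ht]; field_simp
  have hwt : w t = 1 := by rw [ht, map_div₀, hx, hn, div_one]
  have ht0 : t ≠ 0 := by
    rintro rfl
    rw [map_zero] at hwt
    exact zero_ne_one hwt
  obtain ⟨z, hz⟩ : ∃ z : L, z = t + 1 := ⟨_, rfl⟩
  have htz : t = z - 1 := by rw [hz]; ring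
  obtain ⟨Y, hY⟩ : ∃ Y : L, Y = y / n := ⟨_, rfl⟩
  have hY2 : Y ^ 2 = x * (z ^ 2 + 4 * z - 4) := by
    rw [hY, div_pow, h, hxt, htz]
    field_simp
    ring
  have hz1 : w z ≤ 1 := by rw [hz]; exact w_add_le_one hwt.le (map_one w).le
  rcases lt_or_eq_of_le hz1 with hz2 | hz2
  · obtain ⟨r, hr, hwr⟩ := exists_double h2 hz2
    rcases lt_or_eq_of_le hwr with hr2 | hr2
    · -- `z` is a multiple of four
      right
      obtain ⟨r', hr', hwr'⟩ := exists_double h2 hr2
      obtain ⟨u, hu⟩ : ∃ u : L, u = -(r' + r' ^ 2) := ⟨_, rfl⟩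
      have hwu : w u ≤ 1 := by
        rw [hu, Valuation.map_neg]
        exact w_add_le_one hwr' (w_pow_le_one hwr' 2)
      have h1u : w (1 + 4 * u) = 1 := by
        apply w_one_add
        refine w_mul_lt_one ?_ hwu
        rw [w_four]
        exact mul_lt_one_of_nonneg_of_lt_one_left zero_le h21 h21.le
      have h1u0 : 1 + 4 * u ≠ 0 := by
        intro h0
        rw [h0, map_zero] at h1u
        exact zero_ne_one h1u
      have hY3 : Y ^ 2 = -x * 4 * (1 + 4 * u) := by
        rw [hY2, hr, hr', hu]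
        ring
      have hY0 : Y ≠ 0 := by
        rintro rfl
        rw [zero_pow two_ne_zero] at hY3
        have h5 : -x * 4 * (1 + 4 * u) ≠ 0 :=
          mul_ne_zero (mul_ne_zero (neg_ne_zero.2 hx0) (by norm_num)) h1u0
        exact h5 hY3.symm
      refine unr_of_one (T := 2 * (1 + 4 * u) / Y) (u := u)
        (div_ne_zero (mul_ne_zero h20 h1u0) hY0) ?_ h21 hwu
      rw [div_pow, hY3]
      field_simp
      ring
    · -- `z` is twice a unit
      exfalso
      obtain ⟨q, hq⟩ : ∃ q : L, q = r + 1 := ⟨_, rfl⟩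
      have hrq : r = q - 1 := by rw [hq]; ring
      have hwq : w q ≤ 1 := by rw [hq]; exact w_add_le_one hwr (map_one w).le
      obtain ⟨V, hV⟩ : ∃ V : L, V = Y / 2 := ⟨_, rfl⟩
      have hV2 : V ^ 2 = n * (2 * q - 3) * (q ^ 2 - 2) := by
        rw [hV, div_pow, hY2, hxt, htz, hr, hrq]
        field_simp
        ring
      have h3 : w (2 * q - 3) = 1 := by
        have e : 2 * q - 3 = (-1) * (1 + 2 * (1 - q)) := by ring
        rw [e, map_mul, Valuation.map_neg, map_one, one_mul]
        exact w_one_add (w_mul_lt_one h21 (w_sub_le_one (map_one w).le hwq))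
      rcases lt_or_eq_of_le hwq with hq1 | hq1
      · -- odd valuation
        obtain ⟨q', hq', hwq'⟩ := exists_double h2 hq1
        have h4 : w (q ^ 2 - 2) = w 2 := by
          have e : q ^ 2 - 2 = (-2) * (1 + 2 * (-(q' ^ 2))) := by rw [hq']; ring
          rw [e, map_mul, Valuation.map_neg,
            w_one_add (w_mul_lt_one h21 (by
              rw [Valuation.map_neg]; exact w_pow_le_one hwq' 2)), mul_one]
        have h5 : w V ^ 2 = w 2 := by
          rw [← map_pow, hV2, map_mul, map_mul, hn, h3, h4, one_mul, one_mul]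
        rw [h2] at h5
        have h6 := congrArg WithZero.log h5
        rw [WithZero.log_pow, nsmul_eq_mul, WithZero.log_exp] at h6
        push_cast at h6
        omega
      · have h4 : w (q ^ 2 - 2) = 1 := by
          rw [Valuation.map_sub_eq_of_lt_left _ (by rw [map_pow, hq1, one_pow]; exact h21),
            map_pow, hq1, one_pow]
        have hVq : w (V ^ 2) = 1 := by rw [hV2, map_mul, map_mul, hn, h3, h4, one_mul, one_mul]
        have hV1 : w V ≤ 1 := by
          rw [map_pow] at hVq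
          by_contra hlt
          rw [not_le] at hlt
          exact (one_lt_pow₀ hlt two_ne_zero).ne' hVq
        have hP : w (q ^ 3 - 2 * q ^ 2 - 2 * q + 3) ≤ 1 :=
          w_add_le_one (w_sub_le_one (w_sub_le_one (w_pow_le_one hwq 3)
            (w_mul_le_one h21.le (w_pow_le_one hwq 2))) (w_mul_le_one h21.le hwq)) (by
              have := w_int_le_one (w := w) 3
              push_cast at this
              exact this)
        have hP' : w (q ^ 3 - q ^ 2 - 2 * q + 3) ≤ 1 :=
          w_add_le_one (w_sub_le_one (w_sub_le_one (w_pow_le_one hwq 3)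
            (w_pow_le_one hwq 2)) (w_mul_le_one h21.le hwq)) (by
              have := w_int_le_one (w := w) 3
              push_cast at this
              exact this)
        obtain ⟨G, hG⟩ : ∃ G : L, G = (2 * q - 3) * (q ^ 2 - 2) := ⟨_, rfl⟩
        have hwG : w G ≤ 1 := by rw [hG, map_mul, h3, h4, one_mul]
        have hVG : V ^ 2 = (ε + 4 * m) * G := by rw [hV2, hG, hnε]; ring
        -- `V` is congruent to `q`
        have h5 : w ((V - q) ^ 2) < 1 := by
          rcases hε with hε | hε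
          · have e : (V - q) ^ 2 = 2 * ((q ^ 3 - 2 * q ^ 2 - 2 * q + 3) + 2 * (m * G) -
                q * (V - q)) := by
              rw [hε] at hVG
              linear_combination hVG + hG
            rw [e]
            exact w_mul_lt_one h21 (w_sub_le_one (w_add_le_one hP
              (w_mul_le_one h21.le (w_mul_le_one hm hwG)))
              (w_mul_le_one hwq (w_sub_le_one hV1 hwq)))
          · have e : (V - q) ^ 2 = 2 * (-(q ^ 3 - q ^ 2 - 2 * q + 3) + 2 * (m * G) -
                q * (V - q)) := by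
              rw [hε] at hVG
              linear_combination hVG - hG
            rw [e]
            exact w_mul_lt_one h21 (w_sub_le_one (w_add_le_one (by
              rw [Valuation.map_neg]; exact hP')
              (w_mul_le_one h21.le (w_mul_le_one hm hwG)))
              (w_mul_le_one hwq (w_sub_le_one hV1 hwq)))
        have h6 : w (V - q) < 1 := by
          rw [map_pow] at h5
          by_contra hge
          rw [not_lt] at hge
          exact absurd h5 (not_lt.2 (one_le_pow₀ hge))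
        obtain ⟨g, hg, hwg⟩ := exists_double h2 h6
        have hVg : V = q + 2 * g := by linear_combination hg
        have h7 : w (q - 1) < 1 := by
          apply hres q hq1
          · intro hε1
            have e : q ^ 3 - 1 = 2 * (q * g + g ^ 2 - m * G) + 2 * (q ^ 2 + q - 2) := by
              have e1 : (2 : L) * (q ^ 3 - 1) =
                  2 * (2 * (q * g + g ^ 2 - m * G) + 2 * (q ^ 2 + q - 2)) := by
                rw [hVg, hε1] at hVG
                linear_combination -hVG - hG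
              exact mul_left_cancel₀ h20 e1
            rw [e]
            refine w_add_lt_one (w_mul_lt_one h21 ?_) (w_mul_lt_one h21 ?_)
            · exact w_sub_le_one (w_add_le_one (w_mul_le_one hwq hwg) (w_pow_le_one hwg 2))
                (w_mul_le_one hm hwG)
            · exact w_sub_le_one (w_add_le_one (w_pow_le_one hwq 2) hwq) h21.le
          · intro hε1
            have e : q ^ 3 + q ^ 2 + 1 = 2 * (-(q * g + g ^ 2) + m * G) + 2 * (q ^ 2 + q - 1) := by
              have e1 : (2 : L) * (q ^ 3 + q ^ 2 + 1) =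
                  2 * (2 * (-(q * g + g ^ 2) + m * G) + 2 * (q ^ 2 + q - 1)) := by
                rw [hVg, hε1] at hVG
                linear_combination hVG - hG
              exact mul_left_cancel₀ h20 e1
            rw [e]
            refine w_add_lt_one (w_mul_lt_one h21 ?_) (w_mul_lt_one h21 ?_)
            · refine w_add_le_one ?_ (w_mul_le_one hm hwG)
              rw [Valuation.map_neg]
              exact w_add_le_one (w_mul_le_one hwq hwg) (w_pow_le_one hwg 2)
            · exact w_sub_le_one (w_add_le_one (w_pow_le_one hwq 2) hwq) (map_one w).le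
        rw [← hrq, hr2] at h7
        exact lt_irrefl _ h7
  · left
    obtain ⟨u, hu⟩ : ∃ u : L, u = t / z ^ 2 := ⟨_, rfl⟩
    have hz0 : z ≠ 0 := by
      rintro rfl
      rw [map_zero] at hz2
      exact zero_ne_one hz2
    have hwu : w u ≤ 1 := by
      rw [hu, map_div₀, hwt, map_pow, hz2, one_pow, div_one]
    have h1u : w (1 + 4 * u) = 1 := by
      apply w_one_add
      refine w_mul_lt_one ?_ hwu
      rw [w_four]
      exact mul_lt_one_of_nonneg_of_lt_one_left zero_le h21 h21.le
    have h1u0 : 1 + 4 * u ≠ 0 := by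
      intro h0
      rw [h0, map_zero] at h1u
      exact zero_ne_one h1u
    have hY3 : Y ^ 2 = x * z ^ 2 * (1 + 4 * u) := by
      rw [hY2, hu, htz]
      field_simp
      ring
    have hY0 : Y ≠ 0 := by
      rintro rfl
      rw [zero_pow two_ne_zero] at hY3
      have h5 : x * z ^ 2 * (1 + 4 * u) ≠ 0 :=
        mul_ne_zero (mul_ne_zero hx0 (pow_ne_zero 2 hz0)) h1u0
      exact h5 hY3.symm
    refine unr_of_one (T := z * (1 + 4 * u) / Y) (u := u)
      (div_ne_zero (mul_ne_zero hz0 h1u0) hY0) ?_ h21 hwu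
    rw [div_pow, hY3]
    field_simp

end

end Pool.Agent.Y682
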