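import Mathlib
import Pool.Agent.Y682.Two
import Pool.Agent.Y682.Crv

/-!
# The curves `y² = x (x² + 6 n x + n²)` over unramified extensions of `ℚ₂`, II
-/

set_option autoImplicit false
set_option linter.unusedSectionVars false

open NumberField IsDedekindDomain

namespace Pool.Agent.Y682

section

variable {L : Type} [Field L] [CharZero L] {w : Valuation L (WithZero (Multiplicative ℤ))}

/-- the second local image at two, `n` odd -/
lemma two_odd (hens : ∀ t : L, w t < w 4 → ∃ y : L, y ^ 2 = 1 + t)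
    (h2 : w 2 = WithZero.exp (-1 : ℤ)) {n ε m x y : L} (hn : w n = 1)
    (hε : ε = 1 ∨ ε = -1) (hnε : n = ε + 4 * m) (hm : w m ≤ 1)
    (hres : ∀ q : L, w q = 1 → (ε = 1 → w (q ^ 3 - 1) < 1) → (ε = -1 → w (q ^ 3 + q ^ 2 + 1) < 1) →
      w (q - 1) < 1)
    (hx0 : x ≠ 0) (h : y ^ 2 = x * (x ^ 2 + 6 * n * x + n ^ 2)) : UnrC w x ∨ UnrC w (-x) := by
  rcases lt_trichotomy (w x) 1 with hx | hx | hx
  · left
    obtain ⟨z, hz0, hz⟩ := two_small hens h2 hn.le (by
      rintro rfl
      rw [map_zero] at hn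
      exact zero_ne_one hn) hx0 (by rw [hn, one_pow]; exact hx) h
    rw [hz]
    exact UnrC.sq hz0
  · exact two_unit h2 hn hε hnε hm hres hx h
  · left
    obtain ⟨z, hz0, hz⟩ := two_large hens h2 hn.le hx h
    rw [hz]
    exact UnrC.sq hz0

/-- the second local image at two, `n` even, the unit case -/
lemma two_even_unit (h2 : w 2 = WithZero.exp (-1 : ℤ)) {n x y : L} (hn : w n = w 2)
    (hx : w x = 1) (h : y ^ 2 = x * (x ^ 2 + 6 * n * x + n ^ 2)) : UnrC w x := by
  have h20 : (2 : L) ≠ 0 := two_ne_zero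
  have h21 := w2_lt_one h2
  have hx0 : x ≠ 0 := by
    rintro rfl
    rw [map_zero] at hx
    exact zero_ne_one hx
  obtain ⟨m, hm, hwm⟩ := exists_double h2 (z := n) (by rw [hn]; exact h21)
  obtain ⟨u, hu⟩ : ∃ u : L, u = 3 * m * x⁻¹ + m ^ 2 * x⁻¹ ^ 2 := ⟨_, rfl⟩
  have hxi : w x⁻¹ ≤ 1 := by rw [map_inv₀, hx, inv_one]
  have h3 : w (3 : L) ≤ 1 := by
    have := w_int_le_one (w := w) 3
    push_cast at this
    exact this
  have hwu : w u ≤ 1 := by
    rw [hu]
    exact w_add_le_one (w_mul_le_one (w_mul_le_one h3 hwm) hxi)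
      (w_mul_le_one (w_pow_le_one hwm 2) (w_pow_le_one hxi 2))
  have h1u : w (1 + 4 * u) = 1 := by
    apply w_one_add
    refine w_mul_lt_one ?_ hwu
    rw [w_four]
    exact mul_lt_one_of_nonneg_of_lt_one_left zero_le h21 h21.le
  have h1u0 : 1 + 4 * u ≠ 0 := by
    intro h0
    rw [h0, map_zero] at h1u
    exact zero_ne_one h1u
  have hy : y ^ 2 = x ^ 3 * (1 + 4 * u) := by
    rw [h, hm, hu]
    field_simp
    ring
  have hy0 : y ≠ 0 := by
    rintro rfl
    rw [zero_pow two_ne_zero] at hy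
    exact (mul_ne_zero (pow_ne_zero 3 hx0) h1u0) hy.symm
  refine unr_of_one (T := x * (1 + 4 * u) / y) (u := u)
    (div_ne_zero (mul_ne_zero hx0 h1u0) hy0) ?_ h21 hwu
  rw [div_pow, hy]
  field_simp

/-- the second local image at two, `n` even -/
lemma two_even (hens : ∀ t : L, w t < w 4 → ∃ y : L, y ^ 2 = 1 + t)
    (h2 : w 2 = WithZero.exp (-1 : ℤ)) {n x y : L} (hn : w n = w 2) (hev : ∃ g, w x = g ^ 2)
    (hx0 : x ≠ 0) (h : y ^ 2 = x * (x ^ 2 + 6 * n * x + n ^ 2)) : UnrC w x := by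
  have hwx : w x ≠ 0 := (Valuation.ne_zero_iff _).2 hx0
  have h20 : (2 : L) ≠ 0 := two_ne_zero
  have h21 := w2_lt_one h2
  have hn1 : w n ≤ 1 := by rw [hn]; exact h21.le
  have hn0 : n ≠ 0 := by
    rintro rfl
    rw [map_zero] at hn
    exact (Valuation.ne_zero_iff _).2 h20 hn.symm
  rcases lt_trichotomy (w x) 1 with hx | hx | hx
  · rcases lt_trichotomy (w x) (w n ^ 2) with hx2 | hx2 | hx2
    · obtain ⟨z, hz0, hz⟩ := two_small hens h2 hn1 hn0 hx0 hx2 h
      rw [hz]
      exact UnrC.sq hz0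
    · have h3 : UnrC w (n ^ 2 / x) := by
        refine two_even_unit h2 (n := n) (x := n ^ 2 / x) (y := n ^ 2 * y / x ^ 2) hn ?_ ?_
        · rw [map_div₀, map_pow, ← hx2]
          exact div_self hwx
        · rw [div_pow, mul_pow, h]
          field_simp
          ring
      refine h3.of_eq (y := x / n) (div_ne_zero hx0 hn0) ?_
      field_simp
    · exfalso
      obtain ⟨g, hg⟩ := hev
      rw [hg] at hx hx2
      have hg0 : g ≠ 0 := by
        rintro rfl
        rw [zero_pow two_ne_zero] at hg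
        exact hwx hg
      have h4 : WithZero.log g < 0 := by
        rw [← WithZero.exp_log hg0, ← WithZero.exp_nsmul, ← WithZero.exp_zero,
          WithZero.exp_lt_exp, nsmul_eq_mul] at hx
        push_cast at hx
        omega
      rw [hn, h2, ← WithZero.exp_log hg0, ← WithZero.exp_nsmul, ← WithZero.exp_nsmul,
        WithZero.exp_lt_exp, nsmul_eq_mul, nsmul_eq_mul] at hx2
      push_cast at hx2
      omega
  · exact two_even_unit h2 hn hx h
  · obtain ⟨z, hz0, hz⟩ := two_large hens h2 hn1 hx h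
    rw [hz]
    exact UnrC.sq hz0

end

section res

variable {F : Type} [Field F] [NumberField F]

/-- integral approximation -/
lemma exists_int_approx (v : HeightOneSpectrum (𝓞 F)) (q : v.adicCompletion F) (hq : vv v q ≤ 1) :
    ∃ a : 𝓞 F, vv v (algebraMap F _ (algebraMap (𝓞 F) F a) - q) < 1 := by
  obtain ⟨k, hk⟩ := exists_approx v q 1 one_ne_zero
  have hk1 : v.valuation F k ≤ 1 := by
    rw [← vv_coe]
    have : algebraMap F (v.adicCompletion F) k = (algebraMap F (v.adicCompletion F) k - q) + q := by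
      ring
    rw [this]
    exact (Valuation.map_add _ _ _).trans (max_le hk.le hq)
  obtain ⟨n, d, h⟩ := v.exists_primeCompl_mul_eq_of_integer k hk1
  have hd : (d : 𝓞 F) ∉ v.asIdeal := d.2
  have hmax := v.isMaximal
  obtain ⟨d', hd'⟩ := Ideal.IsMaximal.exists_inv hmax hd
  obtain ⟨i, hi, hd''⟩ := hd'
  refine ⟨n * d', ?_⟩
  have e : algebraMap F (v.adicCompletion F) (algebraMap (𝓞 F) F (n * d')) - q =
      (algebraMap F (v.adicCompletion F) k - q) -
        algebraMap F (v.adicCompletion F) (k * algebraMap (𝓞 F) F i) := by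
    have h1 : algebraMap (𝓞 F) F (n * d') = k - k * algebraMap (𝓞 F) F i := by
      have h2 := congrArg (algebraMap (𝓞 F) F) hd''
      rw [map_add, map_mul, map_one] at h2
      rw [map_mul, ← h]
      linear_combination k * h2
    rw [h1, map_sub]
    ring
  rw [e]
  refine lt_of_le_of_lt (Valuation.map_sub _ _ _) (max_lt hk ?_)
  rw [vv_coe, map_mul]
  refine lt_of_le_of_lt (mul_le_of_le_one_left' hk1) ?_
  rw [HeightOneSpectrum.valuation_lt_one_iff_mem]
  exact hi

end res

end Pool.Agent.Y682
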