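import Mathlib
import Pool.Agent.Y682.Two2
import Pool.Agent.Y682.Eng

/-!
# The key lemma for the congruent number curves
-/

set_option autoImplicit false
set_option linter.unusedSectionVars false

attribute [-instance] DivisionRing.toRatAlgebra

open NumberField IsDedekindDomain

namespace Pool.Agent.Y682

open WeierstrassCurve

open Pool.Agent.TH841.NF

open Pool.Agent.TH841.SH (IsR IsX gf isX_zero isX_some not_isX)

open Pool.Agent.TH841.SH.D (Pt act Gal Coch IsCoc IsCob LocTriv cob)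

section res

variable {F : Type} [Field F] [NumberField F]

lemma card_res [Algebra ℚ F] :
    Nat.card (𝓞 F ⧸ Ideal.span {(2 : 𝓞 F)}) = 2 ^ Module.finrank ℚ F := by
  have h1 : Ideal.absNorm (Ideal.span {(2 : 𝓞 F)}) = 2 ^ Module.finrank ℤ (𝓞 F) := by
    rw [Ideal.absNorm_span_singleton]
    have h2 := Algebra.norm_algebraMap (S := 𝓞 F) (2 : ℤ)
    rw [map_ofNat] at h2
    rw [h2, Int.natAbs_pow]
    rfl
  rw [RingOfIntegers.rank] at h1
  have h3 : Ideal.absNorm (Ideal.span {(2 : 𝓞 F)}) = Nat.card (𝓞 F ⧸ Ideal.span {(2 : 𝓞 F)}) := rfl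
  rw [← h3, h1]
  congr 2
  exact Subsingleton.elim _ _

lemma pow_res (hp : (Ideal.span {(2 : 𝓞 F)}).IsPrime) [Algebra ℚ F] {k : ℕ}
    (hk : Nat.Coprime k (2 ^ Module.finrank ℚ F - 1)) (a : 𝓞 F)
    (hk0 : k ≠ 0) (ha : a ^ k - 1 ∈ Ideal.span {(2 : 𝓞 F)}) : a - 1 ∈ Ideal.span {(2 : 𝓞 F)} := by
  classical
  have h20 : (2 : 𝓞 F) ≠ 0 := two_ne_zero
  have hmax : (Ideal.span {(2 : 𝓞 F)}).IsMaximal := hp.isMaximal (by
    rw [Ne, Ideal.span_singleton_eq_bot]
    exact h20)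
  let _ : Field (𝓞 F ⧸ Ideal.span {(2 : 𝓞 F)}) := Ideal.Quotient.field _
  have hcard := card_res (F := F)
  have hfin : Finite (𝓞 F ⧸ Ideal.span {(2 : 𝓞 F)}) :=
    Nat.finite_of_card_ne_zero (by rw [hcard]; positivity)
  let _ : Fintype (𝓞 F ⧸ Ideal.span {(2 : 𝓞 F)}) := Fintype.ofFinite _
  obtain ⟨b, hb⟩ : ∃ b, b = Ideal.Quotient.mk (Ideal.span {(2 : 𝓞 F)}) a := ⟨_, rfl⟩
  have h1 : b ^ k = 1 := by
    rw [hb, ← map_pow, ← map_one (Ideal.Quotient.mk (Ideal.span {(2 : 𝓞 F)})),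
      Ideal.Quotient.mk_eq_mk_iff_sub_mem]
    exact ha
  have hb0 : b ≠ 0 := by
    rintro h0
    rw [h0, zero_pow hk0] at h1
    exact zero_ne_one h1
  have h2 := FiniteField.pow_card_sub_one_eq_one b hb0
  rw [← Nat.card_eq_fintype_card, hcard] at h2
  have h3 : b ^ Nat.gcd k (2 ^ Module.finrank ℚ F - 1) = 1 := pow_gcd_eq_one.2 ⟨h1, h2⟩
  rw [hk, pow_one] at h3
  rw [← Ideal.Quotient.mk_eq_mk_iff_sub_mem, map_one, ← hb, h3]

lemma coprime_three {n : ℕ} (hn : Odd n) : Nat.Coprime 3 (2 ^ n - 1) := by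
  rw [Nat.Prime.coprime_iff_not_dvd Nat.prime_three]
  obtain ⟨k, rfl⟩ := hn
  have h1 : (2 : ℕ) ^ (2 * k + 1) % 3 = 2 := by
    rw [pow_succ, pow_mul, Nat.mul_mod, Nat.pow_mod]
    norm_num
  have h2 : 1 ≤ (2 : ℕ) ^ (2 * k + 1) := Nat.one_le_two_pow
  generalize (2 : ℕ) ^ (2 * k + 1) = N at *
  omega

lemma coprime_seven {n : ℕ} (hn : ¬ 3 ∣ n) : Nat.Coprime 7 (2 ^ n - 1) := by
  rw [Nat.Prime.coprime_iff_not_dvd (by norm_num)]
  obtain ⟨k, r, hr, rfl⟩ : ∃ k r, (r = 1 ∨ r = 2) ∧ n = 3 * k + r :=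
    ⟨n / 3, n % 3, by omega, by omega⟩
  have h1 : (2 : ℕ) ^ (3 * k + r) % 7 = 2 ^ r % 7 := by
    rw [pow_add, pow_mul, Nat.mul_mod, Nat.pow_mod]
    norm_num
  have h2 : 1 ≤ (2 : ℕ) ^ (3 * k + r) := Nat.one_le_two_pow
  rcases hr with rfl | rfl <;> omega

lemma mem_iff_vv {v : HeightOneSpectrum (𝓞 F)} (x : 𝓞 F) :
    vv v (algebraMap F _ (algebraMap (𝓞 F) F x)) < 1 ↔ x ∈ v.asIdeal := by
  rw [vv_coe]
  exact v.valuation_lt_one_iff_mem x

lemma two_val {v : HeightOneSpectrum (𝓞 F)} (hp : (Ideal.span {(2 : 𝓞 F)}).IsPrime)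
    (hv : (2 : 𝓞 F) ∈ v.asIdeal) : v.asIdeal = Ideal.span {(2 : 𝓞 F)} := by
  have h20 : (2 : 𝓞 F) ≠ 0 := two_ne_zero
  have hmax : (Ideal.span {(2 : 𝓞 F)}).IsMaximal := hp.isMaximal (by
    rw [Ne, Ideal.span_singleton_eq_bot]
    exact h20)
  exact (hmax.eq_of_le v.isPrime.ne_top ((Ideal.span_singleton_le_iff_mem _).2 hv)).symm

lemma two_val' {v : HeightOneSpectrum (𝓞 F)} (hp : (Ideal.span {(2 : 𝓞 F)}).IsPrime)
    (hv : (2 : 𝓞 F) ∈ v.asIdeal) : v.valuation F 2 = WithZero.exp (-1 : ℤ) := by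
  have h1 : (2 : F) = algebraMap (𝓞 F) F 2 := (map_ofNat _ 2).symm
  rw [h1, HeightOneSpectrum.valuation_of_algebraMap]
  exact v.intValuation_singleton two_ne_zero (two_val hp hv)

/-- the residue field has no cube root of one -/
lemma hres_three {v : HeightOneSpectrum (𝓞 F)} (hp : (Ideal.span {(2 : 𝓞 F)}).IsPrime)
    (hv : (2 : 𝓞 F) ∈ v.asIdeal) [Algebra ℚ F] (hodd : Odd (Module.finrank ℚ F))
    (q : v.adicCompletion F) (hq : vv v q = 1) (h : vv v (q ^ 3 - 1) < 1) :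
    vv v (q - 1) < 1 := by
  have := charZero_adic v
  obtain ⟨a, ha⟩ := exists_int_approx v q hq.le
  obtain ⟨A, hA⟩ : ∃ A : v.adicCompletion F,
    A = algebraMap F _ (algebraMap (𝓞 F) F a) := ⟨_, rfl⟩
  rw [← hA] at ha
  have hA1 : vv v A ≤ 1 := by
    rw [hA, vv_coe]
    exact v.valuation_le_one a
  have h1 : vv v (A ^ 3 - 1) < 1 := by
    have e : A ^ 3 - 1 = (A - q) * (A ^ 2 + A * q + q ^ 2) + (q ^ 3 - 1) := by ring
    rw [e]
    exact w_add_lt_one (w_mul_lt_one ha (w_add_le_one (w_add_le_one (w_pow_le_one hA1 2)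
      (w_mul_le_one hA1 hq.le)) (w_pow_le_one hq.le 2))) h
  have h2 : a ^ 3 - 1 ∈ v.asIdeal := by
    rw [← mem_iff_vv, map_sub, map_pow, map_one, map_sub, map_pow, map_one, ← hA]
    exact h1
  rw [two_val hp hv] at h2
  have h3 := pow_res hp (coprime_three hodd) a (by norm_num) h2
  rw [← two_val hp hv, ← mem_iff_vv, map_sub, map_one, map_sub, map_one, ← hA] at h3
  have e : q - 1 = (A - 1) - (A - q) := by ring
  rw [e]
  exact w_sub_lt_one h3 ha

/-- the residue field has no root of `X³ + X² + 1` -/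
lemma hres_seven {v : HeightOneSpectrum (𝓞 F)} (hp : (Ideal.span {(2 : 𝓞 F)}).IsPrime)
    (hv : (2 : 𝓞 F) ∈ v.asIdeal) [Algebra ℚ F] (h3 : ¬ 3 ∣ Module.finrank ℚ F)
    (q : v.adicCompletion F) (hq : vv v q = 1) (h : vv v (q ^ 3 + q ^ 2 + 1) < 1) :
    vv v (q - 1) < 1 := by
  have := charZero_adic v
  obtain ⟨a, ha⟩ := exists_int_approx v q hq.le
  obtain ⟨A, hA⟩ : ∃ A : v.adicCompletion F,
    A = algebraMap F _ (algebraMap (𝓞 F) F a) := ⟨_, rfl⟩
  rw [← hA] at ha
  have hA1 : vv v A ≤ 1 := by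
    rw [hA, vv_coe]
    exact v.valuation_le_one a
  have h1 : vv v (A ^ 3 + A ^ 2 + 1) < 1 := by
    have e : A ^ 3 + A ^ 2 + 1 = (A - q) * ((A ^ 2 + A * q + q ^ 2) + (A + q)) +
      (q ^ 3 + q ^ 2 + 1) := by ring
    rw [e]
    exact w_add_lt_one (w_mul_lt_one ha (w_add_le_one (w_add_le_one (w_add_le_one
      (w_pow_le_one hA1 2) (w_mul_le_one hA1 hq.le)) (w_pow_le_one hq.le 2))
      (w_add_le_one hA1 hq.le))) h
  have h2 : a ^ 3 + a ^ 2 + 1 ∈ v.asIdeal := by
    rw [← mem_iff_vv]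
    simp only [map_add, map_pow, map_one]
    rw [← hA]
    exact h1
  have h4 : a ^ 7 - 1 ∈ v.asIdeal := by
    have e : a ^ 7 - 1 = (a ^ 3 + a ^ 2 + 1) * (a ^ 4 - a ^ 3 + a ^ 2 - 2 * a + 3) -
      2 * (2 * a ^ 2 - a + 2) := by ring
    rw [e]
    exact sub_mem (v.asIdeal.mul_mem_right _ h2) (v.asIdeal.mul_mem_right _ hv)
  rw [two_val hp hv] at h4
  have h3 := pow_res hp (coprime_seven h3) a (by norm_num) h4
  rw [← two_val hp hv, ← mem_iff_vv, map_sub, map_one, map_sub, map_one, ← hA] at h3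
  have e : q - 1 = (A - 1) - (A - q) := by ring
  rw [e]
  exact w_sub_lt_one h3 ha

end res

/-- the congruent number curve `y² = x (x - n) (x - 2 n)` -/
def cgc (n : ℤ) (k : Type) [Field k] : WeierstrassCurve k := ⟨0, -3 * n, 0, 2 * n ^ 2, 0⟩

lemma cgc_isT {n : ℤ} (hn : n ≠ 0) (k : Type) [Field k] [CharZero k] :
    IsT (cgc n k) (-3 * (n : k)) (2 * (n : k) ^ 2) where
  h1 := rfl
  h2 := rfl
  h3 := rfl
  h4 := rfl
  h6 := rfl
  hB := mul_ne_zero two_ne_zero (pow_ne_zero 2 (by exact_mod_cast hn))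
  hD := by
    have h : (-3 * (n : k)) ^ 2 - 4 * (2 * (n : k) ^ 2) = (n : k) ^ 2 := by ring
    rw [h]
    exact pow_ne_zero 2 (by exact_mod_cast hn)

section key

variable {F : Type} [Field F] [NumberField F] [IsTotallyReal F] [Algebra ℚ F]
  [FiniteDimensional ℚ F] {n : ℤ}

/-- from `ℚ` to `F` -/
lemma cgc_sc (n : ℤ) : Sc (algebraMap ℚ F) 1 (cgc n ℚ) (cgc n F) := by
  refine ⟨one_ne_zero, ?_, ?_, ?_, ?_, ?_⟩
  · change (0 : F) = algebraMap ℚ F 0 * 1; simp
  · change (-3 * (n : F)) = algebraMap ℚ F (-3 * (n : ℚ)) * 1 ^ 2; simp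
  · change (0 : F) = algebraMap ℚ F 0 * 1 ^ 3; simp
  · change (2 * (n : F) ^ 2) = algebraMap ℚ F (2 * (n : ℚ) ^ 2) * 1 ^ 4; simp
  · change (0 : F) = algebraMap ℚ F 0 * 1 ^ 6; simp

/-- the second class at two -/
lemma two_b2 {b : F} (hb : b ≠ 0) {v : HeightOneSpectrum (𝓞 F)}
    (hp : (Ideal.span {(2 : 𝓞 F)}).IsPrime) (hv : (2 : 𝓞 F) ∈ v.asIdeal)
    (hodd : Odd (Module.finrank ℚ F)) (hn4 : n % 4 ≠ 0)
    (hn3 : n % 4 = 3 → ¬ 3 ∣ Module.finrank ℚ F)
    (hev : ∃ m : ℤ, v.valuation F b = WithZero.exp (2 * m))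
    (hloc : ∃ z m : v.adicCompletion F, z ≠ 0 ∧
      algebraMap F (v.adicCompletion F) b * z ^ 2 = m ∧
        S2 (algebraMap F (v.adicCompletion F) (-3 * (n : F)))
          (algebraMap F (v.adicCompletion F) (2 * (n : F) ^ 2)) m) :
    UnrC (v.valuation F) b ∨ (n % 2 = 1 ∧ UnrC (v.valuation F) (-b)) := by
  have := charZero_adic v
  obtain ⟨z, m, hz, hzm, hm⟩ := hloc
  have hvz : vv v z ≠ 0 := (Valuation.ne_zero_iff _).2 hz
  have hens : ∀ t : v.adicCompletion F, vv v t < vv v 4 → ∃ y, y ^ 2 = 1 + t :=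
    fun t ht => exists_sqrt v t ht
  have h2 : vv v 2 = WithZero.exp (-1 : ℤ) := by
    have h1 : (2 : v.adicCompletion F) = algebraMap F _ 2 := (map_ofNat _ 2).symm
    rw [h1, vv_coe, two_val' hp hv]
  obtain ⟨N, hN⟩ : ∃ N : v.adicCompletion F, N = (n : v.adicCompletion F) := ⟨_, rfl⟩
  have hA : algebraMap F (v.adicCompletion F) (-3 * (n : F)) = -3 * N := by
    rw [hN, map_mul, map_neg, map_ofNat, map_intCast]
  have hB : algebraMap F (v.adicCompletion F) (2 * (n : F) ^ 2) = 2 * N ^ 2 := by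
    rw [hN, map_mul, map_ofNat, map_pow, map_intCast]
  rw [hA, hB] at hm
  have hn0 : n ≠ 0 := by rintro rfl; simp at hn4
  have hN0 : N ≠ 0 := by rw [hN]; exact_mod_cast hn0
  have h21 := w2_lt_one h2
  -- the class `m`
  have key : UnrC (vv v) m ∨ (n % 2 = 1 ∧ UnrC (vv v) (-m)) := by
    rcases hm with hm | hm | ⟨hm0, y, hy⟩
    · left
      rw [hm, ← one_pow 2]
      exact UnrC.sq one_ne_zero
    · left
      have h3 : m = N ^ 2 := by rw [hm]; ring
      rw [h3]
      exact UnrC.sq hN0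
    · have hy' : y ^ 2 = m * (m ^ 2 + 6 * N * m + N ^ 2) := by rw [hy]; ring
      rcases Int.emod_two_eq_zero_or_one n with hpar | hpar
      · left
        have hNw : vv v N = vv v 2 := by
          obtain ⟨k, hk⟩ : ∃ k : ℤ, n = 2 * (1 + 2 * k) := ⟨(n - 2) / 4, by omega⟩
          have h4 : N = 2 * (1 + 2 * (k : v.adicCompletion F)) := by
            rw [hN, hk]; push_cast; ring
          rw [h4, map_mul, w_one_add (w_mul_lt_one h21 (w_int_le_one k)), mul_one]
        refine two_even hens h2 hNw ?_ hm0 hy'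
        obtain ⟨i, hi⟩ := hev
        refine ⟨WithZero.exp i * vv v z, ?_⟩
        rw [← hzm, map_mul, map_pow, vv_coe, hi, mul_pow, two_mul, WithZero.exp_add, sq (WithZero.exp i)]
      · have hNw : vv v N = 1 := by
          obtain ⟨k, hk⟩ : ∃ k : ℤ, n = 1 + 2 * k := ⟨(n - 1) / 2, by omega⟩
          have h4 : N = 1 + 2 * (k : v.adicCompletion F) := by
            rw [hN, hk]; push_cast; ring
          rw [h4]
          exact w_one_add (w_mul_lt_one h21 (w_int_le_one k))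
        have h5 : UnrC (vv v) m ∨ UnrC (vv v) (-m) := by
          have hcases : n % 4 = 1 ∨ n % 4 = 3 := by omega
          rcases hcases with h4 | h4
          · obtain ⟨k, hk⟩ : ∃ k : ℤ, n = 1 + 4 * k := ⟨(n - 1) / 4, by omega⟩
            refine two_odd hens h2 hNw (ε := 1) (m := (k : v.adicCompletion F)) (Or.inl rfl)
              (by rw [hN, hk]; push_cast; ring) (w_int_le_one k) ?_ hm0 hy'
            intro q hq h6 _
            exact hres_three hp hv hodd q hq (h6 rfl)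
          · obtain ⟨k, hk⟩ : ∃ k : ℤ, n = -1 + 4 * k := ⟨(n + 1) / 4, by omega⟩
            refine two_odd hens h2 hNw (ε := -1) (m := (k : v.adicCompletion F)) (Or.inr rfl)
              (by rw [hN, hk]; push_cast; ring) (w_int_le_one k) ?_ hm0 hy'
            intro q hq _ h6
            exact hres_seven hp hv (hn3 h4) q hq (h6 rfl)
        rcases h5 with h5 | h5
        · exact Or.inl h5
        · exact Or.inr ⟨hpar, h5⟩
  rcases key with h | ⟨h0, h⟩
  · left
    apply UnrC.desc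
    refine h.of_eq (inv_ne_zero hz) ?_
    rw [← hzm]
    field_simp
  · right
    refine ⟨h0, ?_⟩
    apply UnrC.desc
    refine h.of_eq (inv_ne_zero hz) ?_
    rw [← hzm, map_neg]
    field_simp

/-- the key lemma for the congruent number curves -/
theorem keyC (hn : 0 < n) (hn4 : n % 4 ≠ 0) (hn3 : n % 4 = 3 → ¬ 3 ∣ Module.finrank ℚ F)
    (hp2 : (Ideal.span {(2 : 𝓞 F)}).IsPrime)
    (hcl : Odd (Nat.card (NCl F))) (hodd : Odd (Module.finrank ℚ F))
    (hbad : ∀ p : ℕ, p.Prime → (p : ℤ) ∣ n →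
      ∀ v w : HeightOneSpectrum (𝓞 F), (p : 𝓞 F) ∈ v.asIdeal → (p : 𝓞 F) ∈ w.asIdeal → v = w)
    (e : AlgebraicClosure F ≃+* Qb) : KeyP (cgc_sc (F := F) n) e := by
  intro f hf h2 S hS hco
  have hTQ := cgc_isT hn.ne' ℚ
  have hT := cgc_isT hn.ne' F
  have hn0 : (n : F) ≠ 0 := by exact_mod_cast hn.ne'
  -- places over the bad primes
  have hbad' : ∀ p : ℕ, p.Prime → (p : ℤ) ∣ 2 * n →
      ∀ v w : HeightOneSpectrum (𝓞 F), (p : 𝓞 F) ∈ v.asIdeal → (p : 𝓞 F) ∈ w.asIdeal → v = w := by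
    intro p hp hpn v w hv hw
    rcases (Nat.prime_iff_prime_int.1 hp).dvd_or_dvd hpn with h | h
    · have h3 : p = 2 := by
        have h4 : p ∣ 2 := by exact_mod_cast h
        exact (Nat.prime_dvd_prime_iff_eq hp Nat.prime_two).1 h4
      rw [h3, Nat.cast_ofNat] at hv hw
      exact HeightOneSpectrum.ext ((two_val hp2 hv).trans (two_val hp2 hw).symm)
    · exact hbad p hp h v w hv hw
  have h2n0 : (2 * n : ℤ) ≠ 0 := mul_ne_zero two_ne_zero hn.ne'
  -- good places
  have hgood : ∀ v : HeightOneSpectrum (𝓞 F), v.valuation F ((2 * n : ℤ) : F) = 1 →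
      v.valuation F 2 = 1 ∧ v.valuation F (n : F) = 1 := by
    intro v hv
    have h3 : v.valuation F 2 * v.valuation F (n : F) = 1 := by
      rw [← map_mul, ← hv]; push_cast; rfl
    have h4 : v.valuation F 2 ≤ 1 := w_two_le _
    have h5 : v.valuation F (n : F) ≤ 1 := val_int_le v n
    constructor
    · apply le_antisymm h4
      rw [← h3]
      exact mul_le_of_le_one_right' h5
    · apply le_antisymm h5
      rw [← h3]
      exact mul_le_of_le_one_left' h4
  have hA : (-3 * (n : F)) = 1 ^ 2 + 4 * ((-3 * (n : F) - 1) / 4) := by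
    field_simp
    ring
  have hB : 2 * (n : F) ^ 2 = 16 * ((n : F) ^ 2 / 8) := by
    field_simp
    norm_num
  have hgood2 : ∀ v : HeightOneSpectrum (𝓞 F), v.valuation F ((2 * n : ℤ) : F) = 1 →
      v.valuation F ((-3 * (n : F) - 1) / 4) ≤ 1 ∧ v.valuation F ((n : F) ^ 2 / 8) = 1 ∧
      v.valuation F 4 = 1 := by
    intro v hv
    obtain ⟨h3, h4⟩ := hgood v hv
    have h5 : v.valuation F 4 = 1 := by rw [w_four, h3, one_mul]
    have h6 : v.valuation F 8 = 1 := by
      have : (8 : F) = 2 * 4 := by norm_num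
      rw [this, map_mul, h3, h5, one_mul]
    refine ⟨?_, ?_, h5⟩
    · rw [map_div₀, h5, div_one]
      have h7 : -3 * (n : F) - 1 = ((-3 * n - 1 : ℤ) : F) := by push_cast; ring
      rw [h7]
      exact val_int_le v _
    · rw [map_div₀, h6, div_one, map_pow, h4, one_pow]
  -- the first class
  obtain ⟨b, hb, hbs, hbl⟩ := exists_b1 hT hf.1 h2
  obtain ⟨r, hr⟩ := norm_b1 (cgc_sc n) e hTQ h2 hbs hS hco
  have hpos : TotPos b := by
    intro φ
    have hnR : (0 : ℝ) < (n : ℝ) := by exact_mod_cast hn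
    have hB' : 0 < φ (2 * (n : F) ^ 2) := by
      rw [map_mul, map_pow, map_intCast, map_ofNat]
      positivity
    refine pos_b1 (A := -3 * (n : F)) (fun v => ?_) φ hB' ?_
    · have := charZero_inf v
      exact hbl v.Completion (hf.2.2 v)
    · left
      rw [map_mul, map_neg, map_ofNat, map_intCast]
      linarith
  have heven : ∀ v : HeightOneSpectrum (𝓞 F), ∃ m : ℤ,
      v.valuation F b = WithZero.exp (2 * m) := by
    intro v
    by_cases hv : v.valuation F ((2 * n : ℤ) : F) = 1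
    · have := charZero_adic v
      obtain ⟨h3, h4, h5⟩ := hgood2 v hv
      exact even_b1 hb v (hbl _ (hf.2.1 v)) hA (map_one _).le h3 hB h4
    · obtain ⟨p, hp, hpc, hpv⟩ := exists_prime v _ h2n0 hv
      have : Fact p.Prime := ⟨hp⟩
      exact even_of_norm (fun w hw => (hbad' p hp hpc v w hpv hw).symm)
        hodd (Units.mk0 b hb) r hr
  obtain ⟨y, hy⟩ := elt_sq hcl (Units.mk0 b hb) hpos heven
  have hy' : b = (y : F) ^ 2 := by
    have := congrArg Units.val hy
    rwa [Units.val_mk0, Units.val_pow_eq_pow_val] at this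
  have hX : ∀ σ, IsX ((cgc n F).baseChange (AlgebraicClosure F)) 0 (f σ) := by
    intro σ
    by_contra hX
    have h3 := (hbs (algebraMap F _ (y : F)) (by rw [hy', map_pow]) σ).2 hX
    rw [AlgEquiv.commutes] at h3
    have h4 : (2 : AlgebraicClosure F) * algebraMap F _ (y : F) = 0 := by linear_combination h3
    rcases mul_eq_zero.1 h4 with h5 | h5
    · exact two_ne_zero h5
    · rw [map_eq_zero] at h5
      exact y.ne_zero h5
  -- the second class
  obtain ⟨b', hb', hbs', hbl'⟩ := exists_b2 hT hf.1 h2 hX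
  obtain ⟨r', hr'⟩ : ∃ r' : ℚ, Algebra.norm ℚ b' = r' ^ 2 := by
    obtain ⟨r', hr'⟩ := norm_b2 (cgc_sc n) e hTQ h2 hX hbs' hS hco
    have hnQ : (n : ℚ) ≠ 0 := by exact_mod_cast hn.ne'
    rcases hr' with hr' | hr'
    · exact ⟨r', hr'⟩
    · refine ⟨r' / n, ?_⟩
      rw [div_pow, ← hr']
      field_simp
      ring
  have heven' : ∀ v : HeightOneSpectrum (𝓞 F), v.valuation F ((2 * n : ℤ) : F) ≠ 1 → ∃ m : ℤ,
      v.valuation F b' = WithZero.exp (2 * m) := by
    intro v hv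
    obtain ⟨p, hp, hpc, hpv⟩ := exists_prime v _ h2n0 hv
    have : Fact p.Prime := ⟨hp⟩
    exact even_of_norm (fun w hw => (hbad' p hp hpc v w hpv hw).symm)
      hodd (Units.mk0 b' hb') r' hr'
  have hnottwo : ∀ v : HeightOneSpectrum (𝓞 F), (2 : 𝓞 F) ∉ v.asIdeal →
      UnrC (v.valuation F) b' ∧ UnrC (v.valuation F) (-b') := by
    intro v hv
    have h4 : v.valuation F 4 = 1 := by
      have h3 : v.valuation F 2 = 1 := by
        have h5 : (2 : F) = algebraMap (𝓞 F) F 2 := (map_ofNat _ 2).symm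
        rw [h5, HeightOneSpectrum.valuation_eq_one_iff_notMem]
        exact hv
      rw [w_four, h3, one_mul]
    have hm1 : UnrC (v.valuation F) (-1 : F) := by
      refine UnrC.of_even one_ne_zero ?_ h4
      rw [one_pow, mul_one, Valuation.map_neg, map_one]
    have h5 : UnrC (v.valuation F) b' := by
      by_cases hv' : v.valuation F ((2 * n : ℤ) : F) = 1
      · have := charZero_adic v
        obtain ⟨h3, h6, -⟩ := hgood2 v hv'
        refine unr_b2 v (hbl' _ (hf.2.1 v)) hA (map_one _).le h3 hB h6.le ?_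
        have h7 : (-3 * (n : F)) ^ 2 - 4 * (2 * (n : F) ^ 2) = (n : F) ^ 2 := by ring
        rw [h7, map_pow, (hgood v hv').2, one_pow]
      · obtain ⟨i, hi⟩ := heven' v hv'
        obtain ⟨t, ht0, ht⟩ := exists_val v (-i)
        refine UnrC.of_even ht0 ?_ h4
        rw [map_mul, map_pow, hi, ht, ← WithZero.exp_nsmul, ← WithZero.exp_add,
          ← WithZero.exp_zero]
        congr 1
        simp only [nsmul_eq_mul]
        push_cast
        ring
    refine ⟨h5, ?_⟩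
    have h6 := hm1.mul h5
    rwa [neg_one_mul] at h6
  -- the place over two
  have hfin : ∀ b'' : F, (∀ v : HeightOneSpectrum (𝓞 F), UnrC (v.valuation F) b'') → b'' ≠ 0 →
      ∃ z : F, z ≠ 0 ∧ b'' = z ^ 2 := by
    intro b'' h hb''
    obtain ⟨z, hz⟩ := sq_of_unrC hcl (Units.mk0 b'' hb'') h
    refine ⟨z, z.ne_zero, ?_⟩
    have := congrArg Units.val hz
    rw [Units.val_mk0, Units.val_pow_eq_pow_val] at this
    exact this.symm
  obtain ⟨z, hz0, hz⟩ : ∃ z : F, z ≠ 0 ∧ b' = z ^ 2 := by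
    by_cases hall : ∀ v : HeightOneSpectrum (𝓞 F), UnrC (v.valuation F) b'
    · exact hfin b' hall hb'
    · exfalso
      push Not at hall
      obtain ⟨v0, hv0⟩ := hall
      have hv02 : (2 : 𝓞 F) ∈ v0.asIdeal := by
        by_contra h
        exact hv0 (hnottwo v0 h).1
      have hv02n : v0.valuation F ((2 * n : ℤ) : F) ≠ 1 := by
        intro h
        have h3 := (hgood v0 h).1
        rw [two_val' hp2 hv02] at h3
        rw [← WithZero.exp_zero, WithZero.exp_inj] at h3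
        omega
      have := charZero_adic v0
      have h3 := two_b2 hb' hp2 hv02 hodd hn4 hn3 (heven' v0 hv02n) (hbl' _ (hf.2.1 v0))
      rcases h3 with h3 | ⟨h3, h4⟩
      · exact hv0 h3
      · obtain ⟨z, hz0, hz⟩ := hfin (-b') (fun v => by
          by_cases hv : (2 : 𝓞 F) ∈ v.asIdeal
          · have : v = v0 :=
              HeightOneSpectrum.ext ((two_val hp2 hv).trans (two_val hp2 hv02).symm)
            rw [this]
            exact h4
          · exact (hnottwo v hv).2) (neg_ne_zero.2 hb')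
        have h5 : b' = -1 * z ^ 2 := by linear_combination -hz
        have h6 : Algebra.norm ℚ (-1 : F) = -1 := by
          have h7 := Algebra.norm_algebraMap (S := F) (-1 : ℚ)
          rw [map_neg, map_one, hodd.neg_one_pow] at h7
          exact h7
        rw [h5, map_mul, h6, map_pow] at hr'
        have h7 : Algebra.norm ℚ z ≠ 0 := by
          rw [Ne, Algebra.norm_eq_zero_iff]
          exact hz0
        have h8 : 0 < (Algebra.norm ℚ z) ^ 2 := by positivity
        nlinarith [sq_nonneg r']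
  refine ⟨0, add_zero 0, fun σ => ?_⟩
  rw [map_zero, sub_zero]
  by_contra hne
  have h3 := (hbs' (algebraMap F _ z) (by rw [hz, map_pow]) σ).2 hne
  rw [AlgEquiv.commutes] at h3
  have h4 : (2 : AlgebraicClosure F) * algebraMap F _ z = 0 := by linear_combination h3
  rcases mul_eq_zero.1 h4 with h5 | h5
  · exact two_ne_zero h5
  · rw [map_eq_zero] at h5
    exact hz0 h5

end key

end Pool.Agent.Y682
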