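import Mathlib
import Pool.Agent.Y682.Two2

/-!
# The second local image over unramified extensions of `ℚ₂`, general curves
-/

set_option autoImplicit false
set_option linter.unusedSectionVars false

open NumberField IsDedekindDomain

namespace Pool.Agent.Y682

section

variable {L : Type} [Field L] [CharZero L] {w : Valuation L (WithZero (Multiplicative ℤ))}

/-- large abscissas are squares -/
lemma gen_large (hens : ∀ t : L, w t < w 4 → ∃ y : L, y ^ 2 = 1 + t)
    (h2 : w 2 = WithZero.exp (-1 : ℤ)) {P Q x y : L} (hP : w P ≤ 1) (hQ : w Q ≤ 1) (hx : 1 < w x)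
    (h : y ^ 2 = x * (x ^ 2 + 2 * P * x + Q)) : ∃ z : L, z ≠ 0 ∧ x = z ^ 2 := by
  have hx0 : x ≠ 0 := by
    rintro rfl
    rw [map_zero] at hx
    exact not_lt_zero hx
  have hwx : w x ≠ 0 := (Valuation.ne_zero_iff _).2 hx0
  have h20 : (2 : L) ≠ 0 := two_ne_zero
  have h21 := w2_lt_one h2
  have hxi : w x⁻¹ < 1 := by
    rw [map_inv₀]
    exact inv_lt_one_of_one_lt₀ hx
  obtain ⟨t, ht⟩ : ∃ t : L, t = 2 * P * x⁻¹ + Q * x⁻¹ ^ 2 := ⟨_, rfl⟩
  have ht1 : w t < 1 := by
    rw [ht]
    refine w_add_lt_one ?_ ?_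
    · rw [mul_comm]
      exact w_mul_lt_one hxi (w_mul_le_one h21.le hP)
    · rw [mul_comm, sq, mul_assoc]
      exact w_mul_lt_one hxi (w_mul_le_one hxi.le hQ)
  have h' : y ^ 2 = x ^ 3 * (1 + t) := by
    rw [h, ht]
    field_simp
    ring
  have hwy : w y ^ 2 = w x ^ 3 := by
    rw [← map_pow, h', map_mul, w_one_add ht1, mul_one, map_pow]
  have hwy0 : w y ≠ 0 := by
    intro h0
    rw [h0, zero_pow two_ne_zero] at hwy
    exact pow_ne_zero 3 hwx hwy.symm
  -- the valuation is even
  have hx2 : WithZero.exp (2 : ℤ) ≤ w x := by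
    have h4 : (2 : ℤ) * WithZero.log (w y) = 3 * WithZero.log (w x) := by
      have := congrArg WithZero.log hwy
      rwa [WithZero.log_pow, WithZero.log_pow, nsmul_eq_mul, nsmul_eq_mul] at this
    rw [← WithZero.exp_log hwx, ← WithZero.exp_zero, WithZero.exp_lt_exp] at hx
    rw [← WithZero.exp_log hwx, WithZero.exp_le_exp]
    omega
  have hxi2 : w x⁻¹ ≤ w 2 * w 2 := by
    rw [map_inv₀, h2, ← WithZero.exp_add]
    have h5 : WithZero.exp (-1 + -1 : ℤ) = (WithZero.exp (2 : ℤ))⁻¹ := by
      rw [← WithZero.exp_neg]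
      rfl
    rw [h5]
    exact inv_anti₀ (zero_lt_iff.2 WithZero.exp_ne_zero) hx2
  have hw2 : 0 < w (2 : L) := zero_lt_iff.2 ((Valuation.ne_zero_iff _).2 h20)
  have ht4 : w t < w 4 := by
    rw [ht, w_four]
    refine lt_of_le_of_lt (Valuation.map_add _ _ _) (max_lt ?_ ?_)
    · have h7 : w (2 * P * x⁻¹) ≤ w 2 * (w 2 * w 2) := by
        rw [map_mul, map_mul]
        calc w 2 * w P * w x⁻¹ ≤ w 2 * 1 * (w 2 * w 2) := by
              gcongr
          _ = w 2 * (w 2 * w 2) := by rw [mul_one]
      refine lt_of_le_of_lt h7 ?_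
      calc w (2 : L) * (w 2 * w 2) < 1 * (w 2 * w 2) :=
            mul_lt_mul_of_pos_right h21 (mul_pos hw2 hw2)
        _ = w 2 * w 2 := one_mul _
    · have h7 : w (Q * x⁻¹ ^ 2) ≤ (w 2 * w 2) * (w 2 * w 2) := by
        rw [map_mul, map_pow, sq (w x⁻¹)]
        calc w Q * (w x⁻¹ * w x⁻¹) ≤ 1 * ((w 2 * w 2) * (w 2 * w 2)) := by
              gcongr
          _ = _ := one_mul _
      refine lt_of_le_of_lt h7 ?_
      calc (w (2 : L) * w 2) * (w 2 * w 2) < 1 * (w 2 * w 2) :=
            mul_lt_mul_of_pos_right (mul_lt_one_of_nonneg_of_lt_one_left zero_le h21 h21.le)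
              (mul_pos hw2 hw2)
        _ = w 2 * w 2 := one_mul _
  obtain ⟨r, hr⟩ := hens t ht4
  have hr0 : r ≠ 0 := by
    rintro rfl
    rw [zero_pow two_ne_zero] at hr
    have h5 := w_one_add ht1
    rw [← hr, map_zero] at h5
    exact zero_ne_one h5
  have hy0 : y ≠ 0 := by
    rintro rfl
    rw [map_zero] at hwy0
    exact hwy0 rfl
  refine ⟨y / (x * r), div_ne_zero hy0 (mul_ne_zero hx0 hr0), ?_⟩
  rw [div_pow, h', mul_pow, hr]
  have h5 : (1 : L) + t ≠ 0 := by rw [← hr]; exact pow_ne_zero 2 hr0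
  field_simp

/-- an integer multiple of four plus one -/
lemma unr_one_add (h2 : w (2 : L) < 1) {x u : L} (hx : x = 1 + 4 * u) (hu : w u ≤ 1) :
    UnrC w x :=
  unr_of_one (T := 1) (u := u) one_ne_zero (by rw [one_pow, mul_one, hx]) h2 hu

/-- the residual conditions -/
lemma odd_res (h2 : w 2 = WithZero.exp (-1 : ℤ)) {A B ε m k r Y c : L} {j : ℤ}
    (hm : w m ≤ 1) (hA : A = ε + 4 * m) (hk : w k ≤ 1)
    (hB : B = (j : L) + 4 * k) (hε : ε = 1 ∨ ε = -1)
    (hj : j = 0 ∨ j = 1 ∨ j = 2 ∨ j = 3) (hr : w r = 1) (hr1 : w (r - 1) = 1)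
    (hres3 : ∀ q : L, w q = 1 → w (q ^ 3 - 1) < 1 → w (q - 1) < 1)
    (hres7 : ε = -1 → (j = 2 ∨ j = 3) → ∀ q : L, w q = 1 → w (q ^ 3 + q ^ 2 + 1) < 1 →
      w (q - 1) < 1)
    (hc : c = if j = 0 ∨ j = 2 then r else r - 1) (hY : w (Y - c) < 1)
    (h : Y ^ 2 = (A + 2 * r) * (r ^ 2 - B)) : False := by
  have h20 : (2 : L) ≠ 0 := two_ne_zero
  have h21 := w2_lt_one h2
  obtain ⟨g, hg, hwg⟩ := exists_double h2 hY
  have hYc : Y = c + 2 * g := by linear_combination hg
  have hne : ∀ z : L, w z = 1 → ¬ w z < 1 := fun z hz h' => by rw [hz] at h'; exact lt_irrefl _ h'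
  have hj1 : w (j : L) ≤ 1 := w_int_le_one j
  have hε1 : w ε ≤ 1 := by
    rcases hε with rfl | rfl
    · exact (map_one w).le
    · rw [Valuation.map_neg]; exact (map_one w).le
  have hcw : w c ≤ 1 := by
    rw [hc]
    split_ifs
    · exact hr.le
    · exact hr1.le
  obtain ⟨Z, hZ⟩ : ∃ Z : L, Z = (c * g + g ^ 2) - (m * (r ^ 2 - B) - (ε + 2 * r) * k) := ⟨_, rfl⟩
  have hB1 : w B ≤ 1 := by
    rw [hB]
    exact w_add_le_one hj1 (w_mul_le_one (w_four_le w) hk)
  have hZ1 : w Z ≤ 1 := by
    rw [hZ]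
    refine w_sub_le_one (w_add_le_one (w_mul_le_one hcw hwg) (w_pow_le_one hwg 2)) ?_
    refine w_sub_le_one (w_mul_le_one hm (w_sub_le_one (w_pow_le_one hr.le 2) hB1)) ?_
    exact w_mul_le_one (w_add_le_one hε1 (w_mul_le_one h21.le hr.le)) hk
  have key : (ε + 2 * r) * (r ^ 2 - (j : L)) - c ^ 2 = 4 * Z := by
    rw [hYc] at h
    rw [hZ]
    linear_combination -h - (r ^ 2 - B) * hA + (ε + 2 * r) * hB
  rcases hε with rfl | rfl
  · rcases hj with rfl | rfl | rfl | rfl
    · -- `r³` is even
      rw [if_pos (Or.inl rfl)] at hc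
      rw [hc] at key
      have e : r ^ 3 = 2 * Z := by
        apply mul_left_cancel₀ h20
        push_cast at key
        linear_combination key
      apply hne (r ^ 3) (by rw [map_pow, hr, one_pow])
      rw [e]
      exact w_mul_lt_one h21 hZ1
    · rw [if_neg (by norm_num)] at hc
      rw [hc] at key
      have e : r ^ 3 - 1 = 2 * Z := by
        apply mul_left_cancel₀ h20
        push_cast at key
        linear_combination key
      apply hne (r - 1) hr1
      apply hres3 r hr
      rw [e]
      exact w_mul_lt_one h21 hZ1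
    · rw [if_pos (Or.inr rfl)] at hc
      rw [hc] at key
      have e : r ^ 3 - 1 = 2 * (Z + r) := by
        apply mul_left_cancel₀ h20
        push_cast at key
        linear_combination key
      apply hne (r - 1) hr1
      apply hres3 r hr
      rw [e]
      exact w_mul_lt_one h21 (w_add_le_one hZ1 hr.le)
    · rw [if_neg (by norm_num)] at hc
      rw [hc] at key
      have e : r ^ 3 = 2 * (Z + r + 1) := by
        apply mul_left_cancel₀ h20
        push_cast at key
        linear_combination key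
      apply hne (r ^ 3) (by rw [map_pow, hr, one_pow])
      rw [e]
      exact w_mul_lt_one h21 (w_add_le_one (w_add_le_one hZ1 hr.le) (map_one w).le)
  · rcases hj with rfl | rfl | rfl | rfl
    · rw [if_pos (Or.inl rfl)] at hc
      rw [hc] at key
      have e : r ^ 2 * (r - 1) = 2 * Z := by
        apply mul_left_cancel₀ h20
        push_cast at key
        linear_combination key
      apply hne (r ^ 2 * (r - 1)) (by rw [map_mul, map_pow, hr, hr1, one_pow, one_mul])
      rw [e]
      exact w_mul_lt_one h21 hZ1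
    · rw [if_neg (by norm_num)] at hc
      rw [hc] at key
      have e : r ^ 2 * (r - 1) = 2 * Z := by
        apply mul_left_cancel₀ h20
        push_cast at key
        linear_combination key
      apply hne (r ^ 2 * (r - 1)) (by rw [map_mul, map_pow, hr, hr1, one_pow, one_mul])
      rw [e]
      exact w_mul_lt_one h21 hZ1
    · rw [if_pos (Or.inr rfl)] at hc
      rw [hc] at key
      have e : r ^ 3 + r ^ 2 + 1 = 2 * (Z + r + r ^ 2) := by
        apply mul_left_cancel₀ h20
        push_cast at key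
        linear_combination key
      apply hne (r - 1) hr1
      apply hres7 rfl (Or.inl rfl) r hr
      rw [e]
      exact w_mul_lt_one h21 (w_add_le_one (w_add_le_one hZ1 hr.le) (w_pow_le_one hr.le 2))
    · rw [if_neg (by norm_num)] at hc
      rw [hc] at key
      have e : r ^ 3 + r ^ 2 + 1 = 2 * (Z + r + r ^ 2) := by
        apply mul_left_cancel₀ h20
        push_cast at key
        linear_combination key
      apply hne (r - 1) hr1
      apply hres7 rfl (Or.inr rfl) r hr
      rw [e]
      exact w_mul_lt_one h21 (w_add_le_one (w_add_le_one hZ1 hr.le) (w_pow_le_one hr.le 2))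

/-- the second local image at two, `A` odd -/
lemma gen_odd (hens : ∀ t : L, w t < w 4 → ∃ y : L, y ^ 2 = 1 + t)
    (h2 : w 2 = WithZero.exp (-1 : ℤ)) {A B ε m k x y : L} {j : ℤ}
    (hm : w m ≤ 1) (hA : A = ε + 4 * m) (hk : w k ≤ 1)
    (hB : B = (j : L) + 4 * k) (hε : ε = 1 ∨ ε = -1)
    (hj : j = 0 ∨ j = 1 ∨ j = 2 ∨ j = 3)
    (hres3 : ∀ q : L, w q = 1 → w (q ^ 3 - 1) < 1 → w (q - 1) < 1)
    (hres7 : ε = -1 → (j = 2 ∨ j = 3) → ∀ q : L, w q = 1 → w (q ^ 3 + q ^ 2 + 1) < 1 →
      w (q - 1) < 1)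
    (hx0 : x ≠ 0) (h : y ^ 2 = x * ((x - A) ^ 2 - 4 * B)) : UnrC w x ∨ UnrC w (-x) := by
  have h20 : (2 : L) ≠ 0 := two_ne_zero
  have h21 := w2_lt_one h2
  have h41 : w (4 : L) < 1 := by
    rw [w_four]
    exact mul_lt_one_of_nonneg_of_lt_one_left zero_le h21 h21.le
  have hj1 : w (j : L) ≤ 1 := w_int_le_one j
  have hB1 : w B ≤ 1 := by
    rw [hB]
    exact w_add_le_one hj1 (w_mul_le_one (w_four_le w) hk)
  have hA1 : w A = 1 := by
    rcases hε with rfl | rfl
    · rw [hA]
      exact w_one_add (w_mul_lt_one h41 hm)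
    · have e : A = -(1 + 4 * (-m)) := by rw [hA]; ring
      rw [e, Valuation.map_neg]
      exact w_one_add (w_mul_lt_one h41 (by rw [Valuation.map_neg]; exact hm))
  have hA0 : A ≠ 0 := by
    rintro rfl
    rw [map_zero] at hA1
    exact zero_ne_one hA1
  obtain ⟨D, hD⟩ : ∃ D : L, D = A ^ 2 - 4 * B := ⟨_, rfl⟩
  have hD1 : w D = 1 := by
    rw [hD, Valuation.map_sub_eq_of_lt_left _ (by
      rw [map_pow, hA1, one_pow]; exact w_mul_lt_one h41 hB1), map_pow, hA1, one_pow]
  have hD0 : D ≠ 0 := by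
    rintro rfl
    rw [map_zero] at hD1
    exact zero_ne_one hD1
  have h' : y ^ 2 = x * (x ^ 2 + 2 * (-A) * x + D) := by rw [h, hD]; ring
  have hwx : 0 < w x := zero_lt_iff.2 ((Valuation.ne_zero_iff _).2 hx0)
  rcases lt_trichotomy (w x) 1 with hx | hx | hx
  · left
    obtain ⟨z, hz0, hz⟩ := gen_large hens h2 (P := -A) (Q := D) (x := D / x)
      (y := D * y / x ^ 2) (by rw [Valuation.map_neg]; exact hA1.le) hD1.le
      (by
        rw [map_div₀, hD1]
        exact (one_lt_div₀ hwx).2 hx)
      (by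
        rw [div_pow, mul_pow, h']
        field_simp
        ring)
    have hDu : UnrC w D := ⟨1, A, -B, one_ne_zero, by rw [hD]; ring, by
      rw [one_pow, mul_one, hD1], hA1.le, by rw [Valuation.map_neg]; exact hB1⟩
    refine hDu.of_eq (inv_ne_zero hz0) ?_
    rw [inv_pow, ← hz]
    field_simp
  · obtain ⟨z, hz⟩ : ∃ z : L, z = x - A := ⟨_, rfl⟩
    have hz1 : w z ≤ 1 := by rw [hz]; exact w_sub_le_one hx.le hA1.le
    rw [← hz] at h
    rcases lt_or_eq_of_le hz1 with hz2 | hz2
    · obtain ⟨r, hr, hwr⟩ := exists_double h2 hz2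
      have hxr : x = A + 2 * r := by linear_combination hr - hz
      rcases lt_or_eq_of_le hwr with hr2 | hr2
      · obtain ⟨r', hr', hwr'⟩ := exists_double h2 hr2
        rcases hε with rfl | rfl
        · left
          exact unr_one_add h21 (u := m + r') (by rw [hxr, hA, hr']; ring)
            (w_add_le_one hm hwr')
        · right
          exact unr_one_add h21 (u := -(m + r')) (by rw [hxr, hA, hr']; ring)
            (by rw [Valuation.map_neg]; exact w_add_le_one hm hwr')
      · have hr1' : w (r - 1) ≤ 1 := w_sub_le_one hwr (map_one w).le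
        rcases lt_or_eq_of_le hr1' with hr1 | hr1
        · obtain ⟨r', hr', hwr'⟩ := exists_double h2 hr1
          have hr'' : r = 1 + 2 * r' := by linear_combination hr'
          rcases hε with rfl | rfl
          · right
            exact unr_one_add h21 (u := -(1 + m + r')) (by rw [hxr, hA, hr'']; ring)
              (by rw [Valuation.map_neg]
                  exact w_add_le_one (w_add_le_one (map_one w).le hm) hwr')
          · left
            exact unr_one_add h21 (u := m + r') (by rw [hxr, hA, hr'']; ring)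
              (w_add_le_one hm hwr')
        · exfalso
          obtain ⟨Y, hY⟩ : ∃ Y : L, Y = y / 2 := ⟨_, rfl⟩
          have hY2 : Y ^ 2 = (A + 2 * r) * (r ^ 2 - B) := by
            rw [hY, div_pow, h, ← hxr, hr]
            field_simp
            ring
          obtain ⟨c, hc⟩ : ∃ c : L, c = if j = 0 ∨ j = 2 then r else r - 1 := ⟨_, rfl⟩
          have hcw : w c = 1 := by
            rw [hc]
            split_ifs
            · exact hr2
            · exact hr1
          -- `c² = r² - B` modulo two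
          obtain ⟨d, hd, hwd⟩ : ∃ d : L, r ^ 2 - B = c ^ 2 + 2 * d ∧ w d ≤ 1 := by
            rcases hj with rfl | rfl | rfl | rfl
            · rw [if_pos (Or.inl rfl)] at hc
              refine ⟨-(2 * k), by rw [hc, hB]; push_cast; ring, ?_⟩
              rw [Valuation.map_neg]
              exact w_mul_le_one h21.le hk
            · rw [if_neg (by norm_num)] at hc
              refine ⟨r - 1 - 2 * k, by rw [hc, hB]; push_cast; ring, ?_⟩
              exact w_sub_le_one hr1.le (w_mul_le_one h21.le hk)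
            · rw [if_pos (Or.inr rfl)] at hc
              refine ⟨-(1 + 2 * k), by rw [hc, hB]; push_cast; ring, ?_⟩
              rw [Valuation.map_neg]
              exact w_add_le_one (map_one w).le (w_mul_le_one h21.le hk)
            · rw [if_neg (by norm_num)] at hc
              refine ⟨r - 2 - 2 * k, by rw [hc, hB]; push_cast; ring, ?_⟩
              exact w_sub_le_one (w_sub_le_one hwr h21.le) (w_mul_le_one h21.le hk)
          have hrB : w (r ^ 2 - B) = 1 := by
            rw [hd, Valuation.map_add_eq_of_lt_left _ (by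
              rw [map_pow, hcw, one_pow]; exact w_mul_lt_one h21 hwd), map_pow, hcw, one_pow]
          have hxw : w (A + 2 * r) = 1 := by rw [← hxr, hx]
          have hYw : w Y = 1 := by
            have h5 : w Y ^ 2 = 1 := by rw [← map_pow, hY2, map_mul, hxw, hrB, one_mul]
            have hY0 : w Y ≠ 0 := by
              intro h0
              rw [h0, zero_pow two_ne_zero] at h5
              exact zero_ne_one h5
            have h6 := congrArg WithZero.log h5
            rw [WithZero.log_pow, nsmul_eq_mul, WithZero.log_one] at h6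
            rw [← WithZero.exp_log hY0, ← WithZero.exp_zero]
            congr 1
            push_cast at h6
            omega
          -- `A` is one modulo two
          obtain ⟨d', hd', hwd'⟩ : ∃ d' : L, A + 2 * r = 1 + 2 * d' ∧ w d' ≤ 1 := by
            rcases hε with rfl | rfl
            · exact ⟨2 * m + r, by rw [hA]; ring, w_add_le_one (w_mul_le_one h21.le hm) hwr⟩
            · exact ⟨2 * m + r - 1, by rw [hA]; ring,
                w_sub_le_one (w_add_le_one (w_mul_le_one h21.le hm) hwr) (map_one w).le⟩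
          have h5 : w ((Y - c) ^ 2) < 1 := by
            have e : (Y - c) ^ 2 = 2 * (d + d' * (r ^ 2 - B) - c * (Y - c)) := by
              linear_combination hY2 + (r ^ 2 - B) * hd' + hd
            rw [e]
            exact w_mul_lt_one h21 (w_sub_le_one (w_add_le_one hwd (w_mul_le_one hwd' hrB.le))
              (w_mul_le_one hcw.le (w_sub_le_one hYw.le hcw.le)))
          have h6 : w (Y - c) < 1 := by
            rw [map_pow] at h5
            by_contra hge
            rw [not_lt] at hge
            exact absurd h5 (not_lt.2 (one_le_pow₀ hge))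
          exact odd_res h2 hm hA hk hB hε hj hr2 hr1 hres3 hres7 hc h6 hY2
    · -- `x - A` is a unit
      left
      obtain ⟨u, hu⟩ : ∃ u : L, u = -B / z ^ 2 := ⟨_, rfl⟩
      have hz0 : z ≠ 0 := by
        intro h0
        rw [h0, map_zero] at hz2
        exact zero_ne_one hz2
      have hwu : w u ≤ 1 := by
        rw [hu, map_div₀, Valuation.map_neg, map_pow, hz2, one_pow, div_one]
        exact hB1
      have h1u : w (1 + 4 * u) = 1 := w_one_add (w_mul_lt_one h41 hwu)
      have h1u0 : 1 + 4 * u ≠ 0 := by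
        intro h0
        rw [h0, map_zero] at h1u
        exact zero_ne_one h1u
      have hY3 : y ^ 2 = x * z ^ 2 * (1 + 4 * u) := by
        rw [h, hu]
        field_simp
        ring
      have hY0 : y ≠ 0 := by
        rintro rfl
        rw [zero_pow two_ne_zero] at hY3
        exact (mul_ne_zero (mul_ne_zero hx0 (pow_ne_zero 2 hz0)) h1u0) hY3.symm
      refine unr_of_one (T := z * (1 + 4 * u) / y) (u := u)
        (div_ne_zero (mul_ne_zero hz0 h1u0) hY0) ?_ h21 hwu
      rw [div_pow, hY3]
      field_simp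
  · left
    obtain ⟨z, hz0, hz⟩ := gen_large hens h2 (P := -A) (Q := D)
      (by rw [Valuation.map_neg]; exact hA1.le) hD1.le hx h'
    rw [hz]
    exact UnrC.sq hz0

/-- the second local image at two, `A` even, the case of a unit -/
lemma gen_even_unit (h21 : w (2 : L) < 1) {A₀ D₀ x y : L} (hA : w A₀ ≤ 1) (hD : w D₀ ≤ 1)
    (hx : w x = 1) (h : y ^ 2 = x * (x ^ 2 - 4 * A₀ * x + 4 * D₀)) : UnrC w x := by
  have h41 : w (4 : L) < 1 := by
    rw [w_four]
    exact mul_lt_one_of_nonneg_of_lt_one_left zero_le h21 h21.le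
  have hx0 : x ≠ 0 := by
    rintro rfl
    rw [map_zero] at hx
    exact zero_ne_one hx
  obtain ⟨u, hu⟩ : ∃ u : L, u = -A₀ * x⁻¹ + D₀ * x⁻¹ ^ 2 := ⟨_, rfl⟩
  have hxi : w x⁻¹ ≤ 1 := by rw [map_inv₀, hx, inv_one]
  have hwu : w u ≤ 1 := by
    rw [hu]
    refine w_add_le_one (w_mul_le_one ?_ hxi) (w_mul_le_one hD (w_pow_le_one hxi 2))
    rw [Valuation.map_neg]
    exact hA
  have h1u : w (1 + 4 * u) = 1 := w_one_add (w_mul_lt_one h41 hwu)
  have h1u0 : 1 + 4 * u ≠ 0 := by
    intro h0
    rw [h0, map_zero] at h1u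
    exact zero_ne_one h1u
  have hy : y ^ 2 = x ^ 3 * (1 + 4 * u) := by
    rw [h, hu]
    field_simp
    ring
  have hy0 : y ≠ 0 := by
    rintro rfl
    rw [zero_pow two_ne_zero] at hy
    exact (mul_ne_zero (pow_ne_zero 3 hx0) h1u0) hy.symm
  refine unr_of_one (T := x * (1 + 4 * u) / y) (u := u)
    (div_ne_zero (mul_ne_zero hx0 h1u0) hy0) ?_ h21 hwu
  rw [div_pow, hy]
  field_simp

/-- the second local image at two, `A` even -/
lemma gen_even (hens : ∀ t : L, w t < w 4 → ∃ y : L, y ^ 2 = 1 + t)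
    (h2 : w 2 = WithZero.exp (-1 : ℤ)) {A B A₀ D₀ x y : L} (hA : A = 2 * A₀) (hA₀ : w A₀ ≤ 1)
    (hD : D₀ = A₀ ^ 2 - B)
    (hcase : w D₀ = w 2 ∨ (w D₀ = 1 ∧ (UnrC w D₀ ∨ UnrC w (-D₀))))
    (hev : ∃ g, w x = g ^ 2) (hx0 : x ≠ 0) (h : y ^ 2 = x * ((x - A) ^ 2 - 4 * B)) :
    UnrC w x ∨ UnrC w (-x) := by
  have h20 : (2 : L) ≠ 0 := two_ne_zero
  have h21 := w2_lt_one h2
  have h41 : w (4 : L) < 1 := by
    rw [w_four]
    exact mul_lt_one_of_nonneg_of_lt_one_left zero_le h21 h21.le
  have hD1 : w D₀ ≤ 1 := by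
    rcases hcase with hc | hc
    · rw [hc]; exact h21.le
    · exact hc.1.le
  have hD0 : D₀ ≠ 0 := by
    rintro rfl
    rw [map_zero] at hcase
    rcases hcase with hc | hc
    · exact (Valuation.ne_zero_iff _).2 h20 hc.symm
    · exact zero_ne_one hc.1
  have h' : y ^ 2 = x * (x ^ 2 - 4 * A₀ * x + 4 * D₀) := by rw [h, hD, hA]; ring
  have hwx : 0 < w x := zero_lt_iff.2 ((Valuation.ne_zero_iff _).2 hx0)
  have hlarge : ∀ x y : L, 1 < w x → y ^ 2 = x * (x ^ 2 - 4 * A₀ * x + 4 * D₀) →
      ∃ z : L, z ≠ 0 ∧ x = z ^ 2 := by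
    intro x y hx hxy
    refine gen_large hens h2 (P := -(2 * A₀)) (Q := 4 * D₀) ?_
      (w_mul_le_one h41.le hD1) hx (y := y) (by rw [hxy]; ring)
    rw [Valuation.map_neg]
    exact w_mul_le_one h21.le hA₀
  rcases lt_trichotomy (w x) 1 with hx | hx | hx
  · have h'' : (4 * D₀ * y / x ^ 2) ^ 2 = (4 * D₀ / x) * ((4 * D₀ / x) ^ 2 - 4 * A₀ * (4 * D₀ / x) +
        4 * D₀) := by
      rw [div_pow, mul_pow, h']
      field_simp
      ring
    obtain ⟨g, hg⟩ := hev
    have hg0 : g ≠ 0 := by
      rintro rfl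
      rw [zero_pow two_ne_zero] at hg
      exact hwx.ne' hg
    have hg1 : WithZero.log g < 0 := by
      rw [hg, ← WithZero.exp_log hg0, ← WithZero.exp_nsmul, ← WithZero.exp_zero,
        WithZero.exp_lt_exp, nsmul_eq_mul] at hx
      push_cast at hx
      omega
    have hwx' : w x = WithZero.exp (2 * WithZero.log g) := by
      rw [hg]
      conv_lhs => rw [← WithZero.exp_log hg0]
      rw [← WithZero.exp_nsmul, nsmul_eq_mul]
      push_cast
      rfl
    have hw4 : w (4 : L) = WithZero.exp (-2 : ℤ) := by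
      rw [w_four, h2, ← WithZero.exp_add]
      rfl
    rcases hcase with hc | ⟨hc, hcu⟩
    · exfalso
      -- odd valuation
      have hwx2 : w (4 * D₀ / x) = WithZero.exp (-3 - 2 * WithZero.log g) := by
        rw [map_div₀, map_mul, hc, h2, hw4, hwx', ← WithZero.exp_add, ← WithZero.exp_sub]
        congr 1
      have hy1 : (4 * D₀ * y / x ^ 2) ≠ 0 ∨ (4 * D₀ * y / x ^ 2) = 0 := (em _).symm
      rcases lt_or_ge 1 (w (4 * D₀ / x)) with h5 | h5
      · obtain ⟨z, hz0, hz⟩ := hlarge _ _ h5 h''
        rw [hz, map_pow] at hwx2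
        have h6 := congrArg WithZero.log hwx2
        rw [WithZero.log_pow, nsmul_eq_mul, WithZero.log_exp] at h6
        push_cast at h6
        omega
      · have h6 : -3 - 2 * WithZero.log g = -1 := by
          rw [hwx2, ← WithZero.exp_zero, WithZero.exp_le_exp] at h5
          omega
        rw [h6] at hwx2
        obtain ⟨X, hX⟩ : ∃ X : L, X = 4 * D₀ / x := ⟨_, rfl⟩
        rw [← hX] at hwx2 h''
        have h7 : w (X ^ 2 - 4 * A₀ * X + 4 * D₀) = w (X ^ 2) := by
          have e : X ^ 2 - 4 * A₀ * X + 4 * D₀ = X ^ 2 + 4 * (-(A₀ * X) + D₀) := by ring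
          rw [e]
          apply Valuation.map_add_eq_of_lt_left
          rw [map_mul, map_pow, hwx2, hw4, ← WithZero.exp_nsmul, nsmul_eq_mul]
          have h8 : w (-(A₀ * X) + D₀) < 1 := by
            refine w_add_lt_one ?_ (by rw [hc]; exact h21)
            rw [Valuation.map_neg, mul_comm]
            refine w_mul_lt_one ?_ hA₀
            rw [hwx2, ← WithZero.exp_zero, WithZero.exp_lt_exp]
            norm_num
          calc WithZero.exp (-2 : ℤ) * w (-(A₀ * X) + D₀) < WithZero.exp (-2 : ℤ) * 1 :=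
                mul_lt_mul_of_pos_left h8 (zero_lt_iff.2 WithZero.exp_ne_zero)
            _ = _ := by rw [mul_one]; rfl
        have h8 := congrArg w h''
        rw [map_pow, map_mul, h7, map_pow, hwx2] at h8
        have h9 := congrArg WithZero.log h8
        rw [WithZero.log_pow, nsmul_eq_mul, ← pow_succ', WithZero.log_pow, WithZero.log_exp,
          nsmul_eq_mul] at h9
        push_cast at h9
        omega
    · have hX' : UnrC w (4 * D₀ / x) := by
        have hwx2 : w (4 * D₀ / x) = WithZero.exp (-2 - 2 * WithZero.log g) := by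
          rw [map_div₀, map_mul, hc, hw4, hwx', mul_one, ← WithZero.exp_sub]
        have h5 : 1 ≤ w (4 * D₀ / x) := by
          rw [hwx2, ← WithZero.exp_zero, WithZero.exp_le_exp]
          omega
        rcases lt_or_eq_of_le h5 with h6 | h6
        · obtain ⟨z, hz0, hz⟩ := hlarge _ _ h6 h''
          rw [hz]
          exact UnrC.sq hz0
        · exact gen_even_unit h21 hA₀ hD1 h6.symm h''
      have h4D : (4 : L) * D₀ ≠ 0 := mul_ne_zero (by norm_num) hD0
      rcases hcu with hcu | hcu
      · left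
        refine (hcu.mul hX').of_eq (y := x / (2 * D₀))
          (div_ne_zero hx0 (mul_ne_zero h20 hD0)) ?_
        field_simp
        ring
      · right
        refine (hcu.mul hX').of_eq (y := x / (2 * D₀))
          (div_ne_zero hx0 (mul_ne_zero h20 hD0)) ?_
        field_simp
        ring
  · left
    exact gen_even_unit h21 hA₀ hD1 hx h'
  · left
    obtain ⟨z, hz0, hz⟩ := hlarge x y hx h'
    rw [hz]
    exact UnrC.sq hz0

end

end Pool.Agent.Y682
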