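import Mathlib
import Pool.Agent.Y682.TwoG
import Pool.Agent.Y682.KC

/-!
# The key lemma for curves with a rational point of order two
-/

set_option autoImplicit false
set_option linter.unusedSectionVars false

attribute [-instance] DivisionRing.toRatAlgebra

open NumberField IsDedekindDomain

namespace Pool.Agent.Y682

open WeierstrassCurve

open Pool.Agent.TH841.NF

open Pool.Agent.TH841.SH (IsR IsX gf isX_zero isX_some not_isX)

open Pool.Agent.TH841.SH.D (Pt act Gal Coch IsCoc IsCob LocTriv cob)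

/-- the curve `y² = x³ + A x² + B x` -/
def gc (A B : ℤ) (k : Type) [Field k] : WeierstrassCurve k := ⟨0, A, 0, B, 0⟩

lemma gc_isT {A B : ℤ} (hB : B ≠ 0) (hD : A ^ 2 - 4 * B ≠ 0) (k : Type) [Field k] [CharZero k] :
    IsT (gc A B k) (A : k) (B : k) where
  h1 := rfl
  h2 := rfl
  h3 := rfl
  h4 := rfl
  h6 := rfl
  hB := by exact_mod_cast hB
  hD := by
    intro h
    apply hD
    have h1 : ((A ^ 2 - 4 * B : ℤ) : k) = ((0 : ℤ) : k) := by
      push_cast
      linear_combination h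
    exact Int.cast_injective h1

lemma S2_div {L : Type} [Field L] {A B m : L} (hD : A ^ 2 - 4 * B ≠ 0) (h : S2 A B m) :
    m ≠ 0 ∧ S2 A B ((A ^ 2 - 4 * B) / m) := by
  rcases h with h | h | ⟨hm, y, hy⟩
  · rw [h]
    exact ⟨one_ne_zero, Or.inr (Or.inl (by rw [div_one]))⟩
  · rw [h]
    exact ⟨hD, Or.inl (div_self hD)⟩
  · refine ⟨hm, Or.inr (Or.inr ⟨div_ne_zero hD hm, (A ^ 2 - 4 * B) * y / m ^ 2, ?_⟩)⟩
    rw [div_pow, mul_pow, hy]
    field_simp
    ring

section key

variable {F : Type} [Field F] [NumberField F] [IsTotallyReal F] [Algebra ℚ F]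
  [FiniteDimensional ℚ F] {A B : ℤ}

/-- from `ℚ` to `F` -/
lemma gc_sc (A B : ℤ) : Sc (algebraMap ℚ F) 1 (gc A B ℚ) (gc A B F) := by
  refine ⟨one_ne_zero, ?_, ?_, ?_, ?_, ?_⟩
  · change (0 : F) = algebraMap ℚ F 0 * 1; simp
  · change (A : F) = algebraMap ℚ F (A : ℚ) * 1 ^ 2; simp
  · change (0 : F) = algebraMap ℚ F 0 * 1 ^ 3; simp
  · change (B : F) = algebraMap ℚ F (B : ℚ) * 1 ^ 4; simp
  · change (0 : F) = algebraMap ℚ F 0 * 1 ^ 6; simp

/-- the second class at two -/
lemma two_bg {b : F} {v : HeightOneSpectrum (𝓞 F)}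
    (hp : (Ideal.span {(2 : 𝓞 F)}).IsPrime) (hv : (2 : 𝓞 F) ∈ v.asIdeal)
    (hodd : Odd (Module.finrank ℚ F))
    (hA2 : A % 2 = 1 ∨ (A % 2 = 0 ∧ ((A / 2) ^ 2 - B) % 4 ≠ 0))
    (hn3 : A % 4 = 3 → (B % 4 = 2 ∨ B % 4 = 3) → ¬ 3 ∣ Module.finrank ℚ F)
    (hev : ∃ m : ℤ, v.valuation F b = WithZero.exp (2 * m))
    (hloc : ∃ z m : v.adicCompletion F, z ≠ 0 ∧
      algebraMap F (v.adicCompletion F) b * z ^ 2 = m ∧
        S2 (algebraMap F (v.adicCompletion F) (A : F))
          (algebraMap F (v.adicCompletion F) (B : F)) m) :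
    UnrC (v.valuation F) b ∨ UnrC (v.valuation F) (-b) := by
  have := charZero_adic v
  obtain ⟨z, m, hz, hzm, hm⟩ := hloc
  have hvz : vv v z ≠ 0 := (Valuation.ne_zero_iff _).2 hz
  have hens : ∀ t : v.adicCompletion F, vv v t < vv v 4 → ∃ y, y ^ 2 = 1 + t :=
    fun t ht => exists_sqrt v t ht
  have h2 : vv v 2 = WithZero.exp (-1 : ℤ) := by
    have h1 : (2 : v.adicCompletion F) = algebraMap F _ 2 := (map_ofNat _ 2).symm
    rw [h1, vv_coe, two_val' hp hv]
  have h21 := w2_lt_one h2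
  have h41 : vv v 4 < 1 := by
    rw [w_four]
    exact mul_lt_one_of_nonneg_of_lt_one_left zero_le h21 h21.le
  have hA : algebraMap F (v.adicCompletion F) (A : F) = (A : v.adicCompletion F) := by
    rw [map_intCast]
  have hB : algebraMap F (v.adicCompletion F) (B : F) = (B : v.adicCompletion F) := by
    rw [map_intCast]
  rw [hA, hB] at hm
  have hbm : ∃ g, vv v m = g ^ 2 := by
    obtain ⟨i, hi⟩ := hev
    refine ⟨WithZero.exp i * vv v z, ?_⟩
    rw [← hzm, map_mul, map_pow, vv_coe, hi, mul_pow, two_mul, WithZero.exp_add,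
      sq (WithZero.exp i)]
  -- the class `m`
  have key : UnrC (vv v) m ∨ UnrC (vv v) (-m) := by
    rcases hA2 with hpar | ⟨hpar, hD0⟩
    · have hDu : UnrC (vv v) ((A : v.adicCompletion F) ^ 2 - 4 * (B : v.adicCompletion F)) := by
        have hD1 : vv v ((A : v.adicCompletion F) ^ 2 - 4 * (B : v.adicCompletion F)) = 1 := by
          obtain ⟨k, hk⟩ : ∃ k : ℤ, A = 1 + 2 * k := ⟨(A - 1) / 2, by omega⟩
          have e : (A : v.adicCompletion F) ^ 2 - 4 * (B : v.adicCompletion F) =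
              1 + 4 * ((k + k ^ 2 - B : ℤ) : v.adicCompletion F) := by
            rw [hk]; push_cast; ring
          rw [e]
          exact w_one_add (w_mul_lt_one h41 (w_int_le_one _))
        refine ⟨1, A, -B, one_ne_zero, by ring, by rw [one_pow, mul_one, hD1], w_int_le_one A, ?_⟩
        rw [Valuation.map_neg]
        exact w_int_le_one B
      rcases hm with hm | hm | ⟨hm0, y, hy⟩
      · left
        rw [hm, ← one_pow 2]
        exact UnrC.sq one_ne_zero
      · left
        rw [hm]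
        exact hDu
      · obtain ⟨k, hk⟩ : ∃ k : ℤ, B = B % 4 + 4 * k := ⟨B / 4, by omega⟩
        have hj : B % 4 = 0 ∨ B % 4 = 1 ∨ B % 4 = 2 ∨ B % 4 = 3 := by omega
        have hB4 : (B : v.adicCompletion F) = ((B % 4 : ℤ) : v.adicCompletion F) +
            4 * (k : v.adicCompletion F) := by
          conv_lhs => rw [hk]
          push_cast
          ring
        have hcases : A % 4 = 1 ∨ A % 4 = 3 := by omega
        rcases hcases with h4 | h4
        · obtain ⟨a, ha⟩ : ∃ a : ℤ, A = 1 + 4 * a := ⟨(A - 1) / 4, by omega⟩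
          refine gen_odd hens h2 (A := A) (B := B) (ε := 1) (m := a) (k := k)
            (w_int_le_one a) (by rw [ha]; push_cast; ring) (w_int_le_one k) hB4
            (Or.inl rfl) hj (fun q hq h => hres_three hp hv hodd q hq h) ?_ hm0 hy
          intro h
          exfalso
          have h5 : (1 : v.adicCompletion F) + 1 = 0 := by
            nth_rewrite 2 [h]
            ring
          norm_num at h5
        · obtain ⟨a, ha⟩ : ∃ a : ℤ, A = -1 + 4 * a := ⟨(A + 1) / 4, by omega⟩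
          refine gen_odd hens h2 (A := A) (B := B) (ε := -1) (m := a) (k := k)
            (w_int_le_one a) (by rw [ha]; push_cast; ring) (w_int_le_one k) hB4
            (Or.inr rfl) hj (fun q hq h => hres_three hp hv hodd q hq h) ?_ hm0 hy
          intro _ hj' q hq h
          exact hres_seven hp hv (hn3 h4 hj') q hq h
    · obtain ⟨a, ha⟩ : ∃ a : ℤ, A = 2 * a := ⟨A / 2, by omega⟩
      have ha2 : A / 2 = a := by omega
      rw [ha2] at hD0
      obtain ⟨D₀, hD⟩ : ∃ D₀ : ℤ, D₀ = a ^ 2 - B := ⟨_, rfl⟩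
      rw [← hD] at hD0
      have hAL : (A : v.adicCompletion F) = 2 * (a : v.adicCompletion F) := by
        rw [ha]; push_cast; ring
      have hDL : (D₀ : v.adicCompletion F) =
          (a : v.adicCompletion F) ^ 2 - (B : v.adicCompletion F) := by
        rw [hD]; push_cast; ring
      have hcase : vv v (D₀ : v.adicCompletion F) = vv v 2 ∨
          (vv v (D₀ : v.adicCompletion F) = 1 ∧
            (UnrC (vv v) (D₀ : v.adicCompletion F) ∨ UnrC (vv v) (-(D₀ : v.adicCompletion F)))) := by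
        have h5 : D₀ % 4 = 1 ∨ D₀ % 4 = 2 ∨ D₀ % 4 = 3 := by omega
        rcases h5 with h5 | h5 | h5
        · right
          obtain ⟨k, hk⟩ : ∃ k : ℤ, D₀ = 1 + 4 * k := ⟨(D₀ - 1) / 4, by omega⟩
          have e : (D₀ : v.adicCompletion F) = 1 + 4 * (k : v.adicCompletion F) := by
            rw [hk]; push_cast; ring
          refine ⟨?_, Or.inl (unr_one_add h21 e (w_int_le_one k))⟩
          rw [e]
          exact w_one_add (w_mul_lt_one h41 (w_int_le_one k))
        · left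
          obtain ⟨k, hk⟩ : ∃ k : ℤ, D₀ = 2 * (1 + 2 * k) := ⟨(D₀ - 2) / 4, by omega⟩
          have e : (D₀ : v.adicCompletion F) = 2 * (1 + 2 * (k : v.adicCompletion F)) := by
            rw [hk]; push_cast; ring
          rw [e, map_mul, w_one_add (w_mul_lt_one h21 (w_int_le_one k)), mul_one]
        · right
          obtain ⟨k, hk⟩ : ∃ k : ℤ, D₀ = -(1 + 4 * k) := ⟨-(D₀ + 1) / 4, by omega⟩
          have e : -(D₀ : v.adicCompletion F) = 1 + 4 * (k : v.adicCompletion F) := by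
            rw [hk]; push_cast; ring
          refine ⟨?_, Or.inr (unr_one_add h21 e (w_int_le_one k))⟩
          rw [← Valuation.map_neg, e]
          exact w_one_add (w_mul_lt_one h41 (w_int_le_one k))
      have hD00 : (D₀ : v.adicCompletion F) ≠ 0 := by
        have : D₀ ≠ 0 := by rintro rfl; simp at hD0
        exact_mod_cast this
      rcases hm with hm | hm | ⟨hm0, y, hy⟩
      · left
        rw [hm, ← one_pow 2]
        exact UnrC.sq one_ne_zero
      · have hm' : m = (D₀ : v.adicCompletion F) * 2 ^ 2 := by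
          rw [hm, hDL, hAL]; ring
        rcases hcase with hc | ⟨hc, hc' | hc'⟩
        · exfalso
          obtain ⟨g, hg⟩ := hbm
          rw [hm', map_mul, map_pow, hc, h2, ← pow_succ', ← WithZero.exp_nsmul] at hg
          have hg' := congrArg WithZero.log hg
          rw [WithZero.log_exp, WithZero.log_pow, nsmul_eq_mul, nsmul_eq_mul] at hg'
          push_cast at hg'
          omega
        · left
          exact hc'.of_eq two_ne_zero hm'
        · right
          refine hc'.of_eq two_ne_zero ?_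
          rw [hm']; ring
      · exact gen_even hens h2 hAL (w_int_le_one a) hDL hcase hbm hm0 hy
  rcases key with h | h
  · left
    apply UnrC.desc
    refine h.of_eq (inv_ne_zero hz) ?_
    rw [← hzm]
    field_simp
  · right
    apply UnrC.desc
    refine h.of_eq (inv_ne_zero hz) ?_
    rw [← hzm, map_neg]
    field_simp

/-- elements whose norm is a square and which are unramified up to sign at two -/
lemma fin_sq {D : ℤ} (hD : D ≠ 0) (hp2 : (Ideal.span {(2 : 𝓞 F)}).IsPrime)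
    (hcl : Odd (Nat.card (NCl F))) (hodd : Odd (Module.finrank ℚ F))
    (hbad : ∀ p : ℕ, p.Prime → (p : ℤ) ∣ D →
      ∀ v w : HeightOneSpectrum (𝓞 F), (p : 𝓞 F) ∈ v.asIdeal → (p : 𝓞 F) ∈ w.asIdeal → v = w)
    (x : Fˣ) (q : ℚ) (hq : Algebra.norm ℚ (x : F) = q ^ 2)
    (h1 : ∀ v : HeightOneSpectrum (𝓞 F), (2 : 𝓞 F) ∉ v.asIdeal → v.valuation F (D : F) = 1 →
      UnrC (v.valuation F) (x : F))
    (h2 : ∀ v : HeightOneSpectrum (𝓞 F), (2 : 𝓞 F) ∈ v.asIdeal →
      (∃ m : ℤ, v.valuation F (x : F) = WithZero.exp (2 * m)) →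
      UnrC (v.valuation F) (x : F) ∨ UnrC (v.valuation F) (-(x : F))) :
    ∃ y : Fˣ, y ^ 2 = x := by
  have hnottwo : ∀ v : HeightOneSpectrum (𝓞 F), (2 : 𝓞 F) ∉ v.asIdeal →
      UnrC (v.valuation F) (x : F) ∧ UnrC (v.valuation F) (-(x : F)) := by
    intro v hv
    have h4 : v.valuation F 4 = 1 := by
      have h3 : v.valuation F 2 = 1 := by
        have h5 : (2 : F) = algebraMap (𝓞 F) F 2 := (map_ofNat _ 2).symm
        rw [h5, HeightOneSpectrum.valuation_eq_one_iff_notMem]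
        exact hv
      rw [w_four, h3, one_mul]
    have hm1 : UnrC (v.valuation F) (-1 : F) := by
      refine UnrC.of_even one_ne_zero ?_ h4
      rw [one_pow, mul_one, Valuation.map_neg, map_one]
    have h5 : UnrC (v.valuation F) (x : F) := by
      by_cases hv' : v.valuation F (D : F) = 1
      · exact h1 v hv hv'
      · obtain ⟨p, hp, hpc, hpv⟩ := exists_prime v _ hD hv'
        have : Fact p.Prime := ⟨hp⟩
        obtain ⟨i, hi⟩ := even_of_norm (fun w hw => (hbad p hp hpc v w hpv hw).symm)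
          hodd x q hq
        obtain ⟨t, ht0, ht⟩ := exists_val v (-i)
        refine UnrC.of_even ht0 ?_ h4
        rw [map_mul, map_pow, hi, ht, ← WithZero.exp_nsmul, ← WithZero.exp_add,
          ← WithZero.exp_zero]
        congr 1
        simp only [nsmul_eq_mul]
        push_cast
        ring
    refine ⟨h5, ?_⟩
    have h6 := hm1.mul h5
    rwa [neg_one_mul] at h6
  by_cases hall : ∀ v : HeightOneSpectrum (𝓞 F), UnrC (v.valuation F) (x : F)
  · exact sq_of_unrC hcl x hall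
  · exfalso
    push Not at hall
    obtain ⟨v0, hv0⟩ := hall
    have hv02 : (2 : 𝓞 F) ∈ v0.asIdeal := by
      by_contra h
      exact hv0 (hnottwo v0 h).1
    have hev : ∃ m : ℤ, v0.valuation F (x : F) = WithZero.exp (2 * m) := by
      have : Fact (Nat.Prime 2) := ⟨Nat.prime_two⟩
      refine even_of_norm (p := 2) (fun w hw => ?_) hodd x q hq
      rw [Nat.cast_ofNat] at hw
      exact HeightOneSpectrum.ext ((two_val hp2 hw).trans (two_val hp2 hv02).symm)
    rcases h2 v0 hv02 hev with h3 | h3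
    · exact hv0 h3
    · have h4 : ∀ v : HeightOneSpectrum (𝓞 F), UnrC (v.valuation F) ((-x : Fˣ) : F) := by
        intro v
        rw [Units.val_neg]
        by_cases hv : (2 : 𝓞 F) ∈ v.asIdeal
        · have : v = v0 :=
            HeightOneSpectrum.ext ((two_val hp2 hv).trans (two_val hp2 hv02).symm)
          rw [this]
          exact h3
        · exact (hnottwo v hv).2
      obtain ⟨z, hz⟩ := sq_of_unrC hcl (-x) h4
      have h5 : (x : F) = -1 * (z : F) ^ 2 := by
        have := congrArg Units.val hz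
        rw [Units.val_pow_eq_pow_val, Units.val_neg] at this
        linear_combination this
      have h6 : Algebra.norm ℚ (-1 : F) = -1 := by
        have h7 := Algebra.norm_algebraMap (S := F) (-1 : ℚ)
        rw [map_neg, map_one, hodd.neg_one_pow] at h7
        exact h7
      rw [h5, map_mul, h6, map_pow] at hq
      have h7 : Algebra.norm ℚ (z : F) ≠ 0 := by
        rw [Ne, Algebra.norm_eq_zero_iff]
        exact z.ne_zero
      have h8 : 0 < (Algebra.norm ℚ (z : F)) ^ 2 := by positivity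
      nlinarith [sq_nonneg q]

/-- local conditions, first class -/
def L1 (A B : ℤ) (b : F) : Prop :=
  (∀ v : HeightOneSpectrum (𝓞 F), ∃ z m : v.adicCompletion F, z ≠ 0 ∧
    algebraMap F (v.adicCompletion F) b * z ^ 2 = m ∧
      S1 (A : v.adicCompletion F) (B : v.adicCompletion F) m) ∧
  ∀ v : InfinitePlace F, ∃ z m : v.Completion, z ≠ 0 ∧
    algebraMap F v.Completion b * z ^ 2 = m ∧ S1 (A : v.Completion) (B : v.Completion) m

/-- local conditions, second class -/
def L2 (A B : ℤ) (b : F) : Prop :=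
  (∀ v : HeightOneSpectrum (𝓞 F), ∃ z m : v.adicCompletion F, z ≠ 0 ∧
    algebraMap F (v.adicCompletion F) b * z ^ 2 = m ∧
      S2 (A : v.adicCompletion F) (B : v.adicCompletion F) m) ∧
  ∀ v : InfinitePlace F, ∃ z m : v.Completion, z ≠ 0 ∧
    algebraMap F v.Completion b * z ^ 2 = m ∧ S2 (A : v.Completion) (B : v.Completion) m

lemma L2_div {b : F} (hb : b ≠ 0) (hD : A ^ 2 - 4 * B ≠ 0) (h : L2 A B b) :
    L2 A B (b * ((A ^ 2 - 4 * B : ℤ) : F)) := by
  have main : ∀ (L : Type) [Field L] [CharZero L] (φ : F →+* L),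
      (∃ z m : L, z ≠ 0 ∧ φ b * z ^ 2 = m ∧ S2 (A : L) (B : L) m) →
      ∃ z m : L, z ≠ 0 ∧ φ (b * ((A ^ 2 - 4 * B : ℤ) : F)) * z ^ 2 = m ∧ S2 (A : L) (B : L) m := by
    intro L _ _ φ ⟨z, m, hz, hzm, hm⟩
    have hDL : (A : L) ^ 2 - 4 * (B : L) ≠ 0 := by exact_mod_cast hD
    obtain ⟨hm0, hm'⟩ := S2_div hDL hm
    have hbv : φ b ≠ 0 := (map_ne_zero _).2 hb
    refine ⟨(φ b * z)⁻¹, _, inv_ne_zero (mul_ne_zero hbv hz), ?_, hm'⟩
    rw [map_mul, map_intCast, ← hzm]
    push_cast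
    field_simp
  refine ⟨fun v => ?_, fun v => ?_⟩
  · have := charZero_adic v
    exact main _ (algebraMap F (v.adicCompletion F)) (h.1 v)
  · have := charZero_inf v
    exact main _ (algebraMap F v.Completion) (h.2 v)

/-- the reduction to the two classes -/
theorem keyM (hB : B ≠ 0) (hD : A ^ 2 - 4 * B ≠ 0) (hodd : Odd (Module.finrank ℚ F))
    (H1 : ∀ b : Fˣ, (∃ r : ℚ, Algebra.norm ℚ (b : F) = r ^ 2) → L1 A B (b : F) →
      ∃ y : Fˣ, y ^ 2 = b)
    (H2 : ∀ b : Fˣ, (∃ r : ℚ, Algebra.norm ℚ (b : F) = r ^ 2) → L2 A B (b : F) →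
      ∃ y : Fˣ, y ^ 2 = b)
    (e : AlgebraicClosure F ≃+* Qb) : KeyP (gc_sc (F := F) A B) e := by
  intro f hf h2 S hS hco
  have hTQ := gc_isT hB hD ℚ
  have hT := gc_isT hB hD F
  -- the first class
  obtain ⟨b, hb, hbs, hbl⟩ := exists_b1 hT hf.1 h2
  obtain ⟨r, hr⟩ := norm_b1 (gc_sc A B) e hTQ h2 hbs hS hco
  obtain ⟨y, hy⟩ := H1 (Units.mk0 b hb) ⟨r, hr⟩ (by
    refine ⟨fun v => ?_, fun v => ?_⟩
    · have := charZero_adic v
      have h3 := hbl _ (hf.2.1 v)
      rwa [map_intCast, map_intCast] at h3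
    · have := charZero_inf v
      have h3 := hbl v.Completion (hf.2.2 v)
      rwa [map_intCast, map_intCast] at h3)
  have hy' : b = (y : F) ^ 2 := by
    have := congrArg Units.val hy
    rw [Units.val_mk0, Units.val_pow_eq_pow_val] at this
    exact this.symm
  have hX : ∀ σ, IsX ((gc A B F).baseChange (AlgebraicClosure F)) 0 (f σ) := by
    intro σ
    by_contra hX
    have h3 := (hbs (algebraMap F _ (y : F)) (by rw [hy', map_pow]) σ).2 hX
    rw [AlgEquiv.commutes] at h3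
    have h4 : (2 : AlgebraicClosure F) * algebraMap F _ (y : F) = 0 := by linear_combination h3
    rcases mul_eq_zero.1 h4 with h5 | h5
    · exact two_ne_zero h5
    · rw [map_eq_zero] at h5
      exact y.ne_zero h5
  -- the second class
  obtain ⟨b', hb', hbs', hbl'⟩ := exists_b2 hT hf.1 h2 hX
  obtain ⟨r', hr'⟩ := norm_b2 (gc_sc A B) e hTQ h2 hX hbs' hS hco
  have hL2 : L2 A B b' := by
    refine ⟨fun v => ?_, fun v => ?_⟩
    · have := charZero_adic v
      have h3 := hbl' _ (hf.2.1 v)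
      rwa [map_intCast, map_intCast] at h3
    · have := charZero_inf v
      have h3 := hbl' v.Completion (hf.2.2 v)
      rwa [map_intCast, map_intCast] at h3
  have hDF : ((A : F) ^ 2 - 4 * (B : F)) = ((A ^ 2 - 4 * B : ℤ) : F) := by
    push_cast; ring
  have hDQ : ((A : ℚ) ^ 2 - 4 * (B : ℚ)) = ((A ^ 2 - 4 * B : ℤ) : ℚ) := by
    push_cast; ring
  have hDF0 : (((A ^ 2 - 4 * B : ℤ)) : F) ≠ 0 := by exact_mod_cast hD
  have hDQ0 : (((A ^ 2 - 4 * B : ℤ)) : ℚ) ≠ 0 := by exact_mod_cast hD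
  rcases hr' with hr' | hr'
  · obtain ⟨z, hz⟩ := H2 (Units.mk0 b' hb') ⟨r', hr'⟩ hL2
    have hz' : b' = (z : F) ^ 2 := by
      have := congrArg Units.val hz
      rw [Units.val_mk0, Units.val_pow_eq_pow_val] at this
      exact this.symm
    refine ⟨0, add_zero 0, fun σ => ?_⟩
    rw [map_zero, sub_zero]
    by_contra hne
    have h3 := (hbs' (algebraMap F _ (z : F)) (by rw [hz', map_pow]) σ).2 hne
    rw [AlgEquiv.commutes] at h3
    have h4 : (2 : AlgebraicClosure F) * algebraMap F _ (z : F) = 0 := by linear_combination h3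
    rcases mul_eq_zero.1 h4 with h5 | h5
    · exact two_ne_zero h5
    · rw [map_eq_zero] at h5
      exact z.ne_zero h5
  · obtain ⟨n, hn⟩ := id hodd
    have hnorm : Algebra.norm ℚ ((Units.mk0 (b' * ((A ^ 2 - 4 * B : ℤ) : F))
        (mul_ne_zero hb' hDF0) : Fˣ) : F) = (r' * ((A ^ 2 - 4 * B : ℤ) : ℚ) ^ n) ^ 2 := by
      have h3 : Algebra.norm ℚ (((A ^ 2 - 4 * B : ℤ)) : F) =
          ((A ^ 2 - 4 * B : ℤ) : ℚ) ^ Module.finrank ℚ F := by
        have := Algebra.norm_algebraMap (S := F) (((A ^ 2 - 4 * B : ℤ)) : ℚ)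
        rwa [map_intCast] at this
      rw [Units.val_mk0, map_mul, h3, hn, mul_pow, ← hr', hDQ]
      ring
    obtain ⟨z, hz⟩ := H2 (Units.mk0 (b' * ((A ^ 2 - 4 * B : ℤ) : F))
      (mul_ne_zero hb' hDF0)) ⟨_, hnorm⟩ (L2_div hb' hD hL2)
    have hz' : b' * ((A ^ 2 - 4 * B : ℤ) : F) = (z : F) ^ 2 := by
      have := congrArg Units.val hz
      rw [Units.val_mk0, Units.val_pow_eq_pow_val] at this
      exact this.symm
    obtain ⟨R, hR, hRX⟩ := exists_tors hT
    obtain ⟨g, hg, hgσ⟩ := tors_g hT hR hRX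
    rw [hDF] at hg
    have hg0 : g ≠ 0 := by
      rintro rfl
      rw [zero_pow two_ne_zero, eq_comm, map_eq_zero] at hg
      exact hDF0 hg
    have hsq : (algebraMap F _ (z : F) / g) ^ 2 = algebraMap F (AlgebraicClosure F) b' := by
      rw [div_pow, ← map_pow, ← hz', hg, map_mul]
      exact mul_div_cancel_right₀ _ ((map_ne_zero _).2 hDF0)
    have hz0 : algebraMap F (AlgebraicClosure F) (z : F) ≠ 0 := (map_ne_zero _).2 z.ne_zero
    refine ⟨R, hR, fun σ => ?_⟩
    have h3 := hbs' _ hsq σ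
    rw [map_div₀, AlgEquiv.commutes] at h3
    have hRσ : (act (gc A B F) σ.toAlgHom R - R) + (act (gc A B F) σ.toAlgHom R - R) = 0 := by
      have h4 : (act (gc A B F) σ.toAlgHom R - R) + (act (gc A B F) σ.toAlgHom R - R) =
          act (gc A B F) σ.toAlgHom (R + R) - (R + R) := by rw [map_add]; abel
      rw [h4, hR, map_zero, sub_zero]
    by_cases h5 : f σ = 0
    · have h6 := h3.1 h5
      have h7 : act (gc A B F) σ.toAlgHom R = R := by
        by_contra h7
        rw [(hgσ σ).2 h7] at h6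
        have h8 : (2 : AlgebraicClosure F) * (algebraMap F _ (z : F) / g) = 0 := by
          rw [div_neg] at h6
          linear_combination -h6
        rcases mul_eq_zero.1 h8 with h9 | h9
        · exact two_ne_zero h9
        · exact (div_ne_zero hz0 hg0) h9
      rw [h5, h7, sub_self]
    · have h6 := h3.2 h5
      have h7 : act (gc A B F) σ.toAlgHom R ≠ R := by
        intro h7
        rw [(hgσ σ).1 h7] at h6
        have h8 : (2 : AlgebraicClosure F) * (algebraMap F _ (z : F) / g) = 0 := by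
          linear_combination h6
        rcases mul_eq_zero.1 h8 with h9 | h9
        · exact two_ne_zero h9
        · exact (div_ne_zero hz0 hg0) h9
      exact isX_ext hT (h2 σ) hRσ (hX σ) (isX_sub hT hR σ) h5 (fun h => h7 (sub_eq_zero.1 h))

/-- the first class of a pair of the first type -/
lemma first_sq (hB : 0 < B) (hA : A < 0 ∨ A ^ 2 < 4 * B)
    (hp2 : (Ideal.span {(2 : 𝓞 F)}).IsPrime)
    (hcl : Odd (Nat.card (NCl F))) (hodd : Odd (Module.finrank ℚ F))
    (hbad : ∀ p : ℕ, p.Prime → (p : ℤ) ∣ B →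
      ∀ v w : HeightOneSpectrum (𝓞 F), (p : 𝓞 F) ∈ v.asIdeal → (p : 𝓞 F) ∈ w.asIdeal → v = w)
    (b : Fˣ) (hr : ∃ r : ℚ, Algebra.norm ℚ (b : F) = r ^ 2) (hL : L1 A B (b : F)) :
    ∃ y : Fˣ, y ^ 2 = b := by
  obtain ⟨r, hr⟩ := hr
  have hbad' : ∀ p : ℕ, p.Prime → (p : ℤ) ∣ 2 * B →
      ∀ v w : HeightOneSpectrum (𝓞 F), (p : 𝓞 F) ∈ v.asIdeal → (p : 𝓞 F) ∈ w.asIdeal → v = w := by
    intro p hp hpn v w hv hw
    rcases (Nat.prime_iff_prime_int.1 hp).dvd_or_dvd hpn with h | h
    · have h3 : p = 2 := by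
        have h4 : p ∣ 2 := by exact_mod_cast h
        exact (Nat.prime_dvd_prime_iff_eq hp Nat.prime_two).1 h4
      rw [h3, Nat.cast_ofNat] at hv hw
      exact HeightOneSpectrum.ext ((two_val hp2 hv).trans (two_val hp2 hw).symm)
    · exact hbad p hp h v w hv hw
  have h2B0 : (2 * B : ℤ) ≠ 0 := mul_ne_zero two_ne_zero hB.ne'
  have hAF : (A : F) = 1 ^ 2 + 4 * (((A : F) - 1) / 4) := by
    field_simp
    ring
  have hBF : (B : F) = 16 * ((B : F) / 16) := by
    field_simp
  have hpos : TotPos (b : F) := by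
    intro φ
    have hB' : 0 < φ (B : F) := by
      rw [map_intCast]
      exact_mod_cast hB
    refine pos_b1 (A := (A : F)) (B := (B : F)) (fun v => ?_) φ hB' ?_
    · rw [map_intCast, map_intCast]
      exact hL.2 v
    · rw [map_intCast, map_intCast]
      rcases hA with h | h
      · left; exact_mod_cast h
      · right; exact_mod_cast h
  have heven : ∀ v : HeightOneSpectrum (𝓞 F), ∃ m : ℤ,
      v.valuation F (b : F) = WithZero.exp (2 * m) := by
    intro v
    by_cases hv : v.valuation F ((2 * B : ℤ) : F) = 1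
    · have h3 : v.valuation F 2 * v.valuation F (B : F) = 1 := by
        rw [← map_mul, ← hv]; push_cast; rfl
      have h4 : v.valuation F 2 ≤ 1 := w_two_le _
      have h5 : v.valuation F (B : F) ≤ 1 := val_int_le v B
      have h6 : v.valuation F 2 = 1 := by
        apply le_antisymm h4
        rw [← h3]
        exact mul_le_of_le_one_right' h5
      have h7 : v.valuation F (B : F) = 1 := by rwa [h6, one_mul] at h3
      have h8 : v.valuation F 4 = 1 := by rw [w_four, h6, one_mul]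
      have h9 : v.valuation F 16 = 1 := by
        have : (16 : F) = 4 * 4 := by norm_num
        rw [this, map_mul, h8, one_mul]
      refine even_b1 b.ne_zero v (A := (A : F)) (B := (B : F)) ?_ hAF (map_one _).le ?_ hBF ?_
      · rw [map_intCast, map_intCast]
        exact hL.1 v
      · rw [map_div₀, h8, div_one]
        have h7 : (A : F) - 1 = ((A - 1 : ℤ) : F) := by push_cast; ring
        rw [h7]
        exact val_int_le v _
      · rw [map_div₀, h9, div_one, h7]
    · obtain ⟨p, hp, hpc, hpv⟩ := exists_prime v _ h2B0 hv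
      have : Fact p.Prime := ⟨hp⟩
      exact even_of_norm (fun w hw => (hbad' p hp hpc v w hpv hw).symm) hodd b r hr
  obtain ⟨y, hy⟩ := elt_sq hcl b hpos heven
  exact ⟨y, hy.symm⟩

/-- the second class of a pair of the first type -/
lemma second_sq (hD : A ^ 2 - 4 * B ≠ 0)
    (hA2 : A % 2 = 1 ∨ (A % 2 = 0 ∧ ((A / 2) ^ 2 - B) % 4 ≠ 0))
    (hn3 : A % 4 = 3 → (B % 4 = 2 ∨ B % 4 = 3) → ¬ 3 ∣ Module.finrank ℚ F)
    (hp2 : (Ideal.span {(2 : 𝓞 F)}).IsPrime)
    (hcl : Odd (Nat.card (NCl F))) (hodd : Odd (Module.finrank ℚ F))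
    (hbad : ∀ p : ℕ, p.Prime → (p : ℤ) ∣ A ^ 2 - 4 * B →
      ∀ v w : HeightOneSpectrum (𝓞 F), (p : 𝓞 F) ∈ v.asIdeal → (p : 𝓞 F) ∈ w.asIdeal → v = w)
    (b : Fˣ) (hr : ∃ r : ℚ, Algebra.norm ℚ (b : F) = r ^ 2) (hL : L2 A B (b : F)) :
    ∃ y : Fˣ, y ^ 2 = b := by
  obtain ⟨r, hr⟩ := hr
  have hAF : (A : F) = 1 ^ 2 + 4 * (((A : F) - 1) / 4) := by
    field_simp
    ring
  have hBF : (B : F) = 16 * ((B : F) / 16) := by
    field_simp
  have hDF : ((A : F) ^ 2 - 4 * (B : F)) = ((A ^ 2 - 4 * B : ℤ) : F) := by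
    push_cast; ring
  have hL' : ∀ v : HeightOneSpectrum (𝓞 F), ∃ z m : v.adicCompletion F, z ≠ 0 ∧
      algebraMap F (v.adicCompletion F) b * z ^ 2 = m ∧
      S2 (algebraMap F (v.adicCompletion F) (A : F))
        (algebraMap F (v.adicCompletion F) (B : F)) m := by
    intro v
    rw [map_intCast, map_intCast]
    exact hL.1 v
  refine fin_sq hD hp2 hcl hodd hbad b r hr ?_ ?_
  · intro v hv hvD
    have h3 : v.valuation F 2 = 1 := by
      have h5 : (2 : F) = algebraMap (𝓞 F) F 2 := (map_ofNat _ 2).symm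
      rw [h5, HeightOneSpectrum.valuation_eq_one_iff_notMem]
      exact hv
    have h8 : v.valuation F 4 = 1 := by rw [w_four, h3, one_mul]
    have h9 : v.valuation F 16 = 1 := by
      have : (16 : F) = 4 * 4 := by norm_num
      rw [this, map_mul, h8, one_mul]
    refine unr_b2 v (hL' v) hAF (map_one _).le ?_ hBF ?_ (by rw [hDF, hvD])
    · rw [map_div₀, h8, div_one]
      have h7 : (A : F) - 1 = ((A - 1 : ℤ) : F) := by push_cast; ring
      rw [h7]
      exact val_int_le v _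
    · rw [map_div₀, h9, div_one]
      exact val_int_le v B
  · intro v hv hev
    exact two_bg hp2 hv hodd hA2 hn3 hev (hL' v)

/-- the key lemma, pairs of the first type -/
theorem keyG (hB : 0 < B) (hA : A < 0 ∨ A ^ 2 < 4 * B) (hD : A ^ 2 - 4 * B ≠ 0)
    (hA2 : A % 2 = 1 ∨ (A % 2 = 0 ∧ ((A / 2) ^ 2 - B) % 4 ≠ 0))
    (hn3 : A % 4 = 3 → (B % 4 = 2 ∨ B % 4 = 3) → ¬ 3 ∣ Module.finrank ℚ F)
    (hp2 : (Ideal.span {(2 : 𝓞 F)}).IsPrime)
    (hcl : Odd (Nat.card (NCl F))) (hodd : Odd (Module.finrank ℚ F))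
    (hbad : ∀ p : ℕ, p.Prime → (p : ℤ) ∣ B * (A ^ 2 - 4 * B) →
      ∀ v w : HeightOneSpectrum (𝓞 F), (p : 𝓞 F) ∈ v.asIdeal → (p : 𝓞 F) ∈ w.asIdeal → v = w)
    (e : AlgebraicClosure F ≃+* Qb) : KeyP (gc_sc (F := F) A B) e :=
  keyM hB.ne' hD hodd
    (fun b hr hL => first_sq hB hA hp2 hcl hodd (fun p hp h => hbad p hp (h.mul_right _)) b hr hL)
    (fun b hr hL => second_sq hD hA2 hn3 hp2 hcl hodd
      (fun p hp h => hbad p hp (h.mul_left _)) b hr hL) e

/-- the first class of the isogenous curve -/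
lemma L1_dual {a c : ℤ} {b : F} (h : L1 (-2 * a) (a ^ 2 - 4 * c) b) : L2 a c b := by
  have main : ∀ (L : Type) [Field L] [CharZero L] (φ : F →+* L),
      (∃ z m : L, z ≠ 0 ∧ φ b * z ^ 2 = m ∧
        S1 ((-2 * a : ℤ) : L) ((a ^ 2 - 4 * c : ℤ) : L) m) →
      ∃ z m : L, z ≠ 0 ∧ φ b * z ^ 2 = m ∧ S2 (a : L) (c : L) m := by
    intro L _ _ φ ⟨z, m, hz, hzm, hm⟩
    refine ⟨z, m, hz, hzm, ?_⟩
    rcases hm with hm | hm | ⟨hm, y, hy⟩
    · exact Or.inl hm
    · exact Or.inr (Or.inl (by rw [hm]; push_cast; ring))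
    · refine Or.inr (Or.inr ⟨hm, y, ?_⟩)
      rw [hy]
      push_cast
      ring
  refine ⟨fun v => ?_, fun v => ?_⟩
  · have := charZero_adic v
    exact main _ (algebraMap F (v.adicCompletion F)) (h.1 v)
  · have := charZero_inf v
    exact main _ (algebraMap F v.Completion) (h.2 v)

/-- the second class of the isogenous curve -/
lemma L2_dual {a c : ℤ} {b : F} (h : L2 (-2 * a) (a ^ 2 - 4 * c) b) : L1 a c b := by
  have main : ∀ (L : Type) [Field L] [CharZero L] (φ : F →+* L),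
      (∃ z m : L, z ≠ 0 ∧ φ b * z ^ 2 = m ∧
        S2 ((-2 * a : ℤ) : L) ((a ^ 2 - 4 * c : ℤ) : L) m) →
      ∃ z m : L, z ≠ 0 ∧ φ b * z ^ 2 = m ∧ S1 (a : L) (c : L) m := by
    intro L _ _ φ ⟨z, m, hz, hzm, hm⟩
    rcases hm with hm | hm | ⟨hm, y, hy⟩
    · exact ⟨z, m, hz, hzm, Or.inl hm⟩
    · refine ⟨z / 4, (c : L), div_ne_zero hz (by norm_num), ?_, Or.inr (Or.inl rfl)⟩
      rw [div_pow, ← mul_div_assoc, hzm, hm]
      push_cast
      ring
    · refine ⟨z / 2, m / 4, div_ne_zero hz (by norm_num), ?_,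
        Or.inr (Or.inr ⟨div_ne_zero hm (by norm_num), y / 8, ?_⟩)⟩
      · rw [div_pow, ← mul_div_assoc, hzm]
        norm_num
      · rw [div_pow, hy]
        push_cast
        ring
  refine ⟨fun v => ?_, fun v => ?_⟩
  · have := charZero_adic v
    exact main _ (algebraMap F (v.adicCompletion F)) (h.1 v)
  · have := charZero_inf v
    exact main _ (algebraMap F v.Completion) (h.2 v)

/-- the key lemma, the curves isogenous to those of the first type -/
theorem keyG' {a c : ℤ} (hc : 0 < c) (ha : a < 0 ∨ a ^ 2 < 4 * c) (hD : a ^ 2 - 4 * c ≠ 0)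
    (ha2 : a % 2 = 1 ∨ (a % 2 = 0 ∧ ((a / 2) ^ 2 - c) % 4 ≠ 0))
    (hn3 : a % 4 = 3 → (c % 4 = 2 ∨ c % 4 = 3) → ¬ 3 ∣ Module.finrank ℚ F)
    (hp2 : (Ideal.span {(2 : 𝓞 F)}).IsPrime)
    (hcl : Odd (Nat.card (NCl F))) (hodd : Odd (Module.finrank ℚ F))
    (hbad : ∀ p : ℕ, p.Prime → (p : ℤ) ∣ c * (a ^ 2 - 4 * c) →
      ∀ v w : HeightOneSpectrum (𝓞 F), (p : 𝓞 F) ∈ v.asIdeal → (p : 𝓞 F) ∈ w.asIdeal → v = w)
    (e : AlgebraicClosure F ≃+* Qb) :
    KeyP (gc_sc (F := F) (-2 * a) (a ^ 2 - 4 * c)) e := by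
  have hD' : (-2 * a) ^ 2 - 4 * (a ^ 2 - 4 * c) ≠ 0 := by
    have : (-2 * a) ^ 2 - 4 * (a ^ 2 - 4 * c) = 16 * c := by ring
    rw [this]
    positivity
  exact keyM hD hD' hodd
    (fun b hr hL => second_sq hD ha2 hn3 hp2 hcl hodd
      (fun p hp h => hbad p hp (h.mul_left _)) b hr (L1_dual hL))
    (fun b hr hL => first_sq hc ha hp2 hcl hodd
      (fun p hp h => hbad p hp (h.mul_right _)) b hr (L2_dual hL)) e

end key

end Pool.Agent.Y682
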