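import Mathlib
import Pool.Agent.Y682.KC

/-!
# Local images at primes of twisted type
-/

set_option autoImplicit false
set_option linter.unusedSectionVars false

open NumberField IsDedekindDomain

namespace Pool.Agent.Y682

section

variable {L : Type} [Field L] {w : Valuation L (WithZero (Multiplicative ℤ))}

/-- points on a twist have even abscissa -/
lemma even_tw {d p q m y : L} (hd : d ≠ 0) (hp : w p ≤ 1) (hq1 : w q ≤ 1)
    (hq : ∀ x, w x ≤ 1 → w (x ^ 2 + p * x + q) = 1) (hm : m ≠ 0)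
    (h : y ^ 2 = m * (m ^ 2 + d * p * m + d ^ 2 * q)) : ∃ g, w m = g ^ 2 := by
  obtain ⟨μ, hμ⟩ : ∃ μ : L, μ = m / d := ⟨_, rfl⟩
  have hm' : m = d * μ := by rw [hμ]; field_simp
  have hwd : w d ≠ 0 := (Valuation.ne_zero_iff _).2 hd
  have hwm : w m ≠ 0 := (Valuation.ne_zero_iff _).2 hm
  rcases le_or_gt (w μ) 1 with h1 | h1
  · refine ⟨w y / w d, ?_⟩
    have h2 : y ^ 2 = m * (d ^ 2 * (μ ^ 2 + p * μ + q)) := by
      rw [h]
      congr 1
      rw [hm']
      ring
    have h3 := congrArg w h2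
    rw [map_pow, map_mul, map_mul, map_pow, hq μ h1, mul_one] at h3
    rw [div_pow, h3, mul_div_assoc, div_self (pow_ne_zero 2 hwd), mul_one]
  · refine ⟨w y / w m, ?_⟩
    have h0 : 0 < w μ := lt_trans one_pos h1
    have h4 : w μ < w μ ^ 2 := by
      rw [sq]
      exact lt_mul_of_one_lt_left h0 h1
    have h5 : w (p * μ + q) < w (μ ^ 2) := by
      rw [map_pow]
      refine lt_of_le_of_lt (Valuation.map_add _ _ _) (max_lt ?_ ?_)
      · rw [map_mul]
        exact lt_of_le_of_lt (mul_le_of_le_one_left' hp) h4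
      · exact lt_of_le_of_lt hq1 (lt_trans h1 h4)
    have h6 : w (μ ^ 2 + p * μ + q) = w μ ^ 2 := by
      rw [add_assoc, Valuation.map_add_eq_of_lt_left _ h5, map_pow]
    have h2 : y ^ 2 = m * (d ^ 2 * (μ ^ 2 + p * μ + q)) := by
      rw [h]
      congr 1
      rw [hm']
      ring
    have h3 := congrArg w h2
    rw [map_pow, map_mul, map_mul, map_pow, h6, ← mul_pow, ← map_mul, ← hm'] at h3
    rw [div_pow, h3, mul_div_assoc, div_self (pow_ne_zero 2 hwm), mul_one]

end

section

variable {F : Type} [Field F] [NumberField F]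

/-- the pair `(A, B)` is a twist of a pair `(α, β)` such that `β` and `α² - 4β` are not squares
modulo `v` -/
def Tw (v : HeightOneSpectrum (𝓞 F)) (A B : F) : Prop :=
  v.valuation F 2 = 1 ∧ ∃ d α β : F, d ≠ 0 ∧ A = d * α ∧ B = d ^ 2 * β ∧
    v.valuation F α ≤ 1 ∧ v.valuation F β ≤ 1 ∧
    (∀ x : F, v.valuation F x ≤ 1 → v.valuation F (x ^ 2 - β) = 1) ∧
    ∀ x : F, v.valuation F x ≤ 1 → v.valuation F (x ^ 2 - (α ^ 2 - 4 * β)) = 1

/-- nonsquares stay nonsquares in the completion -/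
lemma nsq_completion {v : HeightOneSpectrum (𝓞 F)} {β : F}
    (h : ∀ x : F, v.valuation F x ≤ 1 → v.valuation F (x ^ 2 - β) = 1)
    (X : v.adicCompletion F) (hX : vv v X ≤ 1) :
    vv v (X ^ 2 - algebraMap F _ β) = 1 := by
  obtain ⟨x, hx⟩ := exists_approx v X 1 one_ne_zero
  have hx1 : vv v (algebraMap F _ x) ≤ 1 := by
    have e : algebraMap F (v.adicCompletion F) x = (algebraMap F _ x - X) + X := by ring
    rw [e]
    exact (Valuation.map_add _ _ _).trans (max_le hx.le hX)
  have h1 : vv v (algebraMap F _ x ^ 2 - algebraMap F _ β) = 1 := by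
    rw [← map_pow, ← map_sub, vv_coe]
    exact h x (by rw [← vv_coe]; exact hx1)
  have e : X ^ 2 - algebraMap F _ β = (algebraMap F _ x ^ 2 - algebraMap F _ β) +
      (algebraMap F _ x - X) * (-(algebraMap F _ x + X)) := by ring
  rw [e, Valuation.map_add_eq_of_lt_left _ ?_, h1]
  rw [h1, map_mul]
  refine mul_lt_one_of_nonneg_of_lt_one_left zero_le hx ?_
  rw [Valuation.map_neg]
  exact (Valuation.map_add _ _ _).trans (max_le hx1 hX)

variable {A B : F}

/-- evenness of the first class -/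
lemma even_b1_tw {b : F} (hb : b ≠ 0) (v : HeightOneSpectrum (𝓞 F))
    (hloc : ∃ z m : v.adicCompletion F, z ≠ 0 ∧
      algebraMap F (v.adicCompletion F) b * z ^ 2 = m ∧
        S1 (algebraMap F (v.adicCompletion F) A) (algebraMap F (v.adicCompletion F) B) m)
    (h : Tw v A B) : ∃ n : ℤ, v.valuation F b = WithZero.exp (2 * n) := by
  have := charZero_adic v
  obtain ⟨h2, d, α, β, hd, hA, hB, hα, hβ, hβn, hDn⟩ := h
  obtain ⟨z, m, hz, hzm, hm⟩ := hloc
  apply exists_exp hb
  have hvz : vv v z ≠ 0 := (Valuation.ne_zero_iff _).2 hz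
  have hd' : algebraMap F (v.adicCompletion F) d ≠ 0 := (map_ne_zero _).2 hd
  have h2' : vv v 2 = 1 := by
    have e : (2 : v.adicCompletion F) = algebraMap F _ 2 := (map_ofNat _ 2).symm
    rw [e, vv_coe, h2]
  have h4' : vv v 4 = 1 := by rw [w_four, h2', one_mul]
  have h1 : ∃ g, vv v m = g ^ 2 := by
    rcases hm with h | h | ⟨h, y, hy⟩
    · exact ⟨1, by rw [h, map_one, one_pow]⟩
    · refine ⟨vv v (algebraMap F _ d), ?_⟩
      have h5 := hβn 0 (by rw [map_zero]; exact zero_le)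
      rw [zero_pow two_ne_zero, zero_sub, Valuation.map_neg] at h5
      rw [h, hB, map_mul, map_mul, vv_coe v β, h5, mul_one, map_pow, map_pow]
    · refine even_tw (w := vv v) (d := algebraMap F _ d) (p := algebraMap F _ α)
        (q := algebraMap F _ β) hd' (by rw [vv_coe]; exact hα) (by rw [vv_coe]; exact hβ) ?_ h
        (y := y) ?_
      · intro x hx
        have h5 := nsq_completion hDn (2 * x + algebraMap F _ α) (by
          refine (Valuation.map_add _ _ _).trans (max_le ?_ ?_)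
          · rw [map_mul, h2', one_mul]; exact hx
          · rw [vv_coe]; exact hα)
        have e : (2 * x + algebraMap F _ α) ^ 2 - algebraMap F _ (α ^ 2 - 4 * β) =
            4 * (x ^ 2 + algebraMap F (v.adicCompletion F) α * x + algebraMap F _ β) := by
          rw [map_sub, map_pow, map_mul, map_ofNat]
          ring
        rwa [e, map_mul, h4', one_mul] at h5
      · rw [hy, hA, hB, map_mul, map_mul, map_pow]
  obtain ⟨g, hg⟩ := h1
  refine ⟨g / vv v z, ?_⟩
  rw [← hzm, map_mul, map_pow, vv_coe] at hg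
  rw [div_pow, ← hg]
  field_simp

/-- evenness of the second class -/
lemma even_b2_tw {b : F} (hb : b ≠ 0) (v : HeightOneSpectrum (𝓞 F))
    (hloc : ∃ z m : v.adicCompletion F, z ≠ 0 ∧
      algebraMap F (v.adicCompletion F) b * z ^ 2 = m ∧
        S2 (algebraMap F (v.adicCompletion F) A) (algebraMap F (v.adicCompletion F) B) m)
    (h : Tw v A B) : ∃ n : ℤ, v.valuation F b = WithZero.exp (2 * n) := by
  have := charZero_adic v
  obtain ⟨h2, d, α, β, hd, hA, hB, hα, hβ, hβn, hDn⟩ := h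
  obtain ⟨z, m, hz, hzm, hm⟩ := hloc
  apply exists_exp hb
  have hvz : vv v z ≠ 0 := (Valuation.ne_zero_iff _).2 hz
  have hd' : algebraMap F (v.adicCompletion F) d ≠ 0 := (map_ne_zero _).2 hd
  have h2' : vv v 2 = 1 := by
    have e : (2 : v.adicCompletion F) = algebraMap F _ 2 := (map_ofNat _ 2).symm
    rw [e, vv_coe, h2]
  have h4' : vv v 4 = 1 := by rw [w_four, h2', one_mul]
  have h5 := hDn 0 (by rw [map_zero]; exact zero_le)
  rw [zero_pow two_ne_zero, zero_sub, Valuation.map_neg] at h5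
  have h1 : ∃ g, vv v m = g ^ 2 := by
    rcases hm with h | h | ⟨h, y, hy⟩
    · exact ⟨1, by rw [h, map_one, one_pow]⟩
    · refine ⟨vv v (algebraMap F _ d), ?_⟩
      have e : m = algebraMap F _ d ^ 2 * algebraMap F _ (α ^ 2 - 4 * β) := by
        rw [h, hA, hB]
        simp only [map_mul, map_sub, map_pow, map_ofNat]
        ring
      rw [e, map_mul, vv_coe v (α ^ 2 - 4 * β), h5, mul_one, map_pow]
    · refine even_tw (w := vv v) (d := algebraMap F _ d) (p := algebraMap F _ (-2 * α))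
        (q := algebraMap F _ (α ^ 2 - 4 * β)) hd' ?_ (by rw [vv_coe, h5]) ?_ h
        (y := y) ?_
      · rw [vv_coe, map_mul, Valuation.map_neg, h2, one_mul]
        exact hα
      · intro x hx
        have h6 := nsq_completion hβn ((x - algebraMap F _ α) / 2) (by
          rw [map_div₀, h2', div_one]
          refine (Valuation.map_sub _ _ _).trans (max_le hx ?_)
          rw [vv_coe]; exact hα)
        have e : x ^ 2 + algebraMap F (v.adicCompletion F) (-2 * α) * x +
            algebraMap F _ (α ^ 2 - 4 * β) =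
            4 * (((x - algebraMap F _ α) / 2) ^ 2 - algebraMap F _ β) := by
          simp only [map_mul, map_sub, map_pow, map_ofNat, map_neg]
          ring
        rw [e, map_mul, h4', one_mul, h6]
      · rw [hy, hA, hB]
        simp only [map_mul, map_sub, map_pow, map_ofNat, map_neg]
        ring
  obtain ⟨g, hg⟩ := h1
  refine ⟨g / vv v z, ?_⟩
  rw [← hzm, map_mul, map_pow, vv_coe] at hg
  rw [div_pow, ← hg]
  field_simp

/-- an element of even valuation is unramified outside two -/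
lemma unr_of_exp {b : F} {v : HeightOneSpectrum (𝓞 F)} (h2 : v.valuation F 2 = 1)
    (h : ∃ n : ℤ, v.valuation F b = WithZero.exp (2 * n)) : UnrC (v.valuation F) b := by
  obtain ⟨i, hi⟩ := h
  obtain ⟨t, ht0, ht⟩ := exists_val v (-i)
  refine UnrC.of_even ht0 ?_ (by rw [w_four, h2, one_mul])
  rw [map_mul, map_pow, hi, ht, ← WithZero.exp_nsmul, ← WithZero.exp_add, ← WithZero.exp_zero]
  congr 1
  simp only [nsmul_eq_mul]
  push_cast
  ring

/-- the property for the isogenous curve -/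
lemma Tw.dual {v : HeightOneSpectrum (𝓞 F)} (h : Tw v A B) :
    Tw v (-(A / 2)) ((A ^ 2 - 4 * B) / 16) := by
  obtain ⟨h2, d, α, β, hd, hA, hB, hα, hβ, hβn, hDn⟩ := h
  have h4 : v.valuation F 4 = 1 := by rw [w_four, h2, one_mul]
  have h16 : v.valuation F 16 = 1 := by
    have : (16 : F) = 4 * 4 := by norm_num
    rw [this, map_mul, h4, one_mul]
  have h5 := hDn 0 (by rw [map_zero]; exact zero_le)
  rw [zero_pow two_ne_zero, zero_sub, Valuation.map_neg] at h5
  refine ⟨h2, d, -(α / 2), (α ^ 2 - 4 * β) / 16, hd, ?_, ?_, ?_, ?_, ?_, ?_⟩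
  · rw [hA]; ring
  · rw [hA, hB]; ring
  · rw [Valuation.map_neg, map_div₀, h2, div_one]; exact hα
  · rw [map_div₀, h16, div_one, h5]
  · intro x hx
    have e : x ^ 2 - (α ^ 2 - 4 * β) / 16 = ((4 * x) ^ 2 - (α ^ 2 - 4 * β)) / 16 := by ring
    rw [e, map_div₀, h16, div_one]
    exact hDn _ (by rw [map_mul, h4, one_mul]; exact hx)
  · intro x hx
    have e : x ^ 2 - ((-(α / 2)) ^ 2 - 4 * ((α ^ 2 - 4 * β) / 16)) = x ^ 2 - β := by ring
    rw [e]
    exact hβn x hx

end

section

variable {F : Type} [Field F] [NumberField F]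

lemma val_two {v : HeightOneSpectrum (𝓞 F)} (hv : (2 : 𝓞 F) ∉ v.asIdeal) :
    v.valuation F 2 = 1 := by
  have h5 : (2 : F) = algebraMap (𝓞 F) F 2 := (map_ofNat _ 2).symm
  rw [h5, HeightOneSpectrum.valuation_eq_one_iff_notMem]
  exact hv

/-- a nonsquare modulo `v` -/
lemma nsq_of_int {v : HeightOneSpectrum (𝓞 F)} {β : ℤ}
    (h : ∀ x : 𝓞 F, x ^ 2 - (β : 𝓞 F) ∉ v.asIdeal) (x : F) (hx : v.valuation F x ≤ 1) :
    v.valuation F (x ^ 2 - (β : F)) = 1 := by
  obtain ⟨a, ha⟩ := exists_int_approx v (algebraMap F _ x) (by rw [vv_coe]; exact hx)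
  have ha' : v.valuation F (algebraMap (𝓞 F) F a - x) < 1 := by
    rw [← vv_coe, map_sub]
    exact ha
  have ha1 : v.valuation F (algebraMap (𝓞 F) F a) ≤ 1 := v.valuation_le_one a
  have h1 : v.valuation F (algebraMap (𝓞 F) F (a ^ 2 - (β : 𝓞 F))) = 1 :=
    (HeightOneSpectrum.valuation_eq_one_iff_notMem v).2 (h a)
  rw [map_sub, map_pow, map_intCast] at h1
  have e : x ^ 2 - (β : F) = (algebraMap (𝓞 F) F a ^ 2 - (β : F)) +
      (algebraMap (𝓞 F) F a - x) * (-(algebraMap (𝓞 F) F a + x)) := by ring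
  rw [e, Valuation.map_add_eq_of_lt_left _ ?_, h1]
  rw [h1, map_mul]
  refine mul_lt_one_of_nonneg_of_lt_one_left zero_le ha' ?_
  rw [Valuation.map_neg]
  exact (Valuation.map_add _ _ _).trans (max_le ha1 hx)

/-- from integers -/
lemma Tw.of_int {v : HeightOneSpectrum (𝓞 F)} {A B d α β : ℤ} (hv : (2 : 𝓞 F) ∉ v.asIdeal)
    (hd : d ≠ 0) (hA : A = d * α) (hB : B = d ^ 2 * β)
    (h1 : ∀ x : 𝓞 F, x ^ 2 - (β : 𝓞 F) ∉ v.asIdeal)
    (h2 : ∀ x : 𝓞 F, x ^ 2 - ((α ^ 2 - 4 * β : ℤ) : 𝓞 F) ∉ v.asIdeal) :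
    Tw v (A : F) (B : F) := by
  refine ⟨val_two hv, d, α, β, by exact_mod_cast hd, by rw [hA]; push_cast; ring,
    by rw [hB]; push_cast; ring, val_int_le v α, val_int_le v β, nsq_of_int h1, ?_⟩
  intro x hx
  have := nsq_of_int h2 x hx
  push_cast at this
  exact this

end

end Pool.Agent.Y682
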