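import Mathlib
import Pool.Agent.Y682.KG
import Pool.Agent.Y682.TwL

/-!
# The key lemma, refined form
-/

set_option autoImplicit false
set_option linter.unusedSectionVars false

attribute [-instance] DivisionRing.toRatAlgebra

open NumberField IsDedekindDomain

namespace Pool.Agent.Y682

open WeierstrassCurve

open Pool.Agent.TH841.NF

section key

variable {F : Type} [Field F] [NumberField F] [IsTotallyReal F] [Algebra ℚ F]
  [FiniteDimensional ℚ F] {A B : ℤ}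

/-- `v` is the only place over some rational prime -/
def Un (v : HeightOneSpectrum (𝓞 F)) : Prop :=
  ∃ p : ℕ, p.Prime ∧ (p : 𝓞 F) ∈ v.asIdeal ∧
    ∀ w : HeightOneSpectrum (𝓞 F), (p : 𝓞 F) ∈ w.asIdeal → w = v

/-- the pair `(A, B)` is of the form `(s² + 4u, 16C)` at `v` -/
def Gd (v : HeightOneSpectrum (𝓞 F)) (A B : F) (C : F) : Prop :=
  ∃ s u : F, A = s ^ 2 + 4 * u ∧ v.valuation F s ≤ 1 ∧ v.valuation F u ≤ 1 ∧ B = 16 * C ∧
    v.valuation F C ≤ 1

lemma Un.even {v : HeightOneSpectrum (𝓞 F)} (h : Un v) (hodd : Odd (Module.finrank ℚ F))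
    (b : Fˣ) (hr : ∃ r : ℚ, Algebra.norm ℚ (b : F) = r ^ 2) :
    ∃ m : ℤ, v.valuation F (b : F) = WithZero.exp (2 * m) := by
  obtain ⟨p, hp, hpv, hu⟩ := h
  obtain ⟨r, hr⟩ := hr
  have : Fact p.Prime := ⟨hp⟩
  exact even_of_norm hu hodd b r hr

/-- the first class -/
lemma first_sq' (hB : 0 < B) (hA : A < 0 ∨ A ^ 2 < 4 * B)
    (hcl : Odd (Nat.card (NCl F))) (hodd : Odd (Module.finrank ℚ F))
    (hv : ∀ v : HeightOneSpectrum (𝓞 F), Un v ∨ Tw v (A : F) (B : F) ∨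
      ∃ C : F, Gd v (A : F) (B : F) C ∧ v.valuation F C = 1)
    (b : Fˣ) (hr : ∃ r : ℚ, Algebra.norm ℚ (b : F) = r ^ 2) (hL : L1 A B (b : F)) :
    ∃ y : Fˣ, y ^ 2 = b := by
  have hpos : TotPos (b : F) := by
    intro φ
    have hB' : 0 < φ (B : F) := by
      rw [map_intCast]
      exact_mod_cast hB
    refine pos_b1 (A := (A : F)) (B := (B : F)) (fun v => ?_) φ hB' ?_
    · rw [map_intCast, map_intCast]
      exact hL.2 v
    · rw [map_intCast, map_intCast]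
      rcases hA with h | h
      · left; exact_mod_cast h
      · right; exact_mod_cast h
  have hL' : ∀ v : HeightOneSpectrum (𝓞 F), ∃ z m : v.adicCompletion F, z ≠ 0 ∧
      algebraMap F (v.adicCompletion F) (b : F) * z ^ 2 = m ∧
      S1 (algebraMap F (v.adicCompletion F) (A : F))
        (algebraMap F (v.adicCompletion F) (B : F)) m := by
    intro v
    rw [map_intCast, map_intCast]
    exact hL.1 v
  have heven : ∀ v : HeightOneSpectrum (𝓞 F), ∃ m : ℤ,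
      v.valuation F (b : F) = WithZero.exp (2 * m) := by
    intro v
    rcases hv v with h | h | ⟨C, ⟨s, u, hs, hs1, hu1, hC, hC1⟩, hC2⟩
    · exact h.even hodd b hr
    · exact even_b1_tw b.ne_zero v (hL' v) h
    · exact even_b1 b.ne_zero v (hL' v) hs hs1 hu1 hC hC2
  obtain ⟨y, hy⟩ := elt_sq hcl b hpos heven
  exact ⟨y, hy.symm⟩

/-- the second class at a place -/
lemma second_unr (hodd : Odd (Module.finrank ℚ F)) (v : HeightOneSpectrum (𝓞 F))
    (hv : ((2 : 𝓞 F) ∉ v.asIdeal ∧ (Un v ∨ Tw v (A : F) (B : F))) ∨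
      (∃ C : F, Gd v (A : F) (B : F) C ∧ v.valuation F ((A ^ 2 - 4 * B : ℤ) : F) = 1))
    (b : Fˣ) (hr : ∃ r : ℚ, Algebra.norm ℚ (b : F) = r ^ 2) (hL : L2 A B (b : F)) :
    UnrC (v.valuation F) (b : F) := by
  have hL' : ∃ z m : v.adicCompletion F, z ≠ 0 ∧
      algebraMap F (v.adicCompletion F) (b : F) * z ^ 2 = m ∧
      S2 (algebraMap F (v.adicCompletion F) (A : F))
        (algebraMap F (v.adicCompletion F) (B : F)) m := by
    rw [map_intCast, map_intCast]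
    exact hL.1 v
  have hDF : ((A : F) ^ 2 - 4 * (B : F)) = ((A ^ 2 - 4 * B : ℤ) : F) := by
    push_cast; ring
  rcases hv with ⟨h2, h | h⟩ | ⟨C, ⟨s, u, hs, hs1, hu1, hC, hC1⟩, hD⟩
  · exact unr_of_exp (val_two h2) (h.even hodd b hr)
  · exact unr_of_exp (val_two h2) (even_b2_tw b.ne_zero v hL' h)
  · exact unr_b2 v hL' hs hs1 hu1 hC hC1 (by rw [hDF, hD])

/-- elements whose norm is a square and which are unramified up to sign at two -/
lemma fin_sq' (hp2 : (Ideal.span {(2 : 𝓞 F)}).IsPrime)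
    (hcl : Odd (Nat.card (NCl F))) (hodd : Odd (Module.finrank ℚ F))
    (x : Fˣ) (hq : ∃ q : ℚ, Algebra.norm ℚ (x : F) = q ^ 2)
    (h1 : ∀ v : HeightOneSpectrum (𝓞 F), (2 : 𝓞 F) ∉ v.asIdeal →
      UnrC (v.valuation F) (x : F))
    (h2 : ∀ v : HeightOneSpectrum (𝓞 F), (2 : 𝓞 F) ∈ v.asIdeal →
      (∃ m : ℤ, v.valuation F (x : F) = WithZero.exp (2 * m)) →
      UnrC (v.valuation F) (x : F) ∨ UnrC (v.valuation F) (-(x : F))) :
    ∃ y : Fˣ, y ^ 2 = x := by
  obtain ⟨q, hq⟩ := hq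
  have hnottwo : ∀ v : HeightOneSpectrum (𝓞 F), (2 : 𝓞 F) ∉ v.asIdeal →
      UnrC (v.valuation F) (x : F) ∧ UnrC (v.valuation F) (-(x : F)) := by
    intro v hv
    have h4 : v.valuation F 4 = 1 := by rw [w_four, val_two hv, one_mul]
    have hm1 : UnrC (v.valuation F) (-1 : F) := by
      refine UnrC.of_even one_ne_zero ?_ h4
      rw [one_pow, mul_one, Valuation.map_neg, map_one]
    refine ⟨h1 v hv, ?_⟩
    have h6 := hm1.mul (h1 v hv)
    rwa [neg_one_mul] at h6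
  by_cases hall : ∀ v : HeightOneSpectrum (𝓞 F), UnrC (v.valuation F) (x : F)
  · exact sq_of_unrC hcl x hall
  · exfalso
    push Not at hall
    obtain ⟨v0, hv0⟩ := hall
    have hv02 : (2 : 𝓞 F) ∈ v0.asIdeal := by
      by_contra h
      exact hv0 (hnottwo v0 h).1
    have hev : ∃ m : ℤ, v0.valuation F (x : F) = WithZero.exp (2 * m) := by
      have : Fact (Nat.Prime 2) := ⟨Nat.prime_two⟩
      refine even_of_norm (p := 2) (fun w hw => ?_) hodd x q hq
      rw [Nat.cast_ofNat] at hw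
      exact HeightOneSpectrum.ext ((two_val hp2 hw).trans (two_val hp2 hv02).symm)
    rcases h2 v0 hv02 hev with h3 | h3
    · exact hv0 h3
    · have h4 : ∀ v : HeightOneSpectrum (𝓞 F), UnrC (v.valuation F) ((-x : Fˣ) : F) := by
        intro v
        rw [Units.val_neg]
        by_cases hv : (2 : 𝓞 F) ∈ v.asIdeal
        · have : v = v0 :=
            HeightOneSpectrum.ext ((two_val hp2 hv).trans (two_val hp2 hv02).symm)
          rw [this]
          exact h3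
        · exact (hnottwo v hv).2
      obtain ⟨z, hz⟩ := sq_of_unrC hcl (-x) h4
      have h5 : (x : F) = -1 * (z : F) ^ 2 := by
        have := congrArg Units.val hz
        rw [Units.val_pow_eq_pow_val, Units.val_neg] at this
        linear_combination this
      have h6 : Algebra.norm ℚ (-1 : F) = -1 := by
        have h7 := Algebra.norm_algebraMap (S := F) (-1 : ℚ)
        rw [map_neg, map_one, hodd.neg_one_pow] at h7
        exact h7
      rw [h5, map_mul, h6, map_pow] at hq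
      have h7 : Algebra.norm ℚ (z : F) ≠ 0 := by
        rw [Ne, Algebra.norm_eq_zero_iff]
        exact z.ne_zero
      have h8 : 0 < (Algebra.norm ℚ (z : F)) ^ 2 := by positivity
      nlinarith [sq_nonneg q]

/-- the refined condition at the bad primes -/
def BadOK (F : Type) [Field F] [NumberField F] (A B : ℤ) (p : ℕ) : Prop :=
  (∀ v w : HeightOneSpectrum (𝓞 F), (p : 𝓞 F) ∈ v.asIdeal → (p : 𝓞 F) ∈ w.asIdeal → v = w) ∨
  (p ≠ 2 ∧ ∃ d α β : ℤ, d ≠ 0 ∧ A = d * α ∧ B = d ^ 2 * β ∧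
    ∀ v : HeightOneSpectrum (𝓞 F), (p : 𝓞 F) ∈ v.asIdeal → ∀ x : 𝓞 F,
      x ^ 2 - (β : 𝓞 F) ∉ v.asIdeal ∧ x ^ 2 - ((α ^ 2 - 4 * β : ℤ) : 𝓞 F) ∉ v.asIdeal)

lemma two_notMem {v : HeightOneSpectrum (𝓞 F)} {p : ℕ} (hp : p.Prime) (hp2 : p ≠ 2)
    (hv : (p : 𝓞 F) ∈ v.asIdeal) : (2 : 𝓞 F) ∉ v.asIdeal := by
  intro h
  obtain ⟨k, hk⟩ : ∃ k, p = 2 * k + 1 := hp.odd_of_ne_two hp2
  apply v.isPrime.ne_top
  rw [Ideal.eq_top_iff_one]
  have e : (1 : 𝓞 F) = (p : 𝓞 F) - 2 * (k : 𝓞 F) := by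
    rw [hk]; push_cast; ring
  rw [e]
  exact sub_mem hv (v.asIdeal.mul_mem_right _ h)

lemma BadOK.at {p : ℕ} (hp : p.Prime) (h : BadOK F A B p) {v : HeightOneSpectrum (𝓞 F)}
    (hv : (p : 𝓞 F) ∈ v.asIdeal) : Un v ∨ Tw v (A : F) (B : F) := by
  rcases h with h | ⟨h2, d, α, β, hd, hA, hB, h⟩
  · exact Or.inl ⟨p, hp, hv, fun w hw => (h v w hv hw).symm⟩
  · exact Or.inr (Tw.of_int (two_notMem hp h2 hv) hd hA hB (fun x => (h v hv x).1)
      fun x => (h v hv x).2)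

/-- a place is good or of one of the two types -/
lemma place_cases (hB : B ≠ 0) (hD : A ^ 2 - 4 * B ≠ 0)
    (hbad : ∀ p : ℕ, p.Prime → (p : ℤ) ∣ B * (A ^ 2 - 4 * B) → BadOK F A B p)
    (v : HeightOneSpectrum (𝓞 F)) :
    (Un v ∨ Tw v (A : F) (B : F)) ∨
      (v.valuation F (B : F) = 1 ∧ v.valuation F ((A ^ 2 - 4 * B : ℤ) : F) = 1) := by
  by_cases h1 : v.valuation F (B : F) = 1
  · by_cases h2 : v.valuation F ((A ^ 2 - 4 * B : ℤ) : F) = 1
    · exact Or.inr ⟨h1, h2⟩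
    · obtain ⟨p, hp, hpc, hpv⟩ := exists_prime v _ hD h2
      exact Or.inl ((hbad p hp (hpc.mul_left _)).at hp hpv)
  · obtain ⟨p, hp, hpc, hpv⟩ := exists_prime v _ hB h1
    exact Or.inl ((hbad p hp (hpc.mul_right _)).at hp hpv)

/-- every pair is of the good form outside two -/
lemma gd_of_two {v : HeightOneSpectrum (𝓞 F)} (h2 : v.valuation F 2 = 1) :
    Gd v (A : F) (B : F) ((B : F) / 16) ∧ v.valuation F ((B : F) / 16) =
      v.valuation F (B : F) := by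
  have h8 : v.valuation F 4 = 1 := by rw [w_four, h2, one_mul]
  have h9 : v.valuation F 16 = 1 := by
    have : (16 : F) = 4 * 4 := by norm_num
    rw [this, map_mul, h8, one_mul]
  have h10 : v.valuation F ((B : F) / 16) = v.valuation F (B : F) := by
    rw [map_div₀, h9, div_one]
  refine ⟨⟨1, ((A : F) - 1) / 4, by field_simp; ring, (map_one _).le, ?_, by field_simp, ?_⟩, h10⟩
  · rw [map_div₀, h8, div_one]
    have h7 : (A : F) - 1 = ((A - 1 : ℤ) : F) := by push_cast; ring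
    rw [h7]
    exact val_int_le v _
  · rw [h10]
    exact val_int_le v B

/-- every element of the four conditions with `2` inert -/
lemma pair_inert (hB : 0 < B) (hA : A < 0 ∨ A ^ 2 < 4 * B)
    (hA2 : A % 2 = 1 ∨ (A % 2 = 0 ∧ ((A / 2) ^ 2 - B) % 4 ≠ 0))
    (hn3 : A % 4 = 3 → (B % 4 = 2 ∨ B % 4 = 3) → ¬ 3 ∣ Module.finrank ℚ F)
    (hp2 : (Ideal.span {(2 : 𝓞 F)}).IsPrime)
    (hcl : Odd (Nat.card (NCl F))) (hodd : Odd (Module.finrank ℚ F))
    (hv : ∀ v : HeightOneSpectrum (𝓞 F), (Un v ∨ Tw v (A : F) (B : F)) ∨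
      (v.valuation F (B : F) = 1 ∧ v.valuation F ((A ^ 2 - 4 * B : ℤ) : F) = 1))
    (b : Fˣ) (hr : ∃ r : ℚ, Algebra.norm ℚ (b : F) = r ^ 2) :
    (L1 A B (b : F) → ∃ y : Fˣ, y ^ 2 = b) ∧ (L2 A B (b : F) → ∃ y : Fˣ, y ^ 2 = b) := by
  have hun2 : ∀ v : HeightOneSpectrum (𝓞 F), (2 : 𝓞 F) ∈ v.asIdeal → Un v := by
    intro v hv
    refine ⟨2, Nat.prime_two, by rwa [Nat.cast_ofNat], fun w hw => ?_⟩
    rw [Nat.cast_ofNat] at hw
    exact HeightOneSpectrum.ext ((two_val hp2 hw).trans (two_val hp2 hv).symm)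
  constructor
  · intro hL
    refine first_sq' hB hA hcl hodd (fun v => ?_) b hr hL
    by_cases h2 : (2 : 𝓞 F) ∈ v.asIdeal
    · exact Or.inl (hun2 v h2)
    · rcases hv v with (h | h) | ⟨h, h'⟩
      · exact Or.inl h
      · exact Or.inr (Or.inl h)
      · obtain ⟨h3, h4⟩ := gd_of_two (A := A) (B := B) (val_two h2)
        exact Or.inr (Or.inr ⟨_, h3, by rw [h4, h]⟩)
  · intro hL
    refine fin_sq' hp2 hcl hodd b hr (fun v h2 => ?_) (fun v h2 hev => ?_)
    · refine second_unr hodd v ?_ b hr hL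
      rcases hv v with h | ⟨h, h'⟩
      · exact Or.inl ⟨h2, h⟩
      · exact Or.inr ⟨_, (gd_of_two (A := A) (B := B) (val_two h2)).1, h'⟩
    · refine two_bg hp2 h2 hodd hA2 hn3 hev ?_
      rw [map_intCast, map_intCast]
      exact hL.1 v

/-- the two classes when `A = 1` modulo `4` and `B` is divisible by `16` -/
lemma pair_ord {k c : ℤ} (hc : 0 < c) (hA : 1 + 4 * k < 0 ∨ (1 + 4 * k) ^ 2 < 4 * (16 * c))
    (hcl : Odd (Nat.card (NCl F))) (hodd : Odd (Module.finrank ℚ F))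
    (hv : ∀ v : HeightOneSpectrum (𝓞 F),
      (Un v ∨ Tw v ((1 + 4 * k : ℤ) : F) ((16 * c : ℤ) : F)) ∨
      (v.valuation F (c : F) = 1 ∧
        v.valuation F (((1 + 4 * k) ^ 2 - 4 * (16 * c) : ℤ) : F) = 1))
    (b : Fˣ) (hr : ∃ r : ℚ, Algebra.norm ℚ (b : F) = r ^ 2) :
    (L1 (1 + 4 * k) (16 * c) (b : F) → ∃ y : Fˣ, y ^ 2 = b) ∧
    (L2 (1 + 4 * k) (16 * c) (b : F) → ∃ y : Fˣ, y ^ 2 = b) := by
  have hgd : ∀ v : HeightOneSpectrum (𝓞 F),
      Gd v ((1 + 4 * k : ℤ) : F) ((16 * c : ℤ) : F) (c : F) := by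
    intro v
    exact ⟨1, k, by push_cast; ring, (map_one _).le, val_int_le v k, by push_cast; ring,
      val_int_le v c⟩
  constructor
  · intro hL
    refine first_sq' (by positivity) hA hcl hodd (fun v => ?_) b hr hL
    rcases hv v with (h | h) | ⟨h, h'⟩
    · exact Or.inl h
    · exact Or.inr (Or.inl h)
    · exact Or.inr (Or.inr ⟨_, hgd v, h⟩)
  · intro hL
    apply sq_of_unrC hcl
    intro v
    refine second_unr hodd v ?_ b hr hL
    by_cases h2 : (2 : 𝓞 F) ∈ v.asIdeal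
    · right
      refine ⟨_, hgd v, ?_⟩
      rw [← map_intCast (algebraMap (𝓞 F) F), HeightOneSpectrum.valuation_eq_one_iff_notMem]
      intro h7
      apply v.isPrime.ne_top
      rw [Ideal.eq_top_iff_one]
      have e : (1 : 𝓞 F) = (((1 + 4 * k) ^ 2 - 4 * (16 * c) : ℤ) : 𝓞 F) -
          2 * ((4 * k + 8 * k ^ 2 - 32 * c : ℤ) : 𝓞 F) := by
        push_cast; ring
      rw [e]
      exact sub_mem h7 (v.asIdeal.mul_mem_right _ h2)
    · rcases hv v with h | ⟨h, h'⟩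
      · exact Or.inl ⟨h2, h⟩
      · exact Or.inr ⟨_, hgd v, h'⟩

end key

end Pool.Agent.Y682
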