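import Mathlib
import Pool.Agent.Y682.ZS
import Pool.Agent.Y682.TwL
import Pool.Agent.Y682.KH

/-!
# The bound for the 2-torsion of Sha over a general number field
-/

set_option autoImplicit false
set_option linter.unusedSectionVars false

attribute [-instance] DivisionRing.toRatAlgebra

open NumberField IsDedekindDomain

namespace Pool.Agent.Y682

open WeierstrassCurve

open Pool.Agent.TH841.NF

section

variable {K : Type} [Field K] [NumberField K] {A B : K}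

/-- the pair is a twist, first condition -/
def Tw1 (v : HeightOneSpectrum (𝓞 K)) (A B : K) : Prop :=
  v.valuation K 2 = 1 ∧ ∃ d α β : K, d ≠ 0 ∧ A = d * α ∧ B = d ^ 2 * β ∧
    v.valuation K α ≤ 1 ∧ v.valuation K β ≤ 1 ∧
    ∀ x : K, v.valuation K x ≤ 1 → v.valuation K (x ^ 2 - (α ^ 2 - 4 * β)) = 1

/-- the pair is a twist, second condition -/
def Tw2 (v : HeightOneSpectrum (𝓞 K)) (A B : K) : Prop :=
  v.valuation K 2 = 1 ∧ ∃ d α β : K, d ≠ 0 ∧ A = d * α ∧ B = d ^ 2 * β ∧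
    v.valuation K α ≤ 1 ∧ v.valuation K β ≤ 1 ∧
    ∀ x : K, v.valuation K x ≤ 1 → v.valuation K (x ^ 2 - β) = 1

/-- evenness of the first class -/
lemma even_b1_tw1 {b : K} (hb : b ≠ 0) (v : HeightOneSpectrum (𝓞 K))
    (hloc : ∃ z m : v.adicCompletion K, z ≠ 0 ∧
      algebraMap K (v.adicCompletion K) b * z ^ 2 = m ∧
        S1 (algebraMap K (v.adicCompletion K) A) (algebraMap K (v.adicCompletion K) B) m)
    (h : Tw1 v A B) : ∃ n : ℤ, v.valuation K b = WithZero.exp (2 * n) := by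
  have := charZero_adic v
  obtain ⟨h2, d, α, β, hd, hA, hB, hα, hβ, hDn⟩ := h
  obtain ⟨z, m, hz, hzm, hm⟩ := hloc
  apply exists_exp hb
  have hvz : vv v z ≠ 0 := (Valuation.ne_zero_iff _).2 hz
  have hd' : algebraMap K (v.adicCompletion K) d ≠ 0 := (map_ne_zero _).2 hd
  have h2' : vv v 2 = 1 := by
    have e : (2 : v.adicCompletion K) = algebraMap K _ 2 := (map_ofNat _ 2).symm
    rw [e, vv_coe, h2]
  have h4' : vv v 4 = 1 := by rw [w_four, h2', one_mul]
  have h4 : v.valuation K 4 = 1 := by rw [w_four, h2, one_mul]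
  have h1 : ∃ g, vv v m = g ^ 2 := by
    rcases hm with h | h | ⟨h, y, hy⟩
    · exact ⟨1, by rw [h, map_one, one_pow]⟩
    · refine ⟨vv v (algebraMap K _ d), ?_⟩
      have h5 := hDn α hα
      have e : α ^ 2 - (α ^ 2 - 4 * β) = 4 * β := by ring
      rw [e, map_mul, h4, one_mul] at h5
      rw [h, hB, map_mul, map_mul, vv_coe v β, h5, mul_one, map_pow, map_pow]
    · refine even_tw (w := vv v) (d := algebraMap K _ d) (p := algebraMap K _ α)
        (q := algebraMap K _ β) hd' (by rw [vv_coe]; exact hα) (by rw [vv_coe]; exact hβ) ?_ h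
        (y := y) ?_
      · intro x hx
        have h5 := nsq_completion hDn (2 * x + algebraMap K _ α) (by
          refine (Valuation.map_add _ _ _).trans (max_le ?_ ?_)
          · rw [map_mul, h2', one_mul]; exact hx
          · rw [vv_coe]; exact hα)
        have e : (2 * x + algebraMap K _ α) ^ 2 - algebraMap K _ (α ^ 2 - 4 * β) =
            4 * (x ^ 2 + algebraMap K (v.adicCompletion K) α * x + algebraMap K _ β) := by
          rw [map_sub, map_pow, map_mul, map_ofNat]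
          ring
        rwa [e, map_mul, h4', one_mul] at h5
      · rw [hy, hA, hB, map_mul, map_mul, map_pow]
  obtain ⟨g, hg⟩ := h1
  refine ⟨g / vv v z, ?_⟩
  rw [← hzm, map_mul, map_pow, vv_coe] at hg
  rw [div_pow, ← hg]
  field_simp

/-- evenness of the second class -/
lemma even_b2_tw2 {b : K} (hb : b ≠ 0) (v : HeightOneSpectrum (𝓞 K))
    (hloc : ∃ z m : v.adicCompletion K, z ≠ 0 ∧
      algebraMap K (v.adicCompletion K) b * z ^ 2 = m ∧
        S2 (algebraMap K (v.adicCompletion K) A) (algebraMap K (v.adicCompletion K) B) m)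
    (h : Tw2 v A B) : ∃ n : ℤ, v.valuation K b = WithZero.exp (2 * n) := by
  have := charZero_adic v
  obtain ⟨h2, d, α, β, hd, hA, hB, hα, hβ, hβn⟩ := h
  obtain ⟨z, m, hz, hzm, hm⟩ := hloc
  apply exists_exp hb
  have hvz : vv v z ≠ 0 := (Valuation.ne_zero_iff _).2 hz
  have hd' : algebraMap K (v.adicCompletion K) d ≠ 0 := (map_ne_zero _).2 hd
  have h2' : vv v 2 = 1 := by
    have e : (2 : v.adicCompletion K) = algebraMap K _ 2 := (map_ofNat _ 2).symm
    rw [e, vv_coe, h2]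
  have h4' : vv v 4 = 1 := by rw [w_four, h2', one_mul]
  have h4 : v.valuation K 4 = 1 := by rw [w_four, h2, one_mul]
  have h5 : v.valuation K (α ^ 2 - 4 * β) = 1 := by
    have h6 := hβn (α / 2) (by rw [map_div₀, h2, div_one]; exact hα)
    have e : α ^ 2 - 4 * β = 4 * ((α / 2) ^ 2 - β) := by ring
    rw [e, map_mul, h4, one_mul, h6]
  have h1 : ∃ g, vv v m = g ^ 2 := by
    rcases hm with h | h | ⟨h, y, hy⟩
    · exact ⟨1, by rw [h, map_one, one_pow]⟩
    · refine ⟨vv v (algebraMap K _ d), ?_⟩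
      have e : m = algebraMap K _ d ^ 2 * algebraMap K _ (α ^ 2 - 4 * β) := by
        rw [h, hA, hB]
        simp only [map_mul, map_sub, map_pow, map_ofNat]
        ring
      rw [e, map_mul, vv_coe v (α ^ 2 - 4 * β), h5, mul_one, map_pow]
    · refine even_tw (w := vv v) (d := algebraMap K _ d) (p := algebraMap K _ (-2 * α))
        (q := algebraMap K _ (α ^ 2 - 4 * β)) hd' ?_ (by rw [vv_coe, h5]) ?_ h
        (y := y) ?_
      · rw [vv_coe, map_mul, Valuation.map_neg, h2, one_mul]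
        exact hα
      · intro x hx
        have h6 := nsq_completion hβn ((x - algebraMap K _ α) / 2) (by
          rw [map_div₀, h2', div_one]
          refine (Valuation.map_sub _ _ _).trans (max_le hx ?_)
          rw [vv_coe]; exact hα)
        have e : x ^ 2 + algebraMap K (v.adicCompletion K) (-2 * α) * x +
            algebraMap K _ (α ^ 2 - 4 * β) =
            4 * (((x - algebraMap K _ α) / 2) ^ 2 - algebraMap K _ β) := by
          simp only [map_mul, map_sub, map_pow, map_ofNat, map_neg]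
          ring
        rw [e, map_mul, h4', one_mul, h6]
      · rw [hy, hA, hB]
        simp only [map_mul, map_sub, map_pow, map_ofNat, map_neg]
        ring
  obtain ⟨g, hg⟩ := h1
  refine ⟨g / vv v z, ?_⟩
  rw [← hzm, map_mul, map_pow, vv_coe] at hg
  rw [div_pow, ← hg]
  field_simp

lemma b1_U1 {T1 : Finset (HeightOneSpectrum (𝓞 K))}
    (hreal : ∀ φ : K →+* ℝ, 0 < φ B ∧ (φ A < 0 ∨ φ A ^ 2 < 4 * φ B))
    (hT1 : ∀ v ∉ T1, Tw1 v A B ∨ ∃ C : K, Gd v A B C ∧ v.valuation K C = 1)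
    (b : Kˣ) (hL : LL1 A B (b : K)) : (b : Kˣ ⧸ Sq K) ∈ U1 T1 := by
  refine ⟨b, rfl, fun φ => pos_b1 hL.2 φ (hreal φ).1 (hreal φ).2, fun v hv => ?_⟩
  rw [← ev_iff]
  rcases hT1 v hv with h | ⟨C, ⟨s, u, hs, hs1, hu1, hC, hC1⟩, hC2⟩
  · exact even_b1_tw1 b.ne_zero v (hL.1 v) h
  · exact even_b1 b.ne_zero v (hL.1 v) hs hs1 hu1 hC hC2

lemma b2_U2 {T2 : Finset (HeightOneSpectrum (𝓞 K))}
    (hT2 : ∀ v ∉ T2, Tw2 v A B ∨ ∃ C : K, Gd v A B C ∧ v.valuation K (A ^ 2 - 4 * B) = 1)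
    (b : Kˣ) (hL : LL2 A B (b : K)) : (b : Kˣ ⧸ Sq K) ∈ U2 T2 := by
  refine ⟨b, rfl, fun v hv => ?_⟩
  rcases hT2 v hv with h | ⟨C, ⟨s, u, hs, hs1, hu1, hC, hC1⟩, hD⟩
  · exact unrC_of_par h.1 (ev_iff.1 (even_b2_tw2 b.ne_zero v (hL.1 v) h))
  · exact unr_b2 v (hL.1 v) hs hs1 hu1 hC hC1 hD

/-- the first class of the isogenous curve -/
lemma LL1_dual {b : K} (h : LL1 (-2 * A) (A ^ 2 - 4 * B) b) : LL2 A B b := by
  have main : ∀ (L : Type) [Field L] [CharZero L] (φ : K →+* L),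
      (∃ z m : L, z ≠ 0 ∧ φ b * z ^ 2 = m ∧ S1 (φ (-2 * A)) (φ (A ^ 2 - 4 * B)) m) →
      ∃ z m : L, z ≠ 0 ∧ φ b * z ^ 2 = m ∧ S2 (φ A) (φ B) m := by
    intro L _ _ φ ⟨z, m, hz, hzm, hm⟩
    refine ⟨z, m, hz, hzm, ?_⟩
    simp only [map_mul, map_sub, map_pow, map_ofNat, map_neg] at hm
    rcases hm with hm | hm | ⟨hm, y, hy⟩
    · exact Or.inl hm
    · exact Or.inr (Or.inl hm)
    · refine Or.inr (Or.inr ⟨hm, y, ?_⟩)
      rw [hy]
      ring
  refine ⟨fun v => ?_, fun v => ?_⟩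
  · have := charZero_adic v
    exact main _ (algebraMap K (v.adicCompletion K)) (h.1 v)
  · have := charZero_inf v
    exact main _ (algebraMap K v.Completion) (h.2 v)

/-- the second class of the isogenous curve -/
lemma LL2_dual {b : K} (h : LL2 (-2 * A) (A ^ 2 - 4 * B) b) : LL1 A B b := by
  have main : ∀ (L : Type) [Field L] [CharZero L] (φ : K →+* L),
      (∃ z m : L, z ≠ 0 ∧ φ b * z ^ 2 = m ∧ S2 (φ (-2 * A)) (φ (A ^ 2 - 4 * B)) m) →
      ∃ z m : L, z ≠ 0 ∧ φ b * z ^ 2 = m ∧ S1 (φ A) (φ B) m := by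
    intro L _ _ φ ⟨z, m, hz, hzm, hm⟩
    simp only [map_mul, map_sub, map_pow, map_ofNat, map_neg] at hm
    rcases hm with hm | hm | ⟨hm, y, hy⟩
    · exact ⟨z, m, hz, hzm, Or.inl hm⟩
    · refine ⟨z / 4, φ B, div_ne_zero hz (by norm_num), ?_, Or.inr (Or.inl rfl)⟩
      rw [div_pow, ← mul_div_assoc, hzm, hm]
      ring
    · refine ⟨z / 2, m / 4, div_ne_zero hz (by norm_num), ?_,
        Or.inr (Or.inr ⟨div_ne_zero hm (by norm_num), y / 8, ?_⟩)⟩
      · rw [div_pow, ← mul_div_assoc, hzm]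
        norm_num
      · rw [div_pow, hy]
        ring
  refine ⟨fun v => ?_, fun v => ?_⟩
  · have := charZero_adic v
    exact main _ (algebraMap K (v.adicCompletion K)) (h.1 v)
  · have := charZero_inf v
    exact main _ (algebraMap K v.Completion) (h.2 v)

/-- the curve `y² = x³ + A x² + B x` -/
def wc (A B : K) : WeierstrassCurve K := ⟨0, A, 0, B, 0⟩

lemma wc_isT (hB : B ≠ 0) (hD : A ^ 2 - 4 * B ≠ 0) : IsT (wc A B) A B where
  h1 := rfl
  h2 := rfl
  h3 := rfl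
  h4 := rfl
  h6 := rfl
  hB := hB
  hD := hD

/-- the bound in terms of the two groups of classes -/
theorem bound_wc {P Q : K} (hB : B ≠ 0) (hD : A ^ 2 - 4 * B ≠ 0)
    (hreal : ∀ φ : K →+* ℝ, 0 < φ B ∧ (φ A < 0 ∨ φ A ^ 2 < 4 * φ B))
    {T1 T2 : Finset (HeightOneSpectrum (𝓞 K))}
    (hT1 : ∀ v ∉ T1, Tw1 v A B ∨ ∃ C : K, Gd v A B C ∧ v.valuation K C = 1)
    (hT2 : ∀ v ∉ T2, Tw2 v A B ∨ ∃ C : K, Gd v A B C ∧ v.valuation K (A ^ 2 - 4 * B) = 1)
    (hT2' : ∀ v ∈ T2, v.valuation K 2 = 1) [Finite (H0q K)] [Finite (V0q K)]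
    (hPQ : (P = A ∧ Q = B) ∨ (P = -2 * A ∧ Q = A ^ 2 - 4 * B)) :
    Finite {x : Pool.Agent.TH841.NF.D.Sha (wc P Q) // 2 • x = 0} ∧
    4 * 2 ^ (Pool.Agent.TH841.NF.D.rk (wc P Q)) *
      Nat.card {x : Pool.Agent.TH841.NF.D.Sha (wc P Q) // 2 • x = 0} ≤
      2 ^ (T1.card + T2.card) * (Nat.card (H0q K) * Nat.card (V0q K)) := by
  obtain ⟨hf1, hc1⟩ := card_U1 (K := K) T1
  obtain ⟨hf2, hc2⟩ := card_U2 (K := K) T2 hT2'
  have hle : Nat.card (U1 T1) * Nat.card (U2 T2) ≤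
      2 ^ (T1.card + T2.card) * (Nat.card (H0q K) * Nat.card (V0q K)) := by
    refine (Nat.mul_le_mul hc1 hc2).trans (le_of_eq ?_)
    rw [pow_add]
    ring
  have h11 : (1 : Kˣ ⧸ Sq K) ∈ U1 T1 := ⟨1, rfl, fun φ => by
    rw [Units.val_one, map_one]; exact one_pos, fun v _ => by
      unfold par
      rw [Units.val_one, map_one, WithZero.log_one]
      rfl⟩
  have h12 : (1 : Kˣ ⧸ Sq K) ∈ U2 T2 := ⟨1, rfl, fun v _ => by
    rw [Units.val_one, ← one_pow 2]
    exact UnrC.sq one_ne_zero⟩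
  rcases hPQ with ⟨rfl, rfl⟩ | ⟨rfl, rfl⟩
  · have hT := wc_isT hB hD
    obtain ⟨hf, hc⟩ := Zc_card hT h12 (fun b => b1_U1 hreal hT1 b) (fun b => b2_U2 hT2 b)
    obtain ⟨h3, h4⟩ := Zc_lower hT
    exact ⟨h3, h4.trans (hc.trans hle)⟩
  · have hD' : (-2 * A) ^ 2 - 4 * (A ^ 2 - 4 * B) ≠ 0 := by
      have : (-2 * A) ^ 2 - 4 * (A ^ 2 - 4 * B) = 16 * B := by ring
      rw [this]
      exact mul_ne_zero (by norm_num) hB
    have hT := wc_isT hD hD'
    obtain ⟨hf, hc⟩ := Zc_card hT h11 (fun b hb => b2_U2 hT2 b (LL1_dual hb))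
      (fun b hb => b1_U1 hreal hT1 b (LL2_dual hb))
    obtain ⟨h3, h4⟩ := Zc_lower hT
    refine ⟨h3, h4.trans (hc.trans ?_)⟩
    rw [mul_comm]
    exact hle

end

end Pool.Agent.Y682
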