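import Mathlib
import Pool.Agent.Y682.Cnt

/-!
# Orders of fractional ideals
-/

set_option autoImplicit false
set_option linter.unusedSectionVars false

open NumberField IsDedekindDomain nonZeroDivisors

namespace Pool.Agent.Y682

section

variable {K : Type} [Field K] [NumberField K]

/-- the order of a fractional ideal at a place -/
noncomputable def od (v : HeightOneSpectrum (𝓞 K)) (I : (FractionalIdeal (𝓞 K)⁰ K)ˣ) : ℤ :=
  FractionalIdeal.count K v (I : FractionalIdeal (𝓞 K)⁰ K)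

lemma od_mul (v : HeightOneSpectrum (𝓞 K)) (I J : (FractionalIdeal (𝓞 K)⁰ K)ˣ) :
    od v (I * J) = od v I + od v J :=
  FractionalIdeal.count_mul K v I.ne_zero J.ne_zero

lemma od_one (v : HeightOneSpectrum (𝓞 K)) : od v 1 = 0 :=
  FractionalIdeal.count_one K v

lemma od_inv (v : HeightOneSpectrum (𝓞 K)) (I : (FractionalIdeal (𝓞 K)⁰ K)ˣ) :
    od v I⁻¹ = -od v I := by
  have h := od_mul v I I⁻¹
  rw [mul_inv_cancel, od_one] at h
  linarith

lemma od_pow (v : HeightOneSpectrum (𝓞 K)) (n : ℕ) (I : (FractionalIdeal (𝓞 K)⁰ K)ˣ) :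
    od v (I ^ n) = n * od v I := by
  unfold od
  rw [Units.val_pow_eq_pow_val, FractionalIdeal.count_pow]

lemma od_pI_self (v : HeightOneSpectrum (𝓞 K)) : od v (pI v) = 1 :=
  FractionalIdeal.count_self K v

lemma od_pI_ne {v w : HeightOneSpectrum (𝓞 K)} (h : w ≠ v) : od v (pI w) = 0 :=
  FractionalIdeal.count_maximal_coprime K v h

lemma od_ext {I J : (FractionalIdeal (𝓞 K)⁰ K)ˣ} (h : ∀ v, od v I = od v J) : I = J := by
  apply Units.ext
  rw [← FractionalIdeal.finprod_heightOneSpectrum_factorization' K I.ne_zero,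
    ← FractionalIdeal.finprod_heightOneSpectrum_factorization' K J.ne_zero]
  refine finprod_congr fun v => ?_
  have h1 : FractionalIdeal.count K v (I : FractionalIdeal (𝓞 K)⁰ K) =
    FractionalIdeal.count K v (J : FractionalIdeal (𝓞 K)⁰ K) := h v
  rw [h1]

lemma od_fin (I : (FractionalIdeal (𝓞 K)⁰ K)ˣ) :
    {v : HeightOneSpectrum (𝓞 K) | od v I ≠ 0}.Finite :=
  Filter.eventually_cofinite.1 (FractionalIdeal.finite_factors (K := K) (I : FractionalIdeal (𝓞 K)⁰ K))

lemma od_prin (v : HeightOneSpectrum (𝓞 K)) (x : Kˣ) :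
    od v (toPrincipalIdeal (𝓞 K) K x) = -WithZero.log (v.valuation K (x : K)) := by
  classical
  have key : ∀ a : 𝓞 K, a ≠ 0 →
      FractionalIdeal.count K v (FractionalIdeal.spanSingleton (𝓞 K)⁰ (algebraMap (𝓞 K) K a)) =
        -WithZero.log (v.valuation K (algebraMap (𝓞 K) K a)) := by
    intro a ha
    rw [← FractionalIdeal.coeIdeal_span_singleton, FractionalIdeal.count_coe, 
      HeightOneSpectrum.valuation_of_algebraMap, HeightOneSpectrum.intValuation_if_neg _ ha,
      WithZero.log_exp, neg_neg]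
    intro h0
    exact ha (Ideal.span_singleton_eq_bot.1 h0)
  unfold od
  rw [coe_toPrincipalIdeal]
  obtain ⟨a, b, hb, hab⟩ := IsFractionRing.div_surjective (A := 𝓞 K) (x : K)
  have hb0 : b ≠ 0 := nonZeroDivisors.ne_zero hb
  have hb' : algebraMap (𝓞 K) K b ≠ 0 := fun h0 =>
    hb0 (FaithfulSMul.algebraMap_injective (𝓞 K) K (by rw [h0, map_zero]))
  have ha' : algebraMap (𝓞 K) K a ≠ 0 := by
    intro h0
    rw [h0, zero_div] at hab
    exact x.ne_zero hab.symm
  have ha0 : a ≠ 0 := by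
    rintro rfl
    exact ha' (map_zero _)
  have h1 : FractionalIdeal.spanSingleton (𝓞 K)⁰ (x : K) *
      FractionalIdeal.spanSingleton (𝓞 K)⁰ (algebraMap (𝓞 K) K b) =
      FractionalIdeal.spanSingleton (𝓞 K)⁰ (algebraMap (𝓞 K) K a) := by
    rw [FractionalIdeal.spanSingleton_mul_spanSingleton, ← hab, div_mul_cancel₀ _ hb']
  have h2 := congrArg (FractionalIdeal.count K v) h1
  rw [FractionalIdeal.count_mul K v (FractionalIdeal.spanSingleton_ne_zero_iff.2 x.ne_zero)
    (FractionalIdeal.spanSingleton_ne_zero_iff.2 hb'), key a ha0,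
    key b hb0] at h2
  have h3 : WithZero.log (v.valuation K (x : K)) = WithZero.log (v.valuation K (algebraMap (𝓞 K) K a))
      - WithZero.log (v.valuation K (algebraMap (𝓞 K) K b)) := by
    rw [← hab, map_div₀, WithZero.log_div ((Valuation.ne_zero_iff _).2 ha')
      ((Valuation.ne_zero_iff _).2 hb')]
  rw [h3]
  linarith

lemma exists_od (f : HeightOneSpectrum (𝓞 K) → ℤ) (hf : {v | f v ≠ 0}.Finite) :
    ∃ I : (FractionalIdeal (𝓞 K)⁰ K)ˣ, ∀ v, od v I = f v := by
  classical
  set e : HeightOneSpectrum (𝓞 K) →₀ ℤ := Finsupp.mk hf.toFinset f (fun _ => hf.mem_toFinset) with he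
  have h0 : e.prod (fun v n => (v.asIdeal : FractionalIdeal (𝓞 K)⁰ K) ^ n) ≠ 0 := by
    rw [Finsupp.prod, Finset.prod_ne_zero_iff]
    exact fun v _ => zpow_ne_zero _ (FractionalIdeal.coeIdeal_ne_zero.2 v.ne_bot)
  refine ⟨Units.mk0 _ h0, fun v => ?_⟩
  exact FractionalIdeal.count_finsuppProd K v e

/-- parity and order -/
lemma par_eq_od (v : HeightOneSpectrum (𝓞 K)) (x : Kˣ) :
    par v x = ((od v (toPrincipalIdeal (𝓞 K) K x) : ℤ) : ZMod 2) := by
  rw [od_prin, Int.cast_neg]
  unfold par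
  have h2 : ∀ a : ZMod 2, a = -a := by decide
  exact h2 _

end

end Pool.Agent.Y682
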