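import Mathlib
import Pool.Agent.Y682.Cnt
import Pool.Agent.TeamU.B7

/-!
# Places where an unramified element is a local square
-/

set_option autoImplicit false
set_option linter.unusedSectionVars false

open NumberField IsDedekindDomain nonZeroDivisors

namespace Pool.Agent.Y682

open Pool.Agent.TeamU Pool.Agent.TeamU.KI

/-- product of two quadratic polynomials without roots over a finite field -/
lemma root_mul {F : Type*} [Field F] [Finite F] {s u s' u' : F} (hD : s ^ 2 + 4 * u ≠ 0)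
    (hD' : s' ^ 2 + 4 * u' ≠ 0) (h : ∀ r : F, r ^ 2 - s * r - u ≠ 0)
    (h' : ∀ r : F, r ^ 2 - s' * r - u' ≠ 0) :
    ∃ r : F, r ^ 2 - (s * s') * r - (s ^ 2 * u' + s' ^ 2 * u + 4 * (u * u')) = 0 := by
  classical
  by_cases h2 : (2 : F) = 0
  · have h4 : (4 : F) = 0 := by
      have : (4 : F) = 2 * 2 := by norm_num
      rw [this, h2, mul_zero]
    have hs : s ≠ 0 := by
      rintro rfl
      apply hD
      rw [h4]; ring
    have hs' : s' ≠ 0 := by
      rintro rfl
      apply hD'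
      rw [h4]; ring
    let ψ : F →+ F :=
      { toFun := fun y => y ^ 2 + y
        map_zero' := by ring
        map_add' := fun a b => by linear_combination (a * b) * h2 }
    have hψ : ∀ y, ψ y = y ^ 2 + y := fun y => rfl
    have hker : Nat.card ψ.ker = 2 := by
      rw [Nat.card_eq_two_iff]
      refine ⟨0, ⟨1, ?_⟩, ?_, ?_⟩
      · rw [AddMonoidHom.mem_ker, hψ]
        linear_combination h2
      · intro h0
        have := congrArg Subtype.val h0
        exact zero_ne_one this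
      · ext ⟨y, hy⟩
        rw [AddMonoidHom.mem_ker, hψ] at hy
        have h3 : y * (y + 1) = 0 := by linear_combination hy
        simp only [Set.mem_insert_iff, Set.mem_singleton_iff, Set.mem_univ, iff_true]
        rcases mul_eq_zero.1 h3 with h3 | h3
        · left; exact Subtype.ext h3
        · right
          apply Subtype.ext
          change y = 1
          linear_combination h3 - h2
    have hidx : ψ.range.index = 2 := by
      have e1 := AddSubgroup.card_mul_index ψ.ker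
      have e2 := AddSubgroup.card_mul_index ψ.range
      rw [AddSubgroup.index_ker, hker] at e1
      have h3 : 0 < Nat.card ψ.range := Nat.card_pos
      have h4 : Nat.card ψ.range * ψ.range.index = Nat.card ψ.range * 2 := by
        rw [e2, ← e1, mul_comm]
      exact Nat.eq_of_mul_eq_mul_left h3 h4
    have key : ∀ {a b : F}, a ≠ 0 → (∀ r : F, r ^ 2 - a * r - b ≠ 0) → b / a ^ 2 ∉ ψ.range := by
      rintro a b ha hr ⟨y, hy⟩
      rw [hψ, eq_div_iff (pow_ne_zero 2 ha)] at hy
      apply hr (a * y)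
      linear_combination hy - (a ^ 2 * y) * h2
    have h5 : u / s ^ 2 + u' / s' ^ 2 ∈ ψ.range :=
      (AddSubgroup.add_mem_iff_of_index_two hidx).2
        ⟨fun h6 => absurd h6 (key hs h), fun h6 => absurd h6 (key hs' h')⟩
    obtain ⟨y, hy⟩ := h5
    rw [hψ] at hy
    have hy' : (y ^ 2 + y) * (s ^ 2 * s' ^ 2) = u * s' ^ 2 + u' * s ^ 2 := by
      rw [hy]
      field_simp
    refine ⟨s * s' * y, ?_⟩
    rw [h4]
    linear_combination hy' - (s ^ 2 * s' ^ 2 * y) * h2
  · have h4 : (4 : F) ≠ 0 := by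
      have : (4 : F) = 2 * 2 := by norm_num
      rw [this]
      exact mul_ne_zero h2 h2
    have key : ∀ {a b : F}, (∀ r : F, r ^ 2 - a * r - b ≠ 0) → ¬ IsSquare (a ^ 2 + 4 * b) := by
      rintro a b hr ⟨m, hm⟩
      apply hr ((a + m) / 2)
      field_simp
      linear_combination -hm
    obtain ⟨m, hm⟩ := Pool.Agent.TeamU.B7.mul_isSquare_of_not (key h) (key h')
    refine ⟨(s * s' + m) / 2, ?_⟩
    field_simp
    linear_combination -hm

section

variable {K : Type} [Field K] [NumberField K]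

/-- the polynomial has a root modulo the place -/
def SplP (v : HeightOneSpectrum (𝓞 K)) (x : K) : Prop :=
  ∃ t s u r : K, t ≠ 0 ∧ x * t ^ 2 = s ^ 2 + 4 * u ∧ v.valuation K (x * t ^ 2) = 1 ∧
    v.valuation K s ≤ 1 ∧ v.valuation K u ≤ 1 ∧ v.valuation K r ≤ 1 ∧
    v.valuation K (r ^ 2 - s * r - u) < 1

lemma SplP.unrC {v : HeightOneSpectrum (𝓞 K)} {x : K} (h : SplP v x) :
    UnrC (v.valuation K) x := by
  obtain ⟨t, s, u, r, h1, h2, h3, h4, h5, -, -⟩ := h
  exact ⟨t, s, u, h1, h2, h3, h4, h5⟩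

lemma splits_of_splP {E : Type} [Field E] [NumberField E] [Algebra K E]
    (h2 : Module.finrank K E = 2) {v : HeightOneSpectrum (𝓞 K)} {x : K} (h : SplP v x)
    (z : E) (hz : z ^ 2 = algebraMap K E x) (hzK : z ∉ (algebraMap K E).range) : Splits E v := by
  obtain ⟨P, hP⟩ := exists_over' (E := E) v
  have hunr := unr_of_unrC h2 h.unrC z hz hzK P hP v hP
  obtain ⟨t, s, u, r, ht, e, e1, hs, hu, hr, hroot⟩ := h
  obtain ⟨σ, hσσ, hfix, hnorm, hall⟩ := exists_conj (M := K) (E := E) h2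
  have hσz : σ z = -z := by
    have h3 : (σ z) ^ 2 = z ^ 2 := by rw [← map_pow, hz, AlgEquiv.commutes]
    rcases sq_eq_sq_iff_eq_or_eq_neg.1 h3 with h4 | h4
    · exact absurd ((hfix z).1 h4) hzK
    · exact h4
  obtain ⟨w, hw⟩ : ∃ w : E, w = (algebraMap K E s + algebraMap K E t * z) / 2 := ⟨_, rfl⟩
  have hσw : σ w = (algebraMap K E s - algebraMap K E t * z) / 2 := by
    rw [hw, map_div₀, map_add, map_mul, AlgEquiv.commutes, AlgEquiv.commutes, hσz, map_ofNat]
    ring
  have hprod : (w - algebraMap K E r) * (σ w - algebraMap K E r) =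
      algebraMap K E (r ^ 2 - s * r - u) := by
    have h3 := congrArg (algebraMap K E) e
    rw [map_mul, map_pow, map_add, map_mul, map_pow, map_ofNat, ← hz] at h3
    rw [hσw, hw]
    simp only [map_sub, map_mul, map_pow]
    linear_combination (-1 / 4) * h3
  have hsum : (w - algebraMap K E r) + (σ w - algebraMap K E r) =
      algebraMap K E (s - 2 * r) := by
    rw [hσw, hw]
    simp only [map_sub, map_mul, map_ofNat]
    ring
  have h2le : v.valuation K 2 ≤ 1 := w_two_le _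
  have h4le : v.valuation K 4 ≤ 1 := w_four_le _
  have hunit : v.valuation K (s - 2 * r) = 1 := by
    have h3 : (s - 2 * r) ^ 2 = x * t ^ 2 + 4 * (r ^ 2 - s * r - u) := by rw [e]; ring
    have h4 : v.valuation K (4 * (r ^ 2 - s * r - u)) < 1 := by
      rw [map_mul]
      exact lt_of_le_of_lt (mul_le_of_le_one_left' h4le) hroot
    have h5 : v.valuation K ((s - 2 * r) ^ 2) = 1 := by
      rw [h3, Valuation.map_add_eq_of_lt_left _ (by rw [e1]; exact h4), e1]
    rw [map_pow] at h5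
    exact (pow_eq_one_iff.1 h5).resolve_right (by norm_num)
  have hPprod : P.valuation E (w - algebraMap K E r) * P.valuation E (σ w - algebraMap K E r) < 1 := by
    rw [← map_mul, hprod, hunr]
    exact hroot
  have hPsum : P.valuation E ((w - algebraMap K E r) + (σ w - algebraMap K E r)) = 1 := by
    rw [hsum, hunr]
    exact hunit
  have hact : ∀ y : E, (act σ P).valuation E (σ y) = P.valuation E y := fun y => val_act σ P y
  have hne : P ≠ act σ P := by
    intro heq
    have h3 : P.valuation E (σ w - algebraMap K E r) = P.valuation E (w - algebraMap K E r) := by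
      have h4 := hact (w - algebraMap K E r)
      rw [← heq, map_sub, AlgEquiv.commutes] at h4
      exact h4
    rw [h3] at hPprod
    have h5 : P.valuation E (w - algebraMap K E r) < 1 := by
      by_contra hge
      rw [not_lt] at hge
      exact absurd (one_le_mul hge hge) (not_le.2 hPprod)
    have h6 := Valuation.map_add_lt (P.valuation E) h5 (h3.trans_lt h5)
    rw [hPsum] at h6
    exact lt_irrefl _ h6
  exact ⟨P, act σ P, hne, hP, over_act σ hP⟩

/-- congruences are multiplicative -/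
lemma cg_mul {v : HeightOneSpectrum (𝓞 K)} {x y a b : K} (h : v.valuation K (x - a) < 1)
    (h' : v.valuation K (y - b) < 1) (hx : v.valuation K x ≤ 1) (hb : v.valuation K b ≤ 1) :
    v.valuation K (x * y - a * b) < 1 := by
  have e : x * y - a * b = x * (y - b) + (x - a) * b := by ring
  rw [e]
  refine Valuation.map_add_lt _ ?_ ?_
  · rw [map_mul]
    exact lt_of_le_of_lt (mul_le_of_le_one_left' hx) h'
  · rw [map_mul]
    exact lt_of_le_of_lt (mul_le_of_le_one_right' hb) h

lemma SplP.sq_of_both {v : HeightOneSpectrum (𝓞 K)} {x y : K} (h : SplP v x) (h' : SplP v y) :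
    SplP v (x * y) := by
  obtain ⟨t, s, u, r, ht, e, e1, hs, hu, hr, hroot⟩ := h
  obtain ⟨t', s', u', r', ht', e', e1', hs', hu', hr', hroot'⟩ := h'
  have h2le : v.valuation K 2 ≤ 1 := w_two_le _
  have h4le : v.valuation K 4 ≤ 1 := w_four_le _
  have hm : ∀ {a b : K}, v.valuation K a ≤ 1 → v.valuation K b ≤ 1 → v.valuation K (a * b) ≤ 1 := by
    intro a b ha hb; rw [map_mul]; exact mul_le_one' ha hb
  have hp : ∀ {a b : K}, v.valuation K a ≤ 1 → v.valuation K b ≤ 1 → v.valuation K (a + b) ≤ 1 := by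
    intro a b ha hb; exact (Valuation.map_add _ _ _).trans (max_le ha hb)
  have hsb : ∀ {a b : K}, v.valuation K a ≤ 1 → v.valuation K b ≤ 1 → v.valuation K (a - b) ≤ 1 := by
    intro a b ha hb; exact (Valuation.map_sub _ _ _).trans (max_le ha hb)
  have hq : ∀ {a : K}, v.valuation K a ≤ 1 → v.valuation K (a ^ 2) ≤ 1 := by
    intro a ha; rw [sq]; exact hm ha ha
  refine ⟨t * t', s * s', s ^ 2 * u' + s' ^ 2 * u + 4 * (u * u'),
    r * r' + (s - r) * (s' - r'), mul_ne_zero ht ht', ?_, ?_, hm hs hs', ?_, ?_, ?_⟩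
  · linear_combination e * (y * t' ^ 2) + e' * (s ^ 2 + 4 * u)
  · have h5 : x * y * (t * t') ^ 2 = (x * t ^ 2) * (y * t' ^ 2) := by ring
    rw [h5, map_mul, e1, e1', one_mul]
  · exact hp (hp (hm (hq hs) hu') (hm (hq hs') hu)) (hm h4le (hm hu hu'))
  · exact hp (hm hr hr') (hm (hsb hs hr) (hsb hs' hr'))
  · have e3 : (r * r' + (s - r) * (s' - r')) ^ 2 - (s * s') * (r * r' + (s - r) * (s' - r')) -
        (s ^ 2 * u' + s' ^ 2 * u + 4 * (u * u')) =
        (r ^ 2 - s * r - u) * (s' ^ 2 + 4 * r' * (r' - s')) + (r' ^ 2 - s' * r' - u') *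
          (s ^ 2 + 4 * u) := by ring
    rw [e3]
    refine Valuation.map_add_lt _ ?_ ?_
    · rw [map_mul]
      refine lt_of_le_of_lt (mul_le_of_le_one_right' ?_) hroot
      exact hp (hq hs') (hm (hm h4le hr') (hsb hr' hs'))
    · rw [map_mul]
      refine lt_of_le_of_lt (mul_le_of_le_one_right' ?_) hroot'
      exact hp (hq hs) (hm h4le hu)

lemma SplP.sq_of_none {v : HeightOneSpectrum (𝓞 K)} {x y : K} (hx : UnrC (v.valuation K) x)
    (hy : UnrC (v.valuation K) y) (h : ¬ SplP v x) (h' : ¬ SplP v y) : SplP v (x * y) := by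
  classical
  obtain ⟨t, s, u, ht, e, e1, hs, hu⟩ := hx
  obtain ⟨t', s', u', ht', e', e1', hs', hu'⟩ := hy
  have h2le : v.valuation K 2 ≤ 1 := w_two_le _
  have h4le : v.valuation K 4 ≤ 1 := w_four_le _
  have hm : ∀ {a b : K}, v.valuation K a ≤ 1 → v.valuation K b ≤ 1 → v.valuation K (a * b) ≤ 1 := by
    intro a b ha hb; rw [map_mul]; exact mul_le_one' ha hb
  have hp : ∀ {a b : K}, v.valuation K a ≤ 1 → v.valuation K b ≤ 1 → v.valuation K (a + b) ≤ 1 := by
    intro a b ha hb; exact (Valuation.map_add _ _ _).trans (max_le ha hb)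
  have hq : ∀ {a : K}, v.valuation K a ≤ 1 → v.valuation K (a ^ 2) ≤ 1 := by
    intro a ha; rw [sq]; exact hm ha ha
  have hI : ∀ a : 𝓞 K, v.valuation K (algebraMap (𝓞 K) K a) ≤ 1 := fun a => v.valuation_le_one a
  obtain ⟨a, ha⟩ := B7.exists_approx v hs
  obtain ⟨b, hb⟩ := B7.exists_approx v hu
  obtain ⟨a', ha'⟩ := B7.exists_approx v hs'
  obtain ⟨b', hb'⟩ := B7.exists_approx v hu'
  have := v.isMaximal
  let F := 𝓞 K ⧸ v.asIdeal
  let q : 𝓞 K →+* F := Ideal.Quotient.mk v.asIdeal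
  have hFfin : Finite F := v.asIdeal.finiteQuotientOfFreeOfNeBot v.ne_bot
  let _ : Field F := Ideal.Quotient.field v.asIdeal
  have hq0 : ∀ y : 𝓞 K, q y = 0 ↔ v.valuation K (algebraMap (𝓞 K) K y) < 1 := by
    intro y
    rw [HeightOneSpectrum.valuation_lt_one_iff_mem]
    exact Ideal.Quotient.eq_zero_iff_mem
  -- congruences
  have hsa : v.valuation K (s ^ 2 - (algebraMap (𝓞 K) K a) ^ 2) < 1 := by
    rw [sq, sq]; exact cg_mul ha ha hs (hI a)
  have hsa' : v.valuation K (s' ^ 2 - (algebraMap (𝓞 K) K a') ^ 2) < 1 := by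
    rw [sq, sq]; exact cg_mul ha' ha' hs' (hI a')
  have hnorm : ∀ {S U : K} {α β : 𝓞 K} (T X : K), X * T ^ 2 = S ^ 2 + 4 * U →
      v.valuation K (X * T ^ 2) = 1 → v.valuation K (S ^ 2 - (algebraMap (𝓞 K) K α) ^ 2) < 1 →
      v.valuation K (U - algebraMap (𝓞 K) K β) < 1 → q α ^ 2 + 4 * q β ≠ 0 := by
    intro S U α β T X hX hX1 h1 h2 h0
    have h3 : q (α ^ 2 + 4 * β) = 0 := by
      rw [map_add, map_pow, map_mul, map_ofNat]; exact h0
    rw [hq0] at h3
    have h4 : X * T ^ 2 = algebraMap (𝓞 K) K (α ^ 2 + 4 * β) +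
        ((S ^ 2 - (algebraMap (𝓞 K) K α) ^ 2) + 4 * (U - algebraMap (𝓞 K) K β)) := by
      rw [hX, map_add, map_pow, map_mul, map_ofNat]; ring
    have h5 : v.valuation K (4 * (U - algebraMap (𝓞 K) K β)) < 1 := by
      rw [map_mul]
      exact lt_of_le_of_lt (mul_le_of_le_one_left' h4le) h2
    have h6 : v.valuation K (X * T ^ 2) < 1 := by
      rw [h4]
      exact Valuation.map_add_lt _ h3 (Valuation.map_add_lt _ h1 h5)
    rw [hX1] at h6
    exact lt_irrefl _ h6
  have hnr : ∀ {S U : K} {α β : 𝓞 K} (T X : K), T ≠ 0 → X * T ^ 2 = S ^ 2 + 4 * U →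
      v.valuation K (X * T ^ 2) = 1 → v.valuation K S ≤ 1 → v.valuation K U ≤ 1 →
      v.valuation K (S - (algebraMap (𝓞 K) K α)) < 1 →
      v.valuation K (U - algebraMap (𝓞 K) K β) < 1 → ¬ SplP v X →
      ∀ ρ : F, ρ ^ 2 - q α * ρ - q β ≠ 0 := by
    intro S U α β T X hT hX hX1 hS hU h1 h2 hno ρ h0
    obtain ⟨r, rfl⟩ := Ideal.Quotient.mk_surjective ρ
    apply hno
    refine ⟨T, S, U, algebraMap (𝓞 K) K r, hT, hX, hX1, hS, hU, hI r, ?_⟩
    have h3 : q (r ^ 2 - α * r - β) = 0 := by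
      rw [map_sub, map_sub, map_pow, map_mul]; exact h0
    rw [hq0] at h3
    have h4 : (algebraMap (𝓞 K) K r) ^ 2 - S * algebraMap (𝓞 K) K r - U =
        algebraMap (𝓞 K) K (r ^ 2 - α * r - β) - ((S - algebraMap (𝓞 K) K α) *
          algebraMap (𝓞 K) K r + (U - algebraMap (𝓞 K) K β)) := by
      rw [map_sub, map_sub, map_pow, map_mul]; ring
    rw [h4]
    refine lt_of_le_of_lt (Valuation.map_sub _ _ _) (max_lt h3 ?_)
    refine Valuation.map_add_lt _ ?_ h2
    rw [map_mul]
    exact lt_of_le_of_lt (mul_le_of_le_one_right' (hI r)) h1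
  obtain ⟨ρ, hρ⟩ := root_mul (hnorm t x e e1 hsa hb) (hnorm t' y e' e1' hsa' hb')
    (hnr t x ht e e1 hs hu ha hb h) (hnr t' y ht' e' e1' hs' hu' ha' hb' h')
  obtain ⟨r, rfl⟩ := Ideal.Quotient.mk_surjective ρ
  have h3 : q (r ^ 2 - (a * a') * r - (a ^ 2 * b' + a' ^ 2 * b + 4 * (b * b'))) = 0 := by
    rw [← hρ]
    simp only [map_sub, map_add, map_mul, map_pow, map_ofNat]
    rfl
  rw [hq0] at h3
  refine ⟨t * t', s * s', s ^ 2 * u' + s' ^ 2 * u + 4 * (u * u'),
    algebraMap (𝓞 K) K r, mul_ne_zero ht ht', ?_, ?_, hm hs hs', ?_, hI r, ?_⟩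
  · linear_combination e * (y * t' ^ 2) + e' * (s ^ 2 + 4 * u)
  · have h5 : x * y * (t * t') ^ 2 = (x * t ^ 2) * (y * t' ^ 2) := by ring
    rw [h5, map_mul, e1, e1', one_mul]
  · exact hp (hp (hm (hq hs) hu') (hm (hq hs') hu)) (hm h4le (hm hu hu'))
  · have c1 := cg_mul ha ha' hs (hI a')
    have c2 := cg_mul hsa hb' (hq hs) (hI b')
    have c3 := cg_mul hsa' hb (hq hs') (hI b)
    have c4 := cg_mul hb hb' hu (hI b')
    have e4 : (algebraMap (𝓞 K) K r) ^ 2 - (s * s') * algebraMap (𝓞 K) K r -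
        (s ^ 2 * u' + s' ^ 2 * u + 4 * (u * u')) =
        algebraMap (𝓞 K) K (r ^ 2 - (a * a') * r - (a ^ 2 * b' + a' ^ 2 * b + 4 * (b * b'))) -
        ((s * s' - algebraMap (𝓞 K) K a * algebraMap (𝓞 K) K a') * algebraMap (𝓞 K) K r +
        ((s ^ 2 * u' - (algebraMap (𝓞 K) K a) ^ 2 * algebraMap (𝓞 K) K b') +
        ((s' ^ 2 * u - (algebraMap (𝓞 K) K a') ^ 2 * algebraMap (𝓞 K) K b) +
        4 * (u * u' - algebraMap (𝓞 K) K b * algebraMap (𝓞 K) K b')))) := by
      simp only [map_sub, map_add, map_mul, map_pow, map_ofNat]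
      ring
    rw [e4]
    refine lt_of_le_of_lt (Valuation.map_sub _ _ _) (max_lt h3 ?_)
    refine Valuation.map_add_lt _ ?_ (Valuation.map_add_lt _ c2 (Valuation.map_add_lt _ c3 ?_))
    · rw [map_mul]
      exact lt_of_le_of_lt (mul_le_of_le_one_right' (hI r)) c1
    · rw [map_mul]
      exact lt_of_le_of_lt (mul_le_of_le_one_left' h4le) c4

end

end Pool.Agent.Y682
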