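import Mathlib
import Pool.Agent.Y682.Dv
import Pool.Agent.Y682.Spl

/-!
# Counting the elements that are unramified at all the finite places
-/

set_option autoImplicit false
set_option linter.unusedSectionVars false

open NumberField IsDedekindDomain nonZeroDivisors

namespace Pool.Agent.Y682

open Pool.Agent.TeamU Pool.Agent.TeamU.KI

section

variable {K : Type} [Field K] [NumberField K]

lemma par_one (v : HeightOneSpectrum (𝓞 K)) : par v (1 : Kˣ) = 0 := by
  unfold par
  rw [Units.val_one, map_one, WithZero.log_one]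
  rfl

lemma par_prod {ι : Type*} (v : HeightOneSpectrum (𝓞 K)) (s : Finset ι) (f : ι → Kˣ) :
    par v (∏ i ∈ s, f i) = ∑ i ∈ s, par v (f i) := by
  classical
  induction s using Finset.induction_on with
  | empty => rw [Finset.prod_empty, Finset.sum_empty, par_one]
  | insert a s ha ih => rw [Finset.prod_insert ha, Finset.sum_insert ha, par_mul, ih]

/-- the counting argument -/
theorem core (x : Kˣ) [hF : Fact (∀ r : K, r ^ 2 ≠ (x : K) + 0 * r)]
    (hunr : ∀ P : HeightOneSpectrum (𝓞 (QE (x : K))), Unr K P)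
    (S : Finset (HeightOneSpectrum (𝓞 K))) (hcl : ClTriv S)
    (hp : ∀ v ∈ S, ¬ Splits (QE (x : K)) v → ∃ p : Kˣ, TotPos (p : K) ∧ p ∈ SU S ∧ par v p = 1 ∧
      ∀ w ∈ S, ¬ Splits (QE (x : K)) w → w ≠ v → par w p = 0)
    (hu : ∀ A : Set (K →+* ℝ), ∃ u : Kˣ, (∀ φ : K →+* ℝ, (φ ∈ A → φ (u : K) < 0) ∧
      (φ ∉ A → 0 < φ (u : K))) ∧ u ∈ SU S ∧
      ∀ w ∈ S, ¬ Splits (QE (x : K)) w → par w u = 0) : False := by
  classical
  have hherb := herbrand (finrank_QE (x : K)) S hcl fun P _ => hunr P
  set H := ((SE (QE (x : K)) S).unit (QE (x : K))).map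
    (Units.map (Algebra.norm K : QE (x : K) →* K)) with hH
  have hne : H.relIndex (SU S) ≠ 0 := by
    intro h
    rw [h, zero_mul] at hherb
    exact absurd hherb.symm (by positivity)
  set R := S.filter fun v => ¬ Splits (QE (x : K)) v with hR
  have hRS : R ⊆ S := Finset.filter_subset _ _
  obtain ⟨R', hR'1, hR'2⟩ := card_inf (x : K)
  have hcount := count_SE (E := QE (x : K)) S R hRS (fun v hv hvR => by
    by_contra hn
    exact hvR (Finset.mem_filter.2 ⟨hv, hn⟩))
  -- the two families of elements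
  have hp' : ∀ v : HeightOneSpectrum (𝓞 K), ∃ p : Kˣ, v ∈ R → TotPos (p : K) ∧ p ∈ SU S ∧
      par v p = 1 ∧ ∀ w ∈ R, w ≠ v → par w p = 0 := by
    intro v
    by_cases hv : v ∈ R
    · obtain ⟨p, h1, h2, h3, h4⟩ := hp v (hRS hv) (Finset.mem_filter.1 hv).2
      exact ⟨p, fun _ => ⟨h1, h2, h3, fun w hw => h4 w (hRS hw) (Finset.mem_filter.1 hw).2⟩⟩
    · exact ⟨1, fun h => absurd h hv⟩
  choose p hpp using hp'
  choose u hu1 hu2 hu3 using fun B : Finset (InfinitePlace K) => hu
    {φ : K →+* ℝ | InfinitePlace.mk (Complex.ofRealHom.comp φ) ∈ B}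
  let f : R.powerset × R'.powerset → Kˣ := fun A => (∏ v ∈ A.1.1, p v) * u A.2.1
  have hA1 : ∀ A : R.powerset × R'.powerset, A.1.1 ⊆ R := fun A => Finset.mem_powerset.1 A.1.2
  have hfpar : ∀ (A : R.powerset × R'.powerset), ∀ v ∈ R,
      par v (f A) = if v ∈ A.1.1 then 1 else 0 := by
    intro A v hv
    simp only [f]
    rw [par_mul, hu3 A.2.1 v (hRS hv) (Finset.mem_filter.1 hv).2, add_zero, par_prod]
    by_cases hvA : v ∈ A.1.1
    · rw [if_pos hvA, Finset.sum_eq_single v, (hpp v hv).2.2.1]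
      · intro w hw hwv
        exact (hpp w (hA1 A hw)).2.2.2 v hv hwv.symm
      · intro h; exact absurd hvA h
    · rw [if_neg hvA]
      refine Finset.sum_eq_zero fun w hw => ?_
      exact (hpp w (hA1 A hw)).2.2.2 v hv (fun h => hvA (h ▸ hw))
  have hfmem : ∀ A, f A ∈ SU S := by
    intro A
    refine Subgroup.mul_mem _ (Subgroup.prod_mem _ fun v hv => ?_) (hu2 A.2.1)
    exact (hpp v (hA1 A hv)).2.1
  have hsign : ∀ (A : R.powerset × R'.powerset) (φ : K →+* ℝ),
      (InfinitePlace.mk (Complex.ofRealHom.comp φ) ∈ A.2.1 → φ (f A : K) < 0) ∧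
      (InfinitePlace.mk (Complex.ofRealHom.comp φ) ∉ A.2.1 → 0 < φ (f A : K)) := by
    intro A φ
    have h1 : 0 < φ ((∏ w ∈ A.1.1, p w : Kˣ) : K) := by
      rw [Units.coe_prod, map_prod]
      exact Finset.prod_pos fun w hw => (hpp w (hA1 A hw)).1 φ
    have h2 := hu1 A.2.1 φ
    simp only [f]
    rw [Units.val_mul, map_mul]
    exact ⟨fun h3 => mul_neg_of_pos_of_neg h1 (h2.1 h3), fun h3 => mul_pos h1 (h2.2 h3)⟩
  have heven : ∀ v ∈ R, ∀ g ∈ H, par v g = 0 := by
    rintro v hv g ⟨α, _, rfl⟩
    obtain ⟨P, hP⟩ := exists_over' (E := QE (x : K)) v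
    have h1 := norm_even (finrank_QE (x : K)) (Finset.mem_filter.1 hv).2 hP (hunr P) (α : QE (x : K))
    have h2 : par v (Units.map (Algebra.norm K : QE (x : K) →* K) α) =
      ((WithZero.log (v.valuation K (Algebra.norm K (α : QE (x : K)))) : ℤ) : ZMod 2) := rfl
    rw [h2, h1, WithZero.log_pow, nsmul_eq_mul]
    push_cast
    have h3 : (2 : ZMod 2) = 0 := rfl
    rw [h3, zero_mul]
  have hpos : ∀ w ∈ R', ∃ φ : K →+* ℝ, InfinitePlace.mk (Complex.ofRealHom.comp φ) = w ∧
      ∀ g ∈ H, 0 < φ ((g : Kˣ) : K) := by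
    intro w hw
    obtain ⟨φ, hφ, hneg⟩ := hR'1 w hw
    refine ⟨φ, hφ, ?_⟩
    rintro g ⟨α, _, rfl⟩
    exact norm_pos_of_neg (x : K) hneg (α : QE (x : K)) α.ne_zero
  have hinj : ∀ A B : R.powerset × R'.powerset, A ≠ B → (f A)⁻¹ * f B ∉ H := by
    intro A B hAB hmem
    by_cases h1 : A.1.1 = B.1.1
    · have h2 : A.2.1 ≠ B.2.1 := by
        intro h2
        exact hAB (Prod.ext (Subtype.ext h1) (Subtype.ext h2))
      obtain ⟨w, hw⟩ : ∃ w, ¬ (w ∈ A.2.1 ↔ w ∈ B.2.1) := by
        by_contra hcon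
        push Not at hcon
        exact h2 (Finset.ext hcon)
      have hwR : w ∈ R' := by
        by_contra hwR
        exact hw ⟨fun h3 => absurd ((Finset.mem_powerset.1 A.2.2) h3) hwR,
          fun h3 => absurd ((Finset.mem_powerset.1 B.2.2) h3) hwR⟩
      obtain ⟨φ, hφ, hg⟩ := hpos w hwR
      have h3 := hg _ hmem
      rw [Units.val_mul, Units.val_inv_eq_inv_val, map_mul, map_inv₀] at h3
      have hsA := hsign A φ
      have hsB := hsign B φ
      rw [hφ] at hsA hsB
      by_cases hwA : w ∈ A.2.1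
      · have hwB : w ∉ B.2.1 := fun h4 => hw ⟨fun _ => h4, fun _ => hwA⟩
        have h4 := mul_neg_of_neg_of_pos (inv_neg''.2 (hsA.1 hwA)) (hsB.2 hwB)
        linarith
      · have hwB : w ∈ B.2.1 := by
          by_contra h4
          exact hw ⟨fun h5 => absurd h5 hwA, fun h5 => absurd h5 h4⟩
        have h4 := mul_neg_of_pos_of_neg (inv_pos.2 (hsA.2 hwA)) (hsB.1 hwB)
        linarith
    · obtain ⟨v, hv⟩ : ∃ v, ¬ (v ∈ A.1.1 ↔ v ∈ B.1.1) := by
        by_contra hcon
        push Not at hcon
        exact h1 (Finset.ext hcon)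
      have hvR : v ∈ R := by
        by_contra hvR
        exact hv ⟨fun h3 => absurd ((Finset.mem_powerset.1 A.1.2) h3) hvR,
          fun h3 => absurd ((Finset.mem_powerset.1 B.1.2) h3) hvR⟩
      have hc := heven v hvR _ hmem
      rw [par_mul, par_inv, hfpar A v hvR, hfpar B v hvR] at hc
      by_cases hvA : v ∈ A.1.1
      · have hvB : v ∉ B.1.1 := fun h4 => hv ⟨fun _ => h4, fun _ => hvA⟩
        rw [if_pos hvA, if_neg hvB] at hc
        exact absurd hc (by decide)
      · have hvB : v ∈ B.1.1 := by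
          by_contra h4
          exact hv ⟨fun h5 => absurd h5 hvA, fun h5 => absurd h5 h4⟩
        rw [if_neg hvA, if_pos hvB] at hc
        exact absurd hc (by decide)
  have hge := card_le_relIndex H (SU S) hne f hfmem hinj
  rw [Fintype.card_prod, Fintype.card_coe, Finset.card_powerset, Fintype.card_coe,
    Finset.card_powerset, ← pow_add] at hge
  have h1 : 2 ^ (R.card + R'.card + (Units.rank (QE (x : K)) + (SE (QE (x : K)) S).ncard)) ≤
      2 ^ (2 * (Units.rank K + S.card)) := by
    rw [← hherb, pow_add]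
    exact Nat.mul_le_mul_right _ hge
  have h2 := (Nat.pow_le_pow_iff_right (by norm_num : 1 < 2)).mp h1
  have h3 : 0 < Fintype.card (InfinitePlace K) := Fintype.card_pos
  have h4 : 0 < Fintype.card (InfinitePlace (QE (x : K))) := Fintype.card_pos
  unfold Units.rank at h2
  omega

/-- the order as a homomorphism -/
lemma od_closure {Q : Set (HeightOneSpectrum (𝓞 K))} {w : HeightOneSpectrum (𝓞 K)} (hw : w ∉ Q)
    {B : (FractionalIdeal (𝓞 K)⁰ K)ˣ} (hB : B ∈ Subgroup.closure (pI '' Q)) : od w B = 0 := by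
  induction hB using Subgroup.closure_induction with
  | mem x hx =>
    obtain ⟨v, hv, rfl⟩ := hx
    exact od_pI_ne (fun h => hw (h ▸ hv))
  | one => exact od_one w
  | mul x y _ _ hx hy => rw [od_mul, hx, hy, add_zero]
  | inv x _ hx => rw [od_inv, hx, neg_zero]

lemma mem_SU {S : Finset (HeightOneSpectrum (𝓞 K))} {x : Kˣ}
    (h : ∀ w ∉ S, od w (toPrincipalIdeal (𝓞 K) K x) = 0) : x ∈ SU S := by
  intro w hw
  have h1 := h w hw
  rw [od_prin, neg_eq_zero] at h1
  have h0 : w.valuation K (x : K) ≠ 0 := (Valuation.ne_zero_iff _).2 x.ne_zero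
  rw [← WithZero.exp_log h0, h1, WithZero.exp_zero]

/-- an unramified element that splits at places generating the narrow class group modulo squares
is a square -/
theorem sq_of_split [Finite (NCl K)] (Q : Finset (HeightOneSpectrum (𝓞 K)))
    (hQ : ∀ g : NCl K, ∃ B ∈ Subgroup.closure (pI '' (Q : Set (HeightOneSpectrum (𝓞 K)))),
      ∃ h : NCl K, g = (B : NCl K) * h ^ 2) (x : Kˣ)
    (hx : ∀ v : HeightOneSpectrum (𝓞 K), UnrC (v.valuation K) (x : K))
    (hs : ∀ v ∈ Q, SplP v (x : K)) : ∃ y : Kˣ, y ^ 2 = x := by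
  classical
  by_contra hns
  have hns' : ∀ r : K, r ^ 2 ≠ (x : K) + 0 * r := by
    intro r hr
    rw [zero_mul, add_zero] at hr
    have hr0 : r ≠ 0 := by
      rintro rfl
      apply x.ne_zero
      rw [← hr]
      ring
    exact hns ⟨Units.mk0 r hr0, Units.ext (by simpa using hr)⟩
  have hF : Fact (∀ r : K, r ^ 2 ≠ (x : K) + 0 * r) := ⟨hns'⟩
  have hunr : ∀ P : HeightOneSpectrum (𝓞 (QE (x : K))), Unr K P := by
    intro P
    obtain ⟨v, hv⟩ := b2_exists_under (M := K) P
    exact unr_of_unrC (finrank_QE (x : K)) (hx v) QuadraticAlgebra.omega (omega_sq _)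
      (omega_notin _) P hv
  have hQs : ∀ v, ¬ Splits (QE (x : K)) v → v ∉ Q := by
    intro v hv hvQ
    exact hv (splits_of_splP (finrank_QE (x : K)) (hs v hvQ) QuadraticAlgebra.omega (omega_sq _)
      (omega_notin _))
  -- the representatives
  have := Fintype.ofFinite (NCl K)
  obtain ⟨J, hJ⟩ : ∃ J : NCl K → (FractionalIdeal (𝓞 K)⁰ K)ˣ, ∀ h, (J h : NCl K) = h :=
    ⟨fun h => h.out, fun h => Quotient.out_eq h⟩
  set S0 : Finset (HeightOneSpectrum (𝓞 K)) := Q ∪ Finset.univ.biUnion
    (fun h : NCl K => (od_fin (J h)).toFinset) with hS0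
  obtain ⟨S, hS, hcl⟩ := exists_clTriv (M := K) S0
  have hQS : Q ⊆ S := Finset.subset_union_left.trans hS
  have hJS : ∀ (h : NCl K) (w : HeightOneSpectrum (𝓞 K)), w ∉ S → od w (J h) = 0 := by
    intro h w hw
    by_contra h1
    apply hw
    apply hS
    rw [hS0, Finset.mem_union, Finset.mem_biUnion]
    exact Or.inr ⟨h, Finset.mem_univ _, (Set.Finite.mem_toFinset _).2 h1⟩
  -- the generation
  have key : ∀ I : (FractionalIdeal (𝓞 K)⁰ K)ˣ, ∃ (y : Kˣ) (h : NCl K)
      (B : (FractionalIdeal (𝓞 K)⁰ K)ˣ), TotPos (y : K) ∧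
      B ∈ Subgroup.closure (pI '' (Q : Set (HeightOneSpectrum (𝓞 K)))) ∧
      I = toPrincipalIdeal (𝓞 K) K y * (B * (J h) ^ 2) := by
    intro I
    obtain ⟨B, hB, h, hg⟩ := hQ (I : NCl K)
    have h1 : ((B * (J h) ^ 2 : (FractionalIdeal (𝓞 K)⁰ K)ˣ) : NCl K) = (I : NCl K) := by
      rw [QuotientGroup.mk_mul, QuotientGroup.mk_pow, hJ, hg]
    rw [QuotientGroup.eq] at h1
    obtain ⟨y, hy, hyI⟩ := h1
    refine ⟨y, h, B, hy, hB, ?_⟩
    rw [hyI, mul_comm (B * (J h) ^ 2)⁻¹, inv_mul_cancel_right]
  refine core x hunr S hcl ?_ ?_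
  · intro v hv hvs
    obtain ⟨y, h, B, hy, hB, hI⟩ := key (pI v)
    have hod : ∀ w, w ∉ Q → od w (pI v) = od w (toPrincipalIdeal (𝓞 K) K y) + 2 * od w (J h) := by
      intro w hw
      rw [hI, od_mul, od_mul, od_closure (fun h => hw h) hB, od_pow]
      push_cast
      ring
    have hpar : ∀ w, w ∉ Q → par w y = ((od w (pI v) : ℤ) : ZMod 2) := by
      intro w hw
      rw [par_eq_od, hod w hw]
      push_cast
      have h3 : (2 : ZMod 2) = 0 := rfl
      rw [h3, zero_mul, add_zero]
    refine ⟨y, hy, mem_SU fun w hw => ?_, ?_, ?_⟩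
    · have h1 := hod w (fun h => hw (hQS h))
      have hvw : v ≠ w := by
        rintro rfl
        exact hw hv
      rw [hJS h w hw, mul_zero, add_zero, od_pI_ne hvw] at h1
      exact h1.symm
    · rw [hpar v (hQs v hvs), od_pI_self]
      rfl
    · intro w hw hws hwv
      rw [hpar w (hQs w hws), od_pI_ne hwv.symm]
      rfl
  · intro A
    obtain ⟨z, hz⟩ := exists_signs (K := K) A
    obtain ⟨y, h, B, hy, hB, hI⟩ := key (toPrincipalIdeal (𝓞 K) K z)
    have hu : toPrincipalIdeal (𝓞 K) K (z * y⁻¹) = B * (J h) ^ 2 := by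
      rw [map_mul, map_inv, hI, mul_comm, inv_mul_cancel_left]
    have hod : ∀ w, w ∉ Q → od w (toPrincipalIdeal (𝓞 K) K (z * y⁻¹)) = 2 * od w (J h) := by
      intro w hw
      rw [hu, od_mul, od_closure (fun h => hw h) hB, od_pow]
      push_cast
      ring
    refine ⟨z * y⁻¹, fun φ => ?_, mem_SU fun w hw => ?_, ?_⟩
    · have hy' : 0 < φ ((y⁻¹ : Kˣ) : K) := by
        rw [Units.val_inv_eq_inv_val, map_inv₀]; exact inv_pos.2 (hy φ)
      rw [Units.val_mul, map_mul]
      exact ⟨fun h => mul_neg_of_neg_of_pos ((hz φ).1 h) hy', fun h => mul_pos ((hz φ).2 h) hy'⟩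
    · rw [hod w (fun h => hw (hQS h)), hJS h w hw, mul_zero]
    · intro w hw hws
      rw [par_eq_od, hod w (hQs w hws)]
      push_cast
      have h3 : (2 : ZMod 2) = 0 := rfl
      rw [h3, zero_mul]

/-- a small set of generators -/
lemma small_gen {G : Type*} [Group G] [Finite G] (s : Set G) (hs : Subgroup.closure s = ⊤) :
    ∃ t : Finset G, (t : Set G) ⊆ s ∧ Subgroup.closure (t : Set G) = ⊤ ∧
      2 ^ t.card ≤ Nat.card G := by
  classical
  by_contra hcon
  have key : ∀ n : ℕ, ∃ t : Finset G, (t : Set G) ⊆ s ∧ t.card = n ∧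
      2 ^ n ≤ Nat.card (Subgroup.closure (t : Set G)) := by
    intro n
    induction n with
    | zero => exact ⟨∅, by simp, rfl, by rw [pow_zero]; exact Nat.card_pos⟩
    | succ n ih =>
      obtain ⟨t, hts, htn, hc⟩ := ih
      have hne : Subgroup.closure (t : Set G) ≠ ⊤ := by
        intro h
        apply hcon
        refine ⟨t, hts, h, ?_⟩
        rw [htn]
        refine hc.trans (le_of_eq ?_)
        rw [h]
        exact Nat.card_congr Subgroup.topEquiv.toEquiv
      obtain ⟨a, has, hat⟩ : ∃ a ∈ s, a ∉ Subgroup.closure (t : Set G) := by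
        by_contra h
        push Not at h
        apply hne
        rw [eq_top_iff, ← hs, Subgroup.closure_le]
        exact h
      have hat' : a ∉ t := fun h => hat (Subgroup.subset_closure h)
      refine ⟨insert a t, ?_, by rw [Finset.card_insert_of_notMem hat', htn], ?_⟩
      · rw [Finset.coe_insert]
        exact Set.insert_subset has hts
      · have hle : Subgroup.closure (t : Set G) ≤ Subgroup.closure ((insert a t : Finset G) : Set G) := by
          apply Subgroup.closure_mono
          rw [Finset.coe_insert]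
          exact Set.subset_insert _ _
        have h1 := Subgroup.relIndex_mul_relIndex ⊥ _ _ bot_le hle
        rw [Subgroup.relIndex_bot_left, Subgroup.relIndex_bot_left] at h1
        have h2 : (Subgroup.closure (t : Set G)).relIndex
            (Subgroup.closure ((insert a t : Finset G) : Set G)) ≠ 1 := by
          intro h
          rw [Subgroup.relIndex_eq_one] at h
          apply hat
          apply h
          apply Subgroup.subset_closure
          rw [Finset.coe_insert]
          exact Set.mem_insert _ _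
        have h3 : 0 < Nat.card (Subgroup.closure ((insert a t : Finset G) : Set G)) := Nat.card_pos
        have h4 : (Subgroup.closure (t : Set G)).relIndex
            (Subgroup.closure ((insert a t : Finset G) : Set G)) ≠ 0 := by
          intro h
          rw [h, mul_zero] at h1
          omega
        rw [← h1, pow_succ]
        exact Nat.mul_le_mul hc (by omega)
  obtain ⟨t, -, -, h⟩ := key (Nat.card G)
  have h1 : Nat.card (Subgroup.closure (t : Set G)) ≤ Nat.card G := Subgroup.card_le_card_group _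
  have h2 : Nat.card G < 2 ^ Nat.card G := Nat.lt_two_pow_self
  omega

/-- every fractional ideal is a product of places -/
lemma mem_of_pI (H : Subgroup (FractionalIdeal (𝓞 K)⁰ K)ˣ) (hH : ∀ v, pI v ∈ H) : H = ⊤ := by
  classical
  rw [eq_top_iff]
  intro I _
  have hI : I = ∏ v ∈ (od_fin I).toFinset, pI v ^ (od v I) := by
    apply od_ext
    intro w
    have hprod : ∀ s : Finset (HeightOneSpectrum (𝓞 K)),
        od w (∏ v ∈ s, pI v ^ (od v I)) = if w ∈ s then od w I else 0 := by
      intro s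
      induction s using Finset.induction_on with
      | empty => simp [od_one]
      | insert a s ha ih =>
        have hz : od w (pI a ^ (od a I)) = if w = a then od w I else 0 := by
          unfold od
          rw [Units.val_zpow_eq_zpow_val, FractionalIdeal.count_zpow]
          by_cases hwa : w = a
          · subst hwa
            have h1 : FractionalIdeal.count K w ((pI w : (FractionalIdeal (𝓞 K)⁰ K)ˣ) :
              FractionalIdeal (𝓞 K)⁰ K) = 1 := od_pI_self w
            rw [if_pos rfl, h1, mul_one]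
          · have h1 : FractionalIdeal.count K w ((pI a : (FractionalIdeal (𝓞 K)⁰ K)ˣ) :
              FractionalIdeal (𝓞 K)⁰ K) = 0 := od_pI_ne (fun h => hwa h.symm)
            rw [if_neg hwa, h1, mul_zero]
        rw [Finset.prod_insert ha, od_mul, ih, hz]
        by_cases hwa : w = a
        · subst hwa
          rw [if_pos rfl, if_neg ha, if_pos (Finset.mem_insert_self _ _), add_zero]
        · rw [if_neg hwa, zero_add]
          by_cases hws : w ∈ s
          · rw [if_pos hws, if_pos (Finset.mem_insert_of_mem hws)]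
          · rw [if_neg hws, if_neg]
            intro h
            rcases Finset.mem_insert.1 h with h | h
            · exact hwa h
            · exact hws h
    rw [hprod]
    split_ifs with h
    · rfl
    · rw [Set.Finite.mem_toFinset] at h
      by_contra h1
      exact h (fun h2 => h1 h2)
  rw [hI]
  exact Subgroup.prod_mem _ fun v _ => Subgroup.zpow_mem _ (hH v) _

/-- the elements of order two -/
def tw (G : Type*) [CommGroup G] : Subgroup G := (powMonoidHom 2 : G →* G).ker

/-- the squares of a group -/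
def sqs (G : Type*) [CommGroup G] : Subgroup G := (powMonoidHom 2 : G →* G).range

/-- in a finite commutative group squares have index equal to the number of involutions -/
lemma index_sq_fin (G : Type*) [CommGroup G] [Finite G] : (sqs G).index = Nat.card (tw G) := by
  unfold sqs tw
  have e1 := Subgroup.card_mul_index (powMonoidHom 2 : G →* G).ker
  have e2 := Subgroup.card_mul_index (powMonoidHom 2 : G →* G).range
  rw [Subgroup.index_ker] at e1
  have h3 : 0 < Nat.card (powMonoidHom 2 : G →* G).range := Nat.card_pos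
  refine Nat.eq_of_mul_eq_mul_left h3 ?_
  rw [e2, ← e1, mul_comm]

/-- few places generate the narrow class group modulo squares -/
lemma exists_Q [Finite (NCl K)] : ∃ Q : Finset (HeightOneSpectrum (𝓞 K)),
    2 ^ Q.card ≤ Nat.card (tw (NCl K)) ∧
    ∀ g : NCl K, ∃ B ∈ Subgroup.closure (pI '' (Q : Set (HeightOneSpectrum (𝓞 K)))),
      ∃ h : NCl K, g = (B : NCl K) * h ^ 2 := by
  classical
  let N : Subgroup (NCl K) := sqs (NCl K)
  have hN : N.Normal := ⟨fun n hn g => by
    rw [mul_comm g n, mul_inv_cancel_right]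
    exact hn⟩
  let π : (FractionalIdeal (𝓞 K)⁰ K)ˣ →* (NCl K ⧸ N) :=
    (QuotientGroup.mk' N).comp (QuotientGroup.mk' (nPrin K))
  have hπ : Function.Surjective π :=
    (QuotientGroup.mk'_surjective N).comp (QuotientGroup.mk'_surjective (nPrin K))
  have hcl : Subgroup.closure (Set.range fun v : HeightOneSpectrum (𝓞 K) => π (pI v)) = ⊤ := by
    have h1 : (Subgroup.closure (Set.range fun v : HeightOneSpectrum (𝓞 K) => π (pI v))).comap π =
        ⊤ := mem_of_pI _ fun v => Subgroup.subset_closure ⟨v, rfl⟩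
    rw [← Subgroup.map_comap_eq_self_of_surjective hπ
      (Subgroup.closure (Set.range fun v : HeightOneSpectrum (𝓞 K) => π (pI v))), h1,
      ← MonoidHom.range_eq_map, MonoidHom.range_eq_top.2 hπ]
  obtain ⟨t, hts, htop, hcard⟩ := small_gen _ hcl
  choose q hq using fun x : {x // x ∈ t} => hts x.2
  refine ⟨t.attach.image q, ?_, ?_⟩
  · rw [← index_sq_fin]
    refine (Nat.pow_le_pow_right (by norm_num) Finset.card_image_le).trans ?_
    rw [Finset.card_attach]
    exact hcard
  · intro g
    have h1 : Subgroup.closure (t : Set (NCl K ⧸ N)) ≤ (Subgroup.closure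
        (pI '' ((t.attach.image q : Finset (HeightOneSpectrum (𝓞 K))) :
          Set (HeightOneSpectrum (𝓞 K))))).map π := by
      rw [Subgroup.closure_le]
      intro x hx
      refine ⟨pI (q ⟨x, hx⟩), Subgroup.subset_closure ⟨q ⟨x, hx⟩, ?_, rfl⟩, hq ⟨x, hx⟩⟩
      rw [Finset.mem_coe]
      exact Finset.mem_image_of_mem _ (Finset.mem_attach _ _)
    rw [htop] at h1
    obtain ⟨B, hB, hBg⟩ := h1 (Subgroup.mem_top (QuotientGroup.mk' N g))
    refine ⟨B, hB, ?_⟩
    have h2 : QuotientGroup.mk' N (B : NCl K) = QuotientGroup.mk' N g := hBg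
    rw [QuotientGroup.mk'_apply, QuotientGroup.mk'_apply, QuotientGroup.eq] at h2
    obtain ⟨h, hh⟩ := h2
    refine ⟨h, ?_⟩
    have h3 : h ^ 2 = (B : NCl K)⁻¹ * g := hh
    rw [h3, mul_inv_cancel_left]

/-- the bound for the second group -/
theorem card_V0q [Finite (NCl K)] : Finite (V0q K) ∧
    Nat.card (V0q K) ≤ Nat.card (tw (NCl K)) := by
  classical
  obtain ⟨Q, hQc, hQ⟩ := exists_Q (K := K)
  have hb : ∀ q : V0q K, ∃ b : Kˣ, b ∈ V0 K ∧ QuotientGroup.mk' (Sq K) b = q.1 := fun q => q.2
  choose b hb1 hb2 using hb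
  let F : V0q K → (Q → Prop) := fun q v => SplP v.1 (b q : K)
  have hF : Function.Injective F := by
    intro q q' h
    have h1 : ∃ y : Kˣ, y ^ 2 = b q * b q' := by
      refine sq_of_split Q hQ (b q * b q') (fun v => ?_) (fun v hv => ?_)
      · rw [Units.val_mul]
        exact (hb1 q v).mul (hb1 q' v)
      · rw [Units.val_mul]
        have h2 : SplP v (b q : K) = SplP v (b q' : K) := congrFun h ⟨v, hv⟩
        by_cases h3 : SplP v (b q : K)
        · exact h3.sq_of_both (h2 ▸ h3)
        · exact SplP.sq_of_none (hb1 q v) (hb1 q' v) h3 (h2 ▸ h3)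
    obtain ⟨y, hy⟩ := h1
    apply Subtype.ext
    rw [← hb2 q, ← hb2 q', QuotientGroup.mk'_apply, QuotientGroup.mk'_apply, QuotientGroup.eq]
    refine ⟨y * (b q)⁻¹, ?_⟩
    rw [powMonoidHom_apply, mul_pow, hy, inv_pow, pow_two, mul_inv]
    rw [mul_comm (b q) (b q'), mul_assoc, mul_inv_cancel_left, mul_comm]
  refine ⟨Finite.of_injective F hF, (Nat.card_le_card_of_injective F hF).trans ?_⟩
  refine le_trans (le_of_eq ?_) hQc
  rw [Nat.card_fun, Nat.card_eq_fintype_card (α := Q), Fintype.card_coe]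
  congr 1
  rw [Nat.card_congr Equiv.propEquivBool, Nat.card_eq_fintype_card, Fintype.card_bool]

end

end Pool.Agent.Y682
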