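import Mathlib
import Pool.Agent.Y682.Vc

/-!
# Counting the totally positive elements with even valuations
-/

set_option autoImplicit false
set_option linter.unusedSectionVars false

open NumberField IsDedekindDomain nonZeroDivisors

namespace Pool.Agent.Y682

section

variable {K : Type} [Field K] [NumberField K]

/-- a real embedding -/
lemma real_of_emb (φ : K →+* ℝ) :
    InfinitePlace.IsReal (InfinitePlace.mk (Complex.ofRealHom.comp φ)) := by
  rw [InfinitePlace.isReal_iff]
  have h : ComplexEmbedding.IsReal (Complex.ofRealHom.comp φ) := by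
    refine RingHom.ext fun y => ?_
    exact Complex.conj_ofReal _
  rw [InfinitePlace.embedding_mk_eq_of_isReal h]
  exact h

lemma card_real : Nat.card (K →+* ℝ) = InfinitePlace.nrRealPlaces K := by
  classical
  have e : (K →+* ℝ) ≃ {w : InfinitePlace K // w.IsReal} := by
    refine Equiv.ofBijective (fun φ => ⟨_, real_of_emb φ⟩) ⟨?_, ?_⟩
    · intro φ ψ h
      have h1 := congrArg Subtype.val h
      simp only [InfinitePlace.mk_eq_iff] at h1
      refine RingHom.ext fun x => ?_
      apply Complex.ofReal_injective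
      rcases h1 with h1 | h1
      · exact DFunLike.congr_fun h1 x
      · have h2 := DFunLike.congr_fun h1 x
        have h3 : ComplexEmbedding.conjugate (Complex.ofRealHom.comp φ) x =
            (starRingEnd ℂ) ((φ x : ℝ) : ℂ) := rfl
        rw [h3, Complex.conj_ofReal] at h2
        exact h2
    · rintro ⟨w, hw⟩
      have h4 : ComplexEmbedding.IsReal w.embedding := InfinitePlace.isReal_iff.1 hw
      refine ⟨h4.embedding, Subtype.ext ?_⟩
      have h5 : Complex.ofRealHom.comp h4.embedding = w.embedding :=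
        RingHom.ext fun x => h4.coe_embedding_apply x
      change InfinitePlace.mk (Complex.ofRealHom.comp h4.embedding) = w
      rw [h5, InfinitePlace.mk_embedding]
  rw [Nat.card_congr e, Nat.card_eq_fintype_card]

instance finite_real : Finite (K →+* ℝ) := by
  refine Finite.of_injective (fun φ : K →+* ℝ => Complex.ofRealHom.comp φ) ?_
  intro φ ψ h
  refine RingHom.ext fun x => ?_
  exact Complex.ofReal_injective (DFunLike.congr_fun h x)

variable (K)

/-- all the signs -/
noncomputable def sgK : Kˣ →* ((K →+* ℝ) → ℤˣ) := MonoidHom.pi fun φ => sg φ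

/-- the principal fractional ideals -/
noncomputable def prin : Subgroup (FractionalIdeal (𝓞 K)⁰ K)ˣ := (toPrincipalIdeal (𝓞 K) K).range

variable {K}

lemma sgK_surj : Function.Surjective (sgK K) := by
  intro ε
  obtain ⟨u, hu⟩ := exists_signs (K := K) {φ | ε φ ≠ 1}
  refine ⟨u, funext fun φ => ?_⟩
  change sg φ u = ε φ
  by_cases h1 : ε φ = 1
  · rw [h1, sg_eq_one]
    exact (hu φ).2 (fun h2 => h2 h1)
  · have h2 : ¬ sg φ u = 1 := by
      rw [sg_eq_one]
      exact ((hu φ).1 h1).not_gt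
    rw [(Int.units_eq_one_or _).resolve_left h1, (Int.units_eq_one_or _).resolve_left h2]

lemma nPrin_le : nPrin K ≤ prin K := by
  rintro _ ⟨x, -, rfl⟩
  exact ⟨x, rfl⟩

/-- the index of the totally positive principal ideals -/
lemma relIndex_nPrin : (nPrin K).relIndex (prin K) = (sgU K).range.index := by
  have h1 : (nPrin K).comap (toPrincipalIdeal (𝓞 K) K) = (sgU K).range.comap (sgK K) := by
    ext x
    rw [Subgroup.mem_comap, Subgroup.mem_comap]
    constructor
    · rintro ⟨y, hy, hyx⟩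
      have h2 : toPrincipalIdeal (𝓞 K) K (x * y⁻¹) = 1 := by
        rw [map_mul, map_inv, hyx, mul_inv_cancel]
      obtain ⟨u, hu⟩ := toPrincipal_val_one h2
      refine ⟨u, funext fun φ => ?_⟩
      change sg φ (Units.map (algebraMap (𝓞 K) K : 𝓞 K →* K) u) = sg φ x
      have h3 : Units.map (algebraMap (𝓞 K) K : 𝓞 K →* K) u = x * y⁻¹ := Units.ext hu
      rw [h3, map_mul, map_inv, sg_eq_one.2 (hy φ), inv_one, mul_one]
    · rintro ⟨u, hu⟩
      refine ⟨x * (Units.map (algebraMap (𝓞 K) K : 𝓞 K →* K) u)⁻¹, fun φ => ?_, ?_⟩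
      · have h3 : sg φ (Units.map (algebraMap (𝓞 K) K : 𝓞 K →* K) u) = sg φ x := congrFun hu φ
        rw [← sg_eq_one (K := K), map_mul, map_inv, h3, mul_inv_cancel]
      · have h4 : toPrincipalIdeal (𝓞 K) K (Units.map (algebraMap (𝓞 K) K : 𝓞 K →* K) u) = 1 := by
          apply Units.ext
          rw [coe_toPrincipalIdeal, Units.val_one, ← FractionalIdeal.coeIdeal_top]
          have h5 : (Ideal.span {(u : 𝓞 K)} : Ideal (𝓞 K)) = ⊤ :=
            Ideal.span_singleton_eq_top.2 u.isUnit
          rw [← h5, FractionalIdeal.coeIdeal_span_singleton]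
          rfl
        rw [map_mul, map_inv, h4, inv_one, mul_one]
  have h2 := congrArg Subgroup.index h1
  rw [Subgroup.index_comap, Subgroup.index_comap_of_surjective _ sgK_surj] at h2
  exact h2

lemma index_prin_ne : (prin K).index ≠ 0 := by
  have : Finite ((FractionalIdeal (𝓞 K)⁰ K)ˣ ⧸ (prin K)) :=
    Finite.of_equiv _ (ClassGroup.equiv (R := 𝓞 K) K).toEquiv
  exact Subgroup.index_ne_zero_of_finite

instance finite_NCl : Finite (NCl K) := by
  have h1 : (nPrin K).index ≠ 0 := by
    rw [← Subgroup.relIndex_mul_index nPrin_le, relIndex_nPrin]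
    exact mul_ne_zero Subgroup.index_ne_zero_of_finite index_prin_ne
  have h2 : (nPrin K).FiniteIndex := ⟨h1⟩
  exact Subgroup.finite_quotient_of_finiteIndex

/-- the classes of the principal ideals -/
noncomputable def Pc (K : Type) [Field K] [NumberField K] : Subgroup (NCl K) :=
  (prin K).map (QuotientGroup.mk' (nPrin K))

lemma card_Pc : Nat.card (Pc K) = (sgU K).range.index := by
  have h := Subgroup.relIndex_ker (prin K) (QuotientGroup.mk' (nPrin K))
  rw [QuotientGroup.ker_mk', relIndex_nPrin] at h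
  exact h.symm

lemma Pc_le : Pc K ≤ tw (NCl K) := by
  rintro _ ⟨_, ⟨x, rfl⟩, rfl⟩
  have h1 : (toPrincipalIdeal (𝓞 K) K x) ^ 2 ∈ nPrin K := by
    refine ⟨x ^ 2, fun φ => ?_, map_pow _ _ _⟩
    rw [Units.val_pow_eq_pow_val, map_pow]
    exact lt_of_le_of_ne (sq_nonneg _) (pow_ne_zero 2 ((map_ne_zero φ).2 x.ne_zero)).symm
  change (QuotientGroup.mk' (nPrin K) (toPrincipalIdeal (𝓞 K) K x)) ^ 2 = 1
  rw [← map_pow, QuotientGroup.mk'_apply, QuotientGroup.eq_one_iff]
  exact h1

/-- the totally positive units modulo squares -/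
noncomputable def Esq (K : Type) [Field K] [NumberField K] : Subgroup (𝓞 K)ˣ :=
  (powMonoidHom 2 : (𝓞 K)ˣ →* (𝓞 K)ˣ).range

lemma Esq_le : Esq K ≤ (sgU K).ker := by
  rintro _ ⟨w, rfl⟩
  rw [MonoidHom.mem_ker, powMonoidHom_apply, map_pow]
  funext φ
  exact Int.units_sq _

/-- the count of the units -/
lemma card_units : (Esq K).relIndex (sgU K).ker * Nat.card (sgU K).range =
    2 ^ (InfinitePlace.nrRealPlaces K + InfinitePlace.nrComplexPlaces K) := by
  have hP := Pool.Agent.TeamU.index_sq (𝓞 K)ˣ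
  rw [Units.finrank_eq, card_two, ← pow_succ] at hP
  have h1 := Subgroup.relIndex_mul_index (Esq_le (K := K))
  rw [Subgroup.index_ker] at h1
  rw [h1]
  refine hP.trans ?_
  congr 1
  unfold Units.rank
  have h2 : 0 < Fintype.card (InfinitePlace K) := Fintype.card_pos
  rw [← InfinitePlace.card_eq_nrRealPlaces_add_nrComplexPlaces]
  omega

lemma card_signs : Nat.card (sgU K).range * (sgU K).range.index =
    2 ^ InfinitePlace.nrRealPlaces K := by
  rw [Subgroup.card_mul_index, Nat.card_fun, card_real]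
  congr 1
  simp

/-- the numerical identity -/
lemma card_ident : (Pc K).relIndex (tw (NCl K)) * (Esq K).relIndex (sgU K).ker =
    2 ^ InfinitePlace.nrComplexPlaces K * Nat.card (tw (NCl K)) := by
  have h1 := card_units (K := K)
  have h2 := card_signs (K := K)
  have h3 := Subgroup.relIndex_mul_relIndex ⊥ (Pc K) (tw (NCl K)) bot_le Pc_le
  rw [Subgroup.relIndex_bot_left, Subgroup.relIndex_bot_left, card_Pc] at h3
  rw [pow_add] at h1
  have h4 : 0 < 2 ^ InfinitePlace.nrRealPlaces K := by positivity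
  refine Nat.eq_of_mul_eq_mul_left h4 ?_
  calc 2 ^ InfinitePlace.nrRealPlaces K * ((Pc K).relIndex (tw (NCl K)) *
        (Esq K).relIndex (sgU K).ker)
      = (Nat.card (sgU K).range * (sgU K).range.index) * ((Pc K).relIndex (tw (NCl K)) *
        (Esq K).relIndex (sgU K).ker) := by rw [h2]
    _ = ((sgU K).range.index * (Pc K).relIndex (tw (NCl K))) *
        ((Esq K).relIndex (sgU K).ker * Nat.card (sgU K).range) := by ring
    _ = Nat.card (tw (NCl K)) * (2 ^ InfinitePlace.nrRealPlaces K *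
        2 ^ InfinitePlace.nrComplexPlaces K) := by rw [h3, h1]
    _ = _ := by ring

/-- a square root of the ideal -/
lemma exists_root {b : Kˣ} (h : ∀ v : HeightOneSpectrum (𝓞 K), par v b = 0) :
    ∃ J : (FractionalIdeal (𝓞 K)⁰ K)ˣ, J ^ 2 = toPrincipalIdeal (𝓞 K) K b := by
  have h1 : ∀ v : HeightOneSpectrum (𝓞 K), ∃ n : ℤ, od v (toPrincipalIdeal (𝓞 K) K b) = 2 * n := by
    intro v
    have h2 := h v
    rw [par_eq_od, ZMod.intCast_zmod_eq_zero_iff_dvd] at h2
    obtain ⟨n, hn⟩ := h2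
    exact ⟨n, hn⟩
  choose n hn using h1
  obtain ⟨J, hJ⟩ := exists_od n ((od_fin (toPrincipalIdeal (𝓞 K) K b)).subset (by
    intro v hv h0
    apply hv
    rw [hn v] at h0
    omega))
  refine ⟨J, od_ext fun v => ?_⟩
  rw [od_pow, hJ, hn]
  rfl

/-- the bound for the first group -/
theorem card_H0q : Finite (H0q K) ∧
    Nat.card (H0q K) ≤ 2 ^ InfinitePlace.nrComplexPlaces K * Nat.card (tw (NCl K)) := by
  classical
  have hb : ∀ q : H0q K, ∃ b : Kˣ, b ∈ H0 K ∧ QuotientGroup.mk' (Sq K) b = q.1 := fun q => q.2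
  choose b hb1 hb2 using hb
  choose J hJ using fun q : H0q K => exists_root (hb1 q).2
  have hJtw : ∀ q, QuotientGroup.mk' (nPrin K) (J q) ∈ tw (NCl K) := by
    intro q
    change (QuotientGroup.mk' (nPrin K) (J q)) ^ 2 = 1
    rw [← map_pow, QuotientGroup.mk'_apply, QuotientGroup.eq_one_iff, hJ q]
    exact ⟨b q, (hb1 q).1, rfl⟩
  let A := tw (NCl K) ⧸ ((Pc K).subgroupOf (tw (NCl K)))
  let B := (sgU K).ker ⧸ ((Esq K).subgroupOf (sgU K).ker)
  have hBfin : Finite B := by
    have h1 : (Esq K).relIndex (sgU K).ker ≠ 0 := by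
      intro h0
      have h2 := card_units (K := K)
      rw [h0, zero_mul] at h2
      exact absurd h2.symm (by positivity)
    have h2 : ((Esq K).subgroupOf (sgU K).ker).FiniteIndex := ⟨h1⟩
    exact Subgroup.finite_quotient_of_finiteIndex
  let f : H0q K → A := fun q => QuotientGroup.mk (⟨_, hJtw q⟩ : tw (NCl K))
  -- the unit
  have hunit : ∀ q q0 : H0q K, f q = f q0 → ∃ (u : (𝓞 K)ˣ) (z : Kˣ), u ∈ (sgU K).ker ∧
      b q = b q0 * (Units.map (algebraMap (𝓞 K) K : 𝓞 K →* K) u) * z ^ 2 := by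
    intro q q0 h
    have h1 := QuotientGroup.eq.1 h.symm
    rw [Subgroup.mem_subgroupOf] at h1
    obtain ⟨I, ⟨z, hz⟩, hI⟩ := h1
    have h2 : QuotientGroup.mk' (nPrin K) I =
        QuotientGroup.mk' (nPrin K) ((J q0)⁻¹ * J q) := hI
    rw [QuotientGroup.mk'_apply, QuotientGroup.mk'_apply, QuotientGroup.eq] at h2
    obtain ⟨y, -, hy⟩ := h2
    rw [← hz] at hy
    -- `J q = J q0 * (z * y)`
    have h3 : J q = J q0 * toPrincipalIdeal (𝓞 K) K (z * y) := by
      rw [map_mul, hy]
      group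
    have h4 : toPrincipalIdeal (𝓞 K) K (b q * (b q0 * (z * y) ^ 2)⁻¹) = 1 := by
      rw [map_mul, map_inv, map_mul, map_pow, ← hJ q, ← hJ q0, h3, mul_pow, mul_inv_cancel]
    obtain ⟨u, hu⟩ := toPrincipal_val_one h4
    have hu' : Units.map (algebraMap (𝓞 K) K : 𝓞 K →* K) u = b q * (b q0 * (z * y) ^ 2)⁻¹ :=
      Units.ext hu
    refine ⟨u, z * y, ?_, ?_⟩
    · rw [MonoidHom.mem_ker]
      funext φ
      rw [Pi.one_apply, sgU_apply, hu]
      rw [Units.val_mul, map_mul, Units.val_inv_eq_inv_val, map_inv₀, Units.val_mul, map_mul,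
        Units.val_pow_eq_pow_val, map_pow]
      refine mul_pos ((hb1 q).1 φ) (inv_pos.2 (mul_pos ((hb1 q0).1 φ) ?_))
      exact lt_of_le_of_ne (sq_nonneg _) (pow_ne_zero 2 ((map_ne_zero φ).2 (z * y).ne_zero)).symm
    · rw [hu']
      rw [mul_inv, mul_comm (b q), ← mul_assoc, ← mul_assoc, mul_inv_cancel, one_mul,
        mul_comm _ (b q), inv_mul_cancel_right]
  choose u z hu hz using hunit
  have h := card_le_prod (Z := H0q K) (A := A) (B := B) 1 f
    (fun q0 q => if hm : f q = f q0 then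
      QuotientGroup.mk (⟨u q q0 hm, hu q q0 hm⟩ : (sgU K).ker) else 1) ?_
  · refine ⟨h.1, h.2.trans (le_of_eq ?_)⟩
    exact card_ident
  · intro q0 q q' hq hq' h
    rw [dif_pos hq, dif_pos hq'] at h
    have h1 := QuotientGroup.eq.1 h
    rw [Subgroup.mem_subgroupOf] at h1
    obtain ⟨w, hw⟩ := h1
    have hw' : w ^ 2 = (u q q0 hq)⁻¹ * u q' q0 hq' := hw
    apply Subtype.ext
    rw [← hb2 q, ← hb2 q', QuotientGroup.mk'_apply, QuotientGroup.mk'_apply, quot_eq]
    refine ⟨Units.map (algebraMap (𝓞 K) K : 𝓞 K →* K) w * ((z q q0 hq)⁻¹ * z q' q0 hq'), ?_⟩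
    have h2 : u q' q0 hq' = u q q0 hq * w ^ 2 := by rw [hw', mul_inv_cancel_left]
    conv_rhs => rw [hz q q0 hq]
    rw [hz q' q0 hq', h2, map_mul, map_pow]
    apply Units.ext
    have hz0 : ((z q q0 hq : Kˣ) : K) ≠ 0 := (z q q0 hq).ne_zero
    simp only [Units.val_mul, Units.val_pow_eq_pow_val, Units.val_inv_eq_inv_val]
    field_simp

end

end Pool.Agent.Y682
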