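import Mathlib
import Pool.Agent.Y682.AM
import Pool.Agent.Y682.Hc

/-!
# The bound over a general number field, final form
-/

set_option autoImplicit false
set_option linter.unusedSectionVars false

attribute [-instance] DivisionRing.toRatAlgebra

open NumberField IsDedekindDomain

namespace Pool.Agent.Y682

open WeierstrassCurve

section

variable {K : Type} [Field K] [NumberField K]

lemma nsq_of_int' {v : HeightOneSpectrum (𝓞 K)} {β : 𝓞 K}
    (h : ∀ x : 𝓞 K, x ^ 2 - β ∉ v.asIdeal) (x : K) (hx : v.valuation K x ≤ 1) :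
    v.valuation K (x ^ 2 - algebraMap (𝓞 K) K β) = 1 := by
  obtain ⟨a, ha⟩ := Pool.Agent.TeamU.B7.exists_approx v hx
  have ha' : v.valuation K (algebraMap (𝓞 K) K a - x) < 1 := by
    rw [Valuation.map_sub_swap]
    exact ha
  have ha1 : v.valuation K (algebraMap (𝓞 K) K a) ≤ 1 := v.valuation_le_one a
  have h1 : v.valuation K (algebraMap (𝓞 K) K (a ^ 2 - β)) = 1 :=
    (HeightOneSpectrum.valuation_eq_one_iff_notMem v).2 (h a)
  rw [map_sub, map_pow] at h1
  have e : x ^ 2 - algebraMap (𝓞 K) K β = (algebraMap (𝓞 K) K a ^ 2 - algebraMap (𝓞 K) K β) +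
      (algebraMap (𝓞 K) K a - x) * (-(algebraMap (𝓞 K) K a + x)) := by ring
  rw [e, Valuation.map_add_eq_of_lt_left _ ?_, h1]
  rw [h1, map_mul]
  refine mul_lt_one_of_nonneg_of_lt_one_left zero_le ha' ?_
  rw [Valuation.map_neg]
  exact (Valuation.map_add _ _ _).trans (max_le ha1 hx)

lemma val_two' {v : HeightOneSpectrum (𝓞 K)} (h : (2 : 𝓞 K) ∉ v.asIdeal) :
    v.valuation K 2 = 1 := by
  have e : (2 : K) = algebraMap (𝓞 K) K 2 := (map_ofNat _ 2).symm
  rw [e, HeightOneSpectrum.valuation_eq_one_iff_notMem]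
  exact h

/-- the bound for the 2-torsion of Sha -/
theorem bound_final (a c s u : 𝓞 K) (ha : a = s ^ 2 + 4 * u) (hc : c ≠ 0)
    (hD : a ^ 2 - 64 * c ≠ 0)
    (hreal : ∀ φ : K →+* ℝ, 0 < φ c ∧ (φ a < 0 ∨ φ a ^ 2 < 64 * φ c))
    (T1 T2 : Finset (HeightOneSpectrum (𝓞 K)))
    (hT1 : ∀ v ∉ T1, c ∉ v.asIdeal ∨ ((2 : 𝓞 K) ∉ v.asIdeal ∧ ∃ d α γ : 𝓞 K, d ≠ 0 ∧
      a = d * α ∧ c = d ^ 2 * γ ∧ ∀ x : 𝓞 K, x ^ 2 - (α ^ 2 - 64 * γ) ∉ v.asIdeal))
    (hT2 : ∀ v ∉ T2, a ^ 2 - 64 * c ∉ v.asIdeal ∨ ((2 : 𝓞 K) ∉ v.asIdeal ∧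
      ∃ d α γ : 𝓞 K, d ≠ 0 ∧ a = d * α ∧ c = d ^ 2 * γ ∧ ∀ x : 𝓞 K, x ^ 2 - γ ∉ v.asIdeal))
    (hT2' : ∀ v ∈ T2, (2 : 𝓞 K) ∉ v.asIdeal)
    {P Q : K} (hPQ : (P = a ∧ Q = 16 * c) ∨ (P = -2 * a ∧ Q = a ^ 2 - 64 * c)) :
    Finite {x : Pool.Agent.TH841.NF.D.Sha (wc P Q) // 2 • x = 0} ∧
    4 * 2 ^ (Pool.Agent.TH841.NF.D.rk (wc P Q)) *
      Nat.card {x : Pool.Agent.TH841.NF.D.Sha (wc P Q) // 2 • x = 0} ≤
      2 ^ (InfinitePlace.nrComplexPlaces K + T1.card + T2.card) *
        Nat.card {g : NCl K // g ^ 2 = 1} ^ 2 := by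
  obtain ⟨hf1, hc1⟩ := card_H0q (K := K)
  obtain ⟨hf2, hc2⟩ := card_V0q (K := K)
  set a' : K := algebraMap (𝓞 K) K a with ha'
  set c' : K := algebraMap (𝓞 K) K c with hc'
  have hle : ∀ (v : HeightOneSpectrum (𝓞 K)) (y : 𝓞 K), v.valuation K (algebraMap (𝓞 K) K y) ≤ 1 :=
    fun v y => v.valuation_le_one y
  have hc0 : c' ≠ 0 := by
    intro h0
    exact hc (FaithfulSMul.algebraMap_injective (𝓞 K) K (by rw [map_zero]; exact h0))
  have hD' : a' ^ 2 - 64 * c' = algebraMap (𝓞 K) K (a ^ 2 - 64 * c) := by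
    rw [map_sub, map_pow, map_mul, map_ofNat]
  have hD0 : a' ^ 2 - 64 * c' ≠ 0 := by
    intro h0
    rw [hD'] at h0
    exact hD (FaithfulSMul.algebraMap_injective (𝓞 K) K (by rw [map_zero]; exact h0))
  have hgd : ∀ v : HeightOneSpectrum (𝓞 K), Gd v a' (16 * c') c' := by
    intro v
    refine ⟨algebraMap (𝓞 K) K s, algebraMap (𝓞 K) K u, ?_, hle v s, hle v u, rfl, hle v c⟩
    rw [ha', ha, map_add, map_pow, map_mul, map_ofNat]
  have h16 : ∀ {v : HeightOneSpectrum (𝓞 K)} {d α γ : 𝓞 K}, (2 : 𝓞 K) ∉ v.asIdeal →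
      d ≠ 0 → a = d * α → c = d ^ 2 * γ →
      v.valuation K 2 = 1 ∧ algebraMap (𝓞 K) K d ≠ 0 ∧
      a' = algebraMap (𝓞 K) K d * algebraMap (𝓞 K) K α ∧
      16 * c' = algebraMap (𝓞 K) K d ^ 2 * (algebraMap (𝓞 K) K (16 * γ)) := by
    intro v d α γ h2 hd hda hdc
    refine ⟨val_two' h2, ?_, ?_, ?_⟩
    · intro h0
      exact hd (FaithfulSMul.algebraMap_injective (𝓞 K) K (by rw [map_zero]; exact h0))
    · rw [ha', hda, map_mul]
    · rw [hc', hdc, map_mul, map_pow, map_mul, map_ofNat]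
      ring
  have h := bound_wc (A := a') (B := 16 * c') (P := P) (Q := Q) (T1 := T1) (T2 := T2)
    (mul_ne_zero (by norm_num) hc0) (by
      intro h0
      apply hD0
      linear_combination h0) (by
      intro φ
      obtain ⟨h1, h2⟩ := hreal φ
      rw [map_mul, map_ofNat]
      refine ⟨by linarith, ?_⟩
      rcases h2 with h2 | h2
      · exact Or.inl h2
      · right; linarith) (by
      intro v hv
      rcases hT1 v hv with h1 | ⟨h1, d, α, γ, hd, hda, hdc, hx⟩
      · right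
        exact ⟨c', hgd v, (HeightOneSpectrum.valuation_eq_one_iff_notMem v).2 h1⟩
      · left
        obtain ⟨e1, e2, e3, e4⟩ := h16 h1 hd hda hdc
        refine ⟨e1, _, _, _, e2, e3, e4, hle v α, hle v _, ?_⟩
        intro x hx1
        have h3 := nsq_of_int' hx x hx1
        have e : algebraMap (𝓞 K) K α ^ 2 - 4 * algebraMap (𝓞 K) K (16 * γ) =
          algebraMap (𝓞 K) K (α ^ 2 - 64 * γ) := by
          rw [map_sub, map_pow, map_mul, map_mul, map_ofNat, map_ofNat]
          ring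
        rw [e]
        exact h3) (by
      intro v hv
      rcases hT2 v hv with h1 | ⟨h1, d, α, γ, hd, hda, hdc, hx⟩
      · right
        refine ⟨c', hgd v, ?_⟩
        have e : a' ^ 2 - 4 * (16 * c') = a' ^ 2 - 64 * c' := by ring
        rw [e, hD']
        exact (HeightOneSpectrum.valuation_eq_one_iff_notMem v).2 h1
      · left
        obtain ⟨e1, e2, e3, e4⟩ := h16 h1 hd hda hdc
        refine ⟨e1, _, _, _, e2, e3, e4, hle v α, hle v _, ?_⟩
        intro x hx1
        have h4 : v.valuation K 4 = 1 := by rw [w_four, e1, one_mul]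
        have h3 := nsq_of_int' hx (x / 4) (by rw [map_div₀, h4, div_one]; exact hx1)
        have e : x ^ 2 - algebraMap (𝓞 K) K (16 * γ) =
            16 * ((x / 4) ^ 2 - algebraMap (𝓞 K) K γ) := by
          rw [map_mul, map_ofNat]
          ring
        have h16' : v.valuation K 16 = 1 := by
          have : (16 : K) = 4 * 4 := by norm_num
          rw [this, map_mul, h4, one_mul]
        rw [e, map_mul, h16', one_mul]
        exact h3) (fun v hv => val_two' (hT2' v hv)) (by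
      rcases hPQ with ⟨h1, h2⟩ | ⟨h1, h2⟩
      · exact Or.inl ⟨h1, h2⟩
      · refine Or.inr ⟨h1, ?_⟩
        rw [h2]
        ring)
  refine ⟨h.1, h.2.trans ?_⟩
  have ht : Nat.card {g : NCl K // g ^ 2 = 1} = Nat.card (tw (NCl K)) := rfl
  rw [ht]
  calc 2 ^ (T1.card + T2.card) * (Nat.card (H0q K) * Nat.card (V0q K))
      ≤ 2 ^ (T1.card + T2.card) * ((2 ^ InfinitePlace.nrComplexPlaces K *
        Nat.card (tw (NCl K))) * Nat.card (tw (NCl K))) :=
        Nat.mul_le_mul_left _ (Nat.mul_le_mul hc1 hc2)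
    _ = _ := by
        rw [add_assoc, pow_add]
        ring

/-- a group without elements of order two has no 2-primary part -/
lemma comp_bot {G : Type*} [AddCommGroup G] [Finite {x : G // 2 • x = 0}]
    (h : Nat.card {x : G // 2 • x = 0} < 2) : AddCommGroup.primaryComponent G 2 = ⊥ := by
  have h1 : ∀ x : G, 2 • x = 0 → x = 0 := by
    intro x hx
    by_contra hne
    have h2 : Function.Injective (fun b : Bool => (if b then ⟨x, hx⟩ else ⟨0, smul_zero 2⟩ :
        {x : G // 2 • x = 0})) := by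
      intro b b' hb
      have hb' := congrArg Subtype.val hb
      cases b <;> cases b' <;> simp_all
    have h3 := Nat.card_le_card_of_injective _ h2
    rw [Nat.card_eq_fintype_card (α := Bool), Fintype.card_bool] at h3
    omega
  rw [eq_bot_iff]
  intro x hx
  rw [AddSubgroup.mem_bot]
  obtain ⟨n, hn⟩ := (AddCommGroup.mem_primaryComponent).1 hx
  have key : ∀ (m : ℕ) (y : G), 2 ^ m • y = 0 → y = 0 := by
    intro m
    induction m with
    | zero => intro y hy; simpa using hy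
    | succ m ih =>
      intro y hy
      rw [pow_succ, mul_smul] at hy
      exact h1 y (ih _ hy)
  exact key n x hn

end

end Pool.Agent.Y682
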