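import Mathlib
import Pool.Agent.Y682.KH

/-!
# Stability, refined form
-/

set_option autoImplicit false
set_option linter.unusedSectionVars false

attribute [-instance] DivisionRing.toRatAlgebra

namespace Pool.Agent.Y682

open WeierstrassCurve NumberField IsDedekindDomain

open Pool.Agent.TH841.NF

section

variable {F : Type} [Field F] [NumberField F]

/-- the property for the isogenous curve -/
lemma Tw.dual_int {v : HeightOneSpectrum (𝓞 F)} {a c : ℤ}
    (h : Tw v ((-2 * a : ℤ) : F) ((a ^ 2 - 4 * c : ℤ) : F)) : Tw v (a : F) (c : F) := by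
  have h1 := h.dual
  have e1 : -(((-2 * a : ℤ) : F) / 2) = (a : F) := by push_cast; ring
  have e2 : (((-2 * a : ℤ) : F) ^ 2 - 4 * ((a ^ 2 - 4 * c : ℤ) : F)) / 16 = (c : F) := by
    push_cast; ring
  rwa [e1, e2] at h1

lemma val_one_of_mul {v : HeightOneSpectrum (𝓞 F)} {m n : ℤ}
    (h : v.valuation F ((m * n : ℤ) : F) = 1) : v.valuation F (n : F) = 1 := by
  rw [Int.cast_mul, map_mul] at h
  apply le_antisymm (val_int_le v n)
  rw [← h]
  exact mul_le_of_le_one_left' (val_int_le v m)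

/-- the condition in terms of `(a, c)` -/
lemma Tw.of_int' {v : HeightOneSpectrum (𝓞 F)} {a c d α γ : ℤ} (hv : (2 : 𝓞 F) ∉ v.asIdeal)
    (hd : d ≠ 0) (hA : a = d * α) (hB : c = d ^ 2 * γ)
    (h1 : ∀ x : 𝓞 F, x ^ 2 - (γ : 𝓞 F) ∉ v.asIdeal)
    (h2 : ∀ x : 𝓞 F, x ^ 2 - ((α ^ 2 - 64 * γ : ℤ) : 𝓞 F) ∉ v.asIdeal) :
    Tw v (a : F) ((16 * c : ℤ) : F) := by
  have h3 : v.valuation F 4 = 1 := by rw [w_four, val_two hv, one_mul]
  have h16 : v.valuation F 16 = 1 := by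
    have : (16 : F) = 4 * 4 := by norm_num
    rw [this, map_mul, h3, one_mul]
  refine ⟨val_two hv, d, α, 16 * γ, by exact_mod_cast hd, by rw [hA]; push_cast; ring,
    by rw [hB]; push_cast; ring, val_int_le v α, ?_, ?_, ?_⟩
  · rw [map_mul, h16, one_mul]
    exact val_int_le v γ
  · intro x hx
    have := nsq_of_int h1 (x / 4) (by rw [map_div₀, h3, div_one]; exact hx)
    have e : x ^ 2 - 16 * (γ : F) = 16 * ((x / 4) ^ 2 - (γ : F)) := by ring
    rw [e, map_mul, h16, this, one_mul]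
  · intro x hx
    have := nsq_of_int h2 x hx
    push_cast at this
    rw [← this]
    congr 1
    ring

end

/-- the refined condition at the bad primes, for pairs `(a, 16 c)` -/
def BadOK' (F : Type) [Field F] [NumberField F] (a c : ℤ) (p : ℕ) : Prop :=
  (∀ v w : HeightOneSpectrum (𝓞 F), (p : 𝓞 F) ∈ v.asIdeal → (p : 𝓞 F) ∈ w.asIdeal → v = w) ∨
  (p ≠ 2 ∧ ∃ d α γ : ℤ, d ≠ 0 ∧ a = d * α ∧ c = d ^ 2 * γ ∧
    ∀ v : HeightOneSpectrum (𝓞 F), (p : 𝓞 F) ∈ v.asIdeal → ∀ x : 𝓞 F,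
      x ^ 2 - (γ : 𝓞 F) ∉ v.asIdeal ∧ x ^ 2 - ((α ^ 2 - 64 * γ : ℤ) : 𝓞 F) ∉ v.asIdeal)

/-- stability for the curves with a rational point of order two -/
theorem stabH {F : Type} [Field F] [NumberField F] [IsTotallyReal F] [Algebra ℚ F]
    [FiniteDimensional ℚ F] {A B : ℤ} (hB : B ≠ 0) (hD : A ^ 2 ≠ 4 * B)
    (hred : ¬ (4 ∣ A ∧ 16 ∣ B))
    (htype : (0 < B ∧ (A < 0 ∨ A ^ 2 < 4 * B)) ↔ (¬ 2 ∣ A ∨ ¬ 4 ∣ (A / 2) ^ 2 - B))
    (h3 : 3 ∣ Module.finrank ℚ F →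
      ¬ (A % 4 = 3 ∧ 2 ≤ B % 4) ∧ ¬ (A % 8 = 2 ∧ 8 ≤ ((A / 2) ^ 2 - B) % 16))
    (hp2 : (Ideal.span {(2 : 𝓞 F)}).IsPrime)
    (hcl : Odd (Nat.card (NCl F))) (hodd : Odd (Module.finrank ℚ F))
    (hbad : ∀ p : ℕ, p.Prime → (p : ℤ) ∣ B * (A ^ 2 - 4 * B) → BadOK F A B p) :
    Pool.Agent.TH841.NF.D.rk (gc A B F) = Pool.Agent.TH841.SH.D.rk (gc A B ℚ) ∧
    Nonempty (AddCommGroup.primaryComponent (Pool.Agent.TH841.NF.D.Sha (gc A B F)) 2 ≃+
      AddCommGroup.primaryComponent (Pool.Agent.TH841.SH.D.Sha (gc A B ℚ)) 2) := by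
  obtain ⟨e⟩ := exists_e F
  have hD0 : A ^ 2 - 4 * B ≠ 0 := sub_ne_zero.2 hD
  have hv := place_cases hB hD0 hbad
  by_cases h2 : ¬ 2 ∣ A ∨ ¬ 4 ∣ (A / 2) ^ 2 - B
  · obtain ⟨hB0, hA⟩ := htype.2 h2
    have hpair := pair_inert hB0 hA (F := F) (by
      rcases Int.emod_two_eq_zero_or_one A with h | h
      · right
        refine ⟨h, ?_⟩
        rcases h2 with h2 | h2
        · exact absurd (Int.dvd_of_emod_eq_zero h) h2
        · intro h4
          exact h2 (Int.dvd_of_emod_eq_zero h4)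
      · exact Or.inl h) (by
        intro h4 h5 h6
        exact (h3 h6).1 ⟨h4, by omega⟩) hp2 hcl hodd hv
    have hkey : KeyP (gc_sc (F := F) A B) e :=
      keyM hB hD0 hodd (fun b hr => (hpair b hr).1) (fun b hr => (hpair b hr).2) e
    exact stab' (gc_isT hB hD0 F) hodd hkey
  · have h1 : ¬ (0 < B ∧ (A < 0 ∨ A ^ 2 < 4 * B)) := fun h => h2 (htype.1 h)
    push Not at h2
    obtain ⟨⟨s, hs⟩, h4⟩ := h2
    have hs2 : A / 2 = s := by omega
    rw [hs2] at h4 h3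
    obtain ⟨c, hc⟩ := h4
    have hB' : B = (-s) ^ 2 - 4 * c := by linear_combination -hc
    have hA' : A = -2 * (-s) := by rw [hs]; ring
    have hc0 : c ≠ 0 := by
      rintro rfl
      apply hD
      rw [hs, hB']
      ring
    have hDc : (-s) ^ 2 - 4 * c ≠ 0 := by rw [← hB']; exact hB
    -- the real places
    have hDpos : 0 < c ∧ (-s < 0 ∨ (-s) ^ 2 < 4 * c) := by
      by_cases hBp : 0 < B
      · have h5 : ¬ (A < 0 ∨ A ^ 2 < 4 * B) := fun h => h1 ⟨hBp, h⟩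
        push Not at h5
        obtain ⟨h6, h7⟩ := h5
        have h8 : 4 * B < A ^ 2 := lt_of_le_of_ne h7 (Ne.symm hD)
        have h9 : A ≠ 0 := by
          rintro rfl
          nlinarith
        refine ⟨?_, Or.inl ?_⟩
        · rw [hs, hB'] at h8
          nlinarith
        · omega
      · have h5 : B < 0 := lt_of_le_of_ne (not_lt.1 hBp) hB
        refine ⟨?_, Or.inr ?_⟩
        · nlinarith [sq_nonneg s]
        · linarith
    have hv' : ∀ v : HeightOneSpectrum (𝓞 F), (Un v ∨ Tw v ((-s : ℤ) : F) (c : F)) ∨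
        (v.valuation F (c : F) = 1 ∧ v.valuation F (((-s) ^ 2 - 4 * c : ℤ) : F) = 1) := by
      intro v
      have h5 := hv v
      rw [hA', hB'] at h5
      rcases h5 with (h5 | h5) | ⟨h5, h6⟩
      · exact Or.inl (Or.inl h5)
      · exact Or.inl (Or.inr h5.dual_int)
      · refine Or.inr ⟨?_, h5⟩
        have e1 : (-2 * (-s)) ^ 2 - 4 * ((-s) ^ 2 - 4 * c) = 16 * c := by ring
        rw [e1] at h6
        exact val_one_of_mul h6
    have hpair := pair_inert (A := -s) (B := c) hDpos.1 hDpos.2 (F := F) (by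
      rcases Int.emod_two_eq_zero_or_one s with h | h
      · right
        refine ⟨by omega, ?_⟩
        intro h5
        apply hred
        obtain ⟨t, ht⟩ := Int.dvd_of_emod_eq_zero h
        have h6 : (-s) / 2 = -t := by omega
        rw [h6] at h5
        obtain ⟨q, hq⟩ := Int.dvd_of_emod_eq_zero h5
        constructor
        · exact ⟨t, by rw [hs, ht]; ring⟩
        · refine ⟨q, ?_⟩
          rw [hB', ht]
          linear_combination 4 * hq
      · left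
        omega) (by
        intro h5 h6 h7
        refine (h3 h7).2 ⟨by omega, ?_⟩
        rw [hc]
        omega) hp2 hcl hodd hv'
    have hD' : (-2 * (-s)) ^ 2 - 4 * ((-s) ^ 2 - 4 * c) ≠ 0 := by
      have : (-2 * (-s)) ^ 2 - 4 * ((-s) ^ 2 - 4 * c) = 16 * c := by ring
      rw [this]
      exact mul_ne_zero (by norm_num) hc0
    have hkey : KeyP (gc_sc (F := F) (-2 * (-s)) ((-s) ^ 2 - 4 * c)) e :=
      keyM hDc hD' hodd (fun b hr hL => (hpair b hr).2 (L1_dual hL))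
        (fun b hr hL => (hpair b hr).1 (L2_dual hL)) e
    have := stab' (gc_isT (A := -2 * (-s)) (B := (-s) ^ 2 - 4 * c) hDc hD' F) hodd hkey
    rw [← hA', ← hB'] at this
    exact this

/-- stability for the curves `y² = x³ + a x² + 16 c x` and the isogenous ones -/
theorem stabO {F : Type} [Field F] [NumberField F] [IsTotallyReal F] [Algebra ℚ F]
    [FiniteDimensional ℚ F] {a c A B : ℤ} (ha : a % 4 = 1) (hc : 0 < c)
    (hac : a < 0 ∨ a ^ 2 < 64 * c) (hD : a ^ 2 ≠ 64 * c)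
    (hAB : (A = a ∧ B = 16 * c) ∨ (A = -2 * a ∧ B = a ^ 2 - 64 * c))
    (hcl : Odd (Nat.card (NCl F))) (hodd : Odd (Module.finrank ℚ F))
    (hbad : ∀ p : ℕ, p.Prime → (p : ℤ) ∣ c * (a ^ 2 - 64 * c) → BadOK' F a c p) :
    Pool.Agent.TH841.NF.D.rk (gc A B F) = Pool.Agent.TH841.SH.D.rk (gc A B ℚ) ∧
    Nonempty (AddCommGroup.primaryComponent (Pool.Agent.TH841.NF.D.Sha (gc A B F)) 2 ≃+
      AddCommGroup.primaryComponent (Pool.Agent.TH841.SH.D.Sha (gc A B ℚ)) 2) := by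
  obtain ⟨e⟩ := exists_e F
  obtain ⟨k, hk⟩ : ∃ k : ℤ, a = 1 + 4 * k := ⟨a / 4, by omega⟩
  have hD0 : a ^ 2 - 64 * c ≠ 0 := sub_ne_zero.2 hD
  have hD1 : (1 + 4 * k) ^ 2 - 4 * (16 * c) ≠ 0 := by
    rw [← hk]
    intro h
    apply hD0
    linear_combination h
  have hat : ∀ p : ℕ, p.Prime → BadOK' F a c p → ∀ v : HeightOneSpectrum (𝓞 F),
      (p : 𝓞 F) ∈ v.asIdeal → Un v ∨ Tw v ((1 + 4 * k : ℤ) : F) ((16 * c : ℤ) : F) := by
    intro p hp h v hv
    rcases h with h | ⟨h2, d, α, γ, hd, hA, hB, h⟩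
    · exact Or.inl ⟨p, hp, hv, fun w hw => (h v w hv hw).symm⟩
    · rw [hk] at hA
      exact Or.inr (Tw.of_int' (two_notMem hp h2 hv) hd hA hB (fun x => (h v hv x).1)
        fun x => (h v hv x).2)
  have hv : ∀ v : HeightOneSpectrum (𝓞 F),
      (Un v ∨ Tw v ((1 + 4 * k : ℤ) : F) ((16 * c : ℤ) : F)) ∨
      (v.valuation F (c : F) = 1 ∧
        v.valuation F (((1 + 4 * k) ^ 2 - 4 * (16 * c) : ℤ) : F) = 1) := by
    intro v
    by_cases h1 : v.valuation F (c : F) = 1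
    · by_cases h2 : v.valuation F (((1 + 4 * k) ^ 2 - 4 * (16 * c) : ℤ) : F) = 1
      · exact Or.inr ⟨h1, h2⟩
      · obtain ⟨p, hp, hpc, hpv⟩ := exists_prime v _ hD1 h2
        refine Or.inl (hat p hp (hbad p hp ?_) v hpv)
        refine hpc.trans ⟨c, ?_⟩
        rw [hk]; ring
    · obtain ⟨p, hp, hpc, hpv⟩ := exists_prime v _ hc.ne' h1
      exact Or.inl (hat p hp (hbad p hp (hpc.mul_right _)) v hpv)
  have hpair := pair_ord hc (by
    rcases hac with h | h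
    · left; rw [← hk]; exact h
    · right; rw [← hk]; linarith) hcl hodd hv
  have h16 : (16 * c : ℤ) ≠ 0 := mul_ne_zero (by norm_num) hc.ne'
  rcases hAB with ⟨hA, hB⟩ | ⟨hA, hB⟩
  · have hkey : KeyP (gc_sc (F := F) (1 + 4 * k) (16 * c)) e :=
      keyM h16 hD1 hodd (fun b hr => (hpair b hr).1) (fun b hr => (hpair b hr).2) e
    have := stab' (gc_isT h16 hD1 F) hodd hkey
    rw [← hk, ← hA, ← hB] at this
    exact this
  · have hD' : (-2 * (1 + 4 * k)) ^ 2 - 4 * ((1 + 4 * k) ^ 2 - 4 * (16 * c)) ≠ 0 := by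
      have : (-2 * (1 + 4 * k)) ^ 2 - 4 * ((1 + 4 * k) ^ 2 - 4 * (16 * c)) = 16 * (16 * c) := by
        ring
      rw [this]
      exact mul_ne_zero (by norm_num) h16
    have hkey : KeyP (gc_sc (F := F) (-2 * (1 + 4 * k)) ((1 + 4 * k) ^ 2 - 4 * (16 * c))) e :=
      keyM hD1 hD' hodd (fun b hr hL => (hpair b hr).2 (L1_dual hL))
        (fun b hr hL => (hpair b hr).1 (L2_dual hL)) e
    have h5 := stab' (gc_isT hD1 hD' F) hodd hkey
    have e1 : -2 * (1 + 4 * k) = A := by rw [hA, hk]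
    have e2 : (1 + 4 * k) ^ 2 - 4 * (16 * c) = B := by rw [hB, hk]; ring
    rw [e1, e2] at h5
    exact h5

end Pool.Agent.Y682
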